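import Pool.Agent.MP_7791e4_an.Supp

set_option autoImplicit false

namespace Pool.Agent.MP_7791e4_an

open Set MeasureTheory Real Metric Filter Topology Pointwise

lemma vol_aff (m11 m12 m21 m22 : ℝ) (c : ℂ) (S : Set ℂ) :
    volume ((fun z : ℂ => (⟨m11 * z.re + m12 * z.im, m21 * z.re + m22 * z.im⟩ : ℂ) + c) '' S)
      = ENNReal.ofReal |m11 * m22 - m12 * m21| * volume S := by
  let f : ℂ →ₗ[ℝ] ℂ := Matrix.toLin Complex.basisOneI Complex.basisOneI !![m11, m12; m21, m22]
  have hf : ∀ z : ℂ, f z = ⟨m11 * z.re + m12 * z.im, m21 * z.re + m22 * z.im⟩ := by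
    intro z
    simp only [f, Matrix.toLin_apply, Fin.sum_univ_two]
    apply Complex.ext <;> simp [Matrix.mulVec, dotProduct, Fin.sum_univ_two]
  have hdet : LinearMap.det f = m11 * m22 - m12 * m21 := by
    simp only [f, LinearMap.det_toLin, Matrix.det_fin_two_of]
  have : (fun z : ℂ => (⟨m11 * z.re + m12 * z.im, m21 * z.re + m22 * z.im⟩ : ℂ) + c) '' S
      = (fun z => z + c) '' (f '' S) := by
    rw [image_image]; simp only [hf]
  rw [this, image_add_right, measure_preimage_add_right, Measure.addHaar_image_linearMap, hdet]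

lemma vol_mul (k c : ℂ) (S : Set ℂ) :
    volume ((fun z : ℂ => k * z + c) '' S) = ENNReal.ofReal (‖k‖ ^ 2) * volume S := by
  have := vol_aff k.re (-k.im) k.im k.re c S
  have h2 : |k.re * k.re - -k.im * k.im| = ‖k‖ ^ 2 := by
    rw [sq_norm', abs_of_nonneg (by nlinarith [sq_nonneg k.re, sq_nonneg k.im])]; ring
  rw [h2] at this
  rw [← this]
  congr 2
  funext z
  apply Complex.ext <;> simp <;> ring

lemma ar_mul (k c : ℂ) (S : Set ℂ) :
    volume.real ((fun z : ℂ => k * z + c) '' S) = ‖k‖ ^ 2 * volume.real S := by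
  simp only [Measure.real, vol_mul, ENNReal.toReal_mul]
  rw [ENNReal.toReal_ofReal (by positivity)]

lemma ar_smul (t : ℝ) (S : Set ℂ) : volume.real (t • S) = t ^ 2 * volume.real S := by
  have := ar_mul (t : ℂ) 0 S
  rw [Complex.norm_real, Real.norm_eq_abs, sq_abs] at this
  rw [← this]
  congr 1
  ext z
  simp [Set.mem_smul_set]

lemma ar_closedBall (c : ℂ) {r : ℝ} (hr : 0 ≤ r) : volume.real (closedBall c r) = π * r ^ 2 := by
  simp only [Measure.real, Complex.volume_closedBall, ENNReal.toReal_mul, ENNReal.toReal_pow]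
  rw [ENNReal.toReal_ofReal hr]
  simp [mul_comm]

lemma vol_slices {S : Set ℂ} (hS : MeasurableSet S) :
    volume S = ∫⁻ x : ℝ, volume {y : ℝ | (⟨x, y⟩ : ℂ) ∈ S} := by
  have h := (Complex.volume_preserving_equiv_real_prod.symm).measure_preimage
    hS.nullMeasurableSet
  rw [← h, Measure.volume_eq_prod, Measure.prod_apply
    (hS.preimage Complex.measurableEquivRealProd.symm.measurable)]
  rfl

lemma measurable_slices {S : Set ℂ} (hS : MeasurableSet S) :
    Measurable fun x : ℝ => volume {y : ℝ | (⟨x, y⟩ : ℂ) ∈ S} :=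
  measurable_measure_prodMk_left (ν := volume)
    (hS.preimage Complex.measurableEquivRealProd.symm.measurable)

lemma measurableSet_rect (a b c d : ℝ) :
    MeasurableSet {z : ℂ | z.re ∈ Icc a b ∧ z.im ∈ Icc c d} :=
  (measurableSet_Icc.preimage Complex.measurable_re).inter
    (measurableSet_Icc.preimage Complex.measurable_im)

lemma vol_rect (a b c d : ℝ) :
    volume {z : ℂ | z.re ∈ Icc a b ∧ z.im ∈ Icc c d}
      = ENNReal.ofReal (b - a) * ENNReal.ofReal (d - c) := by
  rw [vol_slices (measurableSet_rect a b c d)]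
  have : (fun x : ℝ => volume {y : ℝ | (⟨x, y⟩ : ℂ) ∈ {z : ℂ | z.re ∈ Icc a b ∧ z.im ∈ Icc c d}})
      = (Icc a b).indicator fun _ => ENNReal.ofReal (d - c) := by
    funext x
    by_cases hx : x ∈ Icc a b
    · rw [indicator_of_mem hx, ← Real.volume_Icc]
      congr 1; ext y; simp [hx.1, hx.2]
    · rw [indicator_of_notMem hx]
      have : {y : ℝ | (⟨x, y⟩ : ℂ) ∈ {z : ℂ | z.re ∈ Icc a b ∧ z.im ∈ Icc c d}} = ∅ := by
        ext y; simp only [mem_ofPred_eq, mem_empty_iff_false, iff_false]; exact fun h => hx h.1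
      rw [this, measure_empty]
  rw [this, lintegral_indicator measurableSet_Icc]
  simp [mul_comm]

lemma ar_rect {a b c d : ℝ} (h1 : a ≤ b) (h2 : c ≤ d) :
    volume.real {z : ℂ | z.re ∈ Icc a b ∧ z.im ∈ Icc c d} = (b - a) * (d - c) := by
  simp only [Measure.real, vol_rect, ENNReal.toReal_mul]
  rw [ENNReal.toReal_ofReal (by linarith), ENNReal.toReal_ofReal (by linarith)]

lemma dot_one (z : ℂ) : dot 1 z = z.re := by simp [dot]
lemma dot_neg_one (z : ℂ) : dot (-1) z = -z.re := by simp [dot]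

lemma mk_comb (s t x y y' : ℝ) (h : s + t = 1) :
    s • (⟨x, y⟩ : ℂ) + t • (⟨x, y'⟩ : ℂ) = ⟨x, s * y + t * y'⟩ := by
  apply Complex.ext
  · simp; rw [← add_mul, h, one_mul]
  · simp

lemma isCompact_slice {X : Set ℂ} (hX : IsCompact X) (x : ℝ) :
    IsCompact {y : ℝ | (⟨x, y⟩ : ℂ) ∈ X} := by
  have hc : Continuous fun y : ℝ => (⟨x, y⟩ : ℂ) := by
    have : (fun y : ℝ => (⟨x, y⟩ : ℂ)) = fun y : ℝ => (x : ℂ) + (y : ℂ) * Complex.I := by
      funext y; apply Complex.ext <;> simp
    rw [this]; fun_prop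
  refine (hX.image Complex.continuous_im).of_isClosed_subset (hX.isClosed.preimage hc) ?_
  intro y hy
  exact ⟨_, hy, rfl⟩

lemma slice_nonempty {X : Set ℂ} (hX : IsCompact X) (hc : Convex ℝ X) (hne : X.Nonempty) {x : ℝ}
    (h1 : x ≤ hs X 1) (h2 : -x ≤ hs X (-1)) : {y : ℝ | (⟨x, y⟩ : ℂ) ∈ X}.Nonempty := by
  obtain ⟨z, hz, e1⟩ := exists_hs hX hne 1
  obtain ⟨w, hw, e2⟩ := exists_hs hX hne (-1)
  rw [dot_one] at e1
  rw [dot_neg_one] at e2
  have hcv : Convex ℝ (Complex.re '' X) := hc.linear_image Complex.reLm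
  obtain ⟨v, hv, e⟩ := hcv.ordConnected.out (mem_image_of_mem _ hw) (mem_image_of_mem _ hz)
    (show x ∈ Icc w.re z.re from ⟨by linarith, by linarith⟩)
  exact ⟨v.im, by show (⟨x, v.im⟩ : ℂ) ∈ X; rw [← e]; exact hv⟩

/-- Bonnesen's linear form of Brunn-Minkowski for equal projections. -/
lemma bm_lin {X Y : Set ℂ} (hX : IsCompact X) (cX : Convex ℝ X) (nX : X.Nonempty)
    (hY : IsCompact Y) (cY : Convex ℝ Y) (nY : Y.Nonempty)
    (h1 : hs X 1 = hs Y 1) (h2 : hs X (-1) = hs Y (-1)) {s t : ℝ} (hs0 : 0 ≤ s) (ht0 : 0 ≤ t)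
    (hst : s + t = 1) :
    s * volume.real X + t * volume.real Y ≤ volume.real (s • X + t • Y) := by
  have hZ : IsCompact (s • X + t • Y) := (hX.smul s).add (hY.smul t)
  have cZ : Convex ℝ (s • X + t • Y) := (cX.smul s).add (cY.smul t)
  have key : ENNReal.ofReal s * volume X + ENNReal.ofReal t * volume Y
      ≤ volume (s • X + t • Y) := by
    rw [vol_slices hX.measurableSet, vol_slices hY.measurableSet, vol_slices hZ.measurableSet,
      ← lintegral_const_mul _ (measurable_slices hX.measurableSet),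
      ← lintegral_const_mul _ (measurable_slices hY.measurableSet),
      ← lintegral_add_left ((measurable_slices hX.measurableSet).const_mul _)]
    apply lintegral_mono
    intro x
    simp only
    by_cases hx : x ≤ hs X 1 ∧ -x ≤ hs X (-1)
    · have n1 := slice_nonempty hX cX nX hx.1 hx.2
      have n2 := slice_nonempty hY cY nY (h1 ▸ hx.1) (h2 ▸ hx.2)
      have k1 := isCompact_slice hX x
      have k2 := isCompact_slice hY x
      set A := {y : ℝ | (⟨x, y⟩ : ℂ) ∈ X}
      set B := {y : ℝ | (⟨x, y⟩ : ℂ) ∈ Y}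
      have a1 : sSup A ∈ A := k1.sSup_mem n1
      have a2 : sInf A ∈ A := k1.sInf_mem n1
      have b1 : sSup B ∈ B := k2.sSup_mem n2
      have b2 : sInf B ∈ B := k2.sInf_mem n2
      have la : sInf A ≤ sSup A := le_csSup k1.bddAbove a2
      have lb : sInf B ≤ sSup B := le_csSup k2.bddAbove b2
      have vA : volume A ≤ ENNReal.ofReal (sSup A - sInf A) := by
        rw [← Real.volume_Icc]
        exact measure_mono fun y hy => ⟨csInf_le k1.bddBelow hy, le_csSup k1.bddAbove hy⟩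
      have vB : volume B ≤ ENNReal.ofReal (sSup B - sInf B) := by
        rw [← Real.volume_Icc]
        exact measure_mono fun y hy => ⟨csInf_le k2.bddBelow hy, le_csSup k2.bddAbove hy⟩
      have mem : ∀ y ∈ A, ∀ y' ∈ B, (⟨x, s * y + t * y'⟩ : ℂ) ∈ s • X + t • Y := by
        intro y hy y' hy'
        rw [← mk_comb s t x y y' hst]
        exact Set.add_mem_add (Set.smul_mem_smul_set hy) (Set.smul_mem_smul_set hy')
      have cS : Convex ℝ {y : ℝ | (⟨x, y⟩ : ℂ) ∈ s • X + t • Y} := by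
        intro y hy y' hy' a b ha hb hab
        show (⟨x, a • y + b • y'⟩ : ℂ) ∈ s • X + t • Y
        rw [smul_eq_mul, smul_eq_mul, ← mk_comb a b x y y' hab]
        exact cZ hy hy' ha hb hab
      have vZ : ENNReal.ofReal ((s * sSup A + t * sSup B) - (s * sInf A + t * sInf B))
          ≤ volume {y : ℝ | (⟨x, y⟩ : ℂ) ∈ s • X + t • Y} := by
        rw [← Real.volume_Icc]
        exact measure_mono (cS.ordConnected.out (mem _ a2 _ b2) (mem _ a1 _ b1))
      refine le_trans ?_ vZ
      have e : (s * sSup A + t * sSup B) - (s * sInf A + t * sInf B)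
          = s * (sSup A - sInf A) + t * (sSup B - sInf B) := by ring
      rw [e, ENNReal.ofReal_add (mul_nonneg hs0 (by linarith)) (mul_nonneg ht0 (by linarith)),
        ENNReal.ofReal_mul hs0, ENNReal.ofReal_mul ht0]
      gcongr
    · have e1 : {y : ℝ | (⟨x, y⟩ : ℂ) ∈ X} = ∅ := by
        ext y; simp only [mem_ofPred_eq, mem_empty_iff_false, iff_false]
        intro hy
        have a := le_hs hX hy 1
        have b := le_hs hX hy (-1)
        rw [dot_one] at a; rw [dot_neg_one] at b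
        exact hx ⟨a, b⟩
      have e2 : {y : ℝ | (⟨x, y⟩ : ℂ) ∈ Y} = ∅ := by
        ext y; simp only [mem_ofPred_eq, mem_empty_iff_false, iff_false]
        intro hy
        have a := le_hs hY hy 1
        have b := le_hs hY hy (-1)
        rw [dot_one] at a; rw [dot_neg_one] at b
        exact hx ⟨h1 ▸ a, h2 ▸ b⟩
      simp [e1, e2]
  have := ENNReal.toReal_mono hZ.measure_lt_top.ne key
  rw [ENNReal.toReal_add (ENNReal.mul_ne_top ENNReal.ofReal_ne_top hX.measure_lt_top.ne)
    (ENNReal.mul_ne_top ENNReal.ofReal_ne_top hY.measure_lt_top.ne), ENNReal.toReal_mul,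
    ENNReal.toReal_mul, ENNReal.toReal_ofReal hs0, ENNReal.toReal_ofReal ht0] at this
  exact this

/-- half width in the direction `ev θ`. -/
noncomputable def hw (X : Set ℂ) (θ : ℝ) : ℝ := (hs X (ev θ) + hs X (-ev θ)) / 2

lemma dot_rot (θ : ℝ) (u z : ℂ) : dot u (ev θ * z) = dot (ev (-θ) * u) z := by
  simp [dot]; ring

lemma hs_image {X : Set ℂ} (hX : IsCompact X) (nX : X.Nonempty) {f : ℂ → ℂ} (hf : Continuous f)
    {u v : ℂ} {c d : ℝ} (hc : 0 ≤ c) (h : ∀ z, dot u (f z) = c * dot v z + d) :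
    hs (f '' X) u = c * hs X v + d := by
  apply le_antisymm
  · apply hs_le (nX.image f)
    rintro _ ⟨z, hz, rfl⟩
    rw [h]
    have := mul_le_mul_of_nonneg_left (le_hs hX hz v) hc
    linarith
  · obtain ⟨z, hz, e⟩ := exists_hs hX nX v
    rw [← e, ← h]
    exact le_hs (hX.image hf) (mem_image_of_mem f hz) u

lemma convex_image_mul {X : Set ℂ} (cX : Convex ℝ X) (k c : ℂ) :
    Convex ℝ ((fun z => k * z + c) '' X) := by
  rintro _ ⟨x, hx, rfl⟩ _ ⟨y, hy, rfl⟩ a b ha hb hab
  refine ⟨a • x + b • y, cX hx hy ha hb hab, ?_⟩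
  obtain rfl : b = 1 - a := by linarith
  simp only [Complex.real_smul]; push_cast; ring

lemma bm_width {X Y : Set ℂ} (hX : IsCompact X) (cX : Convex ℝ X) (nX : X.Nonempty)
    (hY : IsCompact Y) (cY : Convex ℝ Y) (nY : Y.Nonempty) (θ : ℝ)
    (pX : 0 < hw X θ) (pY : 0 < hw Y θ) :
    (hw X θ + hw Y θ) * (volume.real X / hw X θ + volume.real Y / hw Y θ)
      ≤ volume.real (X + Y) := by
  set l := hw X θ with hl
  set m := hw Y θ with hm
  let φ : ℝ → ℝ → ℂ → ℂ := fun r c z => (((1 / r : ℝ) : ℂ) * ev (-θ)) * z + ((-c / r : ℝ) : ℂ)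
  have hφ : ∀ r c, Continuous (φ r c) := fun r c => by fun_prop
  have d1 : ∀ r c z, dot 1 (φ r c z) = (1 / r) * dot (ev θ) z + (-c / r) := by
    intro r c z
    simp only [φ, dot, Complex.add_re, Complex.mul_re, Complex.mul_im, Complex.ofReal_re,
      Complex.ofReal_im, ev_re, ev_im, cos_neg, sin_neg, Complex.one_re, Complex.one_im,
      Complex.add_im]
    ring
  have d2 : ∀ r c z, dot (-1) (φ r c z) = (1 / r) * dot (-ev θ) z + (c / r) := by
    intro r c z
    rw [neg_dot, d1, neg_dot]; ring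
  have aφ : ∀ r c S, volume.real (φ r c '' S) = (1 / r) ^ 2 * volume.real S := by
    intro r c S
    rw [ar_mul, norm_mul, norm_ev, Complex.norm_real, Real.norm_eq_abs, mul_one, sq_abs]
  set cx := (hs X (ev θ) - hs X (-ev θ)) / 2 with hcx
  set cy := (hs Y (ev θ) - hs Y (-ev θ)) / 2 with hcy
  have x1 : hs (φ l cx '' X) 1 = 1 := by
    rw [hs_image hX nX (hφ _ _) (by positivity) (d1 l cx)]
    field_simp; rw [hl, hcx, hw]; ring
  have x2 : hs (φ l cx '' X) (-1) = 1 := by
    rw [hs_image hX nX (hφ _ _) (by positivity) (d2 l cx)]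
    field_simp; rw [hl, hcx, hw]; ring
  have y1 : hs (φ m cy '' Y) 1 = 1 := by
    rw [hs_image hY nY (hφ _ _) (by positivity) (d1 m cy)]
    field_simp; rw [hm, hcy, hw]; ring
  have y2 : hs (φ m cy '' Y) (-1) = 1 := by
    rw [hs_image hY nY (hφ _ _) (by positivity) (d2 m cy)]
    field_simp; rw [hm, hcy, hw]; ring
  have hlm : 0 < l + m := by linarith
  have h := bm_lin (hX.image (hφ l cx)) (convex_image_mul cX _ _) (nX.image _)
    (hY.image (hφ m cy)) (convex_image_mul cY _ _) (nY.image _) (x1.trans y1.symm)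
    (x2.trans y2.symm) (s := l / (l + m)) (t := m / (l + m)) (by positivity) (by positivity)
    (by field_simp)
  have hsub : (l / (l + m)) • (φ l cx '' X) + (m / (l + m)) • (φ m cy '' Y)
      ⊆ φ (l + m) (cx + cy) '' (X + Y) := by
    rintro _ ⟨_, ⟨_, ⟨x, hx, rfl⟩, rfl⟩, _, ⟨_, ⟨y, hy, rfl⟩, rfl⟩, rfl⟩
    refine ⟨x + y, Set.add_mem_add hx hy, ?_⟩
    simp only [φ, Complex.real_smul]
    have e1 : (l : ℂ) ≠ 0 := by exact_mod_cast pX.ne'
    have e2 : (m : ℂ) ≠ 0 := by exact_mod_cast pY.ne'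
    have e3 : (l : ℂ) + m ≠ 0 := by exact_mod_cast hlm.ne'
    push_cast
    field_simp
    ring
  have h3 := h.trans (measureReal_mono hsub ((hX.add hY).image (hφ _ _)).measure_lt_top.ne)
  rw [aφ, aφ, aφ] at h3
  have h4 := mul_le_mul_of_nonneg_left h3 (show 0 ≤ (l + m) ^ 2 by positivity)
  calc _ = (l + m) ^ 2 * (l / (l + m) * ((1 / l) ^ 2 * volume.real X)
      + m / (l + m) * ((1 / m) ^ 2 * volume.real Y)) := by field_simp
    _ ≤ _ := h4
    _ = _ := by field_simp

lemma hw_pos {X : Set ℂ} (hX : IsCompact X) (hp : 0 < volume.real X) (θ : ℝ) :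
    0 < hw X θ := by
  by_contra hcon
  push Not at hcon
  obtain ⟨R, hR⟩ := hX.isBounded.exists_norm_le
  have hsub : (fun z => ev (-θ) * z + 0) '' X ⊆
      {z : ℂ | z.re ∈ Icc (hs X (ev θ)) (hs X (ev θ)) ∧ z.im ∈ Icc (-R) R} := by
    rintro _ ⟨z, hz, rfl⟩
    have h1 := le_hs hX hz (ev θ)
    have h2 := le_hs hX hz (-ev θ)
    rw [neg_dot] at h2
    have h3 : (ev (-θ) * z + 0).re = dot (ev θ) z := by simp [dot]
    have h4 : |(ev (-θ) * z + 0).im| ≤ R := by
      refine (Complex.abs_im_le_norm _).trans ?_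
      rw [add_zero, norm_mul, norm_ev, one_mul]; exact hR z hz
    unfold hw at hcon
    refine ⟨?_, abs_le.1 h4⟩
    rw [h3]; constructor <;> linarith
  have h5 := measure_mono (μ := volume) hsub
  rw [vol_rect, vol_mul, norm_ev] at h5
  simp only [one_pow, ENNReal.ofReal_one, one_mul, sub_self, ENNReal.ofReal_zero, zero_mul,
    nonpos_iff_eq_zero] at h5
  simp [Measure.real, h5] at hp

/-- Brunn-Minkowski for planar compact convex sets. -/
lemma bm {X Y : Set ℂ} (hX : IsCompact X) (cX : Convex ℝ X) (nX : X.Nonempty)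
    (hY : IsCompact Y) (cY : Convex ℝ Y) (nY : Y.Nonempty) :
    √(volume.real X) + √(volume.real Y) ≤ √(volume.real (X + Y)) := by
  have tr : ∀ {A B : Set ℂ}, IsCompact A → IsCompact B → B.Nonempty →
      volume.real A ≤ volume.real (A + B) := by
    intro A B hA hB ⟨b, hb⟩
    have := ar_mul 1 b A
    simp only [norm_one, one_pow, one_mul] at this
    rw [← this]
    refine measureReal_mono ?_ (hA.add hB).measure_lt_top.ne
    rintro _ ⟨a, ha, rfl⟩
    exact Set.add_mem_add ha hb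
  rcases (measureReal_nonneg (μ := volume) (s := X)).eq_or_lt with h0 | h0
  · rw [← h0, Real.sqrt_zero, zero_add, add_comm X Y]
    exact Real.sqrt_le_sqrt (tr hY hX nX)
  rcases (measureReal_nonneg (μ := volume) (s := Y)).eq_or_lt with h1 | h1
  · rw [← h1, Real.sqrt_zero, add_zero]
    exact Real.sqrt_le_sqrt (tr hX hY nY)
  have pX := hw_pos hX h0 0
  have pY := hw_pos hY h1 0
  have h := bm_width hX cX nX hY cY nY 0 pX pY
  apply Real.le_sqrt_of_sq_le
  refine le_trans ?_ h
  set l := hw X 0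
  set m := hw Y 0
  set A := √(volume.real X) with hA
  set B := √(volume.real Y) with hB
  have eA : volume.real X = A ^ 2 := by rw [hA, Real.sq_sqrt h0.le]
  have eB : volume.real Y = B ^ 2 := by rw [hB, Real.sq_sqrt h1.le]
  rw [eA, eB]
  have : (l + m) * (A ^ 2 / l + B ^ 2 / m) - (A + B) ^ 2 = (m * A - l * B) ^ 2 / (l * m) := by
    field_simp; ring
  have h2 : 0 ≤ (m * A - l * B) ^ 2 / (l * m) := by positivity
  linarith

lemma bm_comb {X Y : Set ℂ} (hX : IsCompact X) (cX : Convex ℝ X) (nX : X.Nonempty)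
    (hY : IsCompact Y) (cY : Convex ℝ Y) (nY : Y.Nonempty) {s t : ℝ} (hs0 : 0 ≤ s) (ht0 : 0 ≤ t) :
    s * √(volume.real X) + t * √(volume.real Y) ≤ √(volume.real (s • X + t • Y)) := by
  have h := bm (hX.smul s) (cX.smul s) nX.smul_set (hY.smul t) (cY.smul t) nY.smul_set
  rw [ar_smul, ar_smul, Real.sqrt_mul (sq_nonneg _), Real.sqrt_mul (sq_nonneg _),
    Real.sqrt_sq hs0, Real.sqrt_sq ht0] at h
  exact h

end Pool.Agent.MP_7791e4_an
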