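import Pool.Agent.MP_7791e4_an.Cut

set_option autoImplicit false

namespace Pool.Agent.MP_7791e4_an

open Set MeasureTheory Real Metric Filter Topology Pointwise

variable {a b : ℝ}

lemma dot_circ (c : ℂ) (r θ φ : ℝ) :
    dot (ev θ) (circ c r φ) = dot (ev θ) c + r * cos (θ - φ) := by
  rw [circ_eq, dot_add, dot_smul, dot_ev_ev]

lemma band_area {f : ℝ → ℝ} (hf : Continuous f) {ρ ε : ℝ} (hρ : 0 ≤ ρ) (hε : 0 ≤ ε) :
    volume {z : ℂ | z.re ∈ Icc (-ρ) ρ ∧ z.im ∈ Ioc (f z.re) (f z.re + ε)}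
      = ENNReal.ofReal (ε * (2 * ρ)) := by
  have ms : MeasurableSet {z : ℂ | z.re ∈ Icc (-ρ) ρ ∧ z.im ∈ Ioc (f z.re) (f z.re + ε)} :=
    (measurableSet_Icc.preimage Complex.measurable_re).inter
      ((measurableSet_lt (f := fun z : ℂ => f z.re) (by fun_prop) Complex.measurable_im).inter
        (measurableSet_le (g := fun z : ℂ => f z.re + ε) Complex.measurable_im (by fun_prop)))
  rw [vol_slices ms, ENNReal.ofReal_mul hε, show 2 * ρ = ρ - -ρ by ring, ← Real.volume_Icc,
    ← setLIntegral_const, ← lintegral_indicator measurableSet_Icc]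
  congr 1
  funext x
  by_cases hx : x ∈ Icc (-ρ) ρ
  · rw [indicator_of_mem hx, show ε = f x + ε - f x by ring, ← Real.volume_Ioc]
    congr 1; ext y; simp [hx.1, hx.2]
  · rw [indicator_of_notMem hx]
    refine measure_mono_null (t := ∅) (fun y hy => hx hy.1) measure_empty

lemma add_move (hb : 0 < b) (hab : b ≤ a) {K : Set ℂ} (hK : IsCompact K) (cK : Convex ℝ K)
    (hKE : K ⊆ ell a b) {c : ℂ} {r θ0 δ κ : ℝ} (hr : 0 < r) (δ0 : 0 < δ) (δ1 : δ < π / 2)
    (κ0 : 0 < κ) (hA : ∀ θ ∈ Icc (θ0 - δ - κ) (θ0 + δ + κ), circ c r θ ∈ K)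
    (hS : ∀ θ ∈ Icc (θ0 - δ) (θ0 + δ), ∀ z ∈ K, dot (ev θ) z ≤ dot (ev θ) c + r)
    (hI : ∀ θ ∈ Icc (θ0 - δ) (θ0 + δ), circ c r θ ∈ interior (ell a b)) {η : ℝ} (hη : 0 < η) :
    ∀ᶠ ε : ℝ in 𝓝[>] 0, ∃ L : Set ℂ, IsCompact L ∧ Convex ℝ L ∧ K ⊆ L ∧ L ⊆ ell a b ∧
      volume.real K + ε * (2 * (r * sin δ)) ≤ volume.real L ∧
      per L ≤ per K + ε * (2 * sin δ + η) := by
  set A := circ c r '' Icc (θ0 - δ) (θ0 + δ) with hAd
  have kA : IsCompact A := isCompact_Icc.image (by fun_prop)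
  have nA : A.Nonempty := (nonempty_Icc.2 (by linarith)).image _
  have sA : A ⊆ K := by
    rintro _ ⟨θ, hθ, rfl⟩; exact hA θ ⟨by linarith [hθ.1], by linarith [hθ.2]⟩
  have nK := nA.mono sA
  obtain ⟨ρ, ρ0, hρ⟩ := kA.exists_cthickening_subset_open isOpen_interior
    (by rintro _ ⟨θ, hθ, rfl⟩; exact hI θ hθ)
  have cK' := continuous_hs_ev hK nK
  have cA' := continuous_hs_ev kA nA
  have d0 : ∀ θ, 0 ≤ hs K (ev θ) - hs A (ev θ) := fun θ => sub_nonneg.2 (hs_mono hK nA sA _)
  have key : ∀ θ, δ < |θ - θ0| → |θ - θ0| ≤ π → hs K (ev θ) - hs A (ev θ) = 0 →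
      cos (θ - θ0) ≤ 0 := by
    intro θ t1 t2 t3
    by_contra hc
    have t4 : |θ - θ0| < π / 2 := by
      by_contra h
      rw [← cos_abs] at hc
      exact hc (cos_nonpos_of_pi_div_two_le_of_le (not_lt.1 h) (by linarith [pi_pos]))
    obtain ⟨_, ⟨φ, hφ, rfl⟩, e⟩ := exists_hs kA nA (ev θ)
    have main : ∀ φ' ∈ Icc (θ0 - δ - κ) (θ0 + δ + κ), |θ - φ'| < |θ - φ| → False := by
      intro φ' h1 h2
      have b1 := le_hs hK (hA φ' h1) (ev θ)
      rw [dot_circ] at b1 e
      have b2 := cos_lt_cos_of_nonneg_of_le_pi (abs_nonneg _) (y := |θ - φ|) (by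
        rw [abs_le]; rw [abs_lt] at t4; constructor <;> linarith [hφ.1, hφ.2]) h2
      rw [cos_abs, cos_abs] at b2
      nlinarith
    rcases lt_abs.1 t1 with h | h
    · have m1 := min_le_left κ (θ - φ)
      have m2 := min_le_right κ (θ - φ)
      have m3 : 0 < min κ (θ - φ) := lt_min κ0 (by linarith [hφ.2])
      refine main (φ + min κ (θ - φ)) ⟨by linarith [hφ.1], by linarith [hφ.2]⟩ ?_
      rw [abs_of_nonneg (by linarith), abs_of_nonneg (by linarith [hφ.2])]; linarith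
    · have m1 := min_le_left κ (φ - θ)
      have m2 := min_le_right κ (φ - θ)
      have m3 : 0 < min κ (φ - θ) := lt_min κ0 (by linarith [hφ.1])
      refine main (φ - min κ (φ - θ)) ⟨by linarith [hφ.1], by linarith [hφ.2]⟩ ?_
      rw [abs_of_nonpos (by linarith), abs_of_nonpos (by linarith [hφ.1])]; linarith
  have small : ∀ x y, x ≤ y → (∀ θ ∈ Ioo x y, δ < |θ - θ0| ∧ |θ - θ0| ≤ π) → ∀ᶠ t : ℝ in 𝓝[>] 0,
      ∫ θ in x..y, max (cos (θ - θ0) - (hs K (ev θ) - hs A (ev θ)) / t) 0 < η / 2 := by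
    intro x y hxy h
    have h1 := tendsto_integral_pen (g := fun _ => 0) (δ := fun θ => hs K (ev θ) - hs A (ev θ))
      (η := fun θ => cos (θ - θ0)) (cK'.sub cA') (by fun_prop) continuous_const d0 x y
    have h2 : (∫ θ in x..y, if hs K (ev θ) - hs A (ev θ) = 0 then max (cos (θ - θ0)) 0 else 0)
        = 0 := by
      rw [intervalIntegral.integral_of_le hxy, integral_Ioc_eq_integral_Ioo,
        setIntegral_congr_fun measurableSet_Ioo (g := fun _ => 0)]
      · simp
      intro θ hθ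
      simp only
      split_ifs with e
      · exact max_eq_right (key θ (h θ hθ).1 (h θ hθ).2 e)
      · rfl
    rw [h2] at h1
    exact h1.eventually (gt_mem_nhds (by linarith))
  filter_upwards [ev_pos, ev_lt ρ0,
    small (θ0 - π) (θ0 - δ) (by linarith [pi_pos]) (fun θ hθ => by
      rw [abs_of_neg (by linarith [hθ.2])]; constructor <;> linarith [hθ.1, hθ.2]),
    small (θ0 + δ) (θ0 + π) (by linarith [pi_pos]) (fun θ hθ => by
      rw [abs_of_pos (by linarith [hθ.1])]; constructor <;> linarith [hθ.1, hθ.2])]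
    with ε e0 e1 e2 e3
  set X := K ∪ (fun z => z + ε • ev θ0) '' A with hX
  have kX : IsCompact X := hK.union (kA.image (by fun_prop))
  have nX : X.Nonempty := nK.mono subset_union_left
  have sK : K ⊆ closedConvexHull ℝ X := subset_union_left.trans subset_closedConvexHull
  refine ⟨_, isCompact_cch kX, convex_closedConvexHull, sK, cch_subset (union_subset hKE ?_),
    ?_, ?_⟩
  · rintro _ ⟨z, hz, rfl⟩
    refine interior_subset (hρ (mem_cthickening_of_dist_le _ z _ _ hz ?_))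
    rw [dist_eq_norm, add_sub_cancel_left, norm_smul, norm_ev, mul_one, Real.norm_of_nonneg e0.le]
    exact e1.le
  · have s0 : 0 < sin δ := sin_pos_of_pos_of_lt_pi δ0 (by linarith [pi_pos])
    have ba := band_area (f := fun x => √(r ^ 2 - x ^ 2)) (by fun_prop) (ρ := r * sin δ)
      (by positivity) e0.le
    set R0 := {z : ℂ | z.re ∈ Icc (-(r * sin δ)) (r * sin δ) ∧
      z.im ∈ Ioc (√(r ^ 2 - z.re ^ 2)) (√(r ^ 2 - z.re ^ 2) + ε)}
    have vR := vol_mul (-Complex.I * ev θ0) c R0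
    rw [ba, norm_mul, norm_neg, Complex.norm_I, norm_ev] at vR
    simp only [mul_one, one_pow, ENNReal.ofReal_one, one_mul] at vR
    set R := (fun z : ℂ => -Complex.I * ev θ0 * z + c) '' R0
    have rep : ∀ z ∈ R, ∃ ψ ∈ Icc (-δ) δ, ∃ τ ∈ Ioc 0 ε, z = circ c r (θ0 - ψ) + τ • ev θ0 := by
      rintro _ ⟨z, ⟨h1, h2⟩, rfl⟩
      have s1 := sin_le_one δ
      have q1 : -sin δ ≤ z.re / r := by rw [le_div_iff₀ hr]; linarith [h1.1]
      have q2 : z.re / r ≤ sin δ := by rw [div_le_iff₀ hr]; linarith [h1.2]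
      have e1 : sin (arcsin (z.re / r)) = z.re / r := sin_arcsin (by linarith) (by linarith)
      have e2 : r * cos (arcsin (z.re / r)) = √(r ^ 2 - z.re ^ 2) := by
        rw [cos_arcsin, ← Real.sqrt_sq hr.le, ← Real.sqrt_mul (sq_nonneg _), Real.sqrt_sq hr.le]
        congr 1; field_simp
      refine ⟨arcsin (z.re / r), ⟨?_, ?_⟩, z.im - √(r ^ 2 - z.re ^ 2),
        ⟨by linarith [h2.1], by linarith [h2.2]⟩, ?_⟩
      · rw [← arcsin_sin (x := -δ) (by linarith) (by linarith), sin_neg]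
        exact monotone_arcsin q1
      · rw [← arcsin_sin (x := δ) (by linarith) (by linarith)]
        exact monotone_arcsin q2
      · rw [← e2]
        have e3 : z.re = r * sin (arcsin (z.re / r)) := by rw [e1]; field_simp
        set ψ := arcsin (z.re / r)
        apply Complex.ext <;> simp [circ, cos_sub, sin_sub, e3, -Complex.ofReal_cos,
          -Complex.ofReal_sin] <;> ring
    have h1 : volume.real (R ∪ K) ≤ volume.real (closedConvexHull ℝ X) := by
      refine measureReal_mono (union_subset (fun z hz => ?_) sK)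
        (isCompact_cch kX).measure_lt_top.ne
      obtain ⟨ψ, hψ, τ, hτ, rfl⟩ := rep z hz
      have m : circ c r (θ0 - ψ) ∈ A := ⟨_, ⟨by linarith [hψ.2], by linarith [hψ.1]⟩, rfl⟩
      have := (convex_closedConvexHull (𝕜 := ℝ) (s := X)).add_smul_mem (sK (sA m))
        (y := ε • ev θ0) (subset_closedConvexHull (Or.inr ⟨_, m, rfl⟩)) (t := τ / ε)
        ⟨by have := hτ.1; positivity, (div_le_one e0).2 hτ.2⟩
      rwa [smul_smul, div_mul_cancel₀ _ e0.ne'] at this
    rw [measureReal_union (disjoint_left.2 fun z hz hzK => ?_) hK.measurableSet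
      (vR ▸ ENNReal.ofReal_ne_top) hK.measure_lt_top.ne, Measure.real, vR,
      ENNReal.toReal_ofReal (by positivity)] at h1
    · linarith
    obtain ⟨ψ, hψ, τ, hτ, rfl⟩ := rep z hz
    have := hS (θ0 - ψ) ⟨by linarith [hψ.2], by linarith [hψ.1]⟩ _ hzK
    rw [dot_add, dot_circ, dot_smul, dot_ev_ev, sub_self, cos_zero] at this
    have c0 : 0 < cos (θ0 - ψ - θ0) := cos_pos_of_mem_Ioo ⟨by linarith [hψ.2], by linarith [hψ.1]⟩
    nlinarith [mul_pos hτ.1 c0]
  · let F : ℝ → ℝ := fun θ => max (cos (θ - θ0) - (hs K (ev θ) - hs A (ev θ)) / ε) 0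
    have cF : Continuous F := by simp only [F]; fun_prop
    rw [per_cch kX nX, per_window X (θ0 - π), per_window K (θ0 - π)]
    have i1 := intervalIntegral.integral_mono_on (a := θ0 - π) (b := θ0 - π + 2 * π)
      (by linarith [pi_pos]) (ii_hs kX nX _ _) (g := fun θ => hs K (ev θ) + ε * F θ)
      (by apply Continuous.intervalIntegrable; fun_prop) fun θ _ => hs_le nX (by
        rintro z (hz | ⟨z, hz, rfl⟩)
        · have := le_hs hK hz (ev θ)
          have := mul_nonneg e0.le (le_max_right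
            (cos (θ - θ0) - (hs K (ev θ) - hs A (ev θ)) / ε) 0)
          simp only [F]; linarith
        · have b0 := le_hs kA hz (ev θ)
          have b1 := mul_le_mul_of_nonneg_left (le_max_left
            (cos (θ - θ0) - (hs K (ev θ) - hs A (ev θ)) / ε) 0) e0.le
          rw [mul_sub, mul_div_cancel₀ _ e0.ne'] at b1
          simp only [F, dot_add, dot_smul, dot_ev_ev]; linarith)
    rw [intervalIntegral.integral_add (ii_hs hK nK _ _)
      (by apply Continuous.intervalIntegrable; fun_prop), intervalIntegral.integral_const_mul,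
      ← intervalIntegral.integral_add_adjacent_intervals (f := F) (b := θ0 - δ)
        (cF.intervalIntegrable _ _) (cF.intervalIntegrable _ _),
      ← intervalIntegral.integral_add_adjacent_intervals (f := F) (a := θ0 - δ) (b := θ0 + δ)
        (cF.intervalIntegrable _ _) (cF.intervalIntegrable _ _)] at i1
    have i2 := intervalIntegral.integral_mono_on (μ := volume) (a := θ0 - δ) (b := θ0 + δ)
      (by linarith) (cF.intervalIntegrable _ _) (g := fun θ => cos (θ - θ0))
      (by apply Continuous.intervalIntegrable; fun_prop) fun θ hθ => max_le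
        (by have := div_nonneg (d0 θ) e0.le; linarith)
        (cos_nonneg_of_mem_Icc ⟨by linarith [hθ.1], by linarith [hθ.2]⟩)
    rw [intervalIntegral.integral_comp_sub_right (fun x => cos x), integral_cos,
      show θ0 + δ - θ0 = δ by ring, show θ0 - δ - θ0 = -δ by ring, sin_neg] at i2
    rw [show θ0 - π + 2 * π = θ0 + π by ring] at i1 ⊢
    have i3 : (∫ θ in θ0 - π..θ0 - δ, F θ) + ((∫ θ in θ0 - δ..θ0 + δ, F θ)
      + ∫ θ in θ0 + δ..θ0 + π, F θ) ≤ 2 * sin δ + η := by simp only [F] at i2 ⊢; linarith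
    nlinarith [mul_le_mul_of_nonneg_left i3 e0.le]

/-- feasible sets of the relaxed problem. -/
structure Feas (a b : ℝ) (S L : Set ℂ) : Prop where
  cpt : IsCompact L
  cvx : Convex ℝ L
  sup : S ⊆ L
  sub : L ⊆ ell a b

lemma Feas.comb {S K L : Set ℂ} (hK : Feas a b S K) (hL : Feas a b S L) {s : ℝ} (s0 : 0 ≤ s)
    (s1 : s ≤ 1) : Feas a b S ((1 - s) • K + s • L) :=
  ⟨(hK.cpt.smul _).add (hL.cpt.smul _), (hK.cvx.smul _).add (hL.cvx.smul _),
    fun _ hz => mem_comb (hK.sup hz) (hL.sup hz) s, comb_subset convex_ell hK.sub hL.sub s0 s1⟩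

lemma per_comb {K L : Set ℂ} (hK : IsCompact K) (nK : K.Nonempty) (hL : IsCompact L)
    (nL : L.Nonempty) {s : ℝ} (s0 : 0 ≤ s) (s1 : s ≤ 1) :
    per ((1 - s) • K + s • L) = (1 - s) * per K + s * per L := by
  rw [per_add (hK.smul _) nK.smul_set (hL.smul _) nL.smul_set, per_smul hK nK (by linarith),
    per_smul hL nL s0]

lemma sqrt_avg {A x y : ℝ} (A0 : 0 < A) (hxy : x < y) (x0 : 0 ≤ x) :
    ∀ᶠ ε : ℝ in 𝓝[>] 0, √A ≤ (1 - 1 / 2) * √(A - ε * x) + 1 / 2 * √(A + ε * y) := by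
  have d1 : HasDerivAt (fun ε : ℝ => (1 - 1 / 2) * √(A - ε * x) + 1 / 2 * √(A + ε * y))
      ((1 - 1 / 2) * (-(1 * x) / (2 * √(A - 0 * x))) + 1 / 2 * ((1 * y) / (2 * √(A + 0 * y)))) 0 :=
    (((((hasDerivAt_id' (0:ℝ)).mul_const x).const_sub A).sqrt (by simpa using A0.ne')).const_mul
      _).add (((((hasDerivAt_id' (0:ℝ)).mul_const y).const_add A).sqrt
        (by simpa using A0.ne')).const_mul _)
  have s0 : 0 < √A := Real.sqrt_pos.2 A0
  have := d1.tendsto_slope_zero_right.eventually (lt_mem_nhds (a := 0) (by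
    simp only [zero_mul, sub_zero, add_zero, one_mul]
    have : (1 - 1 / 2) * (-x / (2 * √A)) + 1 / 2 * (y / (2 * √A)) = (y - x) / (4 * √A) := by
      field_simp; ring
    rw [this]; have := sub_pos.2 hxy; positivity))
  filter_upwards [this, ev_pos] with ε h e0
  simp only [zero_add, zero_mul, sub_zero, add_zero, smul_eq_mul] at h
  have := (mul_pos_iff_of_pos_left (inv_pos.2 e0)).1 h
  linarith

lemma combine {S K : Set ℂ} (nS : S.Nonempty) (A0 : 0 < volume.real K)
    (Min : ∀ L, Feas a b S L → volume.real K ≤ volume.real L → per K ≤ per L)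
    {x p y p' : ℝ} (x0 : 0 ≤ x) (y0 : 0 < y)
    (h1 : ∀ᶠ ε : ℝ in 𝓝[>] 0, ∃ L, Feas a b S L ∧ volume.real K - ε * x ≤ volume.real L ∧
      per L ≤ per K - ε * p)
    (h2 : ∀ᶠ ε : ℝ in 𝓝[>] 0, ∃ L, Feas a b S L ∧ volume.real K + ε * y ≤ volume.real L ∧
      per L ≤ per K + ε * p') : p * y ≤ p' * x := by
  by_contra hc
  push Not at hc
  obtain ⟨κ, κ0, hκ⟩ := (ev_pos.and (ev_neg (f := fun κ => p' * (x + κ) - p * y) (by fun_prop)
    (by simpa using hc))).exists
  set l := (x + κ) / y with hl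
  have l0 : 0 < l := by positivity
  have ly : l * y = x + κ := by rw [hl]; field_simp
  have lim : Tendsto (fun ε : ℝ => ε * l) (𝓝[>] 0) (𝓝[>] 0) := by
    refine tendsto_nhdsWithin_iff.2 ⟨?_, ?_⟩
    · have := ((by fun_prop : Continuous fun ε : ℝ => ε * l).tendsto 0).mono_left
        (nhdsWithin_le_nhds (s := Ioi 0))
      simpa using this
    · filter_upwards [ev_pos] with ε e0 using mul_pos e0 l0
  obtain ⟨ε, e0, ⟨L1, f1, a1, p1⟩, ⟨L2, f2, a2, p2⟩, e3⟩ := (ev_pos.and (h1.and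
    ((lim.eventually h2).and (sqrt_avg A0 (x := x) (y := x + κ) (by linarith) x0)))).exists
  have n1 := nS.mono f1.sup
  have n2 := nS.mono f2.sup
  have m := Min _ (f1.comb f2 (s := 1 / 2) (by norm_num) (by norm_num)) (by
    have b1 := bm_comb f1.cpt f1.cvx n1 f2.cpt f2.cvx n2 (s := 1 - 1 / 2) (t := 1 / 2)
      (by norm_num) (by norm_num)
    rw [mul_assoc, ly] at a2
    have b2 := Real.sqrt_le_sqrt a1
    have b3 := Real.sqrt_le_sqrt a2
    exact (Real.sqrt_le_sqrt_iff measureReal_nonneg).1 (by linarith))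
  rw [per_comb f1.cpt n1 f2.cpt n2 (by norm_num) (by norm_num)] at m
  have b4 : p ≤ l * p' := by
    have : ε * p ≤ ε * (l * p') := by linarith
    exact le_of_mul_le_mul_left this e0
  have b5 := mul_le_mul_of_nonneg_right b4 y0.le
  have : l * p' * y = p' * (x + κ) := by rw [← ly]; ring
  linarith

end Pool.Agent.MP_7791e4_an
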