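import Pool.Agent.MP_7791e4_an.Add

set_option autoImplicit false

namespace Pool.Agent.MP_7791e4_an

open Set MeasureTheory Real Metric Filter Topology Pointwise

variable {a b : ℝ}

lemma inj_of_simple {p q : ℂ} (hne : p ≠ q) {γ : Path p q}
    (h : ∀ s t, γ s = γ t → s = t ∨ (s = 0 ∧ t = 1) ∨ (s = 1 ∧ t = 0)) : Function.Injective γ := by
  intro s t e
  rcases h s t e with h | ⟨h1, h2⟩ | ⟨h1, h2⟩
  · exact h
  · rw [h1, h2, γ.source, γ.target] at e; exact absurd e hne
  · rw [h1, h2, γ.source, γ.target] at e; exact absurd e.symm hne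

lemma range_eq_of_conn {p q : ℂ} {γ : Path p q} (hi : Function.Injective γ) {Γ : Set ℂ}
    (h : Γ ⊆ range γ) (hc : IsPreconnected Γ) (hp : p ∈ Γ) (hq : q ∈ Γ) : range γ = Γ := by
  have c := preconn_of_image (A := γ ⁻¹' Γ) isCompact_univ γ.continuous hi.injOn (subset_univ _)
    (by rwa [image_preimage_eq_of_subset h])
  refine subset_antisymm ?_ h
  rintro _ ⟨s, rfl⟩
  exact c.Icc_subset (a := 0) (b := 1) (by simpa using hp) (by simpa using hq) ⟨s.2.1, s.2.2⟩

lemma mem_seg_ray {x v z : ℂ} {T : ℝ} (hT : 0 ≤ T) (hz : z ∈ segment ℝ x (x + T • v)) :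
    ∃ t ∈ Icc 0 T, z = x + t • v := by
  rw [segment_eq_image'] at hz
  obtain ⟨θ, hθ, rfl⟩ := hz
  refine ⟨θ * T, ⟨mul_nonneg hθ.1 hT, by nlinarith [hθ.2]⟩, ?_⟩
  simp only [add_sub_cancel_left, smul_smul]

lemma ray_cross (hb : 0 < b) (hab : b ≤ a) {p q : ℂ} (hp : B a b p p = 1) (hq : B a b q q = 1)
    (hne : p ≠ q) (γ : Path p q) (hγ : range γ ⊆ ell a b) {U : Set ℂ} (oU : IsOpen U)
    (cU : IsPreconnected U) (hU : U ⊆ interior (ell a b) \ range γ) {x y m : ℂ} (hx : x ∈ U)
    (hy : y ∈ U) (hm : cross (q - p) (m - p) = 0) (sx : cross (q - p) (x - p) < 0)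
    (sy : 0 < cross (q - p) (y - p))
    (rx : ∀ t : ℝ, 0 ≤ t → x + t • (x - m) ∉ range γ)
    (ry : ∀ t : ℝ, 0 ≤ t → y + t • (y - m) ∉ range γ) :
    False := by
  set v := q - p with hv
  have v0 : 0 < ‖v‖ := norm_pos_iff.2 (sub_ne_zero.2 hne.symm)
  have pE := mem_ell.2 hp.le
  have qE := mem_ell.2 hq.le
  set C := ‖v‖ * (2 * a) with hC
  have C0 : 0 < C := by have : 0 < a := by linarith
                        positivity
  have bd : ∀ z ∈ ell a b, |cross v (z - p)| ≤ C := fun z hz =>
    (abs_cross_le _ _).trans (mul_le_mul_of_nonneg_left ((norm_sub_le _ _).trans (by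
      linarith [norm_le_of_mem hb hab hz, norm_le_of_mem hb hab pE])) v0.le)
  have ray : ∀ (z : ℂ) (t : ℝ), cross v (z + t • (z - m) - p) = (1 + t) * cross v (z - p) := by
    intro z t
    rw [show z + t • (z - m) - p = (z - p) + t • ((z - p) - (m - p)) by ring_nf, cross_add,
      cross_smul, cross_sub v (z - p), hm]; ring
  set T1 := C / -cross v (x - p) with hT1
  set T2 := C / cross v (y - p) with hT2
  have t1 : 0 ≤ T1 := div_nonneg C0.le (by linarith)
  have t2 : 0 ≤ T2 := div_nonneg C0.le sy.le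
  have u1 : T1 * cross v (x - p) = -C := by rw [hT1]; field_simp [sx.ne]
  have u2 : T2 * cross v (y - p) = C := by rw [hT2]; field_simp
  set B0 := segment ℝ x (x + T1 • (x - m)) ∪ U ∪ segment ℝ y (y + T2 • (y - m)) with hB0
  have isBounded_segment : ∀ z w : ℂ, Bornology.IsBounded (segment ℝ z w) := fun z w => by
    rw [← Path.range_segment]; exact (isCompact_range (Path.continuous _)).isBounded
  have bB : Bornology.IsBounded B0 := ((isBounded_segment _ _).union
    ((isCompact_ell hb hab).isBounded.subset fun z hz => interior_subset (hU hz).1)).union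
    (isBounded_segment _ _)
  obtain ⟨R, R0, hR⟩ := (bB.sub (Bornology.isBounded_singleton (x := p))).exists_pos_norm_le
  set M := R / ‖v‖ with hM
  have M0 : 0 ≤ M := by positivity
  have M1 : M * ‖v‖ = R := by rw [hM]; field_simp
  set A0 := segment ℝ p (p + M • -v) ∪ range γ ∪ segment ℝ q (q + M • v) with hA0
  let f : ℂ → ℂ := fun z => ⟨dot v (z - p), cross v (z - p)⟩
  have ef : f = fun z => (starRingEnd ℂ) v * (z - p) := by
    funext z; apply Complex.ext <;> simp [f, dot, cross]; ring
  have cf : Continuous f := by rw [ef]; fun_prop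
  have jA : JoinedIn A0 (p + M • -v) (q + M • v) :=
    ((JoinedIn.of_segment_subset (subset_union_left.trans subset_union_left)).symm.trans
      (show JoinedIn A0 p q from ⟨γ, fun t => Or.inl (Or.inr ⟨t, rfl⟩)⟩)).trans
      (JoinedIn.of_segment_subset subset_union_right)
  have jB : JoinedIn B0 (x + T1 • (x - m)) (y + T2 • (y - m)) :=
    ((JoinedIn.of_segment_subset (subset_union_left.trans subset_union_left)).symm.trans
      (((oU.isConnected_iff_isPathConnected.1 ⟨⟨x, hx⟩, cU⟩).joinedIn x hx y hy).mono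
        (subset_union_right.trans subset_union_left))).trans
      (JoinedIn.of_segment_subset subset_union_right)
  have ext : ∀ z ∈ A0, z ∈ range γ ∨ (cross v (z - p) = 0 ∧ 1 ≤ B a b z z) := by
    have β := B_le_one pE qE
    rintro z ((hz | hz) | hz)
    · obtain ⟨t, ht, rfl⟩ := mem_seg_ray M0 hz
      refine Or.inr ⟨by simp [cross]; ring, ?_⟩
      rw [show p + t • -v = (1 + t) • p + (-t) • q by simp only [hv, Complex.real_smul]; push_cast; ring,
        B_comb, hp, hq]
      nlinarith [mul_nonneg (mul_nonneg ht.1 (show 0 ≤ 1 + t by linarith [ht.1])) (sub_nonneg.2 β)]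
    · exact Or.inl hz
    · obtain ⟨t, ht, rfl⟩ := mem_seg_ray M0 hz
      refine Or.inr ⟨by rw [show q + t • v - p = (1 + t) • v by
        simp only [hv, Complex.real_smul]; push_cast; ring, cross_smul, cross_self, mul_zero], ?_⟩
      rw [show q + t • v = (-t) • p + (1 + t) • q by simp only [hv, Complex.real_smul]; push_cast; ring,
        B_comb, hp, hq]
      nlinarith [mul_nonneg (mul_nonneg ht.1 (show 0 ≤ 1 + t by linarith [ht.1])) (sub_nonneg.2 β)]
  obtain ⟨_, ⟨z, hz, rfl⟩, w, hw, e⟩ := crossing_joined (jA.map cf) (jB.map cf) (by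
    rintro _ ⟨z, hz, rfl⟩
    simp only [f, ray]
    rcases ext z hz with h | h
    · have := abs_le.1 (bd z (hγ h)); constructor <;> linarith [this.1, this.2]
    · rw [h.1]; constructor <;> linarith) (by
    rintro _ ⟨z, hz, rfl⟩
    simp only [f]
    have h1 := hR (z - p) ⟨z, hz, p, rfl, rfl⟩
    have h2 := abs_le.1 ((abs_dot_le v (z - p)).trans (mul_le_mul_of_nonneg_left h1 v0.le))
    rw [add_sub_cancel_left, dot_smul, dot_neg, dot_self,
      show q + M • v - p = (1 + M) • v by simp only [hv, Complex.real_smul]; push_cast; ring,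
      dot_smul, dot_self]
    constructor <;> nlinarith [h2.1, h2.2])
  have e' : w = z := by
    rw [ef] at e
    have := mul_left_cancel₀ ((map_ne_zero _).2 (norm_pos_iff.1 v0)) e
    exact sub_left_injective this
  subst e'
  rcases hw with (hw | hw) | hw
  · obtain ⟨t, ht, rfl⟩ := mem_seg_ray t1 hw
    rcases ext _ hz with h | h
    · exact rx t ht.1 h
    · have := h.1; rw [ray] at this; nlinarith [ht.1]
  · rcases ext _ hz with h | h
    · exact (hU hw).2 h
    · linarith [mem_int.1 (hU hw).1, h.2]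
  · obtain ⟨t, ht, rfl⟩ := mem_seg_ray t2 hw
    rcases ext _ hz with h | h
    · exact ry t ht.1 h
    · have := h.1; rw [ray] at this; nlinarith [ht.1]

/-- the convex set attached to a curve. -/
def hull (a b α β : ℝ) (G : Set ℂ) : Set ℂ :=
  closedConvexHull ℝ G ∩ HP (pt a b β) (pt a b α) ∪ cap a b α β

lemma md_mem {α β : ℝ} {K : Set ℂ} (cK : Convex ℝ K) (h1 : pt a b α ∈ K) (h2 : pt a b β ∈ K) :
    md a b α β ∈ K := by
  rw [md, smul_add]; exact cK h1 h2 (by norm_num) (by norm_num) (by norm_num)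

lemma cross_md' (α β : ℝ) : cross (pt a b α - pt a b β) (md a b α β - pt a b β) = 0 := by
  simp [cross, md]; ring

lemma hull_arc (hb : 0 < b) (hab : b ≤ a) {α β : ℝ} (h1 : α < β) (h2 : β < α + 2 * π)
    {γ : Path (pt a b β) (pt a b α)} (h : Admissible a b γ) :
    ∃ U V : Set ℂ, IsOpen U ∧ IsOpen V ∧ IsPreconnected V ∧ Disjoint U V ∧
      U ∪ V = interior (ell a b) \ range γ ∧ volume.real U = π * a * b / 2 ∧
      U ⊆ hull a b α β (range γ) := by
  have ha : 0 < a := by linarith
  obtain ⟨U, V, oU, oV, cU, cV, dj, hUV, aU, aV⟩ := adm_parts h ha hb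
  have kR : IsCompact (range γ) := isCompact_range γ.continuous
  have hne := (pt_ne ha hb h1 h2).symm
  have A0 : 0 < π * a * b / 2 := by positivity
  by_cases hc : ∀ u ∈ Ioo α β, pt a b u ∈ range γ
  · exfalso
    have e := range_eq_of_conn (inj_of_simple hne h.1) (Γ := pt a b '' Icc α β) (by
      rintro _ ⟨u, hu, rfl⟩
      rcases hu.1.eq_or_lt with e | e
      · rw [← e]; exact γ.target_mem_range
      rcases hu.2.eq_or_lt with e' | e'
      · rw [e']; exact γ.source_mem_range
      exact hc u ⟨e, e'⟩) (isPreconnected_Icc.image _ (by fun_prop))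
      ⟨β, ⟨h1.le, le_rfl⟩, rfl⟩ ⟨α, ⟨le_rfl, h1.le⟩, rfl⟩
    have sub : interior (ell a b) ⊆ U ∪ V := fun z hz => hUV ▸ ⟨hz, by
      rw [e]; rintro ⟨u, -, rfl⟩
      exact (mem_int.1 hz).ne (B_pt_self ha hb u)⟩
    have nU : U.Nonempty := nonempty_of_measureReal_ne_zero (μ := volume) (aU ▸ A0.ne')
    have nV : V.Nonempty := nonempty_of_measureReal_ne_zero (μ := volume) (aV ▸ A0.ne')
    rcases convex_ell.interior.isPreconnected.subset_or_subset oU oV dj sub with c | c
    · obtain ⟨z, hz⟩ := nV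
      exact disjoint_left.1 dj (c (show z ∈ _ \ range γ from hUV ▸ Or.inr hz).1) hz
    · obtain ⟨z, hz⟩ := nU
      exact disjoint_left.1 dj hz (c (show z ∈ _ \ range γ from hUV ▸ Or.inl hz).1)
  push Not at hc
  obtain ⟨u, hu, hu'⟩ := hc
  set m := md a b α β with hm
  have g0 := gg_pos h1 h2 u
  have Bm : ∀ ρ : ℝ, B a b (pt a b u) (m + ρ • (pt a b u - m)) = 1 + (ρ - 1) * gg α β u := by
    intro ρ
    rw [B_add, B_smul, B_sub, hm, B_md ha hb, B_pt_self ha hb]; ring
  have ev1 : ∀ᶠ ρ : ℝ in 𝓝 1, m + ρ • (pt a b u - m) ∈ (range γ)ᶜ :=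
    (by fun_prop : Continuous fun ρ : ℝ => m + ρ • (pt a b u - m)).continuousAt.eventually
      (kR.isClosed.isOpen_compl.mem_nhds (by simpa using hu'))
  obtain ⟨ε, ε0, hε⟩ := Metric.eventually_nhds_iff.1 ev1
  set ρ0 := 1 - min (ε / 2) (1 / 2) with hρ0
  have r1 := min_le_left (ε / 2) (1 / 2 : ℝ)
  have r2 := min_le_right (ε / 2) (1 / 2 : ℝ)
  have r3 : 0 < min (ε / 2) (1 / 2 : ℝ) := lt_min (by linarith) (by norm_num)
  have av : ∀ ρ, ρ0 ≤ ρ → m + ρ • (pt a b u - m) ∉ range γ := by
    intro ρ hρ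
    rcases le_or_gt ρ 1 with c | c
    · exact hε (by rw [Real.dist_eq, abs_lt]; constructor <;> linarith)
    · intro hz
      have := B_le_one (pt_mem ha hb u) (h.2.2.1 hz)
      rw [Bm] at this
      nlinarith
  set y := m + ρ0 • (pt a b u - m) with hy
  have yE : y ∈ interior (ell a b) := convex_ell.add_smul_sub_mem_interior' (x := pt a b u)
    (subset_closure (pt_mem ha hb u)) (mem_int.2 (md_int ha hb h1 h2)) (t := 1 - ρ0)
    ⟨by linarith, by linarith⟩ |> fun h => by
      convert h using 1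
      simp only [hy, hm, Complex.real_smul]; push_cast; ring
  have key : ∀ W : Set ℂ, IsOpen W → IsPreconnected W → W ⊆ interior (ell a b) \ range γ →
      y ∈ W → W ⊆ hull a b α β (range γ) := by
    intro W oW cW sW yW x hx
    by_contra hc
    have c1 : x ∉ HP (pt a b α) (pt a b β) := fun c => hc (Or.inr ⟨interior_subset (sW hx).1, c⟩)
    have c2 := (mem_HP_or _ _ x).resolve_left c1
    have c3 : x ∉ closedConvexHull ℝ (range γ) := fun c => hc (Or.inl ⟨c, c2⟩)
    refine ray_cross hb hab (B_pt_self ha hb _) (B_pt_self ha hb _) hne γ h.2.2.1 oW cW sW hx yW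
      (cross_md' α β) ?_ ?_ (fun t ht hz => c3 ?_) (fun t ht => ?_)
    · rw [cross_flip]; exact neg_neg_of_pos (not_le.1 c1)
    · rw [cross_flip, ← cross_md, hy, add_sub_cancel_left, cross_smul, cross_md]
      nlinarith [chord_neg ha hb h2 hu.1 hu.2]
    · have m1 : m ∈ closedConvexHull ℝ (range γ) := md_mem convex_closedConvexHull
        (subset_closedConvexHull γ.target_mem_range) (subset_closedConvexHull γ.source_mem_range)
      have := convex_closedConvexHull.add_smul_sub_mem m1 (subset_closedConvexHull hz)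
        (t := 1 / (1 + t)) ⟨by positivity, (div_le_one (by positivity)).2 (by linarith)⟩
      convert this using 1
      have : (1 + (t:ℂ)) ≠ 0 := by exact_mod_cast (show (1 + t) ≠ 0 by positivity)
      simp only [Complex.real_smul]; push_cast; field_simp; ring
    · have := av (ρ0 * (1 + t)) (by nlinarith)
      convert this using 2
      simp only [hy, Complex.real_smul]; push_cast; ring
  have : y ∈ U ∪ V := hUV ▸ ⟨yE, av ρ0 le_rfl⟩
  rcases this with c | c
  · exact ⟨U, V, oU, oV, cV, dj, hUV, aU, key U oU cU (hUV ▸ subset_union_left) c⟩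
  · exact ⟨V, U, oV, oU, cU, dj.symm, (union_comm _ _).trans hUV, aV,
      key V oV cV (hUV ▸ subset_union_right) c⟩

lemma feas_hull (hb : 0 < b) (hab : b ≤ a) {α β : ℝ} (h1 : α < β) (h2 : β < α + 2 * π)
    {γ : Path (pt a b β) (pt a b α)} (h : range γ ⊆ ell a b) :
    Feas a b (cap a b α β) (hull a b α β (range γ)) := by
  have ha : 0 < a := by linarith
  have kR : IsCompact (range γ) := isCompact_range γ.continuous
  have sE : closedConvexHull ℝ (range γ) ∩ HP (pt a b β) (pt a b α) ⊆ ell a b :=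
    inter_subset_left.trans (cch_subset h)
  exact ⟨((isCompact_cch kR).inter_right (isClosed_HP _ _)).union (isCompact_cap hb hab _ _),
    union_convex ha hb (convex_closedConvexHull.inter (convex_HP _ _)) (convex_cap _ _) sE
      inter_subset_left (B_pt_self ha hb _) (B_pt_self ha hb _) (pt_ne ha hb h1 h2).symm
      inter_subset_right inter_subset_right
      ⟨subset_closedConvexHull γ.source_mem_range, left_mem_HP _ _⟩
      ⟨subset_closedConvexHull γ.target_mem_range, right_mem_HP _ _⟩
      ⟨pt_mem ha hb _, right_mem_HP _ _⟩ ⟨pt_mem ha hb _, left_mem_HP _ _⟩,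
    subset_union_right, union_subset sE inter_subset_left⟩

lemma range_sub_hull {α β : ℝ} {G : Set ℂ} (h : G ⊆ ell a b) : G ⊆ hull a b α β G := by
  intro z hz
  rcases mem_HP_or (pt a b β) (pt a b α) z with c | c
  · exact Or.inl ⟨subset_closedConvexHull hz, c⟩
  · exact Or.inr ⟨h hz, c⟩

lemma per_hull (hb : 0 < b) (hab : b ≤ a) {α β : ℝ}
    {γ : Path (pt a b β) (pt a b α)} (h : eVariationOn γ univ ≠ ⊤) :
    per (hull a b α β (range γ)) - per (cap a b α β) + ‖pt a b β - pt a b α‖
      ≤ (eVariationOn γ univ).toReal := by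
  have ha : 0 < a := by linarith
  have kR : IsCompact (range γ) := isCompact_range γ.continuous
  have kX := (isCompact_cch kR).inter_right (isClosed_HP (pt a b β) (pt a b α))
  have e1 := per_union_le kX (isCompact_cap hb hab α β)
    ⟨subset_closedConvexHull γ.source_mem_range, left_mem_HP _ _⟩
    ⟨subset_closedConvexHull γ.target_mem_range, right_mem_HP _ _⟩
    ⟨pt_mem ha hb _, right_mem_HP _ _⟩ ⟨pt_mem ha hb _, left_mem_HP _ _⟩
  have e2 := per_mono kX ⟨_, subset_closedConvexHull γ.source_mem_range, left_mem_HP _ _⟩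
    (isCompact_cch kR) inter_subset_left
  rw [per_cch kR (range_nonempty γ)] at e2
  have e3 := per_range_le γ h
  unfold hull
  linarith

end Pool.Agent.MP_7791e4_an
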