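import Pool.Agent.MP_7791e4_an.Len

set_option autoImplicit false

namespace Pool.Agent.MP_7791e4_an

open Set MeasureTheory Real Metric Filter Topology Pointwise unitInterval

structure Gg (K : Set ℂ) (c : ℂ) (g : ℂ → ℝ) : Prop where
  cont : Continuous g
  smul : ∀ (t : ℝ) (v : ℂ), 0 ≤ t → g (t • v) = t * g v
  add : ∀ v w, g (v + w) ≤ g v + g w
  pos : ∀ v, v ≠ 0 → 0 < g v
  fr : ∀ v, c + v ∈ frontier K ↔ g v = 1
  mem : ∀ v, c + v ∈ K ↔ g v ≤ 1
  int : ∀ v, c + v ∈ interior K ↔ g v < 1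

lemma exists_Gg {K : Set ℂ} (hK : IsCompact K) (cK : Convex ℝ K) {c : ℂ} (hc : c ∈ interior K) :
    ∃ g, Gg K c g := by
  let S : Set ℂ := (Homeomorph.addLeft c) ⁻¹' K
  have cS : Convex ℝ S := cK.translate_preimage_right c
  have nS : S ∈ 𝓝 (0:ℂ) := by
    apply (Homeomorph.addLeft c).continuous.continuousAt.preimage_mem_nhds
    simpa using mem_interior_iff_mem_nhds.1 hc
  have aS : Absorbent ℝ S := absorbent_nhds_zero nS
  have kS : IsCompact S := (Homeomorph.addLeft c).isCompact_preimage.2 hK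
  refine ⟨gauge S, continuous_gauge cS nS, fun t v ht => ?_, gauge_add_le cS aS, fun v hv => ?_,
    fun v => ?_, fun v => ?_, fun v => ?_⟩
  · rw [gauge_smul_of_nonneg ht, smul_eq_mul]
  · exact (gauge_pos aS (kS.isVonNBounded ℝ)).2 hv
  · rw [gauge_eq_one_iff_mem_frontier cS nS, ← Homeomorph.preimage_frontier]; rfl
  · rw [gauge_le_one_iff_mem_closure cS nS, kS.isClosed.closure_eq]; rfl
  · rw [gauge_lt_one_iff_mem_interior cS nS, ← Homeomorph.preimage_interior]; rfl

noncomputable def rad (c : ℂ) (g : ℂ → ℝ) (θ : ℝ) : ℂ := c + (g (ev θ))⁻¹ • ev θ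

lemma ev_ne_zero (θ : ℝ) : ev θ ≠ 0 := fun h => by
  have := norm_ev θ
  rw [h, norm_zero] at this
  exact zero_ne_one this

lemma ev_inj {θ φ : ℝ} (h : ev θ = ev φ) (h2 : |θ - φ| < 2 * π) : θ = φ := by
  have h1 : cos (θ - φ) = 1 := by
    rw [← dot_ev_ev, h, dot_ev_ev]; simp
  have := abs_lt.1 h2
  have := (cos_eq_one_iff_of_lt_of_lt this.1 this.2).1 h1
  linarith

lemma ev_comb (a b c : ℝ) : sin (c - a) • ev b = sin (c - b) • ev a + sin (b - a) • ev c := by
  apply Complex.ext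
  · simp only [Complex.real_smul, Complex.mul_re, Complex.ofReal_re, Complex.ofReal_im,
      Complex.add_re, ev_re, ev_im, sin_sub]
    ring
  · simp only [Complex.real_smul, Complex.mul_im, Complex.ofReal_re, Complex.ofReal_im,
      Complex.add_im, ev_re, ev_im, sin_sub]
    ring

namespace Gg
variable {K : Set ℂ} {c : ℂ} {g : ℂ → ℝ} (G : Gg K c g)
include G

lemma pos_ev (θ : ℝ) : 0 < g (ev θ) := G.pos _ (ev_ne_zero θ)

lemma cont_rad : Continuous (rad c g) := by
  have h1 : Continuous fun θ => g (ev θ) := G.cont.comp continuous_ev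
  exact continuous_const.add ((h1.inv₀ fun θ => (G.pos_ev θ).ne').smul continuous_ev)

lemma rad_fr (θ : ℝ) : rad c g θ ∈ frontier K := by
  rw [rad, G.fr, G.smul _ _ (inv_nonneg.2 (G.pos_ev θ).le), inv_mul_cancel₀ (G.pos_ev θ).ne']

lemma rad_mem (θ : ℝ) : rad c g θ ∈ K := by
  rw [rad, G.mem, G.smul _ _ (inv_nonneg.2 (G.pos_ev θ).le), inv_mul_cancel₀ (G.pos_ev θ).ne']

lemma eq_rad {z : ℂ} (hz : z ∈ frontier K) {θ : ℝ} (hθ : ev θ = ev (Complex.arg (z - c))) :
    rad c g θ = z := by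
  have h1 : g (z - c) = 1 := (G.fr _).1 (by simpa using hz)
  have h2 := eq_smul_ev (z - c)
  rw [← hθ] at h2
  rw [h2, G.smul _ _ (norm_nonneg _)] at h1
  have h3 : (g (ev θ))⁻¹ = ‖z - c‖ := by
    rw [inv_eq_iff_eq_inv]; exact eq_inv_of_mul_eq_one_right h1
  rw [rad, h3, ← h2]; ring

lemma rad_inj {θ φ : ℝ} (h : rad c g θ = rad c g φ) : ev θ = ev φ := by
  have h1 : (g (ev θ))⁻¹ • ev θ = (g (ev φ))⁻¹ • ev φ := add_left_cancel h
  have h2 := congrArg norm h1
  rw [norm_smul, norm_smul, norm_ev, norm_ev, Real.norm_eq_abs, Real.norm_eq_abs,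
    abs_of_pos (inv_pos.2 (G.pos_ev θ)), abs_of_pos (inv_pos.2 (G.pos_ev φ)), mul_one,
    mul_one] at h2
  rw [h2] at h1
  exact smul_right_injective ℂ (inv_pos.2 (G.pos_ev φ)).ne' h1

omit G in
lemma rad_periodic : Function.Periodic (rad c g) (2 * π) := fun θ => by
  simp only [rad, ev_periodic θ]

lemma between (u : ℂ) {a b d μ : ℝ} (hab : a ≤ b) (hbd : b ≤ d) (hda : d - a < π) (hμ : 0 ≤ μ)
    (h1 : μ * g (ev a) ≤ dot u (ev a)) (h2 : μ * g (ev d) ≤ dot u (ev d)) :
    μ * g (ev b) ≤ dot u (ev b) := by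
  rcases eq_or_lt_of_le (hab.trans hbd) with e | e
  · obtain rfl : b = a := le_antisymm (e ▸ hbd) hab
    exact h1
  have s0 : 0 < sin (d - a) := sin_pos_of_pos_of_lt_pi (by linarith) hda
  have s1 : 0 ≤ sin (d - b) := sin_nonneg_of_nonneg_of_le_pi (by linarith) (by linarith)
  have s2 : 0 ≤ sin (b - a) := sin_nonneg_of_nonneg_of_le_pi (by linarith) (by linarith)
  have e1 := congrArg (dot u) (ev_comb a b d)
  have e2 := congrArg g (ev_comb a b d)
  rw [dot_add, dot_smul, dot_smul, dot_smul] at e1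
  have e3 := G.add (sin (d - b) • ev a) (sin (b - a) • ev d)
  rw [← e2, G.smul _ _ s0.le, G.smul _ _ s1, G.smul _ _ s2] at e3
  apply le_of_mul_le_mul_left _ s0
  rw [e1]
  nlinarith [mul_le_mul_of_nonneg_left e3 hμ, mul_le_mul_of_nonneg_left h1 s1,
    mul_le_mul_of_nonneg_left h2 s2]

lemma dot_rad (u : ℂ) (θ μ : ℝ) :
    dot u c + μ ≤ dot u (rad c g θ) ↔ μ * g (ev θ) ≤ dot u (ev θ) := by
  rw [rad, dot_add, dot_smul, add_le_add_iff_left, inv_mul_eq_div, le_div_iff₀ (G.pos_ev θ)]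

lemma half (u : ℂ) {a b d e μ : ℝ} (hab : a ≤ b) (hbd : b ≤ d) (hde : d ≤ e) (hea : e ≤ a + 2 * π)
    (hμ : 0 < μ) (h1 : dot u c + μ ≤ dot u (rad c g b)) (h2 : dot u c + μ ≤ dot u (rad c g e)) :
    dot u c + μ ≤ dot u (rad c g a) ∨ dot u c + μ ≤ dot u (rad c g d) := by
  rw [G.dot_rad] at h1 h2
  rw [G.dot_rad, G.dot_rad]
  rcases lt_trichotomy (e - b) π with h | h | h
  · exact Or.inr (G.between u hbd hde h hμ.le h1 h2)
  · exfalso
    have : e = b + π := by linarith
    rw [this, ev_add_pi, dot_neg] at h2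
    have p1 := mul_pos hμ (G.pos_ev b)
    have p2 := mul_pos hμ (G.pos (-ev b) (neg_ne_zero.2 (ev_ne_zero b)))
    linarith
  · left
    have := G.between u (a := e) (b := a + 2 * π) (d := b + 2 * π) hea (by linarith)
      (by linarith) hμ.le h2 (by rw [ev_periodic b]; exact h1)
    rwa [ev_periodic a] at this

lemma pattern (u : ℂ) {a b d e : ℝ} (hab : a ≤ b) (hbd : b ≤ d) (hde : d ≤ e)
    (hea : e ≤ a + 2 * π) :
    min (dot u (rad c g b)) (dot u (rad c g e)) ≤ max (dot u (rad c g a)) (dot u (rad c g d)) := by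
  by_contra hcon
  push Not at hcon
  rcases lt_or_ge (dot u c) (min (dot u (rad c g b)) (dot u (rad c g e))) with h | h
  · rcases G.half u hab hbd hde hea (μ := min (dot u (rad c g b)) (dot u (rad c g e)) - dot u c)
      (by linarith) (by linarith [min_le_left (dot u (rad c g b)) (dot u (rad c g e))])
      (by linarith [min_le_right (dot u (rad c g b)) (dot u (rad c g e))]) with h' | h'
    · linarith [le_max_left (dot u (rad c g a)) (dot u (rad c g d))]
    · linarith [le_max_right (dot u (rad c g a)) (dot u (rad c g d))]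
  · have := G.half (-u) (a := b) (b := d) (d := e) (e := a + 2 * π) hbd hde hea (by linarith)
      (μ := dot u c - max (dot u (rad c g a)) (dot u (rad c g d))) (by linarith)
      (by simp only [neg_dot]; linarith [le_max_right (dot u (rad c g a)) (dot u (rad c g d))])
      (by rw [rad_periodic a]; simp only [neg_dot]
          linarith [le_max_left (dot u (rad c g a)) (dot u (rad c g d))])
    simp only [neg_dot] at this
    rcases this with h' | h'
    · linarith [min_le_left (dot u (rad c g b)) (dot u (rad c g e))]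
    · linarith [min_le_right (dot u (rad c g b)) (dot u (rad c g e))]

lemma exists_arc {α β : ℝ} (h1 : α < β) (h2 : β ≤ α + 2 * π) {p q : ℂ} (hp : rad c g α = p)
    (hq : rad c g β = q) :
    ∃ γ : Path p q, (∀ s t, γ s = γ t → s = t ∨ (s = 0 ∧ t = 1) ∨ (s = 1 ∧ t = 0)) ∧
      range γ = rad c g '' Icc α β ∧
      ∀ L : Set ℂ, IsCompact L → range γ ⊆ L →
        eVariationOn γ univ ≤ ENNReal.ofReal (per L - ‖p - q‖) := by
  have hd : 0 < β - α := by linarith
  let γ : Path p q :=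
    { toFun := fun s => rad c g (α + s * (β - α))
      continuous_toFun := G.cont_rad.comp (by fun_prop)
      source' := by simpa using hp
      target' := by simpa using hq }
  have hγ : ∀ s : I, γ s = rad c g (α + s * (β - α)) := fun _ => rfl
  refine ⟨γ, fun s t h => ?_, ?_, fun L hL hsub => ?_⟩
  · rw [hγ, hγ] at h
    have h3 := G.rad_inj h
    by_cases h4 : |(s:ℝ) - t| < 1
    · left
      have := ev_inj h3 (by
        rw [show α + s * (β - α) - (α + t * (β - α)) = ((s:ℝ) - t) * (β - α) by ring, abs_mul,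
          abs_of_pos hd]
        nlinarith [abs_nonneg ((s:ℝ) - t)])
      ext
      have h5 : ((s:ℝ) - t) * (β - α) = 0 := by linarith
      rcases mul_eq_zero.1 h5 with h6 | h6 <;> linarith
    · right
      have s0 := s.2.1; have s1 := s.2.2; have t0 := t.2.1; have t1 := t.2.2
      rcases le_abs.1 (not_lt.1 h4) with h5 | h5
      · exact Or.inr ⟨Subtype.ext (show (s:ℝ) = 1 by linarith),
          Subtype.ext (show (t:ℝ) = 0 by linarith)⟩
      · exact Or.inl ⟨Subtype.ext (show (s:ℝ) = 0 by linarith),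
          Subtype.ext (show (t:ℝ) = 1 by linarith)⟩
  · apply subset_antisymm
    · rintro _ ⟨s, rfl⟩
      refine ⟨_, ⟨?_, ?_⟩, rfl⟩ <;> nlinarith [s.2.1, s.2.2]
    · rintro _ ⟨θ, hθ, rfl⟩
      refine ⟨⟨(θ - α) / (β - α), div_nonneg (by linarith [hθ.1]) hd.le,
        (div_le_one hd).2 (by linarith [hθ.2])⟩, ?_⟩
      rw [hγ]; congr 1; field_simp; ring
  · apply var_le_per γ hL (fun s => hsub ⟨s, rfl⟩)
    intro u s0 s1 s2 s3 a1 a2 a3
    have b1 : (s0:ℝ) ≤ s1 := a1
    have b2 : (s1:ℝ) ≤ s2 := a2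
    have b3 : (s2:ℝ) ≤ s3 := a3
    simp only [hγ]
    apply G.pattern <;> nlinarith [s0.2.1, s3.2.2]

lemma image_Icc_eq (α : ℝ) : rad c g '' Icc α (α + 2 * π) = frontier K := by
  rw [rad_periodic.image_Icc (by positivity)]
  apply subset_antisymm
  · rintro _ ⟨θ, rfl⟩; exact G.rad_fr θ
  · exact fun z hz => ⟨_, G.eq_rad hz rfl⟩

end Gg

/-- the boundary of a convex body as a simple closed curve. -/
lemma exists_loop {K : Set ℂ} (hK : IsCompact K) (cK : Convex ℝ K) (hi : (interior K).Nonempty)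
    {p : ℂ} (hp : p ∈ frontier K) :
    ∃ γ : Path p p, (∀ s t, γ s = γ t → s = t ∨ (s = 0 ∧ t = 1) ∨ (s = 1 ∧ t = 0)) ∧
      range γ = frontier K ∧ eVariationOn γ univ ≤ ENNReal.ofReal (per K) := by
  obtain ⟨c, hc⟩ := hi
  obtain ⟨g, G⟩ := exists_Gg hK cK hc
  have e := G.eq_rad hp rfl
  obtain ⟨γ, h1, h2, h3⟩ := G.exists_arc (α := Complex.arg (p - c))
    (β := Complex.arg (p - c) + 2 * π) (by linarith [pi_pos]) le_rfl e (q := p)
    (by rw [Gg.rad_periodic]; exact e)
  rw [G.image_Icc_eq] at h2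
  refine ⟨γ, h1, h2, ?_⟩
  simpa using h3 K hK (h2 ▸ hK.isClosed.frontier_subset)

end Pool.Agent.MP_7791e4_an
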