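import Pool.Agent.MP_7791e4_an.Clip

set_option autoImplicit false

namespace Pool.Agent.MP_7791e4_an

open Set MeasureTheory Real Metric Filter Topology Pointwise

variable {a b : ℝ}

lemma ev_lt {c : ℝ} (hc : 0 < c) : ∀ᶠ t : ℝ in 𝓝[>] 0, t < c := nhdsWithin_le_nhds (Iio_mem_nhds hc)

lemma ev_pos : ∀ᶠ t : ℝ in 𝓝[>] 0, 0 < t := self_mem_nhdsWithin

lemma ev_neg {f : ℝ → ℝ} (hf : Continuous f) (h : f 0 < 0) : ∀ᶠ t : ℝ in 𝓝[>] 0, f t < 0 :=
  nhdsWithin_le_nhds (hf.continuousAt.eventually_lt continuousAt_const h)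

lemma on_line (ha : 0 < a) (hb : 0 < b) {k1 k2 z : ℂ} (h1 : B a b k1 k1 = 1) (h2 : B a b k2 k2 = 1)
    (hne : k1 ≠ k2) (hz : z ∈ ell a b) (h : cross (k2 - k1) (z - k1) = 0) : z ∈ segment ℝ k1 k2 := by
  have n0 : 0 < ‖k2 - k1‖ ^ 2 := by
    have := norm_pos_iff.2 (sub_ne_zero.2 hne.symm); positivity
  set s := dot (k2 - k1) (z - k1) / ‖k2 - k1‖ ^ 2 with hs
  have e : z = (1 - s) • k1 + s • k2 := by
    have hs' : s * ‖k2 - k1‖ ^ 2 = dot (k2 - k1) (z - k1) := by
      rw [hs]; exact div_mul_cancel₀ _ n0.ne'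
    rw [sq_norm'] at hs' n0
    simp only [dot, cross, Complex.sub_re, Complex.sub_im] at hs' h n0
    apply Complex.ext
    · simp only [Complex.add_re, Complex.smul_re, smul_eq_mul]
      apply mul_right_cancel₀ n0.ne'
      linear_combination (-(k2.re - k1.re)) * hs' - (k2.im - k1.im) * h
    · simp only [Complex.add_im, Complex.smul_im, smul_eq_mul]
      apply mul_right_cancel₀ n0.ne'
      linear_combination (-(k2.im - k1.im)) * hs' + (k2.re - k1.re) * h
  have q := mem_ell.1 hz
  rw [e, B_comb, h1, h2] at q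
  have β := B_lt_one ha hb (mem_ell.2 h1.le) (mem_ell.2 h2.le) hne
  have : 0 ≤ s * (1 - s) := by
    by_contra hc
    push Not at hc
    nlinarith
  refine ⟨1 - s, s, ?_, ?_, by ring, e.symm⟩ <;> nlinarith

lemma caps (ha : 0 < a) (hb : 0 < b) {K : Set ℂ} (cK : Convex ℝ K)
    (hc : IsPreconnected (interior (ell a b) \ K)) {k1 k2 : ℂ} (m1 : k1 ∈ K) (m2 : k2 ∈ K)
    (h1 : B a b k1 k1 = 1) (h2 : B a b k2 k2 = 1) (hne : k1 ≠ k2) :
    (∀ z ∈ interior (ell a b), cross (k2 - k1) (z - k1) ≤ 0 → z ∈ K) ∨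
    (∀ z ∈ interior (ell a b), 0 ≤ cross (k2 - k1) (z - k1) → z ∈ K) := by
  have := hc.subset_or_subset (u := {z | 0 < cross (k2 - k1) (z - k1)})
    (v := {z | cross (k2 - k1) (z - k1) < 0}) (isOpen_lt continuous_const (by fun_prop))
    (isOpen_lt (by fun_prop) continuous_const)
    (disjoint_left.2 fun z h h' => by simp only [mem_ofPred_eq] at h h'; linarith)
    (fun z hz => by
      rcases lt_trichotomy 0 (cross (k2 - k1) (z - k1)) with h | h | h
      · exact Or.inl h
      · exact absurd (cK.segment_subset m1 m2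
          (on_line ha hb h1 h2 hne (interior_subset hz.1) h.symm)) hz.2
      · exact Or.inr h)
  rcases this with h | h
  · left
    intro z hz h'
    by_contra hK
    exact absurd (h ⟨hz, hK⟩) (not_lt.2 h')
  · right
    intro z hz h'
    by_contra hK
    exact absurd (h ⟨hz, hK⟩) (not_lt.2 h')

lemma fin_int (hb : 0 < b) (hab : b ≤ a) {S : Set ℂ} (h : S ⊆ ell a b) : volume S ≠ ⊤ :=
  ((measure_mono h).trans_lt (isCompact_ell hb hab).measure_lt_top).ne

lemma half_le (hb : 0 < b) (hab : b ≤ a) (v : ℂ) :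
    π * a * b / 2 ≤ volume.real {z | z ∈ interior (ell a b) ∧ 0 ≤ cross v z} := by
  have ha : 0 < a := by linarith
  set H := {z | z ∈ interior (ell a b) ∧ 0 ≤ cross v z}
  have fH : volume H ≠ ⊤ := fin_int hb hab fun z hz => interior_subset hz.1
  have e := ar_mul (-1) 0 H
  have f2 : volume ((fun z : ℂ => -1 * z + 0) '' H) ≠ ⊤ := by
    rw [vol_mul]; exact ENNReal.mul_ne_top ENNReal.ofReal_ne_top fH
  have sub : interior (ell a b) ⊆ H ∪ (fun z : ℂ => -1 * z + 0) '' H := by
    intro z hz
    rcases le_total 0 (cross v z) with h | h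
    · exact Or.inl ⟨hz, h⟩
    · refine Or.inr ⟨-z, ⟨?_, ?_⟩, by simp⟩
      · rw [mem_int] at hz ⊢; rwa [neg_B, B_neg, neg_neg]
      · simp only [cross, Complex.neg_re, Complex.neg_im] at h ⊢; linarith
  have h1 := (measureReal_mono sub (measure_union_ne_top fH f2)).trans (measureReal_union_le _ _)
  rw [ar_interior convex_ell, ar_ell ha hb, e] at h1
  simp only [norm_neg, norm_one, one_pow, one_mul] at h1
  linarith

lemma cross_I (v : ℂ) : cross v (Complex.I * v) = ‖v‖ ^ 2 := by
  rw [sq_norm']; simp [cross]; ring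

lemma cross_smul (u z : ℂ) (t : ℝ) : cross u (t • z) = t * cross u z := by simp [cross]; ring
lemma cross_add (u x y : ℂ) : cross u (x + y) = cross u x + cross u y := by simp [cross]; ring
lemma cross_sub (u x y : ℂ) : cross u (x - y) = cross u x - cross u y := by simp [cross]; ring
lemma sub_cross (u x y : ℂ) : cross (x - y) u = cross x u - cross y u := by simp [cross]; ring
lemma cross_self (u : ℂ) : cross u u = 0 := by simp [cross]; ring
lemma cross_anti (u v : ℂ) : cross u v = -cross v u := by simp [cross]; ring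

lemma big_cap (hb : 0 < b) (hab : b ≤ a) {v : ℂ} (hv : v ≠ 0) {κ : ℝ} (hκ : 0 < κ) :
    π * a * b / 2 < volume.real {z | z ∈ interior (ell a b) ∧ 0 ≤ cross v z + κ} := by
  set H := {z | z ∈ interior (ell a b) ∧ 0 ≤ cross v z}
  set W := interior (ell a b) ∩ ({z | -κ < cross v z} ∩ {z | cross v z < 0})
  have oW : IsOpen W := isOpen_interior.inter
    ((isOpen_lt continuous_const (by fun_prop)).inter (isOpen_lt (by fun_prop) continuous_const))
  have n0 : 0 < ‖v‖ ^ 2 := by have := norm_pos_iff.2 hv; positivity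
  have nW : W.Nonempty := by
    obtain ⟨t, t0, t1, t2⟩ := (ev_pos.and ((ev_lt (div_pos hκ n0)).and
      (ev_neg (f := fun t => B a b ((-t) • (Complex.I * v)) ((-t) • (Complex.I * v)) - 1)
        (by fun_prop) (by simp)))).exists
    refine ⟨(-t) • (Complex.I * v), mem_int.2 (by linarith), ?_, ?_⟩
    · simp only [mem_ofPred_eq, cross_smul, cross_I]
      rw [lt_div_iff₀ n0] at t1; linarith
    · simp only [mem_ofPred_eq, cross_smul, cross_I]; nlinarith
  have fW : volume W ≠ ⊤ := fin_int hb hab fun z hz => interior_subset hz.1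
  have pW : 0 < volume.real W := ENNReal.toReal_pos (oW.measure_pos volume nW).ne' fW
  have h1 : volume.real (H ∪ W) ≤ volume.real {z | z ∈ interior (ell a b) ∧ 0 ≤ cross v z + κ} :=
    measureReal_mono (by
      rintro z (h | h)
      · exact ⟨h.1, by linarith [h.2]⟩
      · exact ⟨h.1, by have : -κ < cross v z := h.2.1
                       linarith⟩) (fin_int hb hab fun z hz => interior_subset hz.1)
  rw [measureReal_union (disjoint_left.2 fun z h h' => by
    have : cross v z < 0 := h'.2.2
    linarith [h.2]) oW.measurableSet (fin_int hb hab fun z hz => interior_subset hz.1) fW] at h1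
  linarith [half_le hb hab v]

lemma small_cap (hb : 0 < b) (hab : b ≤ a) {K : Set ℂ} (hK : IsCompact K) (cK : Convex ℝ K)
    (hA : volume.real K ≤ π * a * b / 2)
    (hc : IsPreconnected (interior (ell a b) \ K)) {k1 k2 : ℂ} (m1 : k1 ∈ K) (m2 : k2 ∈ K)
    (h1 : B a b k1 k1 = 1) (h2 : B a b k2 k2 = 1) (hx : 0 < cross k1 k2) :
    ∀ z ∈ interior (ell a b), cross (k2 - k1) (z - k1) ≤ 0 → z ∈ K := by
  have ha : 0 < a := by linarith
  have hne : k1 ≠ k2 := fun h => by rw [h, cross_self] at hx; exact lt_irrefl _ hx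
  refine (caps ha hb cK hc m1 m2 h1 h2 hne).resolve_right fun h => ?_
  have h3 := big_cap hb hab (sub_ne_zero.2 hne.symm) hx
  have h4 : volume.real {z | z ∈ interior (ell a b) ∧ 0 ≤ cross (k2 - k1) z + cross k1 k2}
      ≤ volume.real K := measureReal_mono (fun z hz => h z hz.1 (by
        have := hz.2
        rw [cross_sub, sub_cross k1, cross_self, cross_anti k2 k1]; linarith)) hK.measure_lt_top.ne
  linarith

lemma cross_tg (ha : 0 < a) (hb : 0 < b) (v p : ℂ) : cross v (tg a b p) = a * b * B a b v p := by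
  simp only [cross, tg, B]; field_simp; ring

lemma cross_eq (ha : 0 < a) (hb : 0 < b) (p k : ℂ) : cross p k = a * b * B a b (tg a b p) k := by
  simp only [cross, tg, B]; field_simp; ring

lemma cross_coord (ha : 0 < a) (hb : 0 < b) {p : ℂ} (hp : B a b p p = 1) (k k' : ℂ) :
    cross k k' = a * b * (B a b p k * B a b (tg a b p) k' - B a b (tg a b p) k * B a b p k') := by
  have h : p.re * p.re / a ^ 2 + p.im * p.im / b ^ 2 = 1 := hp
  have : cross k k' = cross k k' * (p.re * p.re / a ^ 2 + p.im * p.im / b ^ 2) := by rw [h, mul_one]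
  rw [this]
  simp only [cross, tg, B]; field_simp; ring

lemma coord_sq (ha : 0 < a) (hb : 0 < b) {p : ℂ} (hp : B a b p p = 1) (k : ℂ) :
    B a b k k = B a b p k ^ 2 + B a b (tg a b p) k ^ 2 := by
  conv_lhs => rw [decomp ha hb hp k]
  rw [B_coord ha hb hp]; ring

/-- a contact point on one side forces the normal cone at `p` to the other side. -/
lemma tangent_side (hb : 0 < b) (hab : b ≤ a) {K : Set ℂ} (hK : IsCompact K) (cK : Convex ℝ K)
    (hA : volume.real K ≤ π * a * b / 2) (hc : IsPreconnected (interior (ell a b) \ K))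
    {p k : ℂ} (mp : p ∈ K) (mk : k ∈ K) (hp : B a b p p = 1) (hk : B a b k k = 1) {s : ℝ}
    (hs1 : s = 1 ∨ s = -1) (hx : 0 < s * cross p k) {u : ℂ} (hu : hs K u = dot u p) :
    s * dot u (tg a b p) ≤ 0 := by
  have ha : 0 < a := by linarith
  have hne : k ≠ p := fun h => by rw [h, cross_self] at hx; simp at hx
  have β := B_lt_one ha hb (mem_ell.2 hk.le) (mem_ell.2 hp.le) hne
  have ct : cross (k - p) (tg a b p) < 0 := by
    rw [cross_tg ha hb, sub_B, hp]
    exact mul_neg_of_pos_of_neg (by positivity) (by linarith)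
  have s2 : s * s = 1 := by rcases hs1 with h | h <;> rw [h] <;> norm_num
  have cap : ∀ z ∈ interior (ell a b), s * cross (k - p) (z - p) ≤ 0 → z ∈ K := by
    intro z hz h
    rcases hs1 with e | e
    · rw [e, one_mul] at hx h
      exact small_cap hb hab hK cK hA hc mp mk hp hk hx z hz h
    · rw [e] at hx h
      apply small_cap hb hab hK cK hA hc mk mp hk hp (by rw [cross_anti]; linarith) z hz
      simp only [cross, Complex.sub_re, Complex.sub_im] at h ⊢
      linarith
  by_contra hcon
  push Not at hcon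
  obtain ⟨t, t0, t1, t2, t3⟩ := (ev_pos.and ((ev_lt one_pos).and
    ((ev_neg (f := fun t => cross (k - p) (tg a b p) - t * (s * cross (k - p) p)) (by fun_prop)
      (by simpa using ct)).and
    (ev_neg (f := fun t => t * dot u p - s * dot u (tg a b p)) (by fun_prop)
      (by simpa using hcon))))).exists
  have hz := cap ((1 - t ^ 2) • p + (s * t) • tg a b p) (by
    rw [mem_int, B_coord ha hb hp]
    have : 0 < t ^ 2 * (1 - t ^ 2) := mul_pos (by positivity) (by nlinarith)
    nlinarith) (by
    rw [show (1 - t ^ 2) • p + (s * t) • tg a b p - p = (-t ^ 2) • p + (s * t) • tg a b p by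
      simp only [Complex.real_smul]; push_cast; ring, cross_add, cross_smul, cross_smul]
    have : s * (-t ^ 2 * cross (k - p) p + s * t * cross (k - p) (tg a b p))
        = t * (cross (k - p) (tg a b p) - t * (s * cross (k - p) p)) := by
      linear_combination (t * cross (k - p) (tg a b p)) * s2
    rw [this]
    nlinarith)
  have h3 := le_hs hK hz u
  rw [hu, dot_add, dot_smul, dot_smul] at h3
  nlinarith

lemma ext_alg {x y X Y : ℝ} (h1 : x ^ 2 + y ^ 2 = 1) (h2 : X ^ 2 + Y ^ 2 = 1) (y0 : 0 ≤ y)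
    (Y0 : 0 ≤ Y) (h : X ≤ x) : 0 ≤ x * Y - y * X := by
  rcases le_total 0 X with c | c
  · have : y ≤ Y := le_of_sq_le_sq (by nlinarith) Y0
    nlinarith
  rcases le_total 0 x with d | d
  · nlinarith [mul_nonneg d Y0, mul_nonneg y0 (neg_nonneg.2 c)]
  · have : Y ≤ y := le_of_sq_le_sq (by nlinarith) y0
    nlinarith

/-- if contact points lie on both sides of `p` and there is no antipodal pair, the contact set
lies in an open half plane through the centre. -/
lemma exists_dir (hb : 0 < b) (hab : b ≤ a) {K : Set ℂ} (hK : IsCompact K) (cK : Convex ℝ K)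
    (hA : volume.real K ≤ π * a * b / 2) (hc : IsPreconnected (interior (ell a b) \ K))
    {p : ℂ} (mp : p ∈ K) (hp : B a b p p = 1)
    (anti : ∀ k ∈ K, B a b k k = 1 → -k ∉ K)
    {k1 k2 : ℂ} (m1 : k1 ∈ K) (m2 : k2 ∈ K) (h1 : B a b k1 k1 = 1) (h2 : B a b k2 k2 = 1)
    (c1 : 0 < cross p k1) (c2 : cross p k2 < 0) :
    ∃ W : ℂ, ∀ k ∈ K, B a b k k = 1 → 0 < B a b k W := by
  have ha : 0 < a := by linarith
  have hab' : 0 < a * b := by positivity
  set T := tg a b p with hT
  let x : ℂ → ℝ := fun k => B a b p k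
  let y : ℂ → ℝ := fun k => B a b T k
  have sq : ∀ k, B a b k k = 1 → x k ^ 2 + y k ^ 2 = 1 := fun k hk => by
    rw [← hk, coord_sq ha hb hp k]
  have xp : x p = 1 := hp
  have yp : y p = 0 := by simp only [y, hT]; rw [B_comm, B_tg ha hb]
  have pair : ∀ k ∈ K, ∀ k' ∈ K, B a b k k = 1 → B a b k' k' = 1 → 0 < y k → y k' < 0 →
      0 < x k' * y k - y k' * x k := by
    intro k mk k' mk' hk hk' y1 y2
    have s1 := sq k hk
    have s2 := sq k' hk'
    rcases lt_trichotomy 0 (x k' * y k - y k' * x k) with h | h | h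
    · exact h
    · exfalso
      apply anti k mk hk
      have e1 : (x k * x k' + y k * y k') ^ 2 = 1 := by nlinarith
      have e2 : y k = (x k * x k' + y k * y k') * y k' := by
        linear_combination (-(y k)) * s2 - (x k') * h
      have e3 : x k * x k' + y k * y k' = -1 := by
        have : (x k * x k' + y k * y k' - 1) * (x k * x k' + y k * y k' + 1) = 0 := by
          linear_combination e1
        rcases mul_eq_zero.1 this with e | e
        · have : x k * x k' + y k * y k' = 1 := by linarith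
          rw [this] at e2; linarith
        · linarith
      have e4 : y k' = -y k := by rw [e3] at e2; linarith
      have e5 : x k' = -x k := by nlinarith
      have : -k = k' := by
        rw [decomp ha hb hp k, decomp ha hb hp k']
        show -(x k • p + y k • T) = x k' • p + y k' • T
        rw [e4, e5]; simp [add_comm]
      rw [this]; exact mk'
    · exfalso
      apply anti p mp hp
      have cap := small_cap hb hab hK cK hA hc mk mk' hk hk' (by
        rw [cross_coord ha hb hp]
        exact mul_pos hab' (by show 0 < x k * y k' - y k * x k'; linarith))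
      have x1 : 0 < 1 + x k := by nlinarith
      have x2 : 0 < 1 + x k' := by nlinarith
      have neg : cross (k' - k) (-p - k) < 0 := by
        rw [cross_coord ha hb hp]
        apply mul_neg_of_pos_of_neg hab'
        rw [B_sub, B_sub, B_sub, B_sub, B_neg, B_neg]
        show (x k' - x k) * (-y p - y k) - (y k' - y k) * (-x p - x k) < 0
        rw [xp, yp]
        nlinarith [mul_pos y1 x2, mul_pos (neg_pos.2 y2) x1]
      have lim : Tendsto (fun t : ℝ => (1 - t) • (-p)) (𝓝[>] 0) (𝓝 (-p)) := by
        have : Continuous fun t : ℝ => (1 - t) • (-p) := by fun_prop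
        simpa using (this.tendsto 0).mono_left nhdsWithin_le_nhds
      apply hK.isClosed.mem_of_tendsto lim
      filter_upwards [ev_pos, ev_lt one_pos,
        ev_neg (f := fun t => cross (k' - k) ((1 - t) • (-p) - k)) (by fun_prop) (by simpa using neg)]
        with t t0 t1 t2
      apply cap _ _ t2.le
      rw [mem_int, smul_B, B_smul, neg_B, B_neg, hp]
      nlinarith
  have kG : IsCompact (K ∩ {k | B a b k k = 1}) :=
    hK.inter_right (isClosed_eq (by fun_prop) continuous_const)
  obtain ⟨P, ⟨⟨mP, hP⟩, yP⟩, minP⟩ := (kG.inter_right (t := {k | 0 ≤ y k})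
    (isClosed_le continuous_const (by fun_prop))).exists_isMinOn ⟨p, ⟨mp, hp⟩, yp.ge⟩
    (f := x) (by fun_prop)
  obtain ⟨M, ⟨⟨mM, hM⟩, yM⟩, minM⟩ := (kG.inter_right (t := {k | y k ≤ 0})
    (isClosed_le (by fun_prop) continuous_const)).exists_isMinOn ⟨p, ⟨mp, hp⟩, yp.le⟩
    (f := x) (by fun_prop)
  simp only [mem_ofPred_eq] at hP yP hM yM
  have y1 : 0 < y k1 := by rw [cross_eq ha hb] at c1; exact (mul_pos_iff_of_pos_left hab').1 c1
  have y2 : y k2 < 0 := by
    rw [cross_eq ha hb] at c2
    by_contra h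
    exact absurd c2 (not_lt.2 (mul_nonneg hab'.le (not_lt.1 h)))
  have one : ∀ k ∈ K, B a b k k = 1 → y k = 0 → x k = 1 := by
    intro k mk hk h0
    have s := sq k hk
    rw [h0] at s
    have : (x k - 1) * (x k + 1) = 0 := by linear_combination s
    rcases mul_eq_zero.1 this with e | e
    · linarith
    · exfalso
      apply anti p mp hp
      have : -p = k := by
        rw [decomp ha hb hp k]
        show -p = x k • p + y k • T
        rw [h0, show x k = -1 by linarith]; simp
      rw [this]; exact mk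
  have yP' : 0 < y P := by
    refine lt_of_le_of_ne yP fun h => ?_
    have e1 := one P mP hP h.symm
    have e2 : x P ≤ x k1 := minP ⟨⟨m1, h1⟩, y1.le⟩
    have := sq k1 h1
    nlinarith
  have yM' : y M < 0 := by
    refine lt_of_le_of_ne yM fun h => ?_
    have e1 := one M mM hM h
    have e2 : x M ≤ x k2 := minM ⟨⟨m2, h2⟩, y2.le⟩
    have := sq k2 h2
    nlinarith
  refine ⟨(y P - y M) • p + (x M - x P) • T, fun k mk hk => ?_⟩
  rw [B_add, B_smul, B_smul, B_comm k p, B_comm k T]
  show 0 < (y P - y M) * x k + (x M - x P) * y k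
  rcases lt_trichotomy 0 (y k) with h | h | h
  · have e1 := pair k mk M mM hk hM h yM'
    have e2 := ext_alg (sq k hk) (sq P hP) h.le yP (minP ⟨⟨mk, hk⟩, h.le⟩)
    linarith
  · rw [← h, one k mk hk h.symm]; linarith
  · have e1 := pair P mP k mk hP hk yP' h
    have e2 := ext_alg (x := x k) (y := -y k) (X := x M) (Y := -y M) (by rw [neg_sq]; exact sq k hk)
      (by rw [neg_sq]; exact sq M hM) (by linarith) (by linarith) (minM ⟨⟨mk, hk⟩, h.le⟩)
    linarith

end Pool.Agent.MP_7791e4_an
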