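import Pool.Agent.MP_7791e4_an.Dido

set_option autoImplicit false

namespace Pool.Agent.MP_7791e4_an

open Set MeasureTheory Real Metric Filter Topology Pointwise

variable {a b : ℝ}

structure Cf (a b s t : ℝ) (c : ℂ) (r x y : ℝ) : Prop where
  hb : 0 < b
  hab : b ≤ a
  st : s < t
  ts : t < s + π
  r0 : 0 < r
  xy : x < y
  yx : y < x + 2 * π
  eP : circ c r x = pt a b t
  eQ : circ c r y = pt a b s
  int : ∀ θ ∈ Ioo x y, circ c r θ ∈ interior (ell a b)
  nz : x + y = 2 * ph a b ((s + t) / 2) + 2 * π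

/-- the region bounded by an arc of the ellipse and a circular arc. -/
def KK (a b s t : ℝ) (c : ℂ) (r x y : ℝ) : Set ℂ := cap a b s t ∪ seg c r x y

lemma norm_angle (ha : 0 < a) (hb : 0 < b) {s t : ℝ} {c : ℂ} {r x y : ℝ} (st : s < t)
    (ts : t < s + 2 * π) (r0 : 0 < r) (xy : x < y) (yx : y < x + 2 * π)
    (eP : circ c r x = pt a b t) (eQ : circ c r y = pt a b s) :
    ∃ n : ℤ, (x + n * (2 * π)) + (y + n * (2 * π)) = 2 * ph a b ((s + t) / 2) + 2 * π := by
  have e1 := circ_sub c r x y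
  have e2 := pt_sub ha hb s t
  rw [tg_eq ha hb, smul_smul] at e2
  have n0 := nu_pt_pos ha hb ((s + t) / 2)
  have s1 := sin_pos_of_pos_of_lt_pi (x := (y - x) / 2) (by linarith) (by linarith)
  have s2 := sin_pos_of_pos_of_lt_pi (x := (t - s) / 2) (by linarith) (by linarith)
  set k1 := 2 * r * sin ((y - x) / 2)
  set k2 := 2 * sin ((t - s) / 2) * (a * b * ‖nu a b (pt a b ((s + t) / 2))‖)
  have p1 : 0 < k1 := by positivity
  have p2 : 0 < k2 := by positivity
  have e3 : k1 • ev ((x + y) / 2 + π / 2) = k2 • ev (ph a b ((s + t) / 2) + π / 2 + π) := by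
    rw [← e1, eP, eQ, ev_add_pi, smul_neg, ← e2, neg_sub]
  have e4 := congrArg norm e3
  rw [norm_smul, norm_smul, norm_ev, norm_ev, Real.norm_of_nonneg p1.le,
    Real.norm_of_nonneg p2.le, mul_one, mul_one] at e4
  rw [e4] at e3
  have e5 := smul_right_injective ℂ p2.ne' e3
  have e6 := dot_ev_ev (ph a b ((s + t) / 2) + π / 2 + π) ((x + y) / 2 + π / 2)
  rw [e5, dot_ev_ev, sub_self, cos_zero] at e6
  obtain ⟨n, hn⟩ := (cos_eq_one_iff _).1 e6.symm
  exact ⟨n, by linarith⟩

lemma hs_dir {K : Set ℂ} (hK : IsCompact K) (nK : K.Nonempty) {t : ℝ} (ht : 0 ≤ t) (u : ℂ) :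
    hs K (t • u) = t * hs K u := by
  obtain ⟨z, hz, e⟩ := exists_hs hK nK u
  apply le_antisymm
  · exact hs_le nK fun w hw => by
      rw [smul_dot]; exact mul_le_mul_of_nonneg_left (le_hs hK hw u) ht
  · rw [← e, ← smul_dot]; exact le_hs hK hz _

lemma B_eq_dot (u : ℝ) (z : ℂ) :
    B a b (pt a b u) z = ‖nu a b (pt a b u)‖ * dot (ev (ph a b u)) z := by
  rw [← dot_nu, ← smul_dot, ← nu_eq]

lemma ell_supp (ha : 0 < a) (hb : 0 < b) (u : ℝ) {z : ℂ} (hz : z ∈ ell a b) :
    dot (ev (ph a b u)) z ≤ dot (ev (ph a b u)) (pt a b u) := by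
  have h := B_le_one (pt_mem ha hb u) hz
  rw [← B_pt_self ha hb u, B_eq_dot, B_eq_dot] at h
  exact le_of_mul_le_mul_left h (nu_pt_pos ha hb u)

lemma ell_supp' (ha : 0 < a) (hb : 0 < b) (u : ℝ) {z : ℂ} (hz : z ∈ ell a b) (h : z ≠ pt a b u) :
    dot (ev (ph a b u)) z < dot (ev (ph a b u)) (pt a b u) := by
  have h := B_lt_one ha hb (pt_mem ha hb u) hz h.symm
  rw [← B_pt_self ha hb u, B_eq_dot, B_eq_dot] at h
  exact lt_of_mul_lt_mul_left h (nu_pt_pos ha hb u).le

lemma corner {x θ y : ℝ} (h1 : x ≤ θ) (h2 : θ ≤ y) (h : y < x + π) {w : ℂ} (d1 : dot (ev x) w ≤ 0)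
    (d2 : dot (ev y) w ≤ 0) : dot (ev θ) w ≤ 0 := by
  rcases (h1.trans h2).eq_or_lt with e | e
  · rwa [show θ = x by linarith]
  have := congrArg (fun u => dot u w) (ev_comb x θ y)
  simp only [smul_dot, add_dot] at this
  have s0 := sin_pos_of_pos_of_lt_pi (x := y - x) (by linarith) (by linarith)
  have s1 := sin_nonneg_of_nonneg_of_le_pi (x := y - θ) (by linarith) (by linarith)
  have s2 := sin_nonneg_of_nonneg_of_le_pi (x := θ - x) (by linarith) (by linarith)
  by_contra hc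
  nlinarith [mul_nonneg s1 (neg_nonneg.2 d1), mul_nonneg s2 (neg_nonneg.2 d2),
    mul_pos s0 (not_le.1 hc)]

namespace Cf

variable {s t : ℝ} {c : ℂ} {r x y : ℝ} (C : Cf a b s t c r x y)
include C

lemma ha : 0 < a := by linarith [C.hb, C.hab]

lemma ts' : t < s + 2 * π := by linarith [C.ts, pi_pos]

lemma arc_mem {θ : ℝ} (h : θ ∈ Icc x y) : circ c r θ ∈ ell a b := by
  rcases h.1.eq_or_lt with e | e
  · rw [← e, C.eP]; exact pt_mem C.ha C.hb _
  rcases h.2.eq_or_lt with e' | e'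
  · rw [e', C.eQ]; exact pt_mem C.ha C.hb _
  exact interior_subset (C.int θ ⟨e, e'⟩)

lemma seg_sub : seg c r x y ⊆ ell a b :=
  seg_subset c C.r0 C.xy C.yx convex_ell fun _ h => C.arc_mem h

lemma seg_HP' : seg c r x y ⊆ HP (pt a b t) (pt a b s) := by
  rw [← C.eP, ← C.eQ]; exact inter_subset_right

lemma P_seg : pt a b t ∈ seg c r x y := C.eP ▸ circ_mem_seg c C.r0 C.yx ⟨le_rfl, C.xy.le⟩

lemma Q_seg : pt a b s ∈ seg c r x y := C.eQ ▸ circ_mem_seg c C.r0 C.yx ⟨C.xy.le, le_rfl⟩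

lemma feas : Feas a b (cap a b s t) (KK a b s t c r x y) :=
  ⟨(isCompact_cap C.hb C.hab _ _).union (isCompact_seg _ _ _ _),
    union_convex C.ha C.hb (convex_cap _ _) (convex_seg _ _ _ _) inter_subset_left C.seg_sub
      (B_pt_self C.ha C.hb s) (B_pt_self C.ha C.hb t) (pt_ne C.ha C.hb C.st C.ts')
      inter_subset_right C.seg_HP' ⟨pt_mem C.ha C.hb _, left_mem_HP _ _⟩
      ⟨pt_mem C.ha C.hb _, right_mem_HP _ _⟩ C.Q_seg C.P_seg,
    subset_union_left, union_subset inter_subset_left C.seg_sub⟩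

lemma area : volume.real (KK a b s t c r x y)
    = a * b / 2 * (t - s - sin (t - s)) + r ^ 2 / 2 * (y - x - sin (y - x)) := by
  rw [KK, ar_union (pt_ne C.ha C.hb C.st C.ts') (isCompact_cap C.hb C.hab _ _)
    (isCompact_seg _ _ _ _) inter_subset_right C.seg_HP', ar_cap C.hb C.hab C.st C.ts',
    ar_seg c C.r0 C.xy C.yx]

lemma pt_mem' {u : ℝ} (h : u ∈ Icc s t) : pt a b u ∈ KK a b s t c r x y :=
  Or.inl (pt_mem_cap C.ha C.hb C.ts' h)

lemma circ_mem {θ : ℝ} (h : θ ∈ Icc x y) : circ c r θ ∈ KK a b s t c r x y :=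
  Or.inr (circ_mem_seg c C.r0 C.yx h)

lemma contact (z : ℂ) (hz : B a b z z = 1) :
    z ∈ KK a b s t c r x y ↔ z ∈ HP (pt a b s) (pt a b t) := by
  refine ⟨fun h => h.elim (fun h => h.2) fun h => ?_, fun h => Or.inl ⟨mem_ell.2 hz.le, h⟩⟩
  obtain ⟨θ, hθ, rfl⟩ := extreme C.ha C.hb (X := circ c r '' Icc x y)
    (isCompact_Icc.image (by fun_prop)) ((nonempty_Icc.2 C.xy.le).image _)
    (by rintro _ ⟨θ, hθ, rfl⟩; exact C.arc_mem hθ)
    (seg_subset c C.r0 C.xy C.yx convex_closedConvexHull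
      (fun θ hθ => subset_closedConvexHull (mem_image_of_mem _ hθ)) h) hz
  rcases hθ.1.eq_or_lt with e | e
  · rw [← e, C.eP]; exact right_mem_HP _ _
  rcases hθ.2.eq_or_lt with e' | e'
  · rw [e', C.eQ]; exact left_mem_HP _ _
  exact absurd hz (mem_int.1 (C.int θ ⟨e, e'⟩)).ne

lemma supp {θ : ℝ} (h : θ ∈ Icc x y) {z : ℂ} (hz : z ∈ KK a b s t c r x y) :
    dot (ev θ) z ≤ dot (ev θ) c + r := by
  have cl : IsClosed {θ | dot (ev θ) z ≤ dot (ev θ) c + r} := isClosed_le (by fun_prop) (by fun_prop)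
  refine closure_minimal (fun θ hθ => ?_) cl (closure_Ioo C.xy.ne ▸ h)
  by_contra hc
  have n := circ_chord_neg c C.r0 C.yx hθ.1 hθ.2
  obtain ⟨l, l0, l1, l2⟩ := (ev_pos.and ((ev_lt one_pos).and (ev_neg
    (f := fun l => cross (circ c r y - circ c r x)
      (circ c r θ + l • (z - circ c r θ) - circ c r x)) (by fun_prop) (by simpa using n)))).exists
  rcases C.feas.cvx.add_smul_sub_mem (C.circ_mem (Ioo_subset_Icc_self hθ)) hz ⟨l0.le, l1.le⟩
    with m | m
  · have : cross _ _ ≤ 0 := m.2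
    rw [← C.eP, ← C.eQ, cross_flip] at this
    linarith
  · have m1 := le_hs (isCompact_closedBall c r) m.1 (ev θ)
    rw [hs_closedBall c C.r0.le, norm_ev, dot_add, dot_smul, dot_sub, dot_circ, sub_self,
      cos_zero] at m1
    simp only [mem_ofPred_eq, not_le] at hc
    nlinarith

lemma ph_bounds : ph a b ((s + t) / 2) < ph a b t ∧ ph a b t < ph a b ((s + t) / 2) + π ∧
    ph a b s < ph a b ((s + t) / 2) ∧ ph a b ((s + t) / 2) < ph a b s + π := by
  have m := strictMono_ph C.ha C.hb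
  have := C.st
  have := C.ts'
  exact ⟨m (by linarith), by rw [← ph_add_pi]; exact m (by linarith), m (by linarith),
    by rw [← ph_add_pi]; exact m (by linarith)⟩

lemma ord1 : ph a b t ≤ x := by
  obtain ⟨b1, b2, -, -⟩ := C.ph_bounds
  have := C.nz; have := C.xy; have := C.yx
  by_contra hc
  push Not at hc
  have m1 := min_le_left (ph a b t) y
  have m2 := min_le_right (ph a b t) y
  have m3 : x < min (ph a b t) y := lt_min hc C.xy
  have h := ell_supp C.ha C.hb t (C.arc_mem (θ := min (ph a b t) y) ⟨m3.le, m2⟩)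
  rw [← C.eP, dot_circ, dot_circ] at h
  have := cos_lt_cos_of_nonneg_of_le_pi (x := ph a b t - min (ph a b t) y) (y := ph a b t - x)
    (by linarith) (by linarith) (by linarith)
  nlinarith [C.r0]

lemma ord2 : y ≤ ph a b s + 2 * π := by
  obtain ⟨-, -, b1, b2⟩ := C.ph_bounds
  have := C.nz; have := C.xy; have := C.yx
  by_contra hc
  push Not at hc
  have m1 := le_max_left (ph a b s + 2 * π) x
  have m2 := le_max_right (ph a b s + 2 * π) x
  have m3 : max (ph a b s + 2 * π) x < y := max_lt hc C.xy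
  have h := ell_supp C.ha C.hb s (C.arc_mem (θ := max (ph a b s + 2 * π) x) ⟨m2, m3.le⟩)
  rw [← C.eQ, ← ev_periodic (ph a b s), dot_circ, dot_circ, ← cos_neg,
    ← cos_neg (ph a b s + 2 * π - y)] at h
  have := cos_lt_cos_of_nonneg_of_le_pi (x := -(ph a b s + 2 * π - max (ph a b s + 2 * π) x))
    (y := -(ph a b s + 2 * π - y)) (by linarith) (by linarith) (by linarith)
  nlinarith [C.r0]

lemma gap1 : x < ph a b t + π := by
  obtain ⟨b1, -, -, -⟩ := C.ph_bounds
  linarith [C.nz, C.xy]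

lemma gap2 : ph a b s + 2 * π < y + π := by
  obtain ⟨-, -, b1, -⟩ := C.ph_bounds
  linarith [C.nz, C.xy]

lemma suppP {z : ℂ} (hz : z ∈ KK a b s t c r x y) : dot (ev x) (z - pt a b t) ≤ 0 := by
  have := C.supp ⟨le_rfl, C.xy.le⟩ hz
  rw [dot_sub, ← C.eP, dot_circ, sub_self, cos_zero]; linarith

lemma suppQ {z : ℂ} (hz : z ∈ KK a b s t c r x y) : dot (ev y) (z - pt a b s) ≤ 0 := by
  have := C.supp ⟨C.xy.le, le_rfl⟩ hz
  rw [dot_sub, ← C.eQ, dot_circ, sub_self, cos_zero]; linarith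

lemma corner1 {θ : ℝ} (h : θ ∈ Icc (ph a b t) x) {z : ℂ} (hz : z ∈ KK a b s t c r x y) :
    dot (ev θ) z ≤ dot (ev θ) (pt a b t) := by
  rw [← sub_nonpos, ← dot_sub]
  refine corner h.1 h.2 C.gap1 ?_ (C.suppP hz)
  rw [dot_sub, sub_nonpos]; exact ell_supp C.ha C.hb t (C.feas.sub hz)

lemma corner2 {θ : ℝ} (h : θ ∈ Icc y (ph a b s + 2 * π)) {z : ℂ} (hz : z ∈ KK a b s t c r x y) :
    dot (ev θ) z ≤ dot (ev θ) (pt a b s) := by
  rw [← sub_nonpos, ← dot_sub]
  refine corner h.1 h.2 C.gap2 (C.suppQ hz) ?_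
  rw [dot_sub, sub_nonpos, ev_periodic]; exact ell_supp C.ha C.hb s (C.feas.sub hz)

lemma nonempty : (KK a b s t c r x y).Nonempty := ⟨_, C.pt_mem' ⟨le_rfl, C.st.le⟩⟩

lemma hs_arc {θ : ℝ} (h : θ ∈ Icc x y) : hs (KK a b s t c r x y) (ev θ) = dot (ev θ) c + r := by
  refine le_antisymm (hs_le C.nonempty fun z hz => C.supp h hz) ?_
  have := le_hs C.feas.cpt (C.circ_mem h) (ev θ)
  rwa [dot_circ, sub_self, cos_zero, mul_one] at this

lemma hs_ell {u : ℝ} (h : u ∈ Icc s t) : hs (KK a b s t c r x y) (nu a b (pt a b u)) = 1 := by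
  refine le_antisymm (hs_le C.nonempty fun z hz => ?_) ?_
  · rw [dot_nu]; exact B_le_one (pt_mem C.ha C.hb u) (C.feas.sub hz)
  · have := le_hs C.feas.cpt (C.pt_mem' h) (nu a b (pt a b u))
    rwa [dot_nu, B_pt_self C.ha C.hb] at this

lemma feas' {α β : ℝ} (hs : s ≤ α) (h : α < β) (ht : β ≤ t) :
    Feas a b (cap a b α β) (KK a b s t c r x y) :=
  ⟨C.feas.cpt, C.feas.cvx, cap_subset C.ha C.hb h (by linarith [C.ts']) C.feas.cvx
    fun u hu => C.pt_mem' ⟨by linarith [hu.1], by linarith [hu.2]⟩, C.feas.sub⟩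

lemma first_var {L : Set ℂ} (hL : IsCompact L) (cL : Convex ℝ L) (nL : L.Nonempty)
    (hA : volume.real (KK a b s t c r x y) ≤ volume.real L) :
    0 ≤ (∫ u in s..t, a * b * (hs L (nu a b (pt a b u)) - 1))
      + r * ∫ θ in x..y, (hs L (ev θ) - hs (KK a b s t c r x y) (ev θ)) := by
  have ha := C.ha; have hb := C.hb; have r0 := C.r0
  set K := KK a b s t c r x y with hK
  have cL' := continuous_hs hL nL
  let D1 : ℝ → ℝ := fun u => hs L (nu a b (pt a b u)) - 1
  let D2 : ℝ → ℝ := fun θ => (hs L (ev θ) - dot (ev θ) c - r) / r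
  have c1 : Continuous D1 := (cL'.comp (by fun_prop)).sub continuous_const
  have c2 : Continuous D2 := (((cL'.comp continuous_ev).sub (by fun_prop)).sub
    continuous_const).div_const _
  have e : r * ∫ θ in x..y, (hs L (ev θ) - hs K (ev θ)) = ∫ θ in x..y, r * r * D2 θ := by
    rw [← intervalIntegral.integral_const_mul]
    refine intervalIntegral.integral_congr fun θ hθ => ?_
    rw [uIcc_of_le C.xy.le] at hθ
    simp only [D2, hK, C.hs_arc hθ]; field_simp; ring
  rw [e]
  apply le_of_forall_small (c := (∫ u in s..t, a * b / 2 * (D1 u ^ 2 / gg s t u))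
    + ∫ u in x..y, r * r / 2 * (D2 u ^ 2 / gg x y u))
  intro ε e0 e1
  set M := (1 - ε) • K + ε • L with hM
  have kM : IsCompact M := (C.feas.cpt.smul _).add (hL.smul _)
  have hsM : ∀ z ∈ M, ∀ u, dot u z ≤ (1 - ε) * hs K u + ε * hs L u := fun z hz u => by
    have := le_hs kM hz u
    rwa [hM, hs_add (C.feas.cpt.smul _) C.nonempty.smul_set (hL.smul _) nL.smul_set,
      hs_smul C.feas.cpt C.nonempty (by linarith), hs_smul hL nL e0.le] at this
  have f1 := fv ha hb C.st C.ts' 0 (M := M) c1 ε fun z hz u hu => by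
    have := hsM z hz (nu a b (pt a b u))
    rw [C.hs_ell hu, dot_nu] at this
    simp only [D1, sub_zero]; linarith
  have f2 := fv r0 r0 C.xy C.yx c (M := M) c2 ε fun z hz θ hθ => by
    have := hsM z hz (ev θ)
    rw [C.hs_arc hθ] at this
    have e : B r r (pt r r θ) (z - c) = (dot (ev θ) z - dot (ev θ) c) / r := by
      simp only [B, dot, pt_re, pt_im, ev_re, ev_im, Complex.sub_re, Complex.sub_im]
      field_simp; ring
    rw [e, div_le_iff₀ r0]
    simp only [D2]; field_simp; linarith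
  have b1 := bm_comb C.feas.cpt C.feas.cvx C.nonempty hL cL nL (s := 1 - ε) (by linarith) e0.le
  have b2 : volume.real K ≤ volume.real M := by
    have := mul_le_mul_of_nonneg_left (Real.sqrt_le_sqrt hA) e0.le
    exact (Real.sqrt_le_sqrt_iff measureReal_nonneg).1 (by linarith)
  have b3 := measureReal_union_le (μ := volume) (M ∩ HP (pt a b s) (pt a b t))
    (M ∩ HP (pt a b t) (pt a b s))
  rw [inter_HP_union] at b3
  rw [zero_add, zero_add] at f1
  change volume.real (M ∩ HP (circ c r x) (circ c r y)) ≤ _ at f2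
  rw [C.eP, C.eQ] at f2
  rw [hK, C.area] at b2
  apply le_of_mul_le_mul_left _ e0
  simp only [D1] at f1 ⊢
  nlinarith

lemma suff {α β : ℝ} (hs' : s ≤ α) (ht : β ≤ t) (T1 : β < t → x = ph a b t)
    (T2 : s < α → y = ph a b s + 2 * π) {L : Set ℂ} (F : Feas a b (cap a b α β) L)
    (hA : volume.real (KK a b s t c r x y) ≤ volume.real L) :
    per (KK a b s t c r x y) + (∫ u in s..t, (1 - hs L (nu a b (pt a b u))) * (a * b)
      * (1 / r - 1 / crv a b u)) ≤ per L := by
  have ha := C.ha; have hb := C.hb; have r0 := C.r0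
  have h2 : β < α + 2 * π := by linarith [C.ts']
  have pL : pt a b β ∈ L := F.sup ⟨pt_mem ha hb _, right_mem_HP _ _⟩
  have qL : pt a b α ∈ L := F.sup ⟨pt_mem ha hb _, left_mem_HP _ _⟩
  have nL : L.Nonempty := ⟨_, pL⟩
  have fv := C.first_var F.cpt F.cvx nL hA
  set K := KK a b s t c r x y with hK
  let d : ℝ → ℝ := fun θ => hs L (ev θ) - hs K (ev θ)
  have cd : Continuous d := (continuous_hs_ev F.cpt nL).sub (continuous_hs_ev C.feas.cpt C.nonempty)
  have id' := fun u v => cd.intervalIntegrable (μ := volume) u v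
  have e1 : per L - per K = ∫ θ in ph a b s..ph a b s + 2 * π, d θ := by
    rw [per_window L (ph a b s), per_window K (ph a b s), intervalIntegral.integral_sub
      (ii_hs F.cpt nL _ _) (ii_hs C.feas.cpt C.nonempty _ _)]
  rw [← intervalIntegral.integral_add_adjacent_intervals (id' _ (ph a b t)) (id' _ _),
    ← intervalIntegral.integral_add_adjacent_intervals (id' (ph a b t) x) (id' _ _),
    ← intervalIntegral.integral_add_adjacent_intervals (id' x y) (id' _ _)] at e1
  have i1 : 0 ≤ ∫ θ in ph a b t..x, d θ := by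
    rcases ht.eq_or_lt with e | e
    · refine intervalIntegral.integral_nonneg C.ord1 fun θ hθ => sub_nonneg.2 ?_
      exact (hs_le C.nonempty fun z hz => C.corner1 hθ hz).trans (le_hs F.cpt (e ▸ pL) _)
    · rw [T1 e, intervalIntegral.integral_same]
  have i2 : 0 ≤ ∫ θ in y..ph a b s + 2 * π, d θ := by
    rcases hs'.eq_or_lt with e | e
    · refine intervalIntegral.integral_nonneg C.ord2 fun θ hθ => sub_nonneg.2 ?_
      exact (hs_le C.nonempty fun z hz => C.corner2 hθ hz).trans (le_hs F.cpt (e ▸ qL) _)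
    · rw [T2 e, intervalIntegral.integral_same]
  have n0 := nu_pt_pos ha hb
  have cn : Continuous fun u => ‖nu a b (pt a b u)‖ := by fun_prop
  have cL : Continuous fun u => hs L (nu a b (pt a b u)) :=
    (continuous_hs F.cpt nL).comp (by fun_prop)
  have cc : Continuous fun u => 1 / crv a b u := by
    simp only [crv_eq ha hb]
    exact continuous_const.div (by fun_prop) fun u => by have := n0 u; positivity
  have i3 := intervalIntegral.integral_comp_mul_deriv (a := s) (b := t)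
    (fun u _ => hasDerivAt_ph ha hb u) (Continuous.continuousOn
      (continuous_const.div (by fun_prop) fun u => by have := n0 u; positivity)) cd
  have i4 : (∫ u in s..t, (1 - hs L (nu a b (pt a b u))) * (a * b) * (1 / r - 1 / crv a b u))
      = (∫ θ in ph a b s..ph a b t, d θ)
        - 1 / r * ∫ u in s..t, a * b * (hs L (nu a b (pt a b u)) - 1) := by
    rw [← i3, ← intervalIntegral.integral_const_mul, ← intervalIntegral.integral_sub]
    · refine intervalIntegral.integral_congr fun u hu => ?_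
      rw [uIcc_of_le C.st.le] at hu
      have k1 := hs_dir F.cpt nL (n0 u).le (ev (ph a b u))
      have k2 := hs_dir C.feas.cpt C.nonempty (n0 u).le (ev (ph a b u))
      rw [← nu_eq] at k1 k2
      rw [C.hs_ell hu] at k2
      simp only [Function.comp, d, crv_eq ha hb, k1]
      have := n0 u
      field_simp
      linear_combination (-r) * k2
    · exact ((cd.comp (continuous_ph ha hb)).mul (continuous_const.div (by fun_prop)
        fun u => by have := n0 u; positivity)).intervalIntegrable _ _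
    · apply Continuous.intervalIntegrable; fun_prop
  rw [i4]
  have := mul_nonneg (one_div_pos.2 r0).le fv
  rw [mul_add, ← mul_assoc, one_div_mul_cancel r0.ne', one_mul] at this
  simp only [d] at e1 i1 i2 ⊢
  linarith

end Cf

end Pool.Agent.MP_7791e4_an
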