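import Pool.Agent.MP_7791e4_an.Ell

set_option autoImplicit false

namespace Pool.Agent.MP_7791e4_an

open Set MeasureTheory Real Metric Filter Topology Pointwise

variable {a b : ℝ}

lemma shell (hb : 0 < b) (hab : b ≤ a) {f : ℂ} (hf : f ∈ ell a b) {δ τ : ℝ} (hδ : 0 < δ)
    (hδ1 : δ ≤ 1) (hτ : 0 ≤ τ) :
    volume.real {z : ℂ | z ∉ ell a b ∧ ‖z - f‖ ≤ δ ∧ ∃ k ∈ ell a b, ∃ e ∈ ell a b, z = k + τ • e}
      ≤ π * (1 + a) ^ 2 * (2 * τ * δ + τ ^ 2) ∧
    volume {z : ℂ | z ∉ ell a b ∧ ‖z - f‖ ≤ δ ∧ ∃ k ∈ ell a b, ∃ e ∈ ell a b, z = k + τ • e}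
      ≠ ⊤ := by
  have ha : 0 < a := by linarith
  set μ : ℝ := (δ + τ) / δ with hμ
  have μ1 : 1 ≤ μ := by rw [hμ, le_div_iff₀ hδ]; linarith
  have μ0 : 0 < μ := by linarith
  set o : ℂ := (1 - δ) • f with ho
  set S := ell a b ∩ closedBall f (δ * (1 + a)) with hS
  have kS : IsCompact S := (isCompact_ell hb hab).inter_right isClosed_closedBall
  have cS : Convex ℝ S := convex_ell.inter (convex_closedBall _ _)
  have oB : o ∈ closedBall f (δ * (1 + a)) := by
    rw [mem_closedBall, dist_eq_norm, show o - f = (-δ) • f by rw [ho]; simp [sub_smul],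
      norm_smul, Real.norm_eq_abs, abs_neg, abs_of_pos hδ]
    have := norm_le_of_mem hb hab hf
    nlinarith
  have oS : o ∈ S := ⟨convex_ell.smul_mem_of_zero_mem zero_mem_ell hf ⟨by linarith, by linarith⟩, oB⟩
  let h : ℂ → ℂ := fun y => (μ : ℂ) * y + (1 - μ) • o
  have μc : (μ : ℂ) ≠ 0 := by exact_mod_cast μ0.ne'
  have inv : ∀ z, h ((1 - 1 / μ) • o + (1 / μ) • z) = z := fun z => by
    simp only [h, Complex.real_smul]; push_cast; field_simp; ring
  have w0 : 0 ≤ 1 - 1 / μ := by rw [sub_nonneg, div_le_one μ0]; exact μ1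
  have w1 : 0 ≤ 1 / μ := by positivity
  have sub1 : S ⊆ h '' S := fun x hx => ⟨_, cS oS hx w0 w1 (by ring), inv x⟩
  have kh : IsCompact (h '' S) := kS.image (by fun_prop)
  have sub2 : {z : ℂ | z ∉ ell a b ∧ ‖z - f‖ ≤ δ ∧ ∃ k ∈ ell a b, ∃ e ∈ ell a b, z = k + τ • e}
      ⊆ h '' S \ S := by
    rintro z ⟨h1, h2, k, hk, e, he, rfl⟩
    refine ⟨⟨_, ⟨?_, convex_closedBall _ _ oB ?_ w0 w1 (by ring)⟩, inv _⟩, fun h => h1 h.1⟩
    · have m1 : (1 / (1 + τ)) • k + (τ / (1 + τ)) • e ∈ ell a b :=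
        convex_ell hk he (by positivity) (by positivity) (by field_simp)
      have m2 := convex_ell hf m1 (show 0 ≤ (1 - 1 / μ) * (1 - δ) from mul_nonneg w0 (by linarith))
        (show 0 ≤ (1 + τ) / μ by positivity) (by rw [hμ]; field_simp; ring)
      convert m2 using 1
      have : (1 + (τ:ℂ)) ≠ 0 := by exact_mod_cast (show (1 + τ) ≠ 0 by positivity)
      simp only [ho, Complex.real_smul]; push_cast; field_simp
    · rw [mem_closedBall, dist_eq_norm]; nlinarith
  refine ⟨?_, ((measure_mono (sub2.trans sdiff_subset)).trans_lt kh.measure_lt_top).ne⟩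
  refine (measureReal_mono sub2 ((measure_mono sdiff_subset).trans_lt kh.measure_lt_top).ne).trans ?_
  rw [measureReal_sdiff sub1 kS.measurableSet kh.measure_lt_top.ne, ar_mul, Complex.norm_real,
    Real.norm_eq_abs, sq_abs]
  have h3 : volume.real S ≤ π * (δ * (1 + a)) ^ 2 := by
    rw [← ar_closedBall f (by positivity)]
    exact measureReal_mono inter_subset_right (isCompact_closedBall _ _).measure_lt_top.ne
  have h4 : 0 ≤ μ ^ 2 - 1 := by nlinarith
  calc μ ^ 2 * volume.real S - volume.real S = (μ ^ 2 - 1) * volume.real S := by ring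
    _ ≤ (μ ^ 2 - 1) * (π * (δ * (1 + a)) ^ 2) := mul_le_mul_of_nonneg_left h3 h4
    _ = _ := by rw [hμ]; field_simp; ring

lemma clip (hb : 0 < b) (hab : b ≤ a) {K D : Set ℂ} (hK : IsCompact K) (hD : IsCompact D)
    (hKE : K ⊆ ell a b) {f1 f2 : ℂ} (hf1 : f1 ∈ ell a b) (hf2 : f2 ∈ ell a b)
    (h : ∀ k ∈ K, B a b k k = 1 → k ≠ f1 → k ≠ f2 → ∀ d ∈ D, B a b k d < 1) {ε : ℝ} (hε : 0 < ε) :
    ∀ᶠ t : ℝ in 𝓝[>] 0, volume.real (((1 - t) • K + t • D) \ ell a b) ≤ ε * t := by
  have ha : 0 < a := by linarith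
  obtain ⟨R, hR0, hR⟩ := hD.isBounded.exists_pos_norm_le
  set C : ℝ := (R + a) / b with hC
  have C0 : 0 < C := by positivity
  have hE : ∀ k ∈ K, ∀ d ∈ D, C⁻¹ • (d - k) ∈ ell a b := by
    intro k hk d hd
    apply mem_of_norm_le hb hab
    rw [norm_smul, Real.norm_eq_abs, abs_of_pos (inv_pos.2 C0), inv_mul_le_iff₀ C0, hC,
      div_mul_cancel₀ _ hb.ne']
    exact (norm_sub_le _ _).trans (add_le_add (hR d hd) (norm_le_of_mem hb hab (hKE hk)))
  set M : ℝ := π * (1 + a) ^ 2 with hM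
  have M0 : 0 < M := by positivity
  set δ : ℝ := min 1 (ε / (8 * M * C)) with hδ
  have δ0 : 0 < δ := by positivity
  have δ1 : δ ≤ 1 := min_le_left _ _
  have δ2 : δ ≤ ε / (8 * M * C) := min_le_right _ _
  let T : Set (ℂ × ℂ) := (K ×ˢ D) ∩ {x | δ / 2 ≤ ‖x.1 - f1‖ ∧ δ / 2 ≤ ‖x.1 - f2‖}
  have kT : IsCompact T := (hK.prod hD).inter_right
    ((isClosed_le (g := fun x : ℂ × ℂ => ‖x.1 - f1‖) continuous_const (by fun_prop)).inter
      (isClosed_le (g := fun x : ℂ × ℂ => ‖x.1 - f2‖) continuous_const (by fun_prop)))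
  obtain ⟨μ, μ0, hμ⟩ : ∃ μ : ℝ, 0 < μ ∧ ∀ x ∈ T,
      min (B a b x.1 x.1 - 1) (B a b x.1 (x.2 - x.1)) ≤ -μ := by
    rcases T.eq_empty_or_nonempty with e | ne
    · exact ⟨1, one_pos, by simp [e]⟩
    obtain ⟨x, hx, hm⟩ := kT.exists_isMaxOn ne
      (f := fun x : ℂ × ℂ => min (B a b x.1 x.1 - 1) (B a b x.1 (x.2 - x.1))) (by fun_prop)
    refine ⟨-min (B a b x.1 x.1 - 1) (B a b x.1 (x.2 - x.1)), ?_, fun y hy => ?_⟩
    · rw [neg_pos, min_lt_iff]
      rcases eq_or_lt_of_le (mem_ell.1 (hKE hx.1.1)) with e | e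
      · right
        have := h _ hx.1.1 e (fun e1 => by have := hx.2.1; rw [e1] at this; simp at this; linarith)
          (fun e1 => by have := hx.2.2; rw [e1] at this; simp at this; linarith) _ hx.1.2
        rw [B_sub]; linarith
      · left; linarith
    · rw [neg_neg]; exact hm hy
  have ev1 : ∀ c : ℝ, 0 < c → ∀ᶠ t : ℝ in 𝓝[>] 0, t < c := fun c hc =>
    nhdsWithin_le_nhds (Iio_mem_nhds hc)
  filter_upwards [self_mem_nhdsWithin, ev1 (δ / (2 * C * a)) (by positivity),
    ev1 (μ / (3 * C)) (by positivity), ev1 (1 / C) (by positivity),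
    ev1 (μ / C ^ 2) (by positivity), ev1 (ε / (4 * M * C ^ 2)) (by positivity)]
    with t t0 t1 t2 t3 t4 t5
  have t0' : 0 < t := t0
  rw [lt_div_iff₀ (by positivity)] at t1 t2 t3 t4 t5
  obtain ⟨s1, s1'⟩ := shell hb hab hf1 δ0 δ1 (τ := C * t) (by positivity)
  obtain ⟨s2, s2'⟩ := shell hb hab hf2 δ0 δ1 (τ := C * t) (by positivity)
  have sub : ((1 - t) • K + t • D) \ ell a b ⊆
      {z : ℂ | z ∉ ell a b ∧ ‖z - f1‖ ≤ δ ∧ ∃ k ∈ ell a b, ∃ e ∈ ell a b, z = k + (C * t) • e} ∪
      {z : ℂ | z ∉ ell a b ∧ ‖z - f2‖ ≤ δ ∧ ∃ k ∈ ell a b, ∃ e ∈ ell a b, z = k + (C * t) • e} := by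
    rintro _ ⟨⟨_, ⟨k, hk, rfl⟩, _, ⟨d, hd, rfl⟩, rfl⟩, hz⟩
    have he := hE k hk d hd
    set e := C⁻¹ • (d - k) with hee
    have ed : d - k = C • e := by rw [hee, smul_smul, mul_inv_cancel₀ C0.ne', one_smul]
    have ez : (1 - t) • k + t • d = k + (C * t) • e := by
      rw [mul_comm, mul_smul, ← ed]; simp only [Complex.real_smul]; push_cast; ring
    simp only at hz ⊢
    rw [ez] at hz ⊢
    have near : ∀ f : ℂ, ‖k - f‖ < δ / 2 → ‖k + (C * t) • e - f‖ ≤ δ := by
      intro f hf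
      rw [show k + (C * t) • e - f = (k - f) + (C * t) • e by ring]
      refine (norm_add_le _ _).trans ?_
      rw [norm_smul, Real.norm_eq_abs, abs_of_pos (by positivity)]
      have := mul_le_mul_of_nonneg_left (norm_le_of_mem hb hab he) (show 0 ≤ C * t by positivity)
      linarith
    by_cases c1 : ‖k - f1‖ < δ / 2
    · exact Or.inl ⟨hz, near f1 c1, k, hKE hk, e, he, rfl⟩
    by_cases c2 : ‖k - f2‖ < δ / 2
    · exact Or.inr ⟨hz, near f2 c2, k, hKE hk, e, he, rfl⟩
    exfalso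
    apply hz
    have hm := hμ (k, d) ⟨⟨hk, hd⟩, not_lt.1 c1, not_lt.1 c2⟩
    simp only at hm
    rw [ed, B_smul] at hm
    have q1 := mem_ell.1 (hKE hk)
    have q2 := mem_ell.1 he
    have q3 := B_le_one (hKE hk) he
    have q4 := B_comb (a := a) (b := b) k e 1 (C * t)
    rw [one_smul] at q4
    rw [mem_ell, q4]
    have ct : 0 < C * t := by positivity
    have q5 := mul_le_mul_of_nonneg_left q2 (sq_nonneg (C * t))
    rcases min_le_iff.1 hm with c | c
    · have q6 := mul_le_mul_of_nonneg_left q3 ct.le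
      nlinarith
    · have q6 := mul_le_mul_of_nonneg_left c t0'.le
      nlinarith
  refine (measureReal_mono sub (measure_union_ne_top s1' s2')).trans
    ((measureReal_union_le _ _).trans ((add_le_add s1 s2).trans ?_))
  rw [le_div_iff₀ (by positivity)] at δ2
  rw [← hM]
  nlinarith [mul_le_mul_of_nonneg_left δ2 t0'.le, mul_le_mul_of_nonneg_left t5.le t0'.le]

lemma extreme (ha : 0 < a) (hb : 0 < b) {X : Set ℂ} (hX : IsCompact X) (nX : X.Nonempty)
    (hXE : X ⊆ ell a b) {z : ℂ} (hz : z ∈ closedConvexHull ℝ X) (h1 : B a b z z = 1) : z ∈ X := by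
  obtain ⟨k, hk, e⟩ := exists_hs hX nX (nu a b z)
  have h2 := le_hs (isCompact_cch hX) hz (nu a b z)
  rw [hs_cch hX nX, ← e, dot_nu, dot_nu, h1] at h2
  by_contra hc
  have := B_lt_one ha hb (mem_ell.2 h1.le) (hXE hk) (fun h => hc (h ▸ hk))
  linarith

lemma cch_subset {X : Set ℂ} (h : X ⊆ ell a b) : closedConvexHull ℝ X ⊆ ell a b :=
  closedConvexHull_min h convex_ell isClosed_ell

lemma compl_preconn {K : Set ℂ} (hK : IsCompact K) (cK : Convex ℝ K) (nK : K.Nonempty) :
    IsPreconnected Kᶜ := by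
  obtain ⟨R, R0, hR⟩ := hK.isBounded.exists_pos_norm_le
  obtain ⟨k, hk⟩ := nK
  let O : Set ℂ := (fun x : ℝ × ℝ => x.1 • ev x.2) '' (Ioi R ×ˢ univ)
  have cO : IsPreconnected O :=
    (isPreconnected_Ioi.prod isPreconnected_univ).image _ (by fun_prop)
  have mO : ∀ z, R < ‖z‖ → z ∈ O := fun z hz =>
    ⟨(‖z‖, Complex.arg z), ⟨hz, mem_univ _⟩, (eq_smul_ev z).symm⟩
  have sO : O ⊆ Kᶜ := by
    rintro _ ⟨x, hx, rfl⟩ h
    have h1 := hR _ h
    have h2 : R < x.1 := hx.1
    rw [norm_smul, norm_ev, Real.norm_eq_abs, abs_of_pos (by linarith), mul_one] at h1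
    linarith
  apply isPreconnected_of_forall ((R + 1 : ℝ) : ℂ)
  intro z hz
  let ray : Set ℂ := (fun t : ℝ => z + t • (z - k)) '' Ici 0
  have cr : IsPreconnected ray := isPreconnected_Ici.image _ (by fun_prop)
  have zk : 0 < ‖z - k‖ := norm_pos_iff.2 (sub_ne_zero.2 fun h => hz (h ▸ hk))
  refine ⟨O ∪ ray, union_subset sO ?_, Or.inl (mO _ ?_), Or.inr ⟨0, self_mem_Ici, by simp⟩,
    IsPreconnected.union (z + ((R + ‖z‖ + 1) / ‖z - k‖) • (z - k)) (mO _ ?_)
      ⟨_, show (0:ℝ) ≤ _ by positivity, rfl⟩ cO cr⟩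
  · rintro _ ⟨t, ht, rfl⟩ h
    have t0 : (0:ℝ) ≤ t := ht
    apply hz
    have := cK hk h (a := t / (1 + t)) (b := 1 / (1 + t)) (by positivity) (by positivity)
      (by field_simp; ring)
    convert this using 1
    have : (1 + (t:ℂ)) ≠ 0 := by exact_mod_cast (show (1 + t) ≠ 0 by positivity)
    simp only [Complex.real_smul]; push_cast; field_simp; ring
  · rw [Complex.norm_real, Real.norm_eq_abs, abs_of_pos (by linarith)]; linarith
  · have h1 := norm_sub_norm_le (((R + ‖z‖ + 1) / ‖z - k‖) • (z - k)) (-z)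
    rw [norm_smul, Real.norm_eq_abs, abs_of_pos (by positivity), div_mul_cancel₀ _ zk.ne',
      norm_neg, sub_neg_eq_add, add_comm _ z] at h1
    linarith

lemma adm_parts {p q : ℂ} {γ : Path p q} (h : Admissible a b γ) (ha : 0 < a) (hb : 0 < b) :
    ∃ U V : Set ℂ, IsOpen U ∧ IsOpen V ∧ IsPreconnected U ∧ IsPreconnected V ∧ Disjoint U V ∧
      U ∪ V = interior (ell a b) \ range γ ∧ volume.real U = π * a * b / 2 ∧
      volume.real V = π * a * b / 2 := by
  obtain ⟨-, -, -, U, V, hne, him, -, -, vU, vV⟩ := h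
  have oS : IsOpen (interior (ell a b) \ range γ) :=
    isOpen_interior.sdiff (isCompact_range γ.continuous).isClosed
  set S := interior (ell a b) \ range γ
  obtain ⟨x, hx, ex⟩ : U ∈ (fun z => connectedComponentIn S z) '' S := by rw [him]; simp
  obtain ⟨y, hy, ey⟩ : V ∈ (fun z => connectedComponentIn S z) '' S := by rw [him]; simp
  simp only at ex ey
  have hp : 0 ≤ π * a * b / 2 := by positivity
  refine ⟨U, V, ex ▸ oS.connectedComponentIn, ey ▸ oS.connectedComponentIn,
    ex ▸ isPreconnected_connectedComponentIn, ey ▸ isPreconnected_connectedComponentIn, ?_, ?_,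
    by rw [Measure.real, vU, ENNReal.toReal_ofReal hp],
    by rw [Measure.real, vV, ENNReal.toReal_ofReal hp]⟩
  · rw [disjoint_left]
    intro z h1 h2
    apply hne
    rw [← ex] at h1
    rw [← ey] at h2
    rw [← ex, ← ey, connectedComponentIn_eq h1, connectedComponentIn_eq h2]
  · apply subset_antisymm
    · exact union_subset (ex ▸ connectedComponentIn_subset _ _) (ey ▸ connectedComponentIn_subset _ _)
    · intro z hz
      have h1 : connectedComponentIn S z ∈ ({U, V} : Set (Set ℂ)) := him ▸ ⟨z, hz, rfl⟩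
      have h2 := mem_connectedComponentIn hz
      rcases h1 with e | e
      · exact Or.inl (e ▸ h2)
      · exact Or.inr (e ▸ h2)

lemma per_homothety {L : Set ℂ} (hL : IsCompact L) (nL : L.Nonempty) {l : ℝ} (hl : 0 ≤ l) (c : ℂ) :
    per ((fun z => (l : ℂ) * z + c) '' L) = l * per L := by
  have h : ∀ θ, hs ((fun z => (l : ℂ) * z + c) '' L) (ev θ) = l * hs L (ev θ) + dot (ev θ) c :=
    fun θ => hs_image hL nL (by fun_prop) hl fun z => by
      rw [dot_add, ← dot_smul, Complex.real_smul]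
  unfold per
  simp only [h]
  rw [intervalIntegral.integral_add ((ii_hs hL nL _ _).const_mul _)
    (by apply Continuous.intervalIntegrable; fun_prop), integral_dot_ev,
    intervalIntegral.integral_const_mul, add_zero]

/-- given the two components with `U` inside a convex set of the same area, the other component
is the outside. -/
lemma other_comp {K U V G : Set ℂ} (hK : IsCompact K) (cK : Convex ℝ K) (oU : IsOpen U)
    (oV : IsOpen V) (dj : Disjoint U V) (hUV : U ∪ V = interior (ell a b) \ G) (hG : G ⊆ K)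
    (hU : U ⊆ K) (nU : U.Nonempty) (hA : volume.real K ≤ volume.real U) :
    V = interior (ell a b) \ K := by
  have dK : ∀ z ∈ V, z ∉ K := by
    intro z hz hzK
    have h1 : z ∈ closure (interior K) := by
      rw [cK.closure_interior_eq_closure_of_nonempty_interior
        (nU.mono (interior_maximal hU oU))]
      exact subset_closure hzK
    have h2 := mem_closure_iff.1 h1 V oV hz
    have h3 : 0 < volume.real (V ∩ interior K) :=
      ENNReal.toReal_pos ((oV.inter isOpen_interior).measure_pos volume h2).ne'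
        ((measure_mono (inter_subset_right.trans interior_subset)).trans_lt hK.measure_lt_top).ne
    have h4 : volume.real (U ∪ V ∩ interior K) ≤ volume.real K :=
      measureReal_mono (union_subset hU (inter_subset_right.trans interior_subset))
        hK.measure_lt_top.ne
    rw [measureReal_union (dj.mono_right inter_subset_left)
      (oV.inter isOpen_interior).measurableSet ((measure_mono hU).trans_lt hK.measure_lt_top).ne
      ((measure_mono (inter_subset_right.trans interior_subset)).trans_lt hK.measure_lt_top).ne]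
      at h4
    linarith
  apply subset_antisymm
  · intro z hz
    have : z ∈ interior (ell a b) \ G := hUV ▸ Or.inr hz
    exact ⟨this.1, dK z hz⟩
  · intro z hz
    have : z ∈ U ∪ V := hUV ▸ ⟨hz.1, fun h => hz.2 (hG h)⟩
    exact this.resolve_left fun h => hz.2 (hU h)

end Pool.Agent.MP_7791e4_an
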