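import Pool.Agent.MP_7791e4_an.Arc

set_option autoImplicit false

namespace Pool.Agent.MP_7791e4_an

open Set MeasureTheory Real Metric Filter Topology Pointwise

variable {a b : ℝ}

lemma dot_I (w z : ℂ) : dot (Complex.I * w) z = cross w z := by simp [dot, cross]; ring

lemma int_cap {α β : ℝ} {K : Set ℂ} (h : cap a b α β ⊆ K) {z : ℂ} (h1 : z ∈ interior (ell a b))
    (h2 : cross (pt a b β - pt a b α) (z - pt a b α) < 0) : z ∈ interior K :=
  interior_maximal (t := interior (ell a b) ∩ {z | cross (pt a b β - pt a b α) (z - pt a b α) < 0})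
    (fun _ hz => h ⟨interior_subset hz.1, show cross _ _ ≤ 0 from le_of_lt hz.2⟩)
    (isOpen_interior.inter (isOpen_lt (by fun_prop) continuous_const)) ⟨h1, h2⟩

lemma sub_sin_lt {x y : ℝ} (h : x < y) : x - sin x < y - sin y := by
  have h1 := sin_sub_sin y x
  have h2 : sin ((y - x) / 2) * cos ((y + x) / 2) ≤ |sin ((y - x) / 2)| :=
    (le_abs_self _).trans (by
      rw [abs_mul]; exact mul_le_of_le_one_right (abs_nonneg _) (abs_cos_le_one _))
  have h3 := abs_sin_lt_abs (x := (y - x) / 2) (by linarith)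
  rw [abs_of_pos (by linarith : 0 < (y - x) / 2)] at h3
  linarith

lemma cap_small (hb : 0 < b) (hab : b ≤ a) {α β : ℝ} (h1 : α < β) (h2 : β < α + π) :
    volume.real (cap a b α β) < π * a * b / 2 := by
  have ha : 0 < a := by linarith
  rw [ar_cap hb hab h1 (by linarith [pi_pos])]
  have := sub_sin_lt (x := β - α) (y := π) (by linarith)
  rw [sin_pi] at this
  nlinarith [mul_pos ha hb]

lemma exists_beyond (hb : 0 < b) (hab : b ≤ a) {α β : ℝ} (h1 : α < β) (h2 : β < α + π) {K : Set ℂ}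
    (hKE : K ⊆ ell a b) (hA : π * a * b / 2 ≤ volume.real K) :
    ∃ x ∈ K, 0 < cross (pt a b β - pt a b α) (x - pt a b α) := by
  by_contra hc
  push Not at hc
  have := measureReal_mono (μ := volume) (s₁ := K) (s₂ := cap a b α β)
    (fun z hz => ⟨hKE hz, hc z hz⟩) (isCompact_cap hb hab _ _).measure_lt_top.ne
  linarith [cap_small hb hab h1 h2]

lemma fr_of_mem {K : Set ℂ} (hK : IsCompact K) (hKE : K ⊆ ell a b) {p : ℂ} (hpK : p ∈ K)
    (hp : B a b p p = 1) : p ∈ frontier K := by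
  rw [hK.isClosed.frontier_eq]
  exact ⟨hpK, fun h => (mem_int.1 (interior_mono hKE h)).ne hp⟩

lemma split_cap (hb : 0 < b) (hab : b ≤ a) {α β : ℝ} (h1 : α < β) (h2 : β < α + 2 * π) {K : Set ℂ}
    (F : Feas a b (cap a b α β) K) :
    per (cap a b α β) + per (K ∩ HP (pt a b β) (pt a b α)) ≤ per K + 2 * ‖pt a b β - pt a b α‖ := by
  have ha : 0 < a := by linarith
  have := per_split F.cpt F.cvx (P := pt a b α) (Q := pt a b β)
    (F.sup ⟨pt_mem ha hb _, left_mem_HP _ _⟩) fun z hz h =>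
    on_line ha hb (B_pt_self ha hb _) (B_pt_self ha hb _) (pt_ne ha hb h1 h2) (F.sub hz) h
  rwa [show K ∩ HP (pt a b α) (pt a b β) = cap a b α β from subset_antisymm
    (inter_subset_inter_left _ F.sub) (subset_inter F.sup inter_subset_right), norm_sub_rev] at this

lemma comp_arc (hb : 0 < b) (hab : b ≤ a) {α β : ℝ} (h1 : α < β) (h2 : β < α + π) {K : Set ℂ}
    (F : Feas a b (cap a b α β) K) (hA : volume.real K = π * a * b / 2) {s t : ℝ} (hs : s < t)
    (hst : t < s + 2 * π)
    (hcon : ∀ z, B a b z z = 1 → (z ∈ K ↔ z ∈ HP (pt a b s) (pt a b t))) :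
    ∃ γ : Path (pt a b β) (pt a b α), Admissible a b γ ∧
      (eVariationOn γ univ).toReal ≤ per K - per (cap a b α β) + ‖pt a b β - pt a b α‖ := by
  have ha : 0 < a := by linarith
  have h2' : β < α + 2 * π := by linarith [pi_pos]
  obtain ⟨x, hx, x0⟩ := exists_beyond hb hab h1 h2 F.sub hA.ge
  set m := md a b α β with hm
  have mI : m ∈ interior K := by
    obtain ⟨ε, e0, e1⟩ := (ev_pos.and (ev_neg
      (f := fun ε => B a b (m - ε • (x - m)) (m - ε • (x - m)) - 1) (by fun_prop)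
      (by simpa using md_int ha hb h1 h2'))).exists
    have yI : m - ε • (x - m) ∈ interior K := int_cap F.sup (mem_int.2 (by linarith)) (by
      rw [← cross_md, ← hm, sub_sub_cancel_left, ← neg_smul, cross_smul, hm, cross_md]
      nlinarith)
    have := F.cvx.add_smul_sub_mem_interior hx yI (t := 1 / (1 + ε))
      ⟨by positivity, (div_le_one (by positivity)).2 (by linarith)⟩
    convert this using 1
    have : (1 + (ε:ℂ)) ≠ 0 := by exact_mod_cast (show (1 + ε) ≠ 0 by positivity)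
    simp only [Complex.real_smul]; push_cast; field_simp; ring
  obtain ⟨g, G⟩ := exists_Gg F.cpt F.cvx mI
  have pK : pt a b β ∈ K := F.sup ⟨pt_mem ha hb _, right_mem_HP _ _⟩
  have qK : pt a b α ∈ K := F.sup ⟨pt_mem ha hb _, left_mem_HP _ _⟩
  set w := pt a b β - m with hw
  have w2 : pt a b β - pt a b α = (2:ℝ) • w := by
    simp only [hw, hm, md, Complex.real_smul]; push_cast; ring
  have w3 : pt a b α - m = -w := by
    simp only [hw, hm, md, Complex.real_smul]; push_cast; ring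
  have w0 : 0 < ‖w‖ := norm_pos_iff.2 fun e => by
    rw [e, smul_zero, sub_eq_zero] at w2; exact pt_ne ha hb h1 h2' w2.symm
  set θp := Complex.arg w with hθ
  have e1 := G.eq_rad (fr_of_mem F.cpt F.sub pK (B_pt_self ha hb _)) (θ := θp) rfl
  have e2 := G.eq_rad (fr_of_mem F.cpt F.sub qK (B_pt_self ha hb _)) (θ := θp + π) (by
    rw [w3, ev_add_pi]
    apply smul_right_injective ℂ w0.ne'
    simp only
    rw [smul_neg, ← eq_smul_ev, ← norm_neg w, ← eq_smul_ev])
  have cr : ∀ θ, cross (pt a b β - pt a b α) (rad m g θ - pt a b α)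
      = 2 * ‖w‖ * (g (ev θ))⁻¹ * sin (θ - θp) := by
    intro θ
    rw [← cross_md, ← hm, rad, add_sub_cancel_left, cross_smul, w2, cross_anti, cross_smul]
    conv_lhs => rw [eq_smul_ev w]
    rw [cross_smul, cross_anti, cross_ev_ev]; ring
  obtain ⟨γ, g1, g2, g3⟩ := G.exists_arc (α := θp) (β := θp + π) (by linarith [pi_pos])
    (by linarith [pi_pos]) e1 e2
  have sub : range γ ⊆ K ∩ HP (pt a b β) (pt a b α) := by
    rw [g2]
    rintro _ ⟨θ, hθ, rfl⟩
    refine ⟨G.rad_mem θ, ?_⟩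
    show cross _ _ ≤ 0
    rw [cross_flip, cr]
    have := sin_nonneg_of_nonneg_of_le_pi (x := θ - θp) (by linarith [hθ.1]) (by linarith [hθ.2])
    have := G.pos_ev θ
    rw [neg_nonpos]; positivity
  have kX := F.cpt.inter_right (isClosed_HP (pt a b β) (pt a b α))
  have len := g3 _ kX sub
  have sp := split_cap hb hab h1 h2' F
  refine ⟨γ, admissible_of hb hab F.cpt F.cvx F.sub hA (B_pt_self ha hb _) pK
    (u := Complex.I * (pt a b t - pt a b s)) (κ := cross (pt a b t - pt a b s) (pt a b s))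
    (fun z hz => ?_) (z0 := pt a b ((t + (s + 2 * π)) / 2)) (B_pt_self ha hb _) (fun h => ?_) γ g1
    (ne_top_of_le_ne_top ENNReal.ofReal_ne_top len) ?_ ?_, ?_⟩
  · rw [hcon z hz, dot_I, ← sub_nonpos, ← cross_sub]; rfl
  · exact absurd ((hcon _ (B_pt_self ha hb _)).1 h)
      (not_le.2 (chord_pos ha hb hs (by linarith) (by linarith)))
  · rw [g2]; rintro _ ⟨θ, -, rfl⟩; exact G.rad_fr θ
  · rintro z ⟨hz, hzE⟩
    have hz' := hz
    rw [← G.image_Icc_eq θp] at hz'
    obtain ⟨θ, hθ, rfl⟩ := hz'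
    rw [g2]
    by_cases c : θ ≤ θp + π
    · exact ⟨θ, ⟨hθ.1, c⟩, rfl⟩
    rcases hθ.2.eq_or_lt with e | e
    · exact ⟨θp, ⟨le_rfl, by linarith [pi_pos]⟩, by rw [e, Gg.rad_periodic]⟩
    refine absurd (int_cap F.sup hzE ?_) hz.2
    rw [cr, ← sin_sub_two_pi]
    have s1 := sin_neg_of_neg_of_neg_pi_lt (x := θ - θp - 2 * π) (by linarith) (by linarith)
    have := G.pos_ev θ
    exact mul_neg_of_pos_of_neg (by positivity) s1
  · have := per_range_le γ (ne_top_of_le_ne_top ENNReal.ofReal_ne_top len)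
    have h0 : 0 ≤ per (K ∩ HP (pt a b β) (pt a b α)) - ‖pt a b β - pt a b α‖ := by
      by_contra hc
      rw [ENNReal.ofReal_of_nonpos (not_le.1 hc).le, nonpos_iff_eq_zero,
        eVariationOn.eq_zero_iff] at len
      have := len 0 (mem_univ _) 1 (mem_univ _)
      rw [γ.source, γ.target, edist_eq_zero] at this
      exact pt_ne ha hb h1 h2' this.symm
    linarith [ENNReal.toReal_le_of_le_ofReal h0 len]

lemma per_lt {S K : Set ℂ} (kS : IsCompact S) (nS : S.Nonempty) (hK : IsCompact K) (h : S ⊆ K)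
    {u : ℂ} (hu : hs S u < hs K u) : per S < per K := by
  have nK := nS.mono h
  rw [per_window S (Complex.arg u), per_window K (Complex.arg u)]
  refine intervalIntegral.integral_lt_integral_of_continuousOn_of_le_of_exists_lt
    (by linarith [pi_pos]) (continuous_hs_ev kS nS).continuousOn
    (continuous_hs_ev hK nK).continuousOn (fun θ _ => hs_mono hK nS h _)
    ⟨Complex.arg u, ⟨le_rfl, by linarith [pi_pos]⟩, ?_⟩
  obtain ⟨x, hx, e⟩ := exists_hs hK nK u
  obtain ⟨y, hy, e'⟩ := exists_hs kS nS (ev (Complex.arg u))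
  have h1 := le_hs kS hy u
  have h2 := le_hs hK hx (ev (Complex.arg u))
  have h3 : dot u y < dot u x := by linarith
  rw [eq_smul_ev u, smul_dot, smul_dot] at h3
  have := lt_of_mul_lt_mul_left h3 (norm_nonneg u)
  linarith

lemma per_cap_lt (hb : 0 < b) (hab : b ≤ a) {α β : ℝ} (h1 : α < β) (h2 : β < α + π) {K : Set ℂ}
    (F : Feas a b (cap a b α β) K) (hA : π * a * b / 2 ≤ volume.real K) :
    per (cap a b α β) < per K := by
  have ha : 0 < a := by linarith
  obtain ⟨x, hx, x0⟩ := exists_beyond hb hab h1 h2 F.sub hA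
  have nS : (cap a b α β).Nonempty := ⟨_, pt_mem ha hb _, left_mem_HP _ _⟩
  refine per_lt (isCompact_cap hb hab _ _) nS F.cpt F.sup
    (u := Complex.I * (pt a b β - pt a b α)) ?_
  have e1 := le_hs F.cpt hx (Complex.I * (pt a b β - pt a b α))
  have e2 := hs_le nS (u := Complex.I * (pt a b β - pt a b α))
    (c := cross (pt a b β - pt a b α) (pt a b α)) fun z hz => by
      rw [dot_I, ← sub_nonpos, ← cross_sub]; exact hz.2
  rw [dot_I] at e1
  rw [cross_sub] at x0
  linarith

lemma feas_cap (hb : 0 < b) (hab : b ≤ a) (α β : ℝ) : Feas a b (cap a b α β) (cap a b α β) :=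
  ⟨isCompact_cap hb hab _ _, convex_cap _ _, Subset.rfl, inter_subset_left⟩

lemma ar_comb {K L : Set ℂ} (hK : IsCompact K) (cK : Convex ℝ K) (nK : K.Nonempty)
    (hL : IsCompact L) (cL : Convex ℝ L) (nL : L.Nonempty) {τ : ℝ} (t0 : 0 ≤ τ) (t1 : τ ≤ 1) :
    (1 - τ) ^ 2 * volume.real K ≤ volume.real ((1 - τ) • K + τ • L) := by
  have b1 := bm_comb hK cK nK hL cL nL (s := 1 - τ) (by linarith) t0
  have b2 : (1 - τ) * √(volume.real K) ≤ √(volume.real ((1 - τ) • K + τ • L)) := by
    have := mul_nonneg t0 (Real.sqrt_nonneg (volume.real L)); linarith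
  have b3 := pow_le_pow_left₀ (mul_nonneg (by linarith) (Real.sqrt_nonneg _)) b2 2
  rwa [mul_pow, Real.sq_sqrt measureReal_nonneg, Real.sq_sqrt measureReal_nonneg] at b3

lemma continuous_cut {L : Set ℂ} (hL : IsCompact L) {u : ℂ} (hu : u ≠ 0) :
    Continuous fun h : ℝ => volume.real (L ∩ {z | dot u z ≤ h}) := by
  have ms : ∀ h, MeasurableSet (L ∩ {z | dot u z ≤ h}) := fun h =>
    (hL.inter_right (isClosed_dot_le u h)).measurableSet
  have e : (fun h : ℝ => volume.real (L ∩ {z | dot u z ≤ h}))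
      = fun h => ∫ z, (L ∩ {z | dot u z ≤ h}).indicator (fun _ => (1:ℝ)) z := by
    funext h; rw [integral_indicator (ms h)]; simp
  rw [e, continuous_iff_continuousAt]
  intro h0
  refine continuousAt_of_dominated (bound := L.indicator fun _ => (1:ℝ))
    (Eventually.of_forall fun h => (aestronglyMeasurable_const.indicator (ms h)))
    (Eventually.of_forall fun h => Eventually.of_forall fun z => ?_)
    ((integrable_indicator_iff hL.measurableSet).2 (integrableOn_const hL.measure_lt_top.ne)) ?_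
  · rw [Real.norm_of_nonneg (indicator_nonneg (fun _ _ => zero_le_one) _)]
    exact indicator_le_indicator_of_subset inter_subset_left (fun _ => zero_le_one) _
  · have n0 : 0 < ‖u‖ ^ 2 := by have := norm_pos_iff.2 hu; positivity
    have nl := null_line (P := (h0 / ‖u‖ ^ 2) • u) (Q := (h0 / ‖u‖ ^ 2) • u - Complex.I * u)
      (fun e => hu (by simpa using e.symm))
    have cr : ∀ z, cross ((h0 / ‖u‖ ^ 2) • u - Complex.I * u - (h0 / ‖u‖ ^ 2) • u)
        (z - (h0 / ‖u‖ ^ 2) • u) = dot u z - h0 := by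
      intro z
      have : dot u ((h0 / ‖u‖ ^ 2) • u) = h0 := by rw [dot_smul, dot_self]; field_simp
      rw [sub_sub_cancel_left]
      conv_rhs => rw [← this, ← dot_sub]
      simp [cross, dot]; ring
    filter_upwards [measure_eq_zero_iff_ae_notMem.1 nl] with z hz
    have ne : dot u z ≠ h0 := fun e => hz ⟨by show cross _ _ ≤ 0; rw [cr]; linarith,
      by show cross _ _ ≤ 0; rw [cross_flip, cr]; linarith⟩
    rcases lt_or_gt_of_ne ne with c | c
    · refine (continuousAt_const (y := L.indicator (fun _ => (1:ℝ)) z)).congr ?_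
      filter_upwards [lt_mem_nhds c] with h hh
      by_cases c' : z ∈ L
      · rw [indicator_of_mem c', indicator_of_mem (show z ∈ L ∩ _ from ⟨c', hh.le⟩)]
      · rw [indicator_of_notMem c', indicator_of_notMem fun h => c' h.1]
    · refine (continuousAt_const (y := (0:ℝ))).congr ?_
      filter_upwards [gt_mem_nhds c] with h hh
      simp only [indicator, mem_inter_iff, mem_ofPred_eq, not_le.2 hh, and_false, if_false]

lemma scale_arc (hb : 0 < b) (hab : b ≤ a) {α β : ℝ} (h1 : α < β) (h2 : β < α + π) {L : Set ℂ}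
    (F : Feas a b (cap a b α β) L) (hA : π * a * b / 2 < volume.real L) :
    ∃ γ : Path (pt a b β) (pt a b α), Admissible a b γ ∧
      (eVariationOn γ univ).toReal < per L - per (cap a b α β) + ‖pt a b β - pt a b α‖ := by
  have ha : 0 < a := by linarith
  have h2' : β < α + 2 * π := by linarith [pi_pos]
  have FS := feas_cap hb hab α β
  have nS : (cap a b α β).Nonempty := ⟨_, pt_mem ha hb _, left_mem_HP _ _⟩
  have nL := nS.mono F.sup
  obtain ⟨τ, t0, t1, t2⟩ := (ev_pos.and ((ev_lt one_pos).and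
    (ev_neg (f := fun τ => π * a * b / 2 - (1 - τ) ^ 2 * volume.real L) (by fun_prop)
      (by simpa using hA)))).exists
  have F' := F.comb FS t0.le t1.le
  have a1 := ar_comb F.cpt F.cvx nL FS.cpt FS.cvx nS t0.le t1.le
  have p1 := per_comb F.cpt nL FS.cpt nS t0.le t1.le
  have p2 := per_cap_lt hb hab h1 h2 F hA.le
  have con : ∀ z ∈ (1 - τ) • L + τ • cap a b α β, B a b z z = 1 → z ∈ cap a b α β := by
    rintro _ ⟨_, ⟨x, hx, rfl⟩, _, ⟨y, hy, rfl⟩, rfl⟩ hz
    simp only at hz ⊢
    by_cases e : x = y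
    · rw [e, ← add_smul]; simpa using hy
    exfalso
    have b1 := B_lt_one ha hb (F.sub hx) hy.1 e
    have b2 := mem_ell.1 (F.sub hx)
    have b3 := mem_ell.1 hy.1
    rw [B_comb] at hz
    have := mul_pos (mul_pos (sub_pos.2 t1) t0) (sub_pos.2 b1)
    nlinarith [mul_le_mul_of_nonneg_left b2 (sq_nonneg (1 - τ)),
      mul_le_mul_of_nonneg_left b3 (sq_nonneg τ)]
  set L' := (1 - τ) • L + τ • cap a b α β
  set v := pt a b β - pt a b α with hv
  have v0 : Complex.I * v ≠ 0 := mul_ne_zero Complex.I_ne_zero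
    (sub_ne_zero.2 (pt_ne ha hb h1 h2').symm)
  have hp : ∀ z, z ∈ HP (pt a b α) (pt a b β) ↔ dot (Complex.I * v) z ≤ cross v (pt a b α) :=
    fun z => by rw [dot_I, ← sub_nonpos, ← cross_sub]; rfl
  have c0 : cross v (pt a b α) ≤ hs L' (Complex.I * v) := by
    rw [← dot_I]; exact le_hs F'.cpt (F'.sup ⟨pt_mem ha hb _, left_mem_HP _ _⟩) _
  obtain ⟨h, hh, e⟩ := intermediate_value_Icc c0 (continuous_cut F'.cpt v0).continuousOn
    (show π * a * b / 2 ∈ _ from ⟨(measureReal_mono (s₂ := cap a b α β)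
      (fun z hz => ⟨F'.sub hz.1, (hp z).2 hz.2⟩) FS.cpt.measure_lt_top.ne).trans
        (cap_small hb hab h1 h2).le, by
      rw [inter_eq_left.2 (show L' ⊆ {z | dot (Complex.I * v) z ≤ hs L' (Complex.I * v)} from
        fun z hz => le_hs F'.cpt hz _)]; linarith⟩)
  have F2 : Feas a b (cap a b α β) (L' ∩ {z | dot (Complex.I * v) z ≤ h}) :=
    ⟨F'.cpt.inter_right (isClosed_dot_le _ _), F'.cvx.inter (convex_dot_le _ _),
      fun z hz => ⟨F'.sup hz, ((hp z).1 hz.2).trans hh.1⟩, inter_subset_left.trans F'.sub⟩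
  obtain ⟨γ, g1, g2⟩ := comp_arc hb hab h1 h2 F2 e h1 h2' fun z hz =>
    ⟨fun h => (con z h.1 hz).2, fun h => F2.sup ⟨mem_ell.2 hz.le, h⟩⟩
  have p3 := per_mono F2.cpt (nS.mono F2.sup) F'.cpt inter_subset_left
  exact ⟨γ, g1, by nlinarith⟩

lemma min_arc (hb : 0 < b) (hab : b ≤ a) {α β : ℝ} (h1 : α < β) (h2 : β < α + π)
    {γ : Path (pt a b β) (pt a b α)} (h : Shortest a b γ) {L : Set ℂ}
    (F : Feas a b (cap a b α β) L) (hA : π * a * b / 2 ≤ volume.real L) :
    (eVariationOn γ univ).toReal ≤ per L - per (cap a b α β) + ‖pt a b β - pt a b α‖ := by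
  have ha : 0 < a := by linarith
  apply le_of_forall_small (c := per (ell a b) - per L)
  intro s s0 s1
  have FE : Feas a b (cap a b α β) (ell a b) :=
    ⟨isCompact_ell hb hab, convex_ell, inter_subset_left, Subset.rfl⟩
  have nL : L.Nonempty := ⟨_, F.sup ⟨pt_mem ha hb _, left_mem_HP _ _⟩⟩
  obtain ⟨γ', g1, g2⟩ := scale_arc hb hab h1 h2 (F.comb FE s0.le s1)
    (mix_ell hb hab F.cpt F.cvx nL hA s0 s1)
  rw [per_comb F.cpt nL FE.cpt ⟨0, zero_mem_ell⟩ s0.le s1] at g2
  have := short_le h g1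
  linarith

end Pool.Agent.MP_7791e4_an
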