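import Pool.Agent.MP_7791e4_an.Loop

set_option autoImplicit false

namespace Pool.Agent.MP_7791e4_an

open Set MeasureTheory Real Metric Filter Topology Pointwise

variable {a b : ℝ}

lemma exists_min_pos {X : Set ℂ} (hX : IsCompact X) {f : ℂ → ℝ} (hf : Continuous f)
    (h : ∀ x ∈ X, 0 < f x) : ∃ μ, 0 < μ ∧ ∀ x ∈ X, μ ≤ f x := by
  rcases X.eq_empty_or_nonempty with e | ne
  · exact ⟨1, one_pos, by simp [e]⟩
  obtain ⟨x, hx, hm⟩ := hX.exists_isMinOn ne hf.continuousOn
  exact ⟨f x, h x hx, fun y hy => hm hy⟩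

lemma exists_bound {X : Set ℂ} (hX : IsCompact X) {f : ℂ → ℂ} (hf : Continuous f) :
    ∃ M, 0 < M ∧ ∀ x ∈ X, ‖f x‖ ≤ M := by
  obtain ⟨M, M0, h⟩ := (hX.image hf).isBounded.exists_pos_norm_le
  exact ⟨M, M0, fun x hx => h _ ⟨x, hx, rfl⟩⟩

lemma nu_ne {p : ℂ} (hp : B a b p p = 1) : nu a b p ≠ 0 := fun h => by
  rw [← dot_nu, h] at hp; simp [dot] at hp

lemma dot_sq_add (u w : ℂ) : dot w u ^ 2 + cross u w ^ 2 = ‖u‖ ^ 2 * ‖w‖ ^ 2 := by
  rw [sq_norm', sq_norm']; simp only [dot, cross]; ring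

lemma dot_tg (ha : 0 < a) (hb : 0 < b) (p w : ℂ) :
    dot w (tg a b p) = a * b * cross (nu a b p) w := by
  simp only [dot, cross, tg, nu]; field_simp; ring

lemma is_disc (hb : 0 < b) (hab : b ≤ a) {K : Set ℂ} (hK : IsCompact K) (cK : Convex ℝ K)
    (hKE : K ⊆ ell a b) {p : ℂ} (hp : B a b p p = 1) (hpK : p ∈ K)
    (hA : volume.real K = π * a * b / 2) (hc : IsPreconnected (interior (ell a b) \ K))
    (Min : ∀ L : Set ℂ, IsCompact L → Convex ℝ L → L ⊆ ell a b → p ∈ L →
      volume.real K ≤ volume.real L → per K ≤ per L) :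
    ∃ c, K = closedBall c √(a * b / 2) := by
  have ha : 0 < a := by linarith
  set ρ := √(a * b / 2) with hρ
  have ρ0 : 0 < ρ := Real.sqrt_pos.2 (by positivity)
  have hA' : volume.real K = π * ρ ^ 2 := by rw [hA, hρ, Real.sq_sqrt (by positivity)]; ring
  by_contra hcon
  have hP : 2 * π * ρ < per K := by
    by_contra h
    exact hcon (eq_disc hK cK ⟨p, hpK⟩ ρ0 hA'.ge (not_lt.1 h))
  set s := (ρ + per K / (2 * π)) / 2 with hs
  have hP' : ρ < per K / (2 * π) := by rw [lt_div_iff₀ (by positivity)]; linarith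
  have s1 : ρ < s := by linarith
  have s0 : 0 < s := by linarith
  have s2 : 2 * π * s < per K := by
    have : 2 * π * s = π * ρ + per K / 2 := by rw [hs]; field_simp
    linarith
  have anti := no_anti hb hab hK cK hKE hpK hA hc Min
  have kG : IsCompact (K ∩ {k | B a b k k = 1}) :=
    hK.inter_right (isClosed_eq (by fun_prop) continuous_const)
  obtain ⟨M, M0, hM⟩ := exists_bound kG (f := nu a b) (by fun_prop)
  have n0 : 0 < ‖nu a b p‖ := norm_pos_iff.2 (nu_ne hp)
  obtain ⟨n, hn⟩ : ∃ n : ℂ, n = ‖nu a b p‖⁻¹ • nu a b p := ⟨_, rfl⟩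
  have nn : ‖n‖ = 1 := by
    rw [hn, norm_smul, Real.norm_eq_abs, abs_of_pos (inv_pos.2 n0), inv_mul_cancel₀ n0.ne']
  have dn : ∀ θ, dot (ev θ) n ≤ 1 := fun θ => nn ▸ dot_ev_le θ n
  have oneside : ∀ σ : ℝ, (σ = 1 ∨ σ = -1) → (∀ k ∈ K, B a b k k = 1 → 0 ≤ σ * cross p k) →
      False := by
    intro σ hσ hside
    have σ2 : σ * σ = 1 := by rcases hσ with h | h <;> rw [h] <;> norm_num
    have strict : ∀ k ∈ K, B a b k k = 1 → k ≠ p → 0 < σ * cross p k := by
      intro k mk hk hne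
      refine lt_of_le_of_ne (hside k mk hk) fun h => ?_
      have h0 : cross p k = 0 := by linear_combination (-σ) * h - (cross p k) * σ2
      rw [cross_eq ha hb, mul_eq_zero] at h0
      have h1 := h0.resolve_left (by positivity)
      have h2 := coord_sq ha hb hp k
      rw [hk, h1] at h2
      have h3 := B_lt_one ha hb (hKE hpK) (hKE mk) hne.symm
      have h4 : B a b p k = -1 := by nlinarith
      apply anti p hpK hp
      have : -p = k := by
        conv_rhs => rw [decomp ha hb hp k, h1, h4]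
        simp
      rw [this]; exact mk
    by_cases hex : ∃ k ∈ K, B a b k k = 1 ∧ k ≠ p
    swap
    · apply no_pert hb hab hK cK hKE hpK ρ0 hA' Min s1 s2 (c := p - s • n)
        (fun k mk hk hne => absurd ⟨k, mk, hk, hne⟩ hex)
      refine Eventually.of_forall fun θ _ => ?_
      rw [sub_sub_cancel_left, dot_neg, dot_smul]
      nlinarith [dn θ]
    obtain ⟨k0, m0, h0, ne0⟩ := hex
    set κ := a * b * ‖nu a b p‖ with hκ
    have κ0 : 0 < κ := by positivity
    have rel : ∀ k, cross p k = a * b * (κ * cross n (nu a b k)) := by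
      intro k
      rw [cross_eq ha hb, B_comm, ← dot_nu, dot_tg ha hb, hn, hκ, cross_anti (_ • _), cross_smul,
        cross_anti (nu a b p)]
      field_simp
    have rel2 : ∀ w, dot w (tg a b p) = κ * cross n w := by
      intro w
      rw [dot_tg ha hb, hn, hκ, cross_anti (_ • _), cross_smul, cross_anti (nu a b p)]
      field_simp
    have Ypos : ∀ k ∈ K, B a b k k = 1 → k ≠ p → 0 < σ * cross n (nu a b k) := by
      intro k mk hk hne
      have := strict k mk hk hne
      rw [rel, show σ * (a * b * (κ * cross n (nu a b k))) = (a * b * κ) * (σ * cross n (nu a b k))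
        by ring] at this
      exact (mul_pos_iff_of_pos_left (by positivity)).1 this
    obtain ⟨μ, μ0, hμ⟩ := exists_min_pos kG (f := fun k => ‖nu a b k‖ + dot (nu a b k) n)
      (by fun_prop) (by
        rintro k ⟨mk, hk⟩
        by_cases e : k = p
        · rw [e, hn, dot_smul, dot_self]; positivity
        · have h1 := dot_sq_add n (nu a b k)
          have h2 := Ypos k mk hk e
          have h3 : 0 < cross n (nu a b k) ^ 2 := by nlinarith
          rw [nn] at h1
          have := abs_lt.1 (abs_lt_of_sq_lt_sq (a := dot (nu a b k) n) (b := ‖nu a b k‖)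
            (by linarith) (norm_nonneg _))
          linarith [this.1])
    apply no_pert hb hab hK cK hKE hpK ρ0 hA' Min s1 s2
      (c := p - s • n - (s * M / (μ * κ) * σ) • tg a b p)
    · intro k mk hk hne
      rw [show p - s • n - (s * M / (μ * κ) * σ) • tg a b p - p
        = -(s • n) - (s * M / (μ * κ) * σ) • tg a b p by ring, dot_sub, dot_neg, dot_smul,
        dot_smul, rel2]
      have h1 := dot_sq_add n (nu a b k)
      rw [nn] at h1
      have h2 := Ypos k mk hk hne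
      have h3 := hμ k ⟨mk, hk⟩
      have h4 := hM k ⟨mk, hk⟩
      set N := ‖nu a b k‖
      set X := dot (nu a b k) n
      set Y := cross n (nu a b k)
      have N0 : 0 ≤ N := norm_nonneg _
      have h5 : σ * Y ≤ N := le_of_sq_le_sq (by nlinarith [sq_nonneg X]) N0
      have h6 : X ≤ N := le_of_sq_le_sq (by nlinarith [sq_nonneg Y]) N0
      have h7 : (N - X) * μ ≤ σ * Y * M := by
        have e1 : (N - X) * μ ≤ (N - X) * (N + X) := mul_le_mul_of_nonneg_left h3 (by linarith)
        have e2 : σ * Y * (σ * Y) ≤ σ * Y * M := mul_le_mul_of_nonneg_left (h5.trans h4) h2.le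
        nlinarith
      have h8 : s * M / (μ * κ) * σ * (κ * Y) = s * (σ * Y * M / μ) := by field_simp
      rw [← le_div_iff₀ μ0] at h7
      rw [h8]
      nlinarith [mul_le_mul_of_nonneg_left h7 s0.le]
    · refine Eventually.of_forall fun θ hθ => ?_
      have h1 := tangent_side hb hab hK cK hA.le hc hpK m0 hp h0 hσ (strict k0 m0 h0 ne0) hθ
      rw [show p - s • n - (s * M / (μ * κ) * σ) • tg a b p - p
        = -(s • n) - (s * M / (μ * κ) * σ) • tg a b p by ring, dot_sub, dot_neg, dot_smul,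
        dot_smul]
      have h2 : 0 ≤ s * M / (μ * κ) := by positivity
      nlinarith [dn θ, mul_nonneg h2 (neg_nonneg.2 h1)]
  by_cases c1 : ∀ k ∈ K, B a b k k = 1 → 0 ≤ 1 * cross p k
  · exact oneside 1 (Or.inl rfl) c1
  by_cases c2 : ∀ k ∈ K, B a b k k = 1 → 0 ≤ -1 * cross p k
  · exact oneside (-1) (Or.inr rfl) c2
  push Not at c1 c2
  obtain ⟨k2, m2, h2, d2⟩ := c1
  obtain ⟨k1, m1, h1, d1⟩ := c2
  obtain ⟨W, hW⟩ := exists_dir hb hab hK cK hA.le hc hpK hp anti m1 m2 h1 h2 (by linarith)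
    (by linarith)
  obtain ⟨μ, μ0, hμ⟩ := exists_min_pos kG (f := fun k => B a b k W) (by fun_prop)
    fun k hk => hW k hk.1 hk.2
  apply no_pert hb hab hK cK hKE hpK ρ0 hA' Min s1 s2 (c := p - (s * M / μ) • W)
  · intro k mk hk _
    rw [sub_sub_cancel_left, dot_neg, dot_smul, dot_nu]
    have h3 := hμ k ⟨mk, hk⟩
    have h4 := hM k ⟨mk, hk⟩
    have h5 := mul_le_mul_of_nonneg_left h3 (show 0 ≤ s * M / μ by positivity)
    rw [div_mul_cancel₀ _ μ0.ne'] at h5
    nlinarith
  · have T0 : tg a b p ≠ 0 := fun h => by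
      have := B_tg_tg ha hb p
      rw [h, hp] at this; simp at this
    filter_upwards [ae_dot_ne T0] with θ hθ h
    have e1 := tangent_side hb hab hK cK hA.le hc hpK m1 hp h1 (Or.inl rfl) (by linarith) h
    have e2 := tangent_side hb hab hK cK hA.le hc hpK m2 hp h2 (Or.inr rfl) (by linarith) h
    exact absurd (by linarith) hθ

lemma far_of_sub {c : ℂ} {ρ : ℝ} (ρ0 : 0 ≤ ρ) (h : closedBall c ρ ⊆ ell a b) {z : ℂ}
    (hz : B a b z z = 1) : ρ * ‖nu a b z‖ ≤ dot (nu a b z) (z - c) := by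
  have h1 : hs (closedBall c ρ) (nu a b z) ≤ 1 := hs_le (nonempty_closedBall.2 ρ0) fun w hw => by
    rw [dot_nu]; exact B_le_one (mem_ell.2 hz.le) (h hw)
  rw [hs_closedBall c ρ0] at h1
  rw [dot_sub, dot_nu z z, hz]
  linarith

lemma mem_ball_iff {p w ν : ℂ} {σ ρ : ℝ} (ρ0 : 0 ≤ ρ) (h : σ ^ 2 * ‖ν‖ ^ 2 = ρ ^ 2) :
    ‖p + w - (p - σ • ν)‖ ^ 2 - ρ ^ 2 = ‖w‖ ^ 2 + 2 * σ * dot ν w := by
  rw [← h, sq_norm', sq_norm', sq_norm']
  simp [dot]; ring

lemma nu_sq (ha : 0 < a) (hb : 0 < b) {p : ℂ} (hp : B a b p p = 1) :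
    2 * a ^ 2 * (b ^ 4 * ‖nu a b p‖ ^ 2) = 2 * b ^ 4 + 2 * (a ^ 2 - b ^ 2) * p.im ^ 2 := by
  have h : p.re * p.re / a ^ 2 + p.im * p.im / b ^ 2 = 1 := hp
  rw [sq_norm']
  simp only [nu]
  field_simp at h ⊢
  linear_combination (b ^ 2) * h

lemma B_shift (p w : ℂ) : B a b (p + w) (p + w) = B a b p p + 2 * dot (nu a b p) w + B a b w w := by
  rw [dot_nu]; simp [B]; ring

lemma disc_fits (hb : 0 < b) (hab : b ≤ a) {p : ℂ} (hp : B a b p p = 1)
    (h : a ^ 3 * b < 2 * b ^ 4 + 2 * (a ^ 2 - b ^ 2) * p.im ^ 2 ∨ (p.im = 0 ∧ a ^ 3 = 2 * b ^ 3)) :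
    ∀ z ∈ closedBall (p - (√(a * b / 2) / ‖nu a b p‖) • nu a b p) √(a * b / 2),
      B a b z z < 1 ∨ z = p := by
  have ha : 0 < a := by linarith
  set ρ := √(a * b / 2) with hρ
  have ρ0 : 0 < ρ := Real.sqrt_pos.2 (by positivity)
  have ρ2 : ρ ^ 2 = a * b / 2 := Real.sq_sqrt (by positivity)
  have n0 : 0 < ‖nu a b p‖ := norm_pos_iff.2 (nu_ne hp)
  set σ := ρ / ‖nu a b p‖ with hσ
  have σ0 : 0 < σ := by positivity
  have σ2 : σ ^ 2 * ‖nu a b p‖ ^ 2 = ρ ^ 2 := by rw [hσ]; field_simp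
  have N := nu_sq ha hb hp
  intro z hz
  obtain ⟨w, rfl⟩ : ∃ w, z = p + w := ⟨z - p, by ring⟩
  have h1 := mem_ball_iff (p := p) (w := w) ρ0.le σ2
  rw [mem_closedBall, dist_eq_norm] at hz
  have h2 : ‖w‖ ^ 2 + 2 * σ * dot (nu a b p) w ≤ 0 := by
    rw [← h1]; nlinarith [norm_nonneg (p + w - (p - σ • nu a b p))]
  by_cases w0 : w = 0
  · right; rw [w0, add_zero]
  left
  have w1 : 0 < ‖w‖ ^ 2 := by have := norm_pos_iff.2 w0; positivity
  rw [B_shift, hp]
  have n2 : 0 < 2 * a ^ 2 * ‖nu a b p‖ ^ 2 := by positivity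
  rcases h with h | ⟨h, h'⟩
  · have s1 : σ < b ^ 2 := by
      apply lt_of_pow_lt_pow_left₀ 2 (by positivity)
      apply lt_of_mul_lt_mul_left _ n2.le
      nlinarith
    have h3 := B_le_norm hb hab w
    rw [le_div_iff₀ (by positivity)] at h3
    have h4 := B_pos ha hb w0
    apply lt_of_mul_lt_mul_left _ σ0.le
    nlinarith
  · have s1 : σ = b ^ 2 := by
      apply (pow_left_inj₀ σ0.le (by positivity) two_ne_zero).1
      apply mul_left_cancel₀ n2.ne'
      rw [h] at N
      nlinarith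
    have ab : b < a := by
      refine lt_of_le_of_ne hab fun e => ?_
      rw [e] at h'
      have : 0 < a ^ 3 := by positivity
      linarith
    rw [s1, sq_norm'] at h2
    by_cases w2 : w.re = 0
    · exfalso
      simp only [dot, nu, h, w2] at h2
      rw [sq_norm', w2] at w1
      simp at h2 w1
      rw [h2] at w1; simp at w1
    · have h5 : 0 < w.re ^ 2 := by positivity
      have h6 : b ^ 2 * B a b w w < w.re ^ 2 + w.im ^ 2 := by
        have e : b ^ 2 * B a b w w = w.re ^ 2 * (b ^ 2 / a ^ 2) + w.im ^ 2 := by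
          simp only [B]; field_simp
        have : b ^ 2 / a ^ 2 < 1 := by rw [div_lt_one (by positivity)]; nlinarith
        rw [e]; nlinarith
      apply lt_of_mul_lt_mul_left _ (show 0 ≤ b ^ 2 by positivity)
      nlinarith

lemma disc_cond (hb : 0 < b) (hab : b ≤ a) {p c : ℂ} (hp : B a b p p = 1)
    (hE : closedBall c √(a * b / 2) ⊆ ell a b) (hpK : p ∈ closedBall c √(a * b / 2))
    (hc : IsPreconnected (interior (ell a b) \ closedBall c √(a * b / 2))) :
    c = p - (√(a * b / 2) / ‖nu a b p‖) • nu a b p ∧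
    (a ^ 3 * b < 2 * b ^ 4 + 2 * (a ^ 2 - b ^ 2) * p.im ^ 2 ∨ (p.im = 0 ∧ a ^ 3 = 2 * b ^ 3)) := by
  have ha : 0 < a := by linarith
  set ρ := √(a * b / 2) with hρ
  have ρ0 : 0 < ρ := Real.sqrt_pos.2 (by positivity)
  have ρ2 : ρ ^ 2 = a * b / 2 := Real.sq_sqrt (by positivity)
  have n0 : 0 < ‖nu a b p‖ := norm_pos_iff.2 (nu_ne hp)
  set σ := ρ / ‖nu a b p‖ with hσ
  have σ0 : 0 < σ := by positivity
  have σ1 : σ * ‖nu a b p‖ = ρ := by rw [hσ]; field_simp
  have σ2 : σ ^ 2 * ‖nu a b p‖ ^ 2 = ρ ^ 2 := by rw [← σ1]; ring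
  have N := nu_sq ha hb hp
  have ec : c = p - σ • nu a b p := by
    have h1 := far_of_sub ρ0.le hE hp
    have h2 := mem_ball_iff (p := p) (w := c - p) ρ0.le σ2
    rw [mem_closedBall, dist_eq_norm] at hpK
    rw [add_sub_cancel, norm_sub_rev c p, show c - p = -(p - c) by ring, dot_neg] at h2
    have h3 : ‖p - c‖ ^ 2 ≤ ρ ^ 2 := pow_le_pow_left₀ (norm_nonneg _) hpK 2
    have h4 : ‖c - (p - σ • nu a b p)‖ ^ 2 ≤ 0 := by
      nlinarith [mul_le_mul_of_nonneg_left h1 σ0.le]
    have h5 := pow_eq_zero_iff (two_ne_zero) |>.1 (le_antisymm h4 (sq_nonneg _))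
    exact sub_eq_zero.1 (norm_eq_zero.1 h5)
  refine ⟨ec, ?_⟩
  have far : ∀ w, B a b (p + w) (p + w) = 1 → 0 ≤ ‖w‖ ^ 2 + 2 * σ * dot (nu a b p) w := by
    intro w hw
    have h1 := far_of_sub ρ0.le hE hw
    have h2 := (dot_le _ _).trans' h1
    have h3 := norm_pos_iff.2 (nu_ne hw)
    have h4 : ρ ≤ ‖p + w - c‖ := by nlinarith
    rw [← mem_ball_iff ρ0.le σ2, ← ec]
    nlinarith
  have hp' : p.re * p.re / a ^ 2 + p.im * p.im / b ^ 2 = 1 := hp
  have n2 : 0 < 2 * a ^ 2 * ‖nu a b p‖ ^ 2 := by positivity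
  have mir : B a b (p + ⟨0, -2 * p.im⟩) (p + ⟨0, -2 * p.im⟩) = 1 := by
    rw [← hp']; simp [B]; ring
  have mir2 : ‖(⟨0, -2 * p.im⟩ : ℂ)‖ ^ 2 + 2 * σ * dot (nu a b p) ⟨0, -2 * p.im⟩
      = 4 * p.im ^ 2 * (1 - σ / b ^ 2) := by
    rw [sq_norm']; simp only [dot, nu]; ring
  rcases lt_trichotomy σ (b ^ 2) with h | h | h
  · left
    have : σ ^ 2 < (b ^ 2) ^ 2 := pow_lt_pow_left₀ h σ0.le two_ne_zero
    nlinarith [mul_lt_mul_of_pos_left this n2]
  · right
    have e : a ^ 3 * b = 2 * b ^ 4 + 2 * (a ^ 2 - b ^ 2) * p.im ^ 2 := by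
      rw [h] at σ2; nlinarith
    by_cases y0 : p.im = 0
    · refine ⟨y0, mul_right_cancel₀ hb.ne' ?_⟩
      rw [y0] at e; linarith
    exfalso
    have ab : b < a := by
      refine lt_of_le_of_ne hab fun e' => ?_
      rw [e'] at e
      have : 0 < a ^ 4 := by positivity
      nlinarith
    have mK : p + ⟨0, -2 * p.im⟩ ∈ closedBall c ρ := by
      rw [mem_closedBall, dist_eq_norm, ec]
      apply le_of_sq_le_sq _ ρ0.le
      have := mem_ball_iff (p := p) (w := ⟨0, -2 * p.im⟩) ρ0.le σ2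
      have e3 : σ / b ^ 2 = 1 := by rw [h]; exact div_self (by positivity)
      rw [mir2, e3] at this
      linarith
    have y2 : 0 < p.im * p.im / b ^ 2 := by have := mul_self_pos.2 y0; positivity
    have xa : p.re * p.re < a ^ 2 := by
      rw [← div_lt_one (by positivity)]; linarith
    have xa1 : p.re < a := by nlinarith
    have xa2 : -a < p.re := by nlinarith
    have vert : ∀ ε : ℝ, ε * ε = 1 → (∀ᶠ t : ℝ in 𝓝[>] 0,
        ((ε * ((1 - t) * a) : ℝ) : ℂ) ∈ closedBall c ρ) → False := by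
      intro ε hε hev
      have lim : Tendsto (fun t : ℝ => ((ε * ((1 - t) * a) : ℝ) : ℂ)) (𝓝[>] 0)
          (𝓝 ((ε * ((1 - 0) * a) : ℝ) : ℂ)) :=
        ((by fun_prop : Continuous fun t : ℝ => ((ε * ((1 - t) * a) : ℝ) : ℂ)).tendsto 0).mono_left
          nhdsWithin_le_nhds
      have h1 := isClosed_closedBall.mem_of_tendsto lim hev
      rw [sub_zero, one_mul, mem_closedBall, dist_eq_norm, ec] at h1
      set w : ℂ := ((ε * a : ℝ) : ℂ) - p with hw
      have e1 : ((ε * a : ℝ) : ℂ) = p + w := by rw [hw]; ring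
      have q : B a b (p + w) (p + w) = 1 := by
        rw [← e1]; simp only [B, Complex.ofReal_re, Complex.ofReal_im]; field_simp
        linear_combination (b ^ 2) * hε
      rw [e1] at h1
      have h2 := mem_ball_iff (p := p) (w := w) ρ0.le σ2
      have h3 : ‖w‖ ^ 2 + 2 * σ * dot (nu a b p) w ≤ 0 := by
        rw [← h2]; nlinarith [norm_nonneg (p + w - (p - σ • nu a b p))]
      rw [B_shift, hp] at q
      have e2 : b ^ 2 * B a b w w = w.re ^ 2 * (b ^ 2 / a ^ 2) + w.im ^ 2 := by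
        simp only [B]; field_simp
      have h4 : b ^ 2 / a ^ 2 < 1 := by rw [div_lt_one (by positivity)]; nlinarith
      have h5 : w.re ≠ 0 := by
        simp only [hw, Complex.sub_re, Complex.ofReal_re]
        intro h0
        have : p.re = ε * a := by linarith
        rw [this] at xa; nlinarith
      have h6 : 0 < w.re ^ 2 := by positivity
      rw [h, sq_norm'] at h3
      nlinarith
    have inE : ∀ ε t : ℝ, ε * ε = 1 → 0 < t → t < 1 →
        ((ε * ((1 - t) * a) : ℝ) : ℂ) ∈ interior (ell a b) := by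
      intro ε t hε t0 t1
      rw [mem_int]
      simp only [B, Complex.ofReal_re, Complex.ofReal_im]
      have : ε * ((1 - t) * a) * (ε * ((1 - t) * a)) / a ^ 2 = (1 - t) ^ 2 := by
        field_simp; linear_combination ((1 - t) ^ 2) * hε
      rw [this, mul_zero, zero_div, add_zero]; nlinarith
    have cr : ∀ x : ℝ, cross (p + ⟨0, -2 * p.im⟩ - p) ((x : ℂ) - p) = 2 * p.im * (x - p.re) := by
      intro x; simp [cross]
    have e1 := ev_neg (f := fun t => p.re - (1 - t) * a) (by fun_prop) (by simpa using xa1)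
    have e2 := ev_neg (f := fun t => -((1 - t) * a) - p.re) (by fun_prop) (by simp; linarith)
    rcases caps ha hb (convex_closedBall c ρ) hc hpK mK hp mir (fun h => y0 (by
      have := congrArg Complex.im h
      simp at this; exact this)) with hh | hh <;>
    rcases lt_or_gt_of_ne y0 with y | y
    · apply vert 1 (by norm_num)
      filter_upwards [ev_pos, ev_lt one_pos, e1] with t t0 t1 t2
      exact hh _ (inE 1 t (by norm_num) t0 t1) (by rw [cr]; nlinarith)
    · apply vert (-1) (by norm_num)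
      filter_upwards [ev_pos, ev_lt one_pos, e2] with t t0 t1 t2
      exact hh _ (inE (-1) t (by norm_num) t0 t1) (by rw [cr]; nlinarith)
    · apply vert (-1) (by norm_num)
      filter_upwards [ev_pos, ev_lt one_pos, e2] with t t0 t1 t2
      exact hh _ (inE (-1) t (by norm_num) t0 t1) (by rw [cr]; nlinarith)
    · apply vert 1 (by norm_num)
      filter_upwards [ev_pos, ev_lt one_pos, e1] with t t0 t1 t2
      exact hh _ (inE 1 t (by norm_num) t0 t1) (by rw [cr]; nlinarith)
  · exfalso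
    have h1 : 1 < σ / b ^ 2 := by rw [one_lt_div (by positivity)]; exact h
    by_cases y0 : p.im = 0
    · set η := min 1 ((σ - b ^ 2) / a ^ 2) with hη
      have η0 : 0 < η := lt_min one_pos (div_pos (by linarith) (by positivity))
      have η1 : η ≤ 1 := min_le_left _ _
      have η2 : η * a ^ 2 ≤ σ - b ^ 2 := by
        rw [← le_div_iff₀ (by positivity)]; exact min_le_right _ _
      have x2 : p.re * p.re = a ^ 2 := by
        rw [y0, mul_zero, zero_div, add_zero, div_eq_one_iff_eq (by positivity)] at hp'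
        exact hp'
      have S2 : √(1 - (1 - η) ^ 2) ^ 2 = 1 - (1 - η) ^ 2 := Real.sq_sqrt (by nlinarith)
      set S := √(1 - (1 - η) ^ 2)
      have := far ⟨-η * p.re, b * S⟩ (by
        simp only [B, Complex.add_re, Complex.add_im, y0]
        field_simp
        linear_combination (b ^ 2 * (1 - η) ^ 2) * x2 + (b ^ 2 * a ^ 2) * S2)
      rw [sq_norm'] at this
      simp only [dot, nu, y0] at this
      have e : (-η * p.re) ^ 2 + (b * S) ^ 2 + 2 * σ * (p.re / a ^ 2 * (-η * p.re) + 0 / b ^ 2 * (b * S))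
          = η * (η * a ^ 2 + b ^ 2 * (2 - η) - 2 * σ) := by
        have e1 : p.re / a ^ 2 * (-η * p.re) = -η := by
          rw [show p.re / a ^ 2 * (-η * p.re) = -η * (p.re * p.re / a ^ 2) by ring, x2,
            div_self (by positivity), mul_one]
        rw [e1, zero_div]
        linear_combination η ^ 2 * x2 + b ^ 2 * S2
      rw [e] at this
      have : 0 ≤ η * a ^ 2 + b ^ 2 * (2 - η) - 2 * σ := (mul_nonneg_iff_of_pos_left η0).1 this
      nlinarith [mul_pos η0 (show 0 < b ^ 2 by positivity)]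
    · have := far _ mir
      rw [mir2] at this
      have h2 : 0 < p.im ^ 2 := by positivity
      nlinarith

lemma preconn_of_image {X : Type} [TopologicalSpace X] {T A : Set X} (hT : IsCompact T)
    {f : X → ℂ} (hf : Continuous f) (hi : InjOn f T) (hA : A ⊆ T)
    (h : IsPreconnected (f '' A)) : IsPreconnected A := by
  haveI : CompactSpace T := isCompact_iff_compactSpace.1 hT
  have e := (hf.comp continuous_subtype_val : Continuous fun x : T => f x).isClosedEmbedding
    (fun x y h => Subtype.ext (hi x.2 y.2 h))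
  have h1 : (fun x : T => f x) '' (Subtype.val ⁻¹' A) = f '' A := by
    ext z
    constructor
    · rintro ⟨x, hx, rfl⟩; exact ⟨x, hx, rfl⟩
    · rintro ⟨x, hx, rfl⟩; exact ⟨⟨x, hA hx⟩, hx, rfl⟩
  have h2 := (e.isInducing.isPreconnected_image (s := Subtype.val ⁻¹' A)).1 (h1 ▸ h)
  have h3 := h2.image Subtype.val continuous_subtype_val.continuousOn
  rwa [Subtype.image_preimage_coe, inter_eq_right.2 hA] at h3

lemma sphere_diff {c z : ℂ} {ρ : ℝ} (ρ0 : 0 < ρ) (hz : z ∈ sphere c ρ) :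
    IsPreconnected (sphere c ρ \ {z}) := by
  let f : ℝ → ℂ := fun θ => c + ρ • ev θ
  have rep : ∀ w ∈ sphere c ρ, f (Complex.arg (w - c)) = w := by
    intro w hw
    rw [mem_sphere, dist_eq_norm] at hw
    simp only [f]; rw [← hw, ← eq_smul_ev]; ring
  have pf : Function.Periodic f (2 * π) := fun θ => by simp only [f, ev_periodic θ]
  set φ := Complex.arg (z - c)
  have e : sphere c ρ \ {z} = f '' Ioo φ (φ + 2 * π) := by
    apply subset_antisymm
    · rintro w ⟨hw, hne⟩
      have : w ∈ f '' Icc φ (φ + 2 * π) := by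
        rw [pf.image_Icc (by positivity)]; exact ⟨_, rep w hw⟩
      obtain ⟨θ, hθ, rfl⟩ := this
      refine ⟨θ, ⟨lt_of_le_of_ne hθ.1 fun h => hne ?_, lt_of_le_of_ne hθ.2 fun h => hne ?_⟩, rfl⟩
      · rw [← h]; exact rep z hz
      · rw [h, pf]; exact rep z hz
    · rintro _ ⟨θ, hθ, rfl⟩
      refine ⟨by simp [f, norm_smul, norm_ev, abs_of_pos ρ0], fun h => ?_⟩
      have h1 : f θ = f φ := (show f θ = z from h).trans (rep z hz).symm
      have h2 := smul_right_injective ℂ ρ0.ne' (add_left_cancel h1)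
      have := ev_inj h2 (abs_lt.2 ⟨by linarith [hθ.1, pi_pos], by linarith [hθ.2]⟩)
      linarith [hθ.1]
  rw [e]
  exact isPreconnected_Ioo.image f (by fun_prop)

lemma loop_eq {p c : ℂ} {ρ : ℝ} (ρ0 : 0 < ρ) (γ : Path p p)
    (hs : ∀ s t, γ s = γ t → s = t ∨ (s = 0 ∧ t = 1) ∨ (s = 1 ∧ t = 0))
    (h : sphere c ρ ⊆ range γ) : range γ = sphere c ρ := by
  obtain ⟨Γ, h1, h2, h3, h4⟩ := exists_per γ hs
  rw [← h4] at h ⊢
  refine subset_antisymm ?_ h
  rintro _ ⟨x, rfl⟩
  by_contra hx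
  let T := Icc x (x + 1) ∩ Γ ⁻¹' sphere c ρ
  have kT : IsCompact T := isCompact_Icc.inter_right (isClosed_sphere.preimage h1)
  have oT : ∀ s ∈ T, s ∈ Ioo x (x + 1) := fun s hs =>
    ⟨lt_of_le_of_ne hs.1.1 fun e => hx (e ▸ hs.2),
      lt_of_le_of_ne hs.1.2 fun e => hx (by have := hs.2; rwa [e, mem_preimage, h2 x] at this)⟩
  have iT : InjOn Γ T := fun s hs t ht e => h3 s t e (abs_lt.2
    ⟨by linarith [(oT s hs).1, (oT t ht).2], by linarith [(oT s hs).2, (oT t ht).1]⟩)
  have sT : Γ '' T = sphere c ρ := by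
    apply subset_antisymm
    · rintro _ ⟨s, hs, rfl⟩; exact hs.2
    · intro z hz
      have := h hz
      rw [← h2.image_Icc one_pos x] at this
      obtain ⟨s, hs, rfl⟩ := this
      exact ⟨s, ⟨hs, hz⟩, rfl⟩
  have cT : IsPreconnected T := preconn_of_image kT h1 iT Subset.rfl
    (sT ▸ (isConnected_sphere (by rw [Complex.rank_real_complex]; norm_num) c ρ0.le).isPreconnected)
  have key : ∀ s ∈ T, ∀ t ∈ T, s < t → False := by
    intro s hs t ht hst
    have m : (s + t) / 2 ∈ T := cT.Icc_subset hs ht ⟨by linarith, by linarith⟩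
    have c2 : IsPreconnected (T \ {(s + t) / 2}) := preconn_of_image kT h1 iT sdiff_subset (by
      rw [iT.image_sdiff_subset (singleton_subset_iff.2 m), sT, image_singleton]
      exact sphere_diff ρ0 m.2)
    exact (c2.Icc_subset (a := s) (b := t) ⟨hs, fun e => by linarith [show s = _ from e]⟩
      ⟨ht, fun e => by linarith [show t = _ from e]⟩
      (show (s + t) / 2 ∈ Icc s t from ⟨by linarith, by linarith⟩)).2 rfl
  obtain ⟨s, hs, es⟩ : c + ρ ∈ Γ '' T := by rw [sT]; simp [abs_of_pos ρ0]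
  obtain ⟨t, ht, et⟩ : c - ρ ∈ Γ '' T := by rw [sT]; simp [abs_of_pos ρ0]
  rcases lt_trichotomy s t with l | l | l
  · exact key s hs t ht l
  · rw [l, et] at es
    have := congrArg Complex.re es
    simp at this; linarith
  · exact key t ht s hs l

theorem q2_main (hb : 0 < b) (hab : b ≤ a) {p : ℂ} (hp : B a b p p = 1) :
    (∃ γ : Path p p, Admissible a b γ) ∧
    ((∃ γ : Path p p, Shortest a b γ) ↔
      (a ^ 3 * b < 2 * b ^ 4 + 2 * (a ^ 2 - b ^ 2) * p.im ^ 2 ∨ (p.im = 0 ∧ a ^ 3 = 2 * b ^ 3))) ∧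
    ∀ γ : Path p p, Shortest a b γ →
      range γ = sphere (p - (√(a * b / 2) / ‖nu a b p‖) • nu a b p) √(a * b / 2) := by
  have ha : 0 < a := by linarith
  set ρ := √(a * b / 2) with hρ
  have ρ0 : 0 < ρ := Real.sqrt_pos.2 (by positivity)
  have ρ2 : π * ρ ^ 2 = π * a * b / 2 := by rw [hρ, Real.sq_sqrt (by positivity)]; ring
  have pE : p ∈ ell a b := mem_ell.2 hp.le
  have low : ∀ γ : Path p p, Admissible a b γ →
      per (closedConvexHull ℝ (range γ)) ≤ (eVariationOn γ univ).toReal := fun γ h => by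
    rw [per_cch (isCompact_range γ.continuous) (range_nonempty γ)]
    simpa using per_range_le γ h.2.1
  have main : ∀ γ : Path p p, Shortest a b γ →
      (a ^ 3 * b < 2 * b ^ 4 + 2 * (a ^ 2 - b ^ 2) * p.im ^ 2 ∨ (p.im = 0 ∧ a ^ 3 = 2 * b ^ 3)) ∧
      range γ = sphere (p - (ρ / ‖nu a b p‖) • nu a b p) ρ := by
    intro γ h
    obtain ⟨U, V, oU, oV, cV, dj, hUV, aU, sU⟩ := hull_loop hb hab h.1
    have kR : IsCompact (range γ) := isCompact_range γ.continuous
    have l := low γ h.1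
    set K := closedConvexHull ℝ (range γ) with hKd
    have hK : IsCompact K := isCompact_cch kR
    have cK : Convex ℝ K := convex_closedConvexHull
    have hKE : K ⊆ ell a b := cch_subset h.1.2.2.1
    have hpK : p ∈ K := subset_closedConvexHull γ.source_mem_range
    have hA : volume.real K = π * a * b / 2 := by
      apply le_antisymm
      · by_contra hc
        obtain ⟨γ', g1, g2⟩ := scale_loop hb hab hK cK hKE (not_le.1 hc) hp hpK
        linarith [short_le h g1]
      · rw [← aU]; exact measureReal_mono sU hK.measure_lt_top.ne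
    have nU : U.Nonempty := nonempty_of_measureReal_ne_zero (μ := volume) (by rw [aU]; positivity)
    have eV := other_comp hK cK oU oV dj hUV subset_closedConvexHull sU nU (by rw [hA, aU])
    obtain ⟨c, hc⟩ := is_disc hb hab hK cK hKE hp hpK hA (eV ▸ cV) fun L l1 l2 l3 l4 l5 =>
      l.trans (min_loop hb hab hp h l1 l2 l3 (hA ▸ l5) l4)
    obtain ⟨e1, e2⟩ := disc_cond hb hab hp (hc ▸ hKE) (hc ▸ hpK) (hc ▸ eV ▸ cV)
    refine ⟨e2, ?_⟩
    rw [← e1]
    apply loop_eq ρ0 γ h.1.1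
    intro z hz
    have zK : z ∈ K := hc ▸ sphere_subset_closedBall hz
    by_contra hz'
    by_cases hE : z ∈ interior (ell a b)
    · have : z ∈ U ∪ V := hUV ▸ ⟨hE, hz'⟩
      rcases this with h' | h'
      · have := interior_maximal sU oU h'
        rw [hc, interior_closedBall c ρ0.ne'] at this
        exact absurd (mem_sphere.1 hz) (mem_ball.1 this).ne
      · exact (eV ▸ h').2 zK
    · exact hz' (extreme ha hb kR (range_nonempty γ) h.1.2.2.1 zK
        (le_antisymm (mem_ell.1 (hKE zK)) (not_lt.1 fun h => hE (mem_int.2 h))))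
  refine ⟨?_, ⟨fun ⟨γ, h⟩ => (main γ h).1, fun h => ?_⟩, fun γ h => (main γ h).2⟩
  · obtain ⟨γ, h, -⟩ := scale_loop hb hab (isCompact_ell hb hab) convex_ell Subset.rfl
      (by rw [ar_ell ha hb]; have : 0 < π * a * b := by positivity
          linarith) hp pE
    exact ⟨γ, h⟩
  · have fit := disc_fits hb hab hp h
    have n0 : 0 < ‖nu a b p‖ := norm_pos_iff.2 (nu_ne hp)
    obtain ⟨γ, g1, g2⟩ := comp_loop hb hab (isCompact_closedBall _ _) (convex_closedBall _ _)
      (fun z hz => (fit z hz).elim (fun h => mem_ell.2 h.le) (fun h => h ▸ pE))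
      (by rw [ar_closedBall _ ρ0.le, ρ2]) hp
      (by rw [mem_closedBall, dist_eq_norm, sub_sub_cancel, norm_smul, Real.norm_eq_abs,
        abs_of_pos (by positivity), div_mul_cancel₀ _ n0.ne'])
      (fun z hz h => (fit z hz).resolve_left h.not_lt)
    refine ⟨γ, g1, fun γ' h' => g2.trans ?_⟩
    rw [per_closedBall _ ρ0.le, ← ENNReal.ofReal_toReal h'.2.1]
    apply ENNReal.ofReal_le_ofReal
    obtain ⟨U, V, -, -, -, -, -, aU, sU⟩ := hull_loop hb hab h'
    have hK := isCompact_cch (isCompact_range γ'.continuous)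
    refine (isoper' hK convex_closedConvexHull
      ((range_nonempty γ').mono subset_closedConvexHull) ρ0.le ?_).trans (low γ' h')
    rw [ρ2, ← aU]
    exact measureReal_mono sU hK.measure_lt_top.ne

end Pool.Agent.MP_7791e4_an
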