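import Pool.Agent.MP_7791e4_an.Sector
import Pool.Agent.MP_7791e4_an.Q2

set_option autoImplicit false

namespace Pool.Agent.MP_7791e4_an

open Set MeasureTheory Real Metric Filter Topology Pointwise

variable {a b : ℝ}

lemma cross_point {P Q x y : ℂ} (hx : x ∈ HP P Q) (hy : y ∈ HP Q P) :
    ∃ l ∈ Icc (0:ℝ) 1, cross (Q - P) (x + l • (y - x) - P) = 0 := by
  have h := intermediate_value_Icc (zero_le_one' ℝ)
    (f := fun l : ℝ => cross (Q - P) (x + l • (y - x) - P)) (by fun_prop)
  have hy' : 0 ≤ cross (Q - P) (y - P) := by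
    have : cross (P - Q) (y - Q) ≤ 0 := hy
    rw [cross_flip] at this; linarith
  have hx' : cross (Q - P) (x - P) ≤ 0 := hx
  exact h ⟨by simpa using hx', by simpa using hy'⟩

lemma seg_HP (P Q : ℂ) : segment ℝ P Q ⊆ HP P Q :=
  (convex_HP P Q).segment_subset (left_mem_HP P Q) (right_mem_HP P Q)

lemma per_split {K : Set ℂ} (hK : IsCompact K) (cK : Convex ℝ K) {P Q : ℂ} (hP : P ∈ K)
    (hl : ∀ z ∈ K, cross (Q - P) (z - P) = 0 → z ∈ segment ℝ P Q) :
    per (K ∩ HP P Q) + per (K ∩ HP Q P) ≤ per K + 2 * ‖P - Q‖ := by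
  have k1 := hK.inter_right (isClosed_HP P Q)
  have k2 := hK.inter_right (isClosed_HP Q P)
  have n1 : (K ∩ HP P Q).Nonempty := ⟨P, hP, left_mem_HP _ _⟩
  have n2 : (K ∩ HP Q P).Nonempty := ⟨P, hP, right_mem_HP _ _⟩
  have nK : K.Nonempty := ⟨P, hP⟩
  rw [← integral_max_dot]
  unfold per
  rw [← intervalIntegral.integral_add (ii_hs k1 n1 _ _) (ii_hs k2 n2 _ _),
    ← intervalIntegral.integral_add (ii_hs hK nK _ _)
      (by apply Continuous.intervalIntegrable; fun_prop)]
  refine intervalIntegral.integral_mono_on two_pi_nonneg ((ii_hs k1 n1 _ _).add (ii_hs k2 n2 _ _))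
    ((ii_hs hK nK _ _).add (by apply Continuous.intervalIntegrable; fun_prop)) fun θ _ => ?_
  obtain ⟨x, hx, e1⟩ := exists_hs k1 n1 (ev θ)
  obtain ⟨y, hy, e2⟩ := exists_hs k2 n2 (ev θ)
  obtain ⟨l, hl', e⟩ := cross_point hx.2 hy.2
  have m := hl _ (cK.add_smul_sub_mem hx.1 hy.1 hl') e
  have h1 : dot (ev θ) (x + l • (y - x)) ≤ max (dot (ev θ) P) (dot (ev θ) Q) :=
    (convex_dot_le (ev θ) (max (dot (ev θ) P) (dot (ev θ) Q))).segment_subset
      (show dot (ev θ) P ≤ _ from le_max_left _ _) (show dot (ev θ) Q ≤ _ from le_max_right _ _) m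
  rw [dot_add, dot_smul, dot_sub] at h1
  have h2 := le_hs hK hx.1 (ev θ)
  have h3 := le_hs hK hy.1 (ev θ)
  rw [← e1, ← e2]
  nlinarith [mul_nonneg hl'.1 (sub_nonneg.2 h2), mul_nonneg (sub_nonneg.2 hl'.2) (sub_nonneg.2 h3)]

lemma union_convex (ha : 0 < a) (hb : 0 < b) {X Y : Set ℂ} (cX : Convex ℝ X) (cY : Convex ℝ Y)
    (hX : X ⊆ ell a b) (hY : Y ⊆ ell a b) {P Q : ℂ} (hP : B a b P P = 1) (hQ : B a b Q Q = 1)
    (hne : P ≠ Q) (sX : X ⊆ HP P Q) (sY : Y ⊆ HP Q P) (pX : P ∈ X) (qX : Q ∈ X) (pY : P ∈ Y)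
    (qY : Q ∈ Y) : Convex ℝ (X ∪ Y) := by
  have key : ∀ x ∈ X, ∀ y ∈ Y, openSegment ℝ x y ⊆ X ∪ Y := by
    intro x hx y hy
    obtain ⟨l, hl, e⟩ := cross_point (sX hx) (sY hy)
    have m := on_line ha hb hP hQ hne (convex_ell.add_smul_sub_mem (hX hx) (hY hy) hl) e
    refine (openSegment_subset_union x y (z := x + l • (y - x))
      ⟨l, by rw [AffineMap.lineMap_apply_module']; ring⟩).trans ?_
    rintro z (rfl | hz | hz)
    · exact Or.inl (cX.segment_subset pX qX m)
    · exact Or.inl (cX.openSegment_subset hx (cX.segment_subset pX qX m) hz)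
    · exact Or.inr (cY.openSegment_subset (cY.segment_subset pY qY m) hy hz)
  rw [convex_iff_openSegment_subset]
  rintro x (hx | hx) y (hy | hy)
  · exact (cX.openSegment_subset hx hy).trans subset_union_left
  · exact key x hx y hy
  · rw [openSegment_symm]; exact key y hy x hx
  · exact (cY.openSegment_subset hx hy).trans subset_union_right

lemma null_line {P Q : ℂ} (hne : P ≠ Q) : volume (HP P Q ∩ HP Q P) = 0 := by
  have h := vol_mul (Q - P) P {z : ℂ | z.im = 0}
  have h0 : volume {z : ℂ | z.im = 0} = 0 := by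
    rw [vol_slices (isClosed_eq Complex.continuous_im continuous_const).measurableSet]
    simp
  rw [h0, mul_zero] at h
  refine measure_mono_null (fun z hz => ?_) h
  have h1 : cross (Q - P) (z - P) ≤ 0 := hz.1
  have h2 : cross (P - Q) (z - Q) ≤ 0 := hz.2
  rw [cross_flip] at h2
  have := parallel (sub_ne_zero.2 hne.symm) (v := z - P) (by linarith)
  refine ⟨(dot (Q - P) (z - P) / ‖Q - P‖ ^ 2 : ℝ), Complex.ofReal_im _, ?_⟩
  simp only
  rw [mul_comm, ← Complex.real_smul, ← this]; ring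

lemma ar_union {P Q : ℂ} (hne : P ≠ Q) {X Y : Set ℂ} (hX : IsCompact X) (hY : IsCompact Y)
    (sX : X ⊆ HP P Q) (sY : Y ⊆ HP Q P) :
    volume.real (X ∪ Y) = volume.real X + volume.real Y := by
  have h := measureReal_union_add_inter (μ := volume) (s := X) hY.measurableSet
    hX.measure_lt_top.ne hY.measure_lt_top.ne
  have h0 : volume.real (X ∩ Y) = 0 := by
    rw [Measure.real, measure_mono_null (inter_subset_inter sX sY) (null_line hne)]; rfl
  linarith

lemma inter_HP_union (K : Set ℂ) (P Q : ℂ) : K ∩ HP P Q ∪ K ∩ HP Q P = K := by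
  apply subset_antisymm (union_subset inter_subset_left inter_subset_left)
  intro z hz
  rcases mem_HP_or P Q z with h | h
  · exact Or.inl ⟨hz, h⟩
  · exact Or.inr ⟨hz, h⟩

lemma shift_vert {Y : Set ℂ} (hY : IsCompact Y) (cY : Convex ℝ Y) {m M ε : ℝ} (hm : m ≤ M)
    (hε : 0 ≤ ε) (h : ∀ z ∈ Y, z.re ∈ Icc m M) :
    volume.real {z | z ∈ Y ∧ z + ε • Complex.I ∉ Y} ≤ ε * (M - m) := by
  apply ENNReal.toReal_le_of_le_ofReal (mul_nonneg hε (sub_nonneg.2 hm))
  have ms : MeasurableSet {z | z ∈ Y ∧ z + ε • Complex.I ∉ Y} :=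
    hY.measurableSet.inter (hY.measurableSet.compl.preimage
      (f := fun z : ℂ => z + ε • Complex.I) (by fun_prop))
  rw [vol_slices ms,
    ENNReal.ofReal_mul hε, ← Real.volume_Icc, ← setLIntegral_const,
    ← lintegral_indicator measurableSet_Icc]
  apply lintegral_mono
  intro x
  simp only
  rcases {y : ℝ | (⟨x, y⟩ : ℂ) ∈ Y}.eq_empty_or_nonempty with e | ne
  · refine (measure_mono (t := ∅) fun y hy => ?_).trans (by simp)
    rw [← e]; exact hy.1
  obtain ⟨u, hu, hmax⟩ := (isCompact_slice hY x).exists_isGreatest ne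
  rw [indicator_of_mem (h _ hu)]
  refine (measure_mono (t := Icc (u - ε) u) fun y hy => ⟨?_, hmax hy.1⟩).trans (by simp)
  by_contra hc
  push Not at hc
  apply hy.2
  have l0 : 0 < u - y := by linarith
  have := cY.add_smul_sub_mem hy.1 hu (t := ε / (u - y))
    ⟨by positivity, (div_le_one l0).2 (by linarith)⟩
  convert this using 2
  apply Complex.ext <;> simp only [Complex.smul_re, Complex.smul_im, Complex.sub_re,
    Complex.sub_im, Complex.I_re, Complex.I_im, smul_eq_mul]
  · ring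
  · field_simp

lemma shift_le {Y : Set ℂ} (hY : IsCompact Y) (cY : Convex ℝ Y) {m M ε : ℝ} (hm : m ≤ M)
    (hε : 0 ≤ ε) {w : ℂ} (hw : ‖w‖ = 1) (h : ∀ z ∈ Y, cross w z ∈ Icc m M) :
    volume.real {z | z ∈ Y ∧ z + ε • w ∉ Y} ≤ ε * (M - m) := by
  have w2 : w.re ^ 2 + w.im ^ 2 = 1 := by rw [← sq_norm', hw]; norm_num
  let k : ℂ := ⟨w.im, w.re⟩
  have k1 : ‖k‖ ^ 2 = 1 := by rw [sq_norm']; simp only [k]; linarith
  have k0 : k ≠ 0 := fun e => by rw [e] at k1; simp at k1
  have kw : k * w = Complex.I := by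
    apply Complex.ext <;> simp [k] <;> linarith
  have h1 := shift_vert (hY.image (f := fun z => k * z + 0) (by fun_prop))
    (convex_image_mul cY k 0) (m := -M) (M := -m) (by linarith) hε (by
      rintro _ ⟨z, hz, rfl⟩
      have := h z hz
      simp only [cross] at this
      simp only [k, add_zero, Complex.mul_re]
      constructor <;> linarith [this.1, this.2])
  have h2 := ar_mul k 0 {z | z ∈ Y ∧ z + ε • w ∉ Y}
  rw [k1, one_mul] at h2
  rw [← h2]
  rw [show -m - -M = M - m by ring] at h1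
  refine le_trans (measureReal_mono ?_ ((measure_mono (fun z hz => hz.1)).trans_lt
    (hY.image (f := fun z => k * z + 0) (by fun_prop)).measure_lt_top).ne) h1
  rintro _ ⟨z, hz, rfl⟩
  refine ⟨⟨z, hz.1, rfl⟩, ?_⟩
  rintro ⟨y, hy, e⟩
  apply hz.2
  simp only [add_zero] at e
  rw [← kw, ← mul_smul_comm, ← mul_add] at e
  rwa [← mul_left_cancel₀ k0 e]

lemma per_window (K : Set ℂ) (x : ℝ) : per K = ∫ θ in x..x + 2 * π, hs K (ev θ) := by
  have : Function.Periodic (fun θ => hs K (ev θ)) (2 * π) := fun θ => by simp only [ev_periodic θ]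
  rw [this.intervalIntegral_add_eq x 0, zero_add, per]

lemma integral_dot_ev' (w : ℂ) (x y : ℝ) :
    ∫ θ in x..y, dot (ev θ) w = cross w (ev y) - cross w (ev x) := by
  simp only [dot, ev_re, ev_im, cross]
  rw [intervalIntegral.integral_add (by apply Continuous.intervalIntegrable; fun_prop)
    (by apply Continuous.intervalIntegrable; fun_prop), intervalIntegral.integral_mul_const,
    intervalIntegral.integral_mul_const, integral_cos, integral_sin]
  ring

lemma min_pos' {T : Type} [TopologicalSpace T] {X : Set T} (hX : IsCompact X) {f : T → ℝ}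
    (hf : Continuous f) (h : ∀ x ∈ X, 0 < f x) : ∃ μ, 0 < μ ∧ ∀ x ∈ X, μ ≤ f x := by
  rcases X.eq_empty_or_nonempty with e | ne
  · exact ⟨1, one_pos, by simp [e]⟩
  obtain ⟨x, hx, hm⟩ := hX.exists_isMinOn ne hf.continuousOn
  exact ⟨f x, h x hx, fun y hy => hm hy⟩

lemma cut_move {K S : Set ℂ} (hK : IsCompact K) (cK : Convex ℝ K) (kS : IsCompact S)
    (nS : S.Nonempty) (sS : S ⊆ K) {x y : ℝ} (h1 : x ≤ y) (h2 : y ≤ x + 2 * π) {w : ℂ}
    (hw : ‖w‖ = 1) {m M : ℝ} (hm : m ≤ M)
    (hF : ∀ θ ∈ Icc x y, ∀ z ∈ K, dot (ev θ) z = hs K (ev θ) → z ∉ S ∧ cross w z ∈ Icc m M)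
    {η : ℝ} (hη : 0 < η) :
    ∀ᶠ ε : ℝ in 𝓝[>] 0, ∃ L : Set ℂ, IsCompact L ∧ Convex ℝ L ∧ S ⊆ L ∧ L ⊆ K ∧
      volume.real K - ε * (M - m + η) ≤ volume.real L ∧
      per L ≤ per K - ε * (cross w (ev y) - cross w (ev x)) := by
  have nK : K.Nonempty := nS.mono sS
  have cK' := continuous_hs_ev hK nK
  have cg : Continuous fun v : ℂ × ℝ => hs K (ev v.2) - dot (ev v.2) v.1 :=
    (cK'.comp continuous_snd).sub (by fun_prop)
  obtain ⟨μ, μ0, hμ⟩ := min_pos' (kS.prod (isCompact_Icc (a := x) (b := y))) cg fun v hv =>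
    sub_pos.2 (lt_of_le_of_ne (le_hs hK (sS hv.1) _) fun e => (hF _ hv.2 _ (sS hv.1) e).1 hv.1)
  have kT : IsCompact (K ∩ {z | cross w z ≤ m - η / 2 ∨ M + η / 2 ≤ cross w z}) :=
    hK.inter_right ((isClosed_le (f := cross w) (by fun_prop) continuous_const).union
      (isClosed_le (g := cross w) continuous_const (by fun_prop)))
  obtain ⟨ν, ν0, hν⟩ := min_pos' (kT.prod (isCompact_Icc (a := x) (b := y))) cg fun v hv =>
    sub_pos.2 (lt_of_le_of_ne (le_hs hK hv.1.1 _) fun e => by
      have := (hF _ hv.2 _ hv.1.1 e).2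
      rcases hv.1.2 with c | c <;> linarith [this.1, this.2])
  filter_upwards [ev_pos, ev_lt μ0, ev_lt ν0] with ε e0 e1 e2
  have dw : ∀ θ, dot (ev θ) w ≤ 1 := fun θ => hw ▸ dot_ev_le θ w
  let L := K ∩ ⋂ θ ∈ Icc x y, {z | dot (ev θ) z ≤ hs K (ev θ) - ε * dot (ev θ) w}
  have kL : IsCompact L := hK.inter_right (isClosed_biInter fun θ _ => isClosed_dot_le _ _)
  have sL : S ⊆ L := fun z hz => ⟨sS hz, mem_biInter fun θ hθ => by
    have := hμ (z, θ) ⟨hz, hθ⟩
    have := mul_le_mul_of_nonneg_left (dw θ) e0.le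
    simp only [mem_ofPred_eq] at *
    linarith⟩
  have nL := nS.mono sL
  refine ⟨L, kL, cK.inter (convex_iInter₂ fun θ _ => convex_dot_le _ _), sL, inter_subset_left,
    ?_, ?_⟩
  · let Y := K ∩ ({z | dot (-(Complex.I * w)) z ≤ -(m - η / 2)} ∩
      {z | dot (Complex.I * w) z ≤ M + η / 2})
    have ec : ∀ z, dot (Complex.I * w) z = cross w z := fun z => by simp [dot, cross]; ring
    have kY : IsCompact Y := hK.inter_right ((isClosed_dot_le _ _).inter (isClosed_dot_le _ _))
    have s1 := shift_le kY (cK.inter ((convex_dot_le _ _).inter (convex_dot_le _ _)))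
      (m := m - η / 2) (M := M + η / 2) (by linarith) e0.le hw fun z hz => by
        have b1 := hz.2.1
        have b2 := hz.2.2
        simp only [mem_ofPred_eq, neg_dot, ec] at b1 b2
        exact ⟨by linarith, b2⟩
    have s2 : volume.real K ≤ volume.real (L ∪ {z | z ∈ Y ∧ z + ε • w ∉ Y}) :=
      measureReal_mono (fun z hz => by
        by_cases c : z ∈ L
        · exact Or.inl c
        right
        have c' : ∃ θ ∈ Icc x y, hs K (ev θ) - ε * dot (ev θ) w < dot (ev θ) z := by
          by_contra hc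
          push Not at hc
          exact c ⟨hz, mem_biInter hc⟩
        obtain ⟨θ, hθ, c'⟩ := c'
        have b0 := mul_le_mul_of_nonneg_left (dw θ) e0.le
        refine ⟨⟨hz, ?_⟩, fun hc => ?_⟩
        · by_contra hc
          have := hν (z, θ) ⟨⟨hz, by
            simp only [mem_inter_iff, mem_ofPred_eq, neg_dot, ec, not_and_or, not_le] at hc ⊢
            rcases hc with c | c
            · left; linarith
            · right; linarith⟩, hθ⟩
          simp only at this
          linarith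
        · have := le_hs hK hc.1 (ev θ)
          rw [dot_add, dot_smul] at this
          linarith)
        (measure_union_ne_top kL.measure_lt_top.ne
          ((measure_mono fun z hz => hz.1).trans_lt kY.measure_lt_top).ne)
    have s3 := s2.trans (measureReal_union_le _ _)
    linarith
  · rw [per_window L x, per_window K x, ← integral_dot_ev',
      ← intervalIntegral.integral_add_adjacent_intervals (ii_hs kL nL x y) (ii_hs kL nL y _),
      ← intervalIntegral.integral_add_adjacent_intervals (ii_hs hK nK x y) (ii_hs hK nK y _)]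
    have i1 := intervalIntegral.integral_mono_on h2 (ii_hs kL nL _ _) (ii_hs hK nK _ _)
      fun θ _ => hs_mono hK nL inter_subset_left _
    have i2 := intervalIntegral.integral_mono_on h1 (ii_hs kL nL _ _)
      (g := fun θ => hs K (ev θ) - ε * dot (ev θ) w)
      (by apply Continuous.intervalIntegrable; fun_prop)
      fun θ hθ => hs_le nL fun z hz => mem_iInter₂.1 hz.2 θ hθ
    rw [intervalIntegral.integral_sub (ii_hs hK nK _ _)
      (by apply Continuous.intervalIntegrable; fun_prop), intervalIntegral.integral_const_mul] at i2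
    linarith

end Pool.Agent.MP_7791e4_an
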