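import Mathlib

set_option autoImplicit false

namespace Pool.Agent.MP_7791e4_an

open Set MeasureTheory

/-- The closed elliptic region with semi-axes `a`, `b` (the plane is `ℂ`). -/
def ell (a b : ℝ) : Set ℂ := {z | (z.re / a) ^ 2 + (z.im / b) ^ 2 ≤ 1}

/-- Admissible curves from `p` to `q` in the region `E`: simple (a simple arc if `p ≠ q`, a
simple closed curve if `p = q`), rectifiable, contained in `E`, and the interior of `E` minus the
curve has exactly two connected components, each simply connected and of half the area. -/
def Admissible (a b : ℝ) {p q : ℂ} (γ : Path p q) : Prop :=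
  (∀ s t, γ s = γ t → s = t ∨ (s = 0 ∧ t = 1) ∨ (s = 1 ∧ t = 0)) ∧
  eVariationOn γ univ ≠ ⊤ ∧
  range γ ⊆ ell a b ∧
  ∃ U V : Set ℂ, U ≠ V ∧
    (fun z => connectedComponentIn (interior (ell a b) \ range γ) z) ''
      (interior (ell a b) \ range γ) = {U, V} ∧
    IsSimplyConnected U ∧ IsSimplyConnected V ∧
    volume U = ENNReal.ofReal (Real.pi * a * b / 2) ∧
    volume V = ENNReal.ofReal (Real.pi * a * b / 2)

/-- A shortest curve: an admissible curve of least length among the admissible curves. -/
def Shortest (a b : ℝ) {p q : ℂ} (γ : Path p q) : Prop :=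
  Admissible a b γ ∧
    ∀ γ' : Path p q, Admissible a b γ' → eVariationOn γ univ ≤ eVariationOn γ' univ

end Pool.Agent.MP_7791e4_an
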