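import Pool.Agent.MP_7791e4_an.Defs

set_option autoImplicit false

namespace Pool.Agent.MP_7791e4_an

open Set Real

/-- The point of the ellipse with parameter `u`. -/
noncomputable def pt (a b u : ℝ) : ℂ := ⟨a * cos u, b * sin u⟩

/-- The outer unit normal of the ellipse at `pt a b u`. -/
noncomputable def nrm (a b u : ℝ) : ℂ :=
  ⟨b * cos u / √((a * sin u) ^ 2 + (b * cos u) ^ 2),
    a * sin u / √((a * sin u) ^ 2 + (b * cos u) ^ 2)⟩

/-- The radius of curvature of the ellipse at `pt a b u`. -/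
noncomputable def crv (a b u : ℝ) : ℝ := √((a * sin u) ^ 2 + (b * cos u) ^ 2) ^ 3 / (a * b)

/-- The point of the circle with centre `c` and radius `r` at angle `θ`. -/
noncomputable def circ (c : ℂ) (r θ : ℝ) : ℂ := c + ⟨r * cos θ, r * sin θ⟩

/-- The system satisfied by the junction parameters `s`, `t`, the centre `c`, the radius `r` and
the end angles `θ₁`, `θ₂` of the circular piece. -/
def Solves (a b α β s t : ℝ) (c : ℂ) (r θ₁ θ₂ : ℝ) : Prop :=
  s ≤ α ∧ β ≤ t ∧ 0 < r ∧ θ₁ < θ₂ ∧ θ₂ < θ₁ + 2 * π ∧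
  circ c r θ₁ = pt a b t ∧ circ c r θ₂ = pt a b s ∧
  a * b / 2 * (t - s - sin (t - s)) + r ^ 2 / 2 * (θ₂ - θ₁ - sin (θ₂ - θ₁)) = π * a * b / 2 ∧
  (β < t → c = pt a b t - r • nrm a b t) ∧ (s < α → c = pt a b s - r • nrm a b s) ∧
  (∀ θ ∈ Ioo θ₁ θ₂, circ c r θ ∈ interior (ell a b)) ∧
  (∀ u ∈ Ioo s α ∪ Ioo β t, r ≤ crv a b u)

/-- The curve: an arc of the ellipse, a circular arc, an arc of the ellipse. -/
def chain (a b α β s t : ℝ) (c : ℂ) (r θ₁ θ₂ : ℝ) : Set ℂ :=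
  pt a b '' Icc β t ∪ circ c r '' Icc θ₁ θ₂ ∪ pt a b '' Icc s α

end Pool.Agent.MP_7791e4_an
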