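import Pool.Agent.MP_7791e4_an.Comp

set_option autoImplicit false

namespace Pool.Agent.MP_7791e4_an

open Set MeasureTheory Real Metric Filter Topology Pointwise

variable {a b : ℝ}

lemma circ_periodic (c : ℂ) (r : ℝ) : Function.Periodic (circ c r) (2 * π) := fun θ => by
  rw [circ_eq, circ_eq, ev_periodic θ]

lemma circ_sub (c : ℂ) (r x y : ℝ) : circ c r y - circ c r x
    = (2 * r * sin ((y - x) / 2)) • ev ((x + y) / 2 + π / 2) := by
  apply Complex.ext <;> simp only [circ, Complex.sub_re, Complex.sub_im, Complex.add_re,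
    Complex.add_im, Complex.smul_re, Complex.smul_im, smul_eq_mul, ev_re, ev_im,
    cos_add_pi_div_two, sin_add_pi_div_two, add_sub_add_left_eq_sub]
  · rw [← mul_sub, cos_sub_cos, add_comm y x]; ring
  · rw [← mul_sub, sin_sub_sin, add_comm y x]; ring

lemma cross_ev_half (θ : ℝ) (w : ℂ) : cross (ev (θ + π / 2)) w = -dot (ev θ) w := by
  simp only [cross, dot, ev_re, ev_im, cos_add_pi_div_two, sin_add_pi_div_two]; ring

lemma circ_ne (c : ℂ) {r x y : ℝ} (hr : 0 < r) (h : x < y) (h' : y < x + 2 * π) :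
    circ c r x ≠ circ c r y := fun e => pt_ne hr hr h h' (add_left_cancel e)

lemma ball_line (c : ℂ) {r x y : ℝ} (hr : 0 < r) (h : x < y) (h' : y < x + 2 * π) {z : ℂ}
    (hz : z ∈ closedBall c r) (h0 : cross (circ c r y - circ c r x) (z - circ c r x) = 0) :
    z ∈ segment ℝ (circ c r x) (circ c r y) := by
  have := on_line hr hr (B_pt_self hr hr x) (B_pt_self hr hr y) (pt_ne hr hr h h') (z := z - c)
    (by rw [ell_self hr, mem_closedBall_zero_iff, ← dist_eq_norm]; exact hz) (by
      rw [← h0]; simp only [circ, pt]; congr 1 <;> ring)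
  rw [← mem_segment_translate ℝ c, add_sub_cancel] at this
  exact this

lemma eq_ball_of_area {Y : Set ℂ} (hY : IsClosed Y) {c : ℂ} {r : ℝ} (hr : 0 < r)
    (h : Y ⊆ closedBall c r) (hA : π * r ^ 2 ≤ volume.real Y) : Y = closedBall c r := by
  refine subset_antisymm h ?_
  rw [← closure_ball c hr.ne']
  refine closure_minimal (fun z hz => ?_) hY
  by_contra hc
  have oW : IsOpen (ball c r \ Y) := isOpen_ball.sdiff hY
  have fB := (isCompact_closedBall c r).measure_lt_top (μ := volume)
  have fW : volume (ball c r \ Y) ≠ ⊤ :=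
    ((measure_mono (sdiff_subset.trans ball_subset_closedBall)).trans_lt fB).ne
  have h1 : 0 < volume.real (ball c r \ Y) :=
    ENNReal.toReal_pos (oW.measure_pos volume ⟨z, hz, hc⟩).ne' fW
  have h2 : volume.real (Y ∪ ball c r \ Y) ≤ volume.real (closedBall c r) :=
    measureReal_mono (union_subset h (sdiff_subset.trans ball_subset_closedBall)) fB.ne
  rw [measureReal_union disjoint_sdiff_right oW.measurableSet ((measure_mono h).trans_lt fB).ne fW,
    ar_closedBall c hr.le] at h2
  linarith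

lemma dido {c : ℂ} {r x y : ℝ} (hr : 0 < r) (h : x < y) (h' : y < x + 2 * π) {X : Set ℂ}
    (hX : IsCompact X) (cX : Convex ℝ X) (sX : X ⊆ HP (circ c r x) (circ c r y))
    (pX : circ c r x ∈ X) (qX : circ c r y ∈ X) (hA : volume.real (seg c r x y) ≤ volume.real X)
    (hp : per X ≤ per (seg c r x y)) : X = seg c r x y := by
  have hne := circ_ne c hr h h'
  have mB : ∀ θ, circ c r θ ∈ closedBall c r := fun θ => by
    rw [mem_closedBall, dist_eq_norm, norm_circ c hr.le]
  set G' := closedBall c r ∩ HP (circ c r y) (circ c r x) with hG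
  have kG : IsCompact G' := (isCompact_closedBall _ _).inter_right (isClosed_HP _ _)
  have kY := hX.union kG
  have nY : (X ∪ G').Nonempty := ⟨_, Or.inl pX⟩
  have a1 := ar_union hne hX kG sX inter_subset_right
  have a2 := ar_union hne (isCompact_seg c r x y) kG inter_subset_right inter_subset_right
  rw [seg, inter_HP_union, ar_closedBall c hr.le] at a2
  have a3 : π * r ^ 2 ≤ volume.real (X ∪ G') := by rw [seg] at hA; linarith
  have p1 := per_union_le hX kG pX qX ⟨mB _, right_mem_HP _ _⟩ ⟨mB _, left_mem_HP _ _⟩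
  have p2 := per_split (isCompact_closedBall c r) (convex_closedBall c r) (mB x)
    fun z hz h0 => ball_line c hr h h' hz h0
  rw [per_closedBall c hr.le] at p2
  obtain ⟨c', e⟩ := eq_disc (isCompact_cch kY) convex_closedConvexHull
    (nY.mono subset_closedConvexHull) hr
    (a3.trans (measureReal_mono subset_closedConvexHull (isCompact_cch kY).measure_lt_top.ne))
    (by rw [per_cch kY nY]; rw [seg] at hp; linarith)
  have e2 := eq_ball_of_area kY.isClosed hr (e ▸ subset_closedConvexHull) a3
  have ec : c' = c := by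
    set θ := (y + (x + 2 * π)) / 2 with hθ
    have k0 : 0 < 2 * r * sin ((x + 2 * π - y) / 2) := by
      have := sin_pos_of_pos_of_lt_pi (x := (x + 2 * π - y) / 2) (by linarith) (by linarith)
      positivity
    have cr : ∀ w, cross (circ c r x - circ c r y) w
        = -(2 * r * sin ((x + 2 * π - y) / 2)) * dot (ev θ) w := by
      intro w
      rw [← circ_periodic c r x, circ_sub, cross_anti, cross_smul, cross_anti, cross_ev_half]; ring
    have z1 := circ_chord_neg c hr (x := y) (y := x + 2 * π) (θ := θ) (by linarith) (by linarith)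
      (by linarith)
    rw [circ_periodic c r x] at z1
    have m1 : circ c r θ ∈ closedBall c' r := e2 ▸ Or.inr ⟨mB _, z1.le⟩
    have d1 := dot_ev_le θ (circ c r θ - c')
    rw [mem_closedBall, dist_eq_norm] at m1
    rw [dot_sub, dot_circ, sub_self, cos_zero] at d1
    have m2 : circ c' r θ ∈ X ∪ G' := by
      rw [e2, mem_closedBall, dist_eq_norm, norm_circ c' hr.le]
    rcases m2 with m2 | m2
    · have : cross _ _ ≤ 0 := sX m2
      rw [cross_flip, cr, dot_sub, dot_circ] at this
      rw [cr, dot_sub, dot_circ] at z1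
      nlinarith
    · have m3 := m2.1
      rw [mem_closedBall, dist_eq_norm, circ_eq, show c' + r • ev θ - c = (c' - c) + r • ev θ by ring]
        at m3
      have m4 := pow_le_pow_left₀ (norm_nonneg _) m3 2
      rw [← dot_self, add_dot, dot_add, dot_add, dot_self, dot_self, norm_smul, norm_ev,
        Real.norm_of_nonneg hr.le, dot_smul, smul_dot, dot_comm (c' - c), dot_sub] at m4
      have : ‖c' - c‖ ^ 2 ≤ 0 := by nlinarith
      exact sub_eq_zero.1 (norm_eq_zero.1 (pow_eq_zero_iff two_ne_zero |>.1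
        (le_antisymm this (sq_nonneg _))))
  rw [ec] at e2
  refine subset_antisymm (fun z hz => ⟨e2 ▸ Or.inl hz, sX hz⟩) fun z hz => ?_
  have : z ∈ X ∪ G' := e2 ▸ hz.1
  refine this.elim id fun k => cX.segment_subset pX qX (ball_line c hr h h' hz.1 ?_)
  have b1 : cross _ _ ≤ 0 := hz.2
  have b2 : cross _ _ ≤ 0 := k.2
  rw [cross_flip] at b2
  linarith

lemma exists_seg {P Q : ℂ} (hne : P ≠ Q) {A : ℝ} (A0 : 0 < A) :
    ∃ (c : ℂ) (r x y : ℝ), 0 < r ∧ x < y ∧ y < x + 2 * π ∧ circ c r x = P ∧ circ c r y = Q ∧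
      r ^ 2 / 2 * (y - x - sin (y - x)) = A := by
  have d0 : 0 < ‖Q - P‖ := norm_pos_iff.2 (sub_ne_zero.2 hne.symm)
  set d := ‖Q - P‖ with hd
  set ω1 := min 1 (2 * A / d ^ 2) with hω
  have o0 : 0 < ω1 := by positivity
  have o1 : ω1 ≤ 1 := min_le_left _ _
  have o2 : ω1 * d ^ 2 ≤ 2 * A := by rw [← le_div_iff₀ (by positivity)]; exact min_le_right _ _
  have p3 := pi_gt_three
  obtain ⟨ω, hω', e⟩ := intermediate_value_Ioo (a := ω1) (b := 2 * π) (by linarith)
    (f := fun ω => d ^ 2 * (ω - sin ω) - 8 * A * sin (ω / 2) ^ 2) (by fun_prop)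
    (show (0:ℝ) ∈ _ from ⟨by
      have s1 := sin_gt_sub_cube o0
      have s2 := sin_gt_sub_cube (x := ω1 / 2) (by linarith)
      have s3 : ω1 / 4 ≤ sin (ω1 / 2) := by nlinarith [mul_pos o0 o0]
      have s4 := pow_le_pow_left₀ (by positivity) s3 2
      have s5 : d ^ 2 * (ω1 - sin ω1) < d ^ 2 * (ω1 ^ 3 / 6) :=
        mul_lt_mul_of_pos_left (by linarith) (by positivity)
      nlinarith [mul_le_mul_of_nonneg_left o2 (sq_nonneg ω1), mul_le_mul_of_nonneg_left s4 A0.le,
        mul_pos A0 (mul_pos o0 o0)], by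
      simp only [sin_two_pi, mul_div_cancel_left₀ π two_ne_zero, sin_pi]
      simp; positivity⟩)
  have s0 := sin_pos_of_pos_of_lt_pi (x := ω / 2) (by linarith [hω'.1]) (by linarith [hω'.2])
  set r := d / (2 * sin (ω / 2)) with hr
  set θ := Complex.arg (Q - P) - π / 2 with hθ
  have e1 : circ (P - r • ev (θ - ω / 2)) r (θ - ω / 2) = P := by rw [circ_eq]; ring
  refine ⟨P - r • ev (θ - ω / 2), r, θ - ω / 2, θ + ω / 2, by positivity, by linarith [hω'.1],
    by linarith [hω'.2], e1, ?_, ?_⟩
  · have := circ_sub (P - r • ev (θ - ω / 2)) r (θ - ω / 2) (θ + ω / 2)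
    rw [e1, show (θ + ω / 2 - (θ - ω / 2)) / 2 = ω / 2 by ring,
      show (θ - ω / 2 + (θ + ω / 2)) / 2 + π / 2 = Complex.arg (Q - P) by rw [hθ]; ring,
      show 2 * r * sin (ω / 2) = d by rw [hr]; field_simp, hd, ← eq_smul_ev] at this
    exact sub_left_injective this
  · rw [show θ + ω / 2 - (θ - ω / 2) = ω by ring, hr]
    simp only at e
    field_simp
    linarith

end Pool.Agent.MP_7791e4_an
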