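import Pool.Agent.MP_7791e4_an.BM

set_option autoImplicit false

namespace Pool.Agent.MP_7791e4_an

open Set MeasureTheory Real Metric Filter Topology Pointwise

lemma norm_ev_sub_le (θ φ : ℝ) : ‖ev θ - ev φ‖ ≤ |θ - φ| := by
  apply le_of_sq_le_sq _ (abs_nonneg _)
  rw [sq_norm', sq_abs]
  have h := Real.one_sub_sq_div_two_le_cos (x := θ - φ)
  rw [cos_sub] at h
  simp only [Complex.sub_re, Complex.sub_im, ev_re, ev_im]
  nlinarith [sin_sq_add_cos_sq θ, sin_sq_add_cos_sq φ]

lemma ev_mul (θ φ : ℝ) : ev θ * ev φ = ev (θ + φ) := by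
  apply Complex.ext
  · simp [cos_add]
  · simp [sin_add]; ring

lemma subset_ball_of_hs {K : Set ℂ} (hK : IsCompact K) {r : ℝ} (h : ∀ θ, hs K (ev θ) ≤ r) :
    K ⊆ closedBall 0 r := by
  intro z hz
  rw [mem_closedBall_zero_iff, ← dot_ev_arg]
  exact (le_hs hK hz _).trans (h _)

/-- the isoperimetric (Urysohn) inequality. -/
lemma urysohn {K : Set ℂ} (hK : IsCompact K) (cK : Convex ℝ K) (nK : K.Nonempty) :
    √(volume.real K) ≤ √π * (per K / (2 * π)) := by
  obtain ⟨R, hR⟩ := hK.isBounded.exists_norm_le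
  have hR0 : 0 ≤ R := by obtain ⟨z, hz⟩ := nK; exact (norm_nonneg z).trans (hR z hz)
  have hc := continuous_hs_ev hK nK
  have main : ∀ m : ℕ, 0 < m → √(volume.real K) ≤ √π * (per K / (2 * π) + R * (2 * π) / m) := by
    intro m hm
    have hm' : (0:ℝ) < m := by exact_mod_cast hm
    set δ : ℝ := 2 * π / m with hδ
    have hδ0 : 0 < δ := by positivity
    let rot : ℕ → Set ℂ := fun j => (fun z => ev (-(j * δ)) * z + 0) '' K
    have r1 : ∀ j, IsCompact (rot j) := fun j => hK.image (by fun_prop)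
    have r2 : ∀ j, Convex ℝ (rot j) := fun j => convex_image_mul cK _ _
    have r3 : ∀ j, (rot j).Nonempty := fun j => nK.image _
    have r4 : ∀ j, volume.real (rot j) = volume.real K := fun j => by
      simp only [rot]; rw [ar_mul, norm_ev]; ring
    have r5 : ∀ (j : ℕ) θ, hs (rot j) (ev θ) = hs K (ev (θ + j * δ)) := fun j θ => by
      have := hs_image hK nK (f := fun z => ev (-(j * δ)) * z + 0) (by fun_prop)
        (u := ev θ) (v := ev (θ + j * δ)) (c := 1) (d := 0) zero_le_one (fun z => by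
          rw [add_zero, dot_rot, neg_neg, ev_mul, add_comm]; ring)
      rw [one_mul, add_zero] at this
      exact this
    have ind : ∀ j : ℕ, ∃ T : Set ℂ, IsCompact T ∧ Convex ℝ T ∧ T.Nonempty ∧
        j * √(volume.real K) ≤ √(volume.real T) ∧
        ∀ θ, hs T (ev θ) = ∑ i ∈ Finset.range j, hs K (ev (θ + i * δ)) := by
      intro j
      induction j with
      | zero => exact ⟨{0}, isCompact_singleton, convex_singleton _, singleton_nonempty _,
          by simp, fun θ => by simp [hs_singleton]⟩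
      | succ j ih =>
        obtain ⟨T, t1, t2, t3, t4, t5⟩ := ih
        refine ⟨T + rot j, t1.add (r1 j), t2.add (r2 j), t3.add (r3 j), ?_, fun θ => ?_⟩
        · have := bm t1 t2 t3 (r1 j) (r2 j) (r3 j)
          rw [r4] at this
          push_cast; linarith
        · rw [hs_add t1 t3 (r1 j) (r3 j), t5, r5, Finset.sum_range_succ]
    obtain ⟨T, t1, t2, t3, t4, t5⟩ := ind m
    have riem : ∀ x : ℝ, δ * hs K (ev x) ≤ (∫ θ in x..x + δ, hs K (ev θ)) + R * δ * δ := by
      intro x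
      have h1 : ∫ θ in x..x + δ, (hs K (ev x) - R * δ) ≤ ∫ θ in x..x + δ, hs K (ev θ) := by
        apply intervalIntegral.integral_mono_on (by linarith) (by simp)
          (hc.intervalIntegrable _ _)
        intro θ hθ
        have h2 := hs_sub_le hK nK hR (ev x) (ev θ)
        have h3 := norm_ev_sub_le x θ
        have h4 : |x - θ| ≤ δ := abs_le.2 ⟨by linarith [hθ.2], by linarith [hθ.1]⟩
        have := mul_le_mul_of_nonneg_left (h3.trans h4) hR0
        linarith
      simp only [intervalIntegral.integral_const, add_sub_cancel_left, smul_eq_mul] at h1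
      linarith
    have bound : ∀ θ, hs T (ev θ) ≤ (per K + m * (R * δ * δ)) / δ := by
      intro θ
      rw [t5, le_div_iff₀ hδ0, Finset.sum_mul]
      have h1 : ∑ i ∈ Finset.range m, hs K (ev (θ + i * δ)) * δ ≤
          ∑ i ∈ Finset.range m, ((∫ φ in (θ + i * δ)..(θ + ((i + 1 : ℕ) : ℝ) * δ), hs K (ev φ))
            + R * δ * δ) := by
        apply Finset.sum_le_sum
        intro i _
        have := riem (θ + i * δ)
        rw [show θ + i * δ + δ = θ + ((i + 1 : ℕ) : ℝ) * δ by push_cast; ring] at this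
        linarith
      rw [Finset.sum_add_distrib, intervalIntegral.sum_integral_adjacent_intervals
        (a := fun i : ℕ => θ + i * δ) (fun _ _ => hc.intervalIntegrable _ _)] at h1
      have h2 : (m:ℝ) * δ = 2 * π := by rw [hδ]; field_simp
      have h3 : Function.Periodic (fun θ => hs K (ev θ)) (2 * π) :=
        fun θ => by simp only [ev_periodic θ]
      have h4 := h3.intervalIntegral_add_eq θ 0
      simp only [Nat.cast_zero, zero_mul, add_zero, h2, Finset.sum_const, Finset.card_range,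
        nsmul_eq_mul] at h1
      rw [h4, zero_add] at h1
      exact h1
    have hr : 0 ≤ (per K + m * (R * δ * δ)) / δ := by
      have := per_nonneg hK nK
      positivity
    have h5 := measureReal_mono (μ := volume) (subset_ball_of_hs t1 bound)
      (isCompact_closedBall _ _).measure_lt_top.ne
    rw [ar_closedBall _ hr] at h5
    have h6 := t4.trans (Real.sqrt_le_sqrt h5)
    rw [Real.sqrt_mul pi_pos.le, Real.sqrt_sq hr] at h6
    have h7 : (per K + m * (R * δ * δ)) / δ = m * (per K / (2 * π) + R * (2 * π) / m) := by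
      rw [hδ]; field_simp
    rw [h7, mul_left_comm] at h6
    exact le_of_mul_le_mul_left h6 hm'
  have lim : Tendsto (fun m : ℕ => √π * (per K / (2 * π) + R * (2 * π) / m)) atTop
      (𝓝 (√π * (per K / (2 * π) + 0))) :=
    (tendsto_const_nhds.add (tendsto_const_div_atTop_nhds_zero_nat _)).const_mul _
  rw [add_zero] at lim
  exact ge_of_tendsto lim (eventually_atTop.2 ⟨1, fun m hm => main m hm⟩)

lemma isoper {K : Set ℂ} (hK : IsCompact K) (cK : Convex ℝ K) (nK : K.Nonempty) :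
    volume.real K ≤ per K ^ 2 / (4 * π) := by
  have h := urysohn hK cK nK
  have h0 := per_nonneg hK nK
  have h2 := pow_le_pow_left₀ (Real.sqrt_nonneg _) h 2
  rw [Real.sq_sqrt measureReal_nonneg, mul_pow, Real.sq_sqrt pi_pos.le] at h2
  refine h2.trans (le_of_eq ?_)
  field_simp; ring

lemma isoper' {K : Set ℂ} (hK : IsCompact K) (cK : Convex ℝ K) (nK : K.Nonempty) {ρ : ℝ}
    (hρ : 0 ≤ ρ) (h : π * ρ ^ 2 ≤ volume.real K) : 2 * π * ρ ≤ per K := by
  have h1 := h.trans (isoper hK cK nK)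
  rw [le_div_iff₀ (by positivity)] at h1
  apply le_of_sq_le_sq _ (per_nonneg hK nK)
  nlinarith

lemma hw_closedBall (c : ℂ) {r : ℝ} (hr : 0 ≤ r) (θ : ℝ) : hw (closedBall c r) θ = r := by
  simp only [hw, hs_closedBall c hr, norm_neg, norm_ev, neg_dot]; ring

lemma bonnesen {K : Set ℂ} (hK : IsCompact K) (cK : Convex ℝ K) (nK : K.Nonempty)
    (hp : 0 < volume.real K) (θ : ℝ) : volume.real K / hw K θ + π * hw K θ ≤ per K := by
  have pl := hw_pos hK hp θ
  set l := hw K θ with hl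
  have key : ∀ σ : ℝ, 0 < σ →
      σ * (volume.real K / l + π * l - per K) ≤ per K ^ 2 / (4 * π) := by
    intro σ hσ
    have bB := isCompact_closedBall (0:ℂ) σ
    have nB : (closedBall (0:ℂ) σ).Nonempty := nonempty_closedBall.2 hσ.le
    have h1 := bm_width hK cK nK bB (convex_closedBall _ _) nB θ pl
      (by rw [hw_closedBall _ hσ.le]; exact hσ)
    have h2 := isoper (hK.add bB) (cK.add (convex_closedBall _ _)) (nK.add nB)
    rw [per_add hK nK bB nB, per_closedBall _ hσ.le] at h2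
    rw [hw_closedBall _ hσ.le, ar_closedBall _ hσ.le, ← hl] at h1
    have h3 := h1.trans h2
    have e1 : (l + σ) * (volume.real K / l + π * σ ^ 2 / σ)
        = volume.real K + σ * (volume.real K / l + π * l) + π * σ ^ 2 := by field_simp; ring
    have e2 : (per K + 2 * π * σ) ^ 2 / (4 * π)
        = per K ^ 2 / (4 * π) + σ * per K + π * σ ^ 2 := by field_simp; ring
    rw [e1, e2] at h3
    nlinarith
  by_contra hcon
  push Not at hcon
  set d := volume.real K / l + π * l - per K with hd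
  have hd0 : 0 < d := by linarith
  have := key (per K ^ 2 / (4 * π) / d + 1) (by positivity)
  rw [add_mul, div_mul_cancel₀ _ hd0.ne'] at this
  linarith

lemma slice_ball {ρ x : ℝ} (hx : x ∈ Icc (-ρ) ρ) :
    volume {y : ℝ | (⟨x, y⟩ : ℂ) ∈ closedBall (0:ℂ) ρ} = ENNReal.ofReal (2 * √(ρ ^ 2 - x ^ 2)) := by
  have hρ : 0 ≤ ρ := by linarith [hx.1, hx.2]
  have h0 : 0 ≤ ρ ^ 2 - x ^ 2 := by nlinarith [hx.1, hx.2]
  have : {y : ℝ | (⟨x, y⟩ : ℂ) ∈ closedBall (0:ℂ) ρ}
      = Icc (-√(ρ ^ 2 - x ^ 2)) (√(ρ ^ 2 - x ^ 2)) := by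
    ext y
    simp only [mem_ofPred_eq, mem_closedBall_zero_iff, mem_Icc]
    rw [← abs_le, ← sq_le_sq₀ (norm_nonneg _) hρ, sq_norm', Real.le_sqrt (abs_nonneg _) h0, sq_abs]
    constructor <;> intro h <;> simp only at h ⊢ <;> linarith
  rw [this, Real.volume_Icc]; congr 1; ring

lemma eq_dir {K : Set ℂ} (hK : IsCompact K) (cK : Convex ℝ K) (nK : K.Nonempty) {ρ : ℝ}
    (hρ : 0 < ρ) (hd : ∀ z ∈ K, ∀ w ∈ K, ‖z - w‖ ≤ 2 * ρ) (hw1 : hs K 1 + hs K (-1) = 2 * ρ)
    (ha : π * ρ ^ 2 ≤ volume.real K) :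
    ∃ x0 : ℝ, ∀ v : ℂ, ‖v‖ = ρ → ∃ z ∈ K, z - 2 * v ∈ K ∧ z.re = x0 + v.re := by
  set x0 := hs K 1 - ρ with hx0
  refine ⟨x0, ?_⟩
  let ℓ : ℝ → ENNReal := fun x => volume {y : ℝ | (⟨x, y⟩ : ℂ) ∈ K}
  have mℓ : Measurable ℓ := measurable_slices hK.measurableSet
  let G : ℝ → ENNReal := fun x => volume {y : ℝ | (⟨x, y⟩ : ℂ) ∈ closedBall (0:ℂ) ρ}
  have mG : Measurable G := measurable_slices measurableSet_closedBall
  let D : Set ℝ := {x | ∃ z ∈ K, z - 2 * (⟨x, √(ρ ^ 2 - x ^ 2)⟩ : ℂ) ∈ K ∧ z.re = x0 + x}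
  have pt : ∀ x ∈ Icc (-ρ) ρ, ℓ (x0 + x) + ℓ (x0 - x) ≤ 2 * G x ∧
      (ℓ (x0 + x) + ℓ (x0 - x) = 2 * G x → x ∈ D) := by
    intro x hx
    have n1 := slice_nonempty hK cK nK (x := x0 + x) (by linarith [hx.2]) (by linarith [hx.1])
    have n2 := slice_nonempty hK cK nK (x := x0 - x) (by linarith [hx.1]) (by linarith [hx.2])
    have k1 := isCompact_slice hK (x0 + x)
    have k2 := isCompact_slice hK (x0 - x)
    have h0 : 0 ≤ ρ ^ 2 - x ^ 2 := by nlinarith [hx.1, hx.2]
    set A := {y : ℝ | (⟨x0 + x, y⟩ : ℂ) ∈ K}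
    set B := {y : ℝ | (⟨x0 - x, y⟩ : ℂ) ∈ K}
    have a1 : sSup A ∈ A := k1.sSup_mem n1
    have a2 : sInf A ∈ A := k1.sInf_mem n1
    have b1 : sSup B ∈ B := k2.sSup_mem n2
    have b2 : sInf B ∈ B := k2.sInf_mem n2
    have la : sInf A ≤ sSup A := le_csSup k1.bddAbove a2
    have lb : sInf B ≤ sSup B := le_csSup k2.bddAbove b2
    have vA : ℓ (x0 + x) ≤ ENNReal.ofReal (sSup A - sInf A) := by
      rw [← Real.volume_Icc]
      exact measure_mono fun y hy => ⟨csInf_le k1.bddBelow hy, le_csSup k1.bddAbove hy⟩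
    have vB : ℓ (x0 - x) ≤ ENNReal.ofReal (sSup B - sInf B) := by
      rw [← Real.volume_Icc]
      exact measure_mono fun y hy => ⟨csInf_le k2.bddBelow hy, le_csSup k2.bddAbove hy⟩
    have dd : ∀ y ∈ A, ∀ y' ∈ B, |y - y'| ≤ 2 * √(ρ ^ 2 - x ^ 2) := by
      intro y hy y' hy'
      have h1 := pow_le_pow_left₀ (norm_nonneg _) (hd _ hy _ hy') 2
      rw [sq_norm'] at h1
      simp only [Complex.sub_re, Complex.sub_im] at h1
      apply abs_le_of_sq_le_sq _ (by positivity)
      rw [mul_pow, Real.sq_sqrt h0]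
      nlinarith
    have d1 := (abs_le.1 (dd _ a1 _ b2)).2
    have d2 := (abs_le.1 (dd _ a2 _ b1)).1
    have eG : 2 * G x = ENNReal.ofReal (4 * √(ρ ^ 2 - x ^ 2)) := by
      simp only [G]
      rw [slice_ball hx, show (4:ℝ) * √(ρ ^ 2 - x ^ 2) = 2 * (2 * √(ρ ^ 2 - x ^ 2)) by ring,
        ENNReal.ofReal_mul (p := 2) zero_le_two]
      simp
    have hsum : ℓ (x0 + x) + ℓ (x0 - x)
        ≤ ENNReal.ofReal ((sSup A - sInf A) + (sSup B - sInf B)) := by
      rw [ENNReal.ofReal_add (by linarith) (by linarith)]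
      exact add_le_add vA vB
    refine ⟨hsum.trans (eG ▸ ENNReal.ofReal_le_ofReal (by linarith)), fun he => ?_⟩
    rw [he, eG, ENNReal.ofReal_le_ofReal_iff (by linarith)] at hsum
    refine ⟨⟨x0 + x, sSup A⟩, a1, ?_, rfl⟩
    have : (⟨x0 + x, sSup A⟩ : ℂ) - 2 * (⟨x, √(ρ ^ 2 - x ^ 2)⟩ : ℂ) = ⟨x0 - x, sInf B⟩ := by
      apply Complex.ext
      · simp; ring
      · simp; linarith
    rw [this]; exact b2
  have out : ∀ x, x ∉ Icc (-ρ) ρ → ℓ (x0 + x) + ℓ (x0 - x) = 0 := by
    intro x hx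
    have e : ∀ x', x' ∉ Icc (-ρ) ρ → ℓ (x0 + x') = 0 := by
      intro x' hx'
      have : {y : ℝ | (⟨x0 + x', y⟩ : ℂ) ∈ K} = ∅ := by
        ext y; simp only [mem_ofPred_eq, mem_empty_iff_false, iff_false]
        intro hy
        have a := le_hs hK hy 1
        have b := le_hs hK hy (-1)
        rw [dot_one] at a; rw [dot_neg_one] at b
        exact hx' ⟨by simp only at b; linarith, by simp only at a; linarith⟩
      simp only [ℓ, this, measure_empty]
    rw [e x hx, sub_eq_add_neg, e (-x) (fun h => hx ⟨by linarith [h.2], by linarith [h.1]⟩),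
      add_zero]
  have hle : ∀ x, ℓ (x0 + x) + ℓ (x0 - x) ≤ 2 * G x := fun x => by
    by_cases hx : x ∈ Icc (-ρ) ρ
    · exact (pt x hx).1
    · rw [out x hx]; exact zero_le
  have i1 : ∫⁻ x, (ℓ (x0 + x) + ℓ (x0 - x)) = 2 * volume K := by
    rw [lintegral_add_left (f := fun x => ℓ (x0 + x)) (mℓ.comp (measurable_const_add x0)),
      lintegral_add_left_eq_self ℓ x0,
      lintegral_sub_left_eq_self ℓ x0, vol_slices hK.measurableSet, two_mul]
  have i2 : ∫⁻ x, 2 * G x = 2 * volume (closedBall (0:ℂ) ρ) := by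
    rw [lintegral_const_mul _ mG, vol_slices measurableSet_closedBall]
  have hae : (fun x => ℓ (x0 + x) + ℓ (x0 - x)) =ᵐ[volume] fun x => 2 * G x := by
    apply ae_eq_of_ae_le_of_lintegral_le (Eventually.of_forall hle)
    · rw [i1]; exact ENNReal.mul_ne_top (by simp) hK.measure_lt_top.ne
    · exact (mG.const_mul _).aemeasurable
    · rw [i1, i2]
      rw [← ar_closedBall (0:ℂ) hρ.le] at ha
      have := (ENNReal.toReal_le_toReal (isCompact_closedBall _ _).measure_lt_top.ne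
        hK.measure_lt_top.ne).1 ha
      exact mul_le_mul_right this _
  have cD : IsClosed D := by
    have hc : Continuous fun x : ℝ => (⟨x, √(ρ ^ 2 - x ^ 2)⟩ : ℂ) := by
      have : (fun x : ℝ => (⟨x, √(ρ ^ 2 - x ^ 2)⟩ : ℂ))
          = fun x : ℝ => (x : ℂ) + ((√(ρ ^ 2 - x ^ 2) : ℝ) : ℂ) * Complex.I := by
        funext y; apply Complex.ext <;> simp
      rw [this]; fun_prop
    have : D = (fun z : ℂ => z.re - x0) '' (K ∩ (fun z : ℂ =>
        z - 2 * (⟨z.re - x0, √(ρ ^ 2 - (z.re - x0) ^ 2)⟩ : ℂ)) ⁻¹' K) := by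
      ext x
      constructor
      · rintro ⟨z, h1, h2, h3⟩
        have e : z.re - x0 = x := by linarith
        exact ⟨z, ⟨h1, by simp only [mem_preimage, e]; exact h2⟩, e⟩
      · rintro ⟨z, ⟨h1, h2⟩, rfl⟩
        exact ⟨z, h1, h2, by ring⟩
    rw [this]
    refine ((hK.inter_right (hK.isClosed.preimage ?_)).image (by fun_prop)).isClosed
    exact continuous_id.sub (continuous_const.mul (hc.comp (f := fun z : ℂ => z.re - x0)
      (by fun_prop)))
  have hD : Icc (-ρ) ρ ⊆ D := by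
    have hdense : Dense {x | ℓ (x0 + x) + ℓ (x0 - x) = 2 * G x} := Measure.dense_of_ae hae
    rw [← closure_Ioo (by linarith)]
    apply closure_minimal _ cD
    refine (hdense.open_subset_closure_inter isOpen_Ioo).trans (closure_minimal ?_ cD)
    intro x hx
    exact (pt x (Ioo_subset_Icc_self hx.1)).2 hx.2
  have up : ∀ v : ℂ, ‖v‖ = ρ → 0 ≤ v.im → ∃ z ∈ K, z - 2 * v ∈ K ∧ z.re = x0 + v.re := by
    intro v hv h0
    have h1 : |v.re| ≤ ρ := hv ▸ Complex.abs_re_le_norm v
    obtain ⟨z, h2, h3, h4⟩ := hD (abs_le.1 h1)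
    refine ⟨z, h2, ?_, h4⟩
    have : √(ρ ^ 2 - v.re ^ 2) = v.im := by
      rw [← hv, sq_norm', add_sub_cancel_left, Real.sqrt_sq h0]
    rw [this] at h3
    exact h3
  intro v hv
  rcases le_total 0 v.im with h | h
  · exact up v hv h
  · obtain ⟨z, h2, h3, h4⟩ := up (-v) (by rw [norm_neg, hv]) (by simpa using h)
    refine ⟨_, h3, ?_, ?_⟩
    · convert h2 using 1; ring
    · simp at h4 ⊢; linarith

/-- equality case of the isoperimetric inequality. -/
lemma eq_disc {K : Set ℂ} (hK : IsCompact K) (cK : Convex ℝ K) (nK : K.Nonempty) {ρ : ℝ}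
    (hρ : 0 < ρ) (ha : π * ρ ^ 2 ≤ volume.real K) (hp : per K ≤ 2 * π * ρ) :
    ∃ c, K = closedBall c ρ := by
  have hpos : 0 < volume.real K := lt_of_lt_of_le (by positivity) ha
  have hwρ : ∀ θ, hw K θ = ρ := by
    intro θ
    have h1 := (bonnesen hK cK nK hpos θ).trans hp
    have pl := hw_pos hK hpos θ
    set l := hw K θ
    have h2 : π * ρ ^ 2 / l ≤ volume.real K / l := by gcongr
    have h3 : π * ρ ^ 2 / l + π * l ≤ 2 * π * ρ := by linarith
    rw [div_add' _ _ _ pl.ne', div_le_iff₀ pl] at h3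
    have h4 : π * (l - ρ) ^ 2 ≤ 0 := by nlinarith
    have h5 : (l - ρ) ^ 2 ≤ 0 := by
      by_contra hc
      push Not at hc
      have := mul_pos pi_pos hc
      linarith
    have := pow_eq_zero_iff (two_ne_zero) |>.1 (le_antisymm h5 (sq_nonneg _))
    linarith
  have hd : ∀ z ∈ K, ∀ w ∈ K, ‖z - w‖ ≤ 2 * ρ := by
    intro z hz w hw'
    rw [← dot_ev_arg, dot_sub]
    have h1 := le_hs hK hz (ev (Complex.arg (z - w)))
    have h2 := le_hs hK hw' (-ev (Complex.arg (z - w)))
    have h3 := hwρ (Complex.arg (z - w))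
    rw [neg_dot] at h2
    unfold hw at h3
    linarith
  have e0 : ev 0 = 1 := by apply Complex.ext <;> simp
  have e1 : ev (π / 2) = Complex.I := by apply Complex.ext <;> simp
  obtain ⟨x0, hx⟩ := eq_dir hK cK nK hρ hd (by
    have := hwρ 0
    unfold hw at this; rw [e0] at this; linarith) ha
  let f : ℂ → ℂ := fun z => -Complex.I * z + 0
  have hf : Continuous f := by fun_prop
  obtain ⟨y0, hy⟩ := eq_dir (hK.image hf) (convex_image_mul cK _ _) (nK.image _) hρ
    (by
      rintro _ ⟨z, hz, rfl⟩ _ ⟨w, hw', rfl⟩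
      have : f z - f w = -Complex.I * (z - w) := by simp only [f]; ring
      rw [this, norm_mul]; simpa using hd z hz w hw')
    (by
      rw [hs_image hK nK hf (u := 1) (v := Complex.I) (c := 1) (d := 0) zero_le_one
        (fun z => by simp [f, dot]),
        hs_image hK nK hf (u := -1) (v := -Complex.I) (c := 1) (d := 0) zero_le_one
        (fun z => by simp [f, dot])]
      have := hwρ (π / 2)
      unfold hw at this; rw [e1] at this; linarith)
    (by simp only [f]; rw [ar_mul]; simpa using ha)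
  have sph : ∀ v : ℂ, ‖v‖ = ρ → (⟨x0, y0⟩ : ℂ) + v ∈ K := by
    intro v hv
    obtain ⟨z, h1, h2, h3⟩ := hx v hv
    obtain ⟨_, ⟨z', h4, rfl⟩, ⟨w', h5, h6⟩, h7⟩ := hy (-Complex.I * v) (by simpa using hv)
    have e2 : w' = z' - 2 * v := by
      have : -Complex.I * w' = -Complex.I * (z' - 2 * v) := by
        simp only [f, add_zero] at h6; rw [h6]; ring
      exact mul_left_cancel₀ (by simp) this
    rw [e2] at h5
    have a1 := pow_le_pow_left₀ (norm_nonneg _) (hd _ h1 _ h5) 2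
    have a2 := pow_le_pow_left₀ (norm_nonneg _) (hd _ h4 _ h2) 2
    have a3 : v.re ^ 2 + v.im ^ 2 = ρ ^ 2 := by rw [← sq_norm', hv]
    rw [sq_norm'] at a1 a2
    simp only [Complex.sub_re, Complex.sub_im, Complex.mul_re, Complex.mul_im,
      Complex.re_ofNat, Complex.im_ofNat] at a1 a2
    have a4 : (z.re - z'.re) ^ 2 + (z.im - z'.im) ^ 2 ≤ 0 := by nlinarith
    have a5 : z.im = z'.im := by nlinarith [sq_nonneg (z.re - z'.re), sq_nonneg (z.im - z'.im)]
    have a6 : z'.im = y0 + v.im := by simpa [f] using h7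
    have : (⟨x0, y0⟩ : ℂ) + v = z := by
      apply Complex.ext
      · simp [h3]
      · simp [a5, a6]
    rw [this]; exact h1
  refine ⟨⟨x0, y0⟩, ?_⟩
  set c : ℂ := ⟨x0, y0⟩
  have nv : ∀ θ, ‖ρ • ev θ‖ = ρ := fun θ => by
    rw [norm_smul, norm_ev, Real.norm_eq_abs, abs_of_pos hρ, mul_one]
  apply subset_antisymm
  · intro w hw'
    have h1 := hd _ (sph _ (nv (Complex.arg (c - w)))) _ hw'
    have h2 : c + ρ • ev (Complex.arg (c - w)) - w = (‖c - w‖ + ρ) • ev (Complex.arg (c - w)) := by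
      rw [add_smul, ← eq_smul_ev]; ring
    rw [h2, norm_smul, norm_ev, Real.norm_eq_abs, abs_of_nonneg (by positivity), mul_one] at h1
    rw [mem_closedBall, dist_comm, dist_eq_norm]
    linarith
  · intro w hw'
    rw [mem_closedBall, dist_eq_norm] at hw'
    set θ := Complex.arg (w - c)
    have h1 := sph _ (nv θ)
    have h2 := sph (-(ρ • ev θ)) (by rw [norm_neg, nv])
    have h3 := cK h1 h2 (a := (ρ + ‖w - c‖) / (2 * ρ)) (b := (ρ - ‖w - c‖) / (2 * ρ))
      (by positivity) (div_nonneg (by linarith) (by positivity)) (by field_simp; ring)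
    convert h3 using 1
    have h4 : w = c + ‖w - c‖ • ev θ := by rw [← eq_smul_ev]; ring
    have e : (ρ : ℂ) ≠ 0 := by exact_mod_cast hρ.ne'
    conv_lhs => rw [h4]
    simp only [Complex.real_smul]
    push_cast
    field_simp
    ring

end Pool.Agent.MP_7791e4_an
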