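import Pool.Agent.MP_7791e4_an.Defs
import Pool.Agent.MP_7791e4_an.Iso
import Pool.Agent.MP_7791e4_an.Bdry

set_option autoImplicit false

namespace Pool.Agent.MP_7791e4_an

open Set MeasureTheory Real Metric Filter Topology Pointwise unitInterval

noncomputable def B (a b : ℝ) (z w : ℂ) : ℝ := z.re * w.re / a ^ 2 + z.im * w.im / b ^ 2

noncomputable def nu (a b : ℝ) (z : ℂ) : ℂ := ⟨z.re / a ^ 2, z.im / b ^ 2⟩

noncomputable def tg (a b : ℝ) (p : ℂ) : ℂ := ⟨-(a * p.im / b), b * p.re / a⟩

variable {a b : ℝ}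

lemma dot_nu (z w : ℂ) : dot (nu a b z) w = B a b z w := by simp [dot, nu, B]; ring
lemma B_comm (z w : ℂ) : B a b z w = B a b w z := by simp [B]; ring
lemma B_add (z x y : ℂ) : B a b z (x + y) = B a b z x + B a b z y := by simp [B]; ring
lemma B_sub (z x y : ℂ) : B a b z (x - y) = B a b z x - B a b z y := by simp [B]; ring
lemma B_smul (z x : ℂ) (t : ℝ) : B a b z (t • x) = t * B a b z x := by simp [B]; ring
lemma B_neg (z x : ℂ) : B a b z (-x) = -B a b z x := by simp [B]; ring
lemma add_B (z x y : ℂ) : B a b (x + y) z = B a b x z + B a b y z := by simp [B]; ring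
lemma sub_B (z x y : ℂ) : B a b (x - y) z = B a b x z - B a b y z := by simp [B]; ring
lemma smul_B (z x : ℂ) (t : ℝ) : B a b (t • x) z = t * B a b x z := by simp [B]; ring
lemma neg_B (z x : ℂ) : B a b (-x) z = -B a b x z := by simp [B]; ring
@[simp] lemma B_zero (z : ℂ) : B a b z 0 = 0 := by simp [B]

@[fun_prop] lemma continuous_B {X : Type} [TopologicalSpace X] {f g : X → ℂ}
    (hf : Continuous f) (hg : Continuous g) : Continuous fun x => B a b (f x) (g x) := by
  unfold B; fun_prop

@[fun_prop] lemma continuous_nu {X : Type} [TopologicalSpace X] {f : X → ℂ}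
    (hf : Continuous f) : Continuous fun x => nu a b (f x) := by
  have : (fun x => nu a b (f x)) = fun x => (((f x).re / a ^ 2 : ℝ) : ℂ)
      + (((f x).im / b ^ 2 : ℝ) : ℂ) * Complex.I := by
    funext x
    apply Complex.ext
    · simp only [nu, Complex.add_re, Complex.ofReal_re, Complex.mul_re, Complex.I_re,
        Complex.ofReal_im, Complex.I_im]; ring
    · simp only [nu, Complex.add_im, Complex.ofReal_re, Complex.mul_im, Complex.I_re,
        Complex.ofReal_im, Complex.I_im]; ring
  rw [this]; fun_prop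

lemma mem_ell {z : ℂ} : z ∈ ell a b ↔ B a b z z ≤ 1 := by
  simp only [ell, B, mem_ofPred_eq, div_pow, sq z.re, sq z.im]

lemma B_nonneg (z : ℂ) : 0 ≤ B a b z z := by
  unfold B
  have := mul_self_nonneg z.re; have := mul_self_nonneg z.im
  positivity

lemma B_pos (ha : 0 < a) (hb : 0 < b) {z : ℂ} (hz : z ≠ 0) : 0 < B a b z z := by
  unfold B
  have h1 := mul_self_nonneg z.re; have h2 := mul_self_nonneg z.im
  by_cases h : z.re = 0
  · have : z.im ≠ 0 := fun h' => hz (Complex.ext h h')
    have := mul_self_pos.2 this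
    positivity
  · have := mul_self_pos.2 h
    positivity

lemma B_expand (z w : ℂ) : B a b (z - w) (z - w) = B a b z z - 2 * B a b z w + B a b w w := by
  simp [B]; ring

lemma B_le_one {z w : ℂ} (hz : z ∈ ell a b) (hw : w ∈ ell a b) : B a b z w ≤ 1 := by
  have := B_nonneg (a := a) (b := b) (z - w)
  rw [B_expand] at this
  rw [mem_ell] at hz hw
  linarith

lemma B_lt_one (ha : 0 < a) (hb : 0 < b) {z w : ℂ} (hz : z ∈ ell a b) (hw : w ∈ ell a b)
    (h : z ≠ w) : B a b z w < 1 := by
  have := B_pos ha hb (sub_ne_zero.2 h)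
  rw [B_expand] at this
  rw [mem_ell] at hz hw
  linarith

lemma B_comb (z w : ℂ) (s t : ℝ) : B a b (s • z + t • w) (s • z + t • w)
    = s ^ 2 * B a b z z + 2 * s * t * B a b z w + t ^ 2 * B a b w w := by
  simp [B]; ring

lemma convex_ell : Convex ℝ (ell a b) := by
  intro z hz w hw s t hs ht hst
  have h := B_le_one hz hw
  rw [mem_ell] at hz hw ⊢
  rw [B_comb]
  have : (s + t) ^ 2 = 1 := by rw [hst]; ring
  nlinarith [mul_le_mul_of_nonneg_left hz (sq_nonneg s), mul_le_mul_of_nonneg_left hw (sq_nonneg t),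
    mul_le_mul_of_nonneg_left h (mul_nonneg hs ht)]

lemma isClosed_ell : IsClosed (ell a b) := by
  have : ell a b = {z | B a b z z ≤ 1} := by ext z; exact mem_ell
  rw [this]; exact isClosed_le (by fun_prop) continuous_const

lemma B_le_norm (hb : 0 < b) (hab : b ≤ a) (z : ℂ) : B a b z z ≤ ‖z‖ ^ 2 / b ^ 2 := by
  rw [sq_norm', add_div, B, ← sq, ← sq]
  gcongr

lemma norm_le_B (hb : 0 < b) (hab : b ≤ a) (z : ℂ) : ‖z‖ ^ 2 / a ^ 2 ≤ B a b z z := by
  rw [sq_norm', add_div, B, ← sq, ← sq]
  gcongr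

lemma norm_le_of_mem (hb : 0 < b) (hab : b ≤ a) {z : ℂ} (hz : z ∈ ell a b) : ‖z‖ ≤ a := by
  have ha : 0 < a := by linarith
  have := (norm_le_B hb hab z).trans (mem_ell.1 hz)
  rw [div_le_one (by positivity)] at this
  exact le_of_sq_le_sq this ha.le

lemma mem_of_norm_le (hb : 0 < b) (hab : b ≤ a) {z : ℂ} (hz : ‖z‖ ≤ b) : z ∈ ell a b := by
  rw [mem_ell]
  refine (B_le_norm hb hab z).trans ?_
  rw [div_le_one (by positivity)]
  gcongr

lemma isCompact_ell (hb : 0 < b) (hab : b ≤ a) : IsCompact (ell a b) :=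
  (isCompact_closedBall (0:ℂ) a).of_isClosed_subset isClosed_ell fun _ hz =>
    mem_closedBall_zero_iff.2 (norm_le_of_mem hb hab hz)

lemma zero_mem_ell : (0:ℂ) ∈ ell a b := by simp [mem_ell]

lemma neg_mem_ell {z : ℂ} (h : z ∈ ell a b) : -z ∈ ell a b := by
  rw [mem_ell] at h ⊢; rwa [neg_B, B_neg, neg_neg]

lemma mem_int {z : ℂ} : z ∈ interior (ell a b) ↔ B a b z z < 1 := by
  constructor
  · intro h
    have hc : Continuous fun t : ℝ => t • z := by fun_prop
    have h1 : ∀ᶠ t : ℝ in 𝓝 1, t • z ∈ ell a b :=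
      hc.continuousAt.preimage_mem_nhds (by simpa using mem_interior_iff_mem_nhds.1 h)
    obtain ⟨t, h2, h3⟩ := ((h1.filter_mono nhdsWithin_le_nhds).and
      (self_mem_nhdsWithin (s := Ioi (1:ℝ)))).exists
    rw [mem_ell, smul_B, B_smul] at h2
    have h4 : (1:ℝ) < t := h3
    by_contra hc'
    push Not at hc'
    have h5 : t ≤ t * B a b z z := le_mul_of_one_le_right (by linarith) hc'
    nlinarith
  · intro h
    apply interior_maximal (t := {z | B a b z z < 1}) (fun w hw => mem_ell.2 (le_of_lt hw))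
      (isOpen_lt (by fun_prop) continuous_const) h

lemma mem_fr {z : ℂ} : z ∈ frontier (ell a b) ↔ B a b z z = 1 := by
  rw [isClosed_ell.frontier_eq, Set.mem_sdiff, mem_ell, mem_int]
  constructor
  · exact fun h => le_antisymm h.1 (not_lt.1 h.2)
  · exact fun h => ⟨h.le, h.not_lt⟩

lemma ar_ell (ha : 0 < a) (hb : 0 < b) : volume.real (ell a b) = π * a * b := by
  have h := vol_aff a 0 0 b 0 (closedBall 0 1)
  have e : (fun z : ℂ => (⟨a * z.re + 0 * z.im, 0 * z.re + b * z.im⟩ : ℂ) + 0) '' closedBall 0 1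
      = ell a b := by
    ext z
    constructor
    · rintro ⟨w, hw, rfl⟩
      rw [mem_closedBall_zero_iff, ← sq_le_sq₀ (norm_nonneg _) zero_le_one, sq_norm'] at hw
      simp only [ell, mem_ofPred_eq, add_zero, zero_mul, zero_add]
      rw [mul_div_cancel_left₀ _ ha.ne', mul_div_cancel_left₀ _ hb.ne']
      linarith
    · intro hz
      refine ⟨⟨z.re / a, z.im / b⟩, ?_, ?_⟩
      · rw [mem_closedBall_zero_iff, ← sq_le_sq₀ (norm_nonneg _) zero_le_one, sq_norm', one_pow]
        exact hz
      · apply Complex.ext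
        · simp; field_simp
        · simp; field_simp
  rw [e] at h
  have h2 := ar_closedBall (0:ℂ) zero_le_one
  simp only [Measure.real] at h2 ⊢
  rw [h, ENNReal.toReal_mul, h2, ENNReal.toReal_ofReal (abs_nonneg _),
    abs_of_pos (by nlinarith [mul_pos ha hb])]
  ring

lemma ar_interior {K : Set ℂ} (cK : Convex ℝ K) : volume.real (interior K) = volume.real K := by
  simp only [Measure.real]
  rw [measure_interior_of_null_frontier (cK.addHaar_frontier volume)]

lemma B_tg (ha : 0 < a) (hb : 0 < b) (p : ℂ) : B a b p (tg a b p) = 0 := by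
  simp only [B, tg]; field_simp; ring

lemma B_tg_tg (ha : 0 < a) (hb : 0 < b) (p : ℂ) : B a b (tg a b p) (tg a b p) = B a b p p := by
  simp only [B, tg]; field_simp; ring

lemma decomp (ha : 0 < a) (hb : 0 < b) {p : ℂ} (hp : B a b p p = 1) (z : ℂ) :
    z = B a b p z • p + B a b (tg a b p) z • tg a b p := by
  have h : p.re * p.re / a ^ 2 + p.im * p.im / b ^ 2 = 1 := hp
  apply Complex.ext
  · simp only [B, tg, Complex.add_re, Complex.smul_re, smul_eq_mul]
    have : z.re = z.re * (p.re * p.re / a ^ 2 + p.im * p.im / b ^ 2) := by rw [h, mul_one]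
    conv_lhs => rw [this]
    field_simp; ring
  · simp only [B, tg, Complex.add_im, Complex.smul_im, smul_eq_mul]
    have : z.im = z.im * (p.re * p.re / a ^ 2 + p.im * p.im / b ^ 2) := by rw [h, mul_one]
    conv_lhs => rw [this]
    field_simp; ring

lemma B_coord (ha : 0 < a) (hb : 0 < b) {p : ℂ} (hp : B a b p p = 1) (x y x' y' : ℝ) :
    B a b (x • p + y • tg a b p) (x' • p + y' • tg a b p) = x * x' + y * y' := by
  simp only [add_B, B_add, smul_B, B_smul, B_tg ha hb, B_tg_tg ha hb, hp,
    B_comm (tg a b p) p]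
  ring

/-- the part of the open ellipse outside a convex set whose contact set is a cap arc is
contractible. -/
lemma outside_sc (ha : 0 < a) (hb : 0 < b) {K : Set ℂ} (hK : IsCompact K) (cK : Convex ℝ K)
    {p : ℂ} (hp : B a b p p = 1) (hpK : p ∈ K) {u : ℂ} {κ : ℝ}
    (hcon : ∀ z, B a b z z = 1 → (z ∈ K ↔ dot u z ≤ κ)) {z0 : ℂ} (hz0 : B a b z0 z0 = 1)
    (hz0K : z0 ∉ K) : IsSimplyConnected (interior (ell a b) \ K) := by
  set T := tg a b p with hT
  let pt : ℝ → ℝ → ℂ := fun w y => (1 - y) • p + (y * w) • T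
  have Qpt : ∀ w y, B a b (pt w y) (pt w y) = 1 - y * (2 - y * (1 + w ^ 2)) := fun w y => by
    simp only [pt, hT, B_coord ha hb hp]; ring
  let yE : ℝ → ℝ := fun w => 2 / (1 + w ^ 2)
  have yE0 : ∀ w, 0 < yE w := fun w => by positivity
  have yE1 : ∀ w, yE w * (1 + w ^ 2) = 2 := fun w => by simp only [yE]; field_simp
  have cyE : Continuous yE := continuous_const.div (by fun_prop) fun w => by positivity
  have pne : ∀ w : ℝ, (w • T - p) ≠ 0 := by
    intro w h
    have := congrArg (B a b p) h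
    rw [B_sub, B_smul, hT, B_tg ha hb, hp] at this
    simp at this
  have ptsub : ∀ w y y', pt w y - pt w y' = (y - y') • (w • T - p) := fun w y y' => by
    simp only [pt, Complex.real_smul]; push_cast; ring
  have pt0 : ∀ w, pt w 0 = p := fun w => by simp [pt]
  have down : ∀ w y y', 0 ≤ y → y ≤ y' → pt w y' ∈ K → pt w y ∈ K := by
    intro w y y' h0 h1 h2
    rcases eq_or_lt_of_le (h0.trans h1) with e | e
    · rw [show y = y' by linarith]; exact h2
    have := cK hpK h2 (a := 1 - y / y') (b := y / y') (by rw [sub_nonneg, div_le_one e]; exact h1)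
      (by positivity) (by ring)
    convert this using 1
    have e' : (y' : ℂ) ≠ 0 := by exact_mod_cast e.ne'
    simp only [pt, Complex.real_smul]; push_cast; field_simp; ring
  let m : ℝ → ℝ := fun w => yE w - infDist (pt w (yE w)) K / (2 * ‖w • T - p‖)
  have cm : Continuous m := by
    refine cyE.sub (Continuous.div ((continuous_infDist_pt K).comp ?_) (by fun_prop)
      fun w => by have := norm_pos_iff.2 (pne w); positivity)
    simp only [pt]; fun_prop
  have hm : ∀ w, pt w (yE w) ∉ K → 0 < m w ∧ m w < yE w ∧ pt w (m w) ∉ K := by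
    intro w h
    have n0 := norm_pos_iff.2 (pne w)
    have d0 : 0 < infDist (pt w (yE w)) K :=
      (hK.isClosed.notMem_iff_infDist_pos ⟨p, hpK⟩).1 h
    have d1 : infDist (pt w (yE w)) K ≤ yE w * ‖w • T - p‖ := by
      refine (infDist_le_dist_of_mem hpK).trans (le_of_eq ?_)
      rw [dist_eq_norm]
      conv_lhs => rw [← pt0 w]
      rw [ptsub, norm_smul, sub_zero, Real.norm_eq_abs, abs_of_pos (yE0 w)]
    have d2 : infDist (pt w (yE w)) K / (2 * ‖w • T - p‖) ≤ yE w / 2 := by
      rw [div_le_div_iff₀ (by positivity) two_pos]; linarith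
    have d3 : 0 < infDist (pt w (yE w)) K / (2 * ‖w • T - p‖) := by positivity
    refine ⟨by simp only [m]; linarith [yE0 w], by simp only [m]; linarith, ?_⟩
    apply notMem_of_dist_lt_infDist (x := pt w (yE w))
    rw [dist_eq_norm, ptsub, norm_smul, Real.norm_eq_abs, abs_of_pos (by simp only [m]; linarith)]
    simp only [m, sub_sub_cancel]
    rw [div_mul_eq_mul_div, div_lt_iff₀ (by positivity)]
    nlinarith
  have QE : ∀ w, B a b (pt w (yE w)) (pt w (yE w)) = 1 := fun w => by rw [Qpt, yE1]; ring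
  have κp : dot u p ≤ κ := (hcon p hp).1 hpK
  have iffS : ∀ w, pt w (yE w) ∉ K ↔
      0 < (dot u p - κ) * (1 + w ^ 2) + 2 * (w * dot u T - dot u p) := by
    intro w
    rw [hcon _ (QE w), not_le]
    simp only [pt, dot_add, dot_smul]
    have h1 := yE1 w
    have h2 : 0 < 1 + w ^ 2 := by positivity
    have e : (dot u p - κ) * (1 + w ^ 2) + 2 * (w * dot u T - dot u p)
        = (1 + w ^ 2) * ((1 - yE w) * dot u p + yE w * w * dot u T - κ) := by
      linear_combination (dot u p - w * dot u T) * h1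
    rw [e, mul_pos_iff_of_pos_left h2, sub_pos]
  have convS : ∀ w w' l, pt w (yE w) ∉ K → pt w' (yE w') ∉ K → 0 ≤ l → l ≤ 1 →
      pt (w + l * (w' - w)) (yE (w + l * (w' - w))) ∉ K := by
    intro w w' l h1 h2 l0 l1
    rw [iffS] at h1 h2 ⊢
    have h3 : 0 ≤ (κ - dot u p) * (l * (1 - l) * (w' - w) ^ 2) :=
      mul_nonneg (by linarith) (mul_nonneg (mul_nonneg l0 (by linarith)) (sq_nonneg _))
    have e : (dot u p - κ) * (1 + (w + l * (w' - w)) ^ 2)
        + 2 * ((w + l * (w' - w)) * dot u T - dot u p)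
        = (1 - l) * ((dot u p - κ) * (1 + w ^ 2) + 2 * (w * dot u T - dot u p))
          + l * ((dot u p - κ) * (1 + w' ^ 2) + 2 * (w' * dot u T - dot u p))
          + (κ - dot u p) * (l * (1 - l) * (w' - w) ^ 2) := by ring
    rw [e]
    rcases eq_or_lt_of_le l0 with e0 | e0
    · rw [← e0]; simpa using h1
    · have := mul_pos e0 h2
      have := mul_nonneg (sub_nonneg.2 l1) h1.le
      linarith
  let yy : ℂ → ℝ := fun z => 1 - B a b p z
  let ss : ℂ → ℝ := fun z => B a b T z / yy z
  have rep : ∀ z, z ∈ ell a b → z ≠ p → 0 < yy z ∧ pt (ss z) (yy z) = z := by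
    intro z hz hzp
    have h0 : 0 < yy z := sub_pos.2 (B_lt_one ha hb (mem_ell.2 hp.le) hz hzp.symm)
    refine ⟨h0, ?_⟩
    conv_rhs => rw [decomp ha hb hp z]
    simp only [pt, ss]
    rw [mul_div_cancel₀ _ h0.ne']
    simp [yy, hT]
  have inV : ∀ w y, 0 < y → y < yE w → pt w y ∈ interior (ell a b) := by
    intro w y h0 h1
    rw [mem_int, Qpt]
    have := yE1 w
    have h2 : 0 < 1 + w ^ 2 := by positivity
    have : y * (1 + w ^ 2) < 2 := by nlinarith
    nlinarith
  have hV : ∀ z ∈ interior (ell a b) \ K, 0 < yy z ∧ pt (ss z) (yy z) = z ∧ yy z < yE (ss z) ∧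
      pt (ss z) (yE (ss z)) ∉ K := by
    intro z hz
    obtain ⟨h0, h1⟩ := rep z (interior_subset hz.1) (fun h => hz.2 (h ▸ hpK))
    have h2 := mem_int.1 hz.1
    rw [← h1, Qpt] at h2
    have h3 : yy z < yE (ss z) := by
      have h4 : yy z * (1 + ss z ^ 2) < 2 := by nlinarith
      simp only [yE]
      rw [lt_div_iff₀ (by positivity)]; exact h4
    exact ⟨h0, h1, h3, fun h => hz.2 (h1 ▸ down _ _ _ h0.le h3.le h)⟩
  have hw0 : pt (ss z0) (yE (ss z0)) ∉ K := by
    obtain ⟨h0, h1⟩ := rep z0 (mem_ell.2 hz0.le) (fun h => hz0K (h ▸ hpK))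
    have h2 := hz0
    rw [← h1, Qpt] at h2
    have h3 : yy z0 = yE (ss z0) := by
      have h4 : yy z0 * (1 + ss z0 ^ 2) = 2 := by
        have : yy z0 * (2 - yy z0 * (1 + ss z0 ^ 2)) = 0 := by linarith
        rcases mul_eq_zero.1 this with h | h <;> linarith
      simp only [yE]
      rw [eq_div_iff (by positivity)]; exact h4
    rw [← h3, h1]; exact hz0K
  set w0 := ss z0
  let V := interior (ell a b) \ K
  let F : I × V → ℂ := fun x =>
    pt (w0 + min 1 (2 - 2 * (x.1:ℝ)) * (ss x.2 - w0))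
      (m (w0 + min 1 (2 - 2 * (x.1:ℝ)) * (ss x.2 - w0))
        + max (1 - 2 * (x.1:ℝ)) 0 * (yy x.2 - m (ss x.2)))
  have cyy : Continuous yy := by simp only [yy]; fun_prop
  have css : Continuous fun z : V => ss z :=
    Continuous.div (by fun_prop) (cyy.comp continuous_subtype_val) fun z => (hV z z.2).1.ne'
  have cF : Continuous F := by
    have c1 : Continuous fun x : I × V => w0 + min 1 (2 - 2 * (x.1:ℝ)) * (ss x.2 - w0) := by
      have := css.comp (continuous_snd (X := I))
      exact continuous_const.add (Continuous.mul (by fun_prop) (this.sub continuous_const))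
    have c2 : Continuous fun x : I × V => max (1 - 2 * (x.1:ℝ)) 0 * (yy x.2 - m (ss x.2)) :=
      Continuous.mul (by fun_prop) ((cyy.comp (continuous_subtype_val.comp continuous_snd)).sub
        (cm.comp (css.comp continuous_snd)))
    have c3 := (cm.comp c1).add c2
    exact ((continuous_const.sub c3).smul continuous_const).add ((c3.mul c1).smul continuous_const)
  have mF : ∀ x, F x ∈ V := by
    rintro ⟨s, z⟩
    obtain ⟨h0, h1, h2, h3⟩ := hV z z.2
    have s0 := s.2.1
    have s1 := s.2.2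
    simp only [F]
    rcases le_total (s:ℝ) (1 / 2) with h | h
    · rw [min_eq_left (by linarith), max_eq_left (by linarith), one_mul, add_sub_cancel]
      obtain ⟨m0, m1, m2⟩ := hm _ h3
      have l0 : 0 ≤ 1 - 2 * (s:ℝ) := by linarith
      rcases le_total (m (ss z)) (yy z) with c | c
      · have e1 := mul_nonneg l0 (sub_nonneg.2 c)
        have e2 := mul_nonneg s0 (sub_nonneg.2 c)
        exact ⟨inV _ _ (by linarith) (by linarith), fun hk => m2 (down _ _ _ m0.le (by linarith) hk)⟩
      · have e1 := mul_nonneg l0 (sub_nonneg.2 c)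
        have e2 := mul_nonneg s0 (sub_nonneg.2 c)
        exact ⟨inV _ _ (by linarith) (by linarith),
          fun hk => z.2.2 (h1 ▸ down _ _ _ h0.le (by linarith) hk)⟩
    · rw [min_eq_right (by linarith), max_eq_right (by linarith), zero_mul, add_zero]
      obtain ⟨m0, m1, m2⟩ := hm _ (convS w0 (ss z) (2 - 2 * s) hw0 h3 (by linarith) (by linarith))
      exact ⟨inV _ _ m0 m1, m2⟩
  obtain ⟨m0, m1, m2⟩ := hm _ hw0
  have : ContractibleSpace V := by
    rw [contractible_iff_id_nullhomotopic]
    refine ⟨⟨pt w0 (m w0), inV _ _ m0 m1, m2⟩, ⟨⟨⟨fun x => ⟨F x, mF x⟩, cF.subtype_mk _⟩, ?_, ?_⟩⟩⟩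
    · intro z
      apply Subtype.ext
      simp only [F, ContinuousMap.id_apply, Icc.coe_zero]
      norm_num
      exact (hV z z.2).2.1
    · intro z
      apply Subtype.ext
      simp only [F, ContinuousMap.const_apply, Icc.coe_one]
      norm_num
  exact SimplyConnectedSpace.ofContractible V

lemma comp_eq {S U V : Set ℂ} (hS : S = U ∪ V) (oU : IsOpen U) (oV : IsOpen V) (d : Disjoint U V)
    (cU : IsPreconnected U) {z : ℂ} (hz : z ∈ U) : connectedComponentIn S z = U := by
  apply subset_antisymm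
  · exact isPreconnected_connectedComponentIn.subset_left_of_subset_union oU oV d
      (hS ▸ connectedComponentIn_subset _ _)
      ⟨z, mem_connectedComponentIn (hS ▸ Or.inl hz), hz⟩
  · exact cU.subset_connectedComponentIn hz (hS ▸ subset_union_left)

lemma admissible_of (hb : 0 < b) (hab : b ≤ a) {K : Set ℂ} (hK : IsCompact K) (cK : Convex ℝ K)
    (hKE : K ⊆ ell a b) (hA : volume.real K = π * a * b / 2)
    {p q : ℂ} (hp : B a b p p = 1) (hpK : p ∈ K) {u : ℂ} {κ : ℝ}
    (hcon : ∀ z, B a b z z = 1 → (z ∈ K ↔ dot u z ≤ κ)) {z0 : ℂ} (hz0 : B a b z0 z0 = 1)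
    (hz0K : z0 ∉ K) (γ : Path p q)
    (h1 : ∀ s t, γ s = γ t → s = t ∨ (s = 0 ∧ t = 1) ∨ (s = 1 ∧ t = 0))
    (h2 : eVariationOn γ univ ≠ ⊤) (h3 : range γ ⊆ frontier K)
    (h4 : frontier K ∩ interior (ell a b) ⊆ range γ) : Admissible a b γ := by
  have ha : 0 < a := by linarith
  have hpos : 0 < π * a * b / 2 := by positivity
  have sV := outside_sc ha hb hK cK hp hpK hcon hz0 hz0K
  have aU : volume.real (interior K) = π * a * b / 2 := by rw [ar_interior cK, hA]
  have nU : (interior K).Nonempty := nonempty_of_measureReal_ne_zero (aU ▸ hpos.ne')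
  have hS : interior (ell a b) \ range γ = interior K ∪ (interior (ell a b) \ K) := by
    ext z
    constructor
    · rintro ⟨hz, hz'⟩
      by_cases h : z ∈ K
      · left
        by_contra h'
        exact hz' (h4 ⟨by rw [hK.isClosed.frontier_eq]; exact ⟨h, h'⟩, hz⟩)
      · exact Or.inr ⟨hz, h⟩
    · rintro (h | h)
      · exact ⟨interior_mono hKE h, fun h' => (h3 h').2 h⟩
      · exact ⟨h.1, fun h' => h.2 (hK.isClosed.frontier_subset (h3 h'))⟩
  have oV : IsOpen (interior (ell a b) \ K) := isOpen_interior.sdiff hK.isClosed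
  have dj : Disjoint (interior K) (interior (ell a b) \ K) :=
    disjoint_left.2 fun z h h' => h'.2 (interior_subset h)
  have cU : IsPreconnected (interior K) := cK.interior.isPreconnected
  have cV : IsPreconnected (interior (ell a b) \ K) := sV.isPathConnected.isConnected.isPreconnected
  have fE : volume (interior (ell a b)) ≠ ⊤ :=
    ((measure_mono interior_subset).trans_lt (isCompact_ell hb hab).measure_lt_top).ne
  refine ⟨h1, h2, h3.trans (hK.isClosed.frontier_subset.trans hKE), interior K,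
    interior (ell a b) \ K, ?_, ?_, ?_, sV, ?_, ?_⟩
  · intro h
    obtain ⟨z, hz⟩ := nU
    exact (h ▸ hz).2 (interior_subset hz)
  · apply subset_antisymm
    · rintro _ ⟨z, hz, rfl⟩
      rw [hS] at hz
      rcases hz with h | h
      · left; exact comp_eq hS isOpen_interior oV dj cU h
      · right; exact comp_eq (hS.trans (union_comm _ _)) oV isOpen_interior dj.symm cV h
    · rintro _ (rfl | rfl)
      · obtain ⟨z, hz⟩ := nU
        exact ⟨z, hS ▸ Or.inl hz, comp_eq hS isOpen_interior oV dj cU hz⟩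
      · obtain ⟨z, hz⟩ := sV.nonempty
        exact ⟨z, hS ▸ Or.inr hz,
          comp_eq (hS.trans (union_comm _ _)) oV isOpen_interior dj.symm cV hz⟩
  · have := cK.interior.contractibleSpace nU
    exact SimplyConnectedSpace.ofContractible _
  · rw [← aU, ofReal_measureReal ((measure_mono interior_subset).trans_lt hK.measure_lt_top).ne]
  · have e : volume (interior (ell a b) \ K) = volume (interior (ell a b) \ interior K) :=
      measure_congr (ae_eq_set_sdiff (ae_eq_refl _) (interior_ae_eq_of_null_frontier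
        (cK.addHaar_frontier volume)).symm)
    rw [e, ← ofReal_measureReal ((measure_mono sdiff_subset).trans_lt fE.lt_top).ne,
      measureReal_sdiff (interior_mono hKE) isOpen_interior.measurableSet fE, aU,
      ar_interior convex_ell, ar_ell ha hb]
    congr 1; ring

end Pool.Agent.MP_7791e4_an
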