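import Pool.Agent.MP_d539bc_co.Brouwer

set_option autoImplicit false

namespace Pool.Agent.MP_7791e4_an

open Set Metric Filter Topology

lemma crossing {a b s n : ℂ} (h : Path a b) (v : Path s n)
    (hv : ∀ t, a.re ≤ (v t).re ∧ (v t).re ≤ b.re) (hh : ∀ t, s.im ≤ (h t).im ∧ (h t).im ≤ n.im) :
    ∃ t1 t2, h t1 = v t2 := by
  by_contra hcon
  push Not at hcon
  let H : ℂ → ℂ := fun z => h.extend ((z.re + 1) / 2)
  let W : ℂ → ℂ := fun z => v.extend ((z.im + 1) / 2)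
  have cH : Continuous H := h.continuous_extend.comp (by fun_prop)
  have cW : Continuous W := v.continuous_extend.comp (by fun_prop)
  have rH : ∀ z, ∃ t, H z = h t := fun z => ⟨_, rfl⟩
  have rW : ∀ z, ∃ t, W z = v t := fun z => ⟨_, rfl⟩
  let N : ℂ → ℝ := fun z => max |(W z).re - (H z).re| |(H z).im - (W z).im|
  have cN : Continuous N := by fun_prop
  have pN : ∀ z, 0 < N z := by
    intro z
    obtain ⟨t1, e1⟩ := rH z
    obtain ⟨t2, e2⟩ := rW z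
    by_contra hc
    push Not at hc
    have h1 := abs_nonpos_iff.1 ((le_max_left _ _).trans hc)
    have h2 := abs_nonpos_iff.1 ((le_max_right _ _).trans hc)
    apply hcon t1 t2
    rw [← e1, ← e2]
    apply Complex.ext <;> linarith
  let F : ℂ → ℂ := fun z => ((((W z).re - (H z).re) / N z : ℝ) : ℂ)
    + ((((H z).im - (W z).im) / N z : ℝ) : ℂ) * Complex.I
  have cF : Continuous F := by
    refine (Complex.continuous_ofReal.comp (Continuous.div (by fun_prop) cN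
      fun z => (pN z).ne')).add ((Complex.continuous_ofReal.comp (Continuous.div (by fun_prop) cN
      fun z => (pN z).ne')).mul continuous_const)
  have Fre : ∀ z, (F z).re = ((W z).re - (H z).re) / N z := fun z => by
    simp only [F, Complex.add_re, Complex.ofReal_re, Complex.mul_re, Complex.I_re, Complex.I_im,
      Complex.ofReal_im]; ring
  have Fim : ∀ z, (F z).im = ((H z).im - (W z).im) / N z := fun z => by
    simp only [F, Complex.add_im, Complex.ofReal_re, Complex.mul_im, Complex.I_re, Complex.I_im,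
      Complex.ofReal_im]; ring
  have bF : ∀ z, ‖F z‖ ≤ 2 := by
    intro z
    refine (Complex.norm_le_abs_re_add_abs_im _).trans ?_
    rw [Fre, Fim, abs_div, abs_div, abs_of_pos (pN z)]
    have h1 : |(W z).re - (H z).re| / N z ≤ 1 := (div_le_one (pN z)).2 (le_max_left _ _)
    have h2 : |(H z).im - (W z).im| / N z ≤ 1 := (div_le_one (pN z)).2 (le_max_right _ _)
    linarith
  obtain ⟨z, hz⟩ := Pool.Agent.MP_d539bc_co.fixed_of_bounded F cF bF
  have e1 : z.re * N z = (W z).re - (H z).re := by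
    rw [← hz, Fre, hz]; field_simp [(pN z).ne']
  have e2 : z.im * N z = (H z).im - (W z).im := by
    rw [← hz, Fim, hz]; field_simp [(pN z).ne']
  have p := pN z
  obtain ⟨t1, r1⟩ := rH z
  obtain ⟨t2, r2⟩ := rW z
  have b1 := hh t1
  have b2 := hv t2
  rw [← r1] at b1
  rw [← r2] at b2
  rcases max_choice |(W z).re - (H z).re| |(H z).im - (W z).im| with c | c
  · have c' : N z = |(W z).re - (H z).re| := c
    rcases abs_choice ((W z).re - (H z).re) with d | d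
    · have : z.re = 1 := by
        apply mul_right_cancel₀ p.ne'; rw [e1, one_mul, c', d]
      have e3 : H z = b := by simp [H, this]
      rw [e3] at c' d
      linarith [b2.2]
    · have : z.re = -1 := by
        apply mul_right_cancel₀ p.ne'; rw [e1, c', d]; ring
      have e3 : H z = a := by simp [H, this]
      rw [e3] at c' d
      linarith [b2.1]
  · have c' : N z = |(H z).im - (W z).im| := c
    rcases abs_choice ((H z).im - (W z).im) with d | d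
    · have : z.im = 1 := by
        apply mul_right_cancel₀ p.ne'; rw [e2, one_mul, c', d]
      have e3 : W z = n := by simp [W, this]
      rw [e3] at c' d
      linarith [b1.2]
    · have : z.im = -1 := by
        apply mul_right_cancel₀ p.ne'; rw [e2, c', d]; ring
      have e3 : W z = s := by simp [W, this]
      rw [e3] at c' d
      linarith [b1.1]

lemma crossing_joined {A B : Set ℂ} {a b s n : ℂ} (hA : JoinedIn A a b) (hB : JoinedIn B s n)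
    (h1 : ∀ z ∈ A, s.im ≤ z.im ∧ z.im ≤ n.im) (h2 : ∀ z ∈ B, a.re ≤ z.re ∧ z.re ≤ b.re) :
    ∃ z, z ∈ A ∧ z ∈ B := by
  obtain ⟨h, hh⟩ := hA
  obtain ⟨v, hv⟩ := hB
  obtain ⟨t1, t2, e⟩ := crossing h v (fun t => h2 _ (hv t)) (fun t => h1 _ (hh t))
  exact ⟨h t1, hh t1, e ▸ hv t2⟩

lemma joined_vert {B : Set ℂ} (x y y' : ℝ) (h : ∀ t ∈ uIcc y y', (⟨x, t⟩ : ℂ) ∈ B) :
    JoinedIn B ⟨x, y⟩ ⟨x, y'⟩ := by
  apply JoinedIn.of_segment_subset
  rintro z ⟨s, t, hs, ht, hst, rfl⟩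
  have : s • (⟨x, y⟩ : ℂ) + t • (⟨x, y'⟩ : ℂ) = ⟨x, s * y + t * y'⟩ := by
    apply Complex.ext
    · simp; rw [← add_mul, hst, one_mul]
    · simp
  rw [this]
  apply h
  rw [← segment_eq_uIcc]
  exact ⟨s, t, hs, ht, hst, rfl⟩

lemma joined_hor {B : Set ℂ} (y x x' : ℝ) (h : ∀ t ∈ uIcc x x', (⟨t, y⟩ : ℂ) ∈ B) :
    JoinedIn B ⟨x, y⟩ ⟨x', y⟩ := by
  apply JoinedIn.of_segment_subset
  rintro z ⟨s, t, hs, ht, hst, rfl⟩
  have : s • (⟨x, y⟩ : ℂ) + t • (⟨x', y⟩ : ℂ) = ⟨s * x + t * x', y⟩ := by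
    apply Complex.ext
    · simp
    · simp; rw [← add_mul, hst, one_mul]
  rw [this]
  apply h
  rw [← segment_eq_uIcc]
  exact ⟨s, t, hs, ht, hst, rfl⟩

lemma axis_compact {X : Set ℂ} (hX : IsCompact X) : IsCompact {y : ℝ | (⟨0, y⟩ : ℂ) ∈ X} := by
  have hc : Continuous fun y : ℝ => (⟨0, y⟩ : ℂ) := by
    have : (fun y : ℝ => (⟨0, y⟩ : ℂ)) = fun y : ℝ => (y : ℂ) * Complex.I := by
      funext y; apply Complex.ext <;> simp
    rw [this]; fun_prop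
  refine (hX.image Complex.continuous_im).of_isClosed_subset (hX.isClosed.preimage hc) ?_
  intro y hy
  exact ⟨_, hy, rfl⟩

lemma maehara_aux {J1 J2 : Set ℂ} (k1 : IsCompact J1) (k2 : IsCompact J2)
    (j1 : JoinedIn J1 (-1) 1) (j2 : JoinedIn J2 (-1) 1)
    (bd : ∀ z ∈ J1 ∪ J2, |z.re| ≤ 1 ∧ |z.im| < 2 ∧ (|z.re| = 1 → z.im = 0))
    (dj : ∀ y : ℝ, (⟨0, y⟩ : ℂ) ∈ J1 → (⟨0, y⟩ : ℂ) ∉ J2)
    (cn : ∀ y y' : ℝ, (⟨0, y⟩ : ℂ) ∈ J1 → (⟨0, y'⟩ : ℂ) ∈ J1 →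
      JoinedIn (J1 \ J2) ⟨0, y⟩ ⟨0, y'⟩)
    {l : ℝ} (hl : (⟨0, l⟩ : ℂ) ∈ J1) (hl2 : ∀ y : ℝ, (⟨0, y⟩ : ℂ) ∈ J2 → y ≤ l)
    (o1 : (1:ℂ) ∈ J1) (o2 : (-1:ℂ) ∈ J1) :
    ∃ z ∉ J1 ∪ J2, ¬ JoinedIn (J1 ∪ J2)ᶜ z 3 := by
  have no : ∀ J : Set ℂ, J ⊆ J1 ∪ J2 → JoinedIn J (-1) 1 →
      ¬ JoinedIn {z : ℂ | |z.re| ≤ 1 ∧ z ∉ J} ⟨0, -2⟩ ⟨0, 2⟩ := by
    intro J hJ hj hc
    obtain ⟨z, h1, h2⟩ := crossing_joined hj hc
      (fun z hz => by have := abs_lt.1 (bd z (hJ hz)).2.1; exact ⟨this.1.le, this.2.le⟩)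
      (fun z hz => by have := abs_le.1 hz.1; simpa using this)
    exact h2.2 h1
  have a1 := axis_compact k1
  have a2 := axis_compact k2
  set m := sInf {y : ℝ | (⟨0, y⟩ : ℂ) ∈ J1} with hm
  have hm1 : (⟨0, m⟩ : ℂ) ∈ J1 := a1.sInf_mem ⟨l, hl⟩
  have hm2 : ∀ y : ℝ, (⟨0, y⟩ : ℂ) ∈ J1 → m ≤ y := fun y hy => csInf_le a1.bddBelow hy
  have lb := abs_lt.1 (bd _ (Or.inl hl)).2.1
  have mb := abs_lt.1 (bd _ (Or.inl hm1)).2.1
  simp only at lb mb
  have top : JoinedIn {z : ℂ | |z.re| ≤ 1 ∧ z ∉ J2} ⟨0, m⟩ ⟨0, 2⟩ := by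
    refine ((cn m l hm1 hl).mono ?_).trans (joined_vert 0 l 2 fun t ht => ⟨by simp, fun h => ?_⟩)
    · exact fun z hz => ⟨(bd z (Or.inl hz.1)).1, hz.2⟩
    · rw [uIcc_of_le lb.2.le] at ht
      have : t = l := le_antisymm (hl2 t h) ht.1
      rw [this] at h
      exact dj l hl h
  have ne2 : {y : ℝ | (⟨0, y⟩ : ℂ) ∈ J2 ∧ y ≤ m}.Nonempty := by
    by_contra hc
    apply no J2 subset_union_right j2
    refine JoinedIn.trans (joined_vert 0 (-2) m fun t ht => ⟨by simp, fun h => hc ⟨t, h, ?_⟩⟩) top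
    rw [uIcc_of_le mb.1.le] at ht
    exact ht.2
  have a3 : IsCompact {y : ℝ | (⟨0, y⟩ : ℂ) ∈ J2 ∧ y ≤ m} := a2.inter_right isClosed_Iic
  set r := sSup {y : ℝ | (⟨0, y⟩ : ℂ) ∈ J2 ∧ y ≤ m} with hr
  have hr1 : (⟨0, r⟩ : ℂ) ∈ J2 ∧ r ≤ m := a3.sSup_mem ne2
  have hr2 : ∀ y : ℝ, (⟨0, y⟩ : ℂ) ∈ J2 → y ≤ m → y ≤ r :=
    fun y hy h => le_csSup a3.bddAbove ⟨hy, h⟩
  have hrm : r < m := lt_of_le_of_ne hr1.2 fun h => dj m hm1 (h ▸ hr1.1)
  have rb := abs_lt.1 (bd _ (Or.inr hr1.1)).2.1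
  simp only at rb
  refine ⟨⟨0, (m + r) / 2⟩, ?_, ?_⟩
  · rintro (h | h)
    · linarith [hm2 _ h]
    · linarith [hr2 _ h (by linarith)]
  rintro ⟨α, hα⟩
  have cα := α.continuous_extend
  have hα' : ∀ t, α.extend t ∉ J1 ∪ J2 := fun t => hα _
  let T : Set ℝ := Icc 0 1 ∩ {t | 1 ≤ |(α.extend t).re|}
  have kT : IsCompact T := isCompact_Icc.inter_right (isClosed_le continuous_const (by fun_prop))
  have nT : T.Nonempty := ⟨1, ⟨zero_le_one, le_rfl⟩, by simp⟩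
  set t0 := sInf T with ht0
  have h0 : t0 ∈ T := kT.sInf_mem nT
  have hlt : ∀ t ∈ Ico 0 t0, |(α.extend t).re| ≤ 1 := by
    intro t ht
    by_contra hc
    push Not at hc
    have : t0 ≤ t := csInf_le kT.bddBelow ⟨⟨ht.1, ht.2.le.trans h0.1.2⟩, hc.le⟩
    linarith [ht.2]
  have t0pos : 0 < t0 := by
    apply lt_of_le_of_ne h0.1.1
    intro h
    have := h0.2
    rw [← h] at this
    simp at this
    linarith
  have hle : ∀ t ∈ Icc 0 t0, |(α.extend t).re| ≤ 1 := by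
    rw [← closure_Ico t0pos.ne]
    exact closure_minimal (t := {t | |(α.extend t).re| ≤ 1}) hlt
      (isClosed_le (by fun_prop) continuous_const)
  set w := α.extend t0 with hw
  have w1 : |w.re| = 1 := le_antisymm (hle t0 ⟨t0pos.le, le_rfl⟩) h0.2
  have jw : JoinedIn {z : ℂ | |z.re| ≤ 1 ∧ z ∉ J1 ∪ J2} ⟨0, (m + r) / 2⟩ w := by
    have pc : IsPathConnected (α.extend '' Icc 0 t0) :=
      ((convex_Icc 0 t0).isPathConnected (nonempty_Icc.2 t0pos.le)).image cα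
    have := pc.joinedIn _ ⟨0, ⟨le_rfl, t0pos.le⟩, rfl⟩ _ ⟨t0, ⟨t0pos.le, le_rfl⟩, rfl⟩
    rw [Path.extend_zero] at this
    refine this.mono ?_
    rintro _ ⟨t, ht, rfl⟩
    exact ⟨hle t ht, hα' t⟩
  have w2 : w.im ≠ 0 := by
    intro h
    apply hα' t0
    left
    rcases abs_eq (zero_le_one) |>.1 w1 with e | e
    · rw [← hw, show w = 1 from Complex.ext e h]; exact o1
    · rw [← hw, show w = -1 from Complex.ext (by simpa using e) (by simpa using h)]; exact o2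
  have side : ∀ (J : Set ℂ) (c : ℝ), J ⊆ J1 ∪ J2 → |c| = 2 → 0 < w.im * c →
      JoinedIn {z : ℂ | |z.re| ≤ 1 ∧ z ∉ J} w ⟨0, c⟩ := by
    intro J c hJ hc hp
    refine JoinedIn.trans (F := {z : ℂ | |z.re| ≤ 1 ∧ z ∉ J}) (y := ⟨w.re, c⟩)
      (joined_vert (B := {z : ℂ | |z.re| ≤ 1 ∧ z ∉ J}) w.re w.im c
        fun t ht => ⟨w1.le, fun h => ?_⟩)
      (joined_hor (B := {z : ℂ | |z.re| ≤ 1 ∧ z ∉ J}) c w.re 0 fun t ht => ⟨?_, fun h => ?_⟩)
    · have := (bd _ (hJ h)).2.2 w1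
      simp only at this
      rw [this, mem_uIcc] at ht
      rcases ht with ht | ht <;> nlinarith [ht.1, ht.2]
    · have := abs_le.1 w1.le
      rw [mem_uIcc] at ht
      apply abs_le.2
      simp only
      rcases ht with ht | ht <;> constructor <;> linarith [ht.1, ht.2]
    · have := (bd _ (hJ h)).2.1
      simp only at this
      linarith
  rcases lt_or_gt_of_ne w2 with c | c
  · apply no J2 subset_union_right j2
    refine ((side J2 (-2) subset_union_right (by simp) (by linarith)).symm.trans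
      (jw.symm.mono fun z hz => ⟨hz.1, fun h => hz.2 (Or.inr h)⟩)).trans
      (JoinedIn.trans (joined_vert 0 _ m fun t ht => ⟨by simp, fun h => ?_⟩) top)
    rw [uIcc_of_le (by linarith)] at ht
    linarith [hr2 t h ht.2, ht.1]
  · apply no J1 subset_union_left j1
    refine JoinedIn.trans (JoinedIn.trans
      (joined_vert 0 (-2) ((m + r) / 2) fun t ht => ⟨by simp, fun h => ?_⟩)
      (jw.mono fun z hz => ⟨hz.1, fun h => hz.2 (Or.inl h)⟩))
      (side J1 2 subset_union_left (by simp) (by linarith))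
    rw [uIcc_of_le (by linarith)] at ht
    linarith [hm2 t h, ht.2]

lemma maehara {J1 J2 : Set ℂ} (k1 : IsCompact J1) (k2 : IsCompact J2)
    (j1 : JoinedIn J1 (-1) 1) (j2 : JoinedIn J2 (-1) 1)
    (bd : ∀ z ∈ J1 ∪ J2, |z.re| ≤ 1 ∧ |z.im| < 2 ∧ (|z.re| = 1 → z.im = 0))
    (dj : ∀ y : ℝ, (⟨0, y⟩ : ℂ) ∈ J1 → (⟨0, y⟩ : ℂ) ∉ J2)
    (cn : ∀ y y' : ℝ, (⟨0, y⟩ : ℂ) ∈ J1 → (⟨0, y'⟩ : ℂ) ∈ J1 →
      JoinedIn (J1 \ J2) ⟨0, y⟩ ⟨0, y'⟩)
    (cn' : ∀ y y' : ℝ, (⟨0, y⟩ : ℂ) ∈ J2 → (⟨0, y'⟩ : ℂ) ∈ J2 →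
      JoinedIn (J2 \ J1) ⟨0, y⟩ ⟨0, y'⟩) :
    ¬ IsPreconnected (J1 ∪ J2)ᶜ := by
  intro hc
  have h3 : (3:ℂ) ∉ J1 ∪ J2 := fun h => by
    have := (bd _ h).1
    norm_num at this
  have pc : IsPathConnected (J1 ∪ J2)ᶜ :=
    ((k1.union k2).isClosed.isOpen_compl.isConnected_iff_isPathConnected).1 ⟨⟨3, h3⟩, hc⟩
  have a := axis_compact (k1.union k2)
  have ne : {y : ℝ | (⟨0, y⟩ : ℂ) ∈ J1 ∪ J2}.Nonempty := by
    obtain ⟨z, h1, h2⟩ := crossing_joined (B := {z : ℂ | z.re = 0}) j1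
      (joined_vert 0 (-2) 2 fun t _ => rfl)
      (fun z hz => by have := abs_lt.1 (bd z (Or.inl hz)).2.1; exact ⟨this.1.le, this.2.le⟩)
      (fun z hz => by rw [show z.re = 0 from hz]; simp)
    exact ⟨z.im, Or.inl (by rw [← show z.re = 0 from h2]; exact h1)⟩
  have hl := a.sSup_mem ne
  have hl2 : ∀ y : ℝ, (⟨0, y⟩ : ℂ) ∈ J1 ∪ J2 → y ≤ sSup {y : ℝ | (⟨0, y⟩ : ℂ) ∈ J1 ∪ J2} :=
    fun y hy => le_csSup a.bddAbove hy
  rcases hl with h | h
  · obtain ⟨z, h1, h2⟩ := maehara_aux k1 k2 j1 j2 bd dj cn h (fun y hy => hl2 y (Or.inr hy))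
      j1.target_mem j1.source_mem
    exact h2 (pc.joinedIn _ h1 _ h3)
  · obtain ⟨z, h1, h2⟩ := maehara_aux k2 k1 j2 j1 (by rw [union_comm]; exact bd)
      (fun y h1 h2 => dj y h2 h1) cn' h (fun y hy => hl2 y (Or.inl hy))
      j2.target_mem j2.source_mem
    rw [union_comm] at h1 h2
    exact h2 (pc.joinedIn _ h1 _ h3)

lemma jordan_norm {Γ : ℝ → ℂ} (hc : Continuous Γ) (hp : Function.Periodic Γ 1)
    (hi : ∀ x y, Γ x = Γ y → |x - y| < 1 → x = y) {x y : ℝ} (h1 : x < y) (h2 : y < x + 1)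
    (ex : Γ x = -1) (ey : Γ y = 1) (hd : ∀ s t, ‖Γ s - Γ t‖ ≤ 2) :
    ¬ IsPreconnected (range Γ)ᶜ := by
  have ex' : Γ (x + 1) = -1 := by rw [hp x, ex]
  have rg : range Γ = Γ '' Icc x y ∪ Γ '' Icc y (x + 1) := by
    rw [← image_union, Icc_union_Icc_eq_Icc h1.le h2.le]
    exact (hp.image_Icc one_pos x).symm
  have pcI : ∀ a b : ℝ, a ≤ b → JoinedIn (Γ '' Icc a b) (Γ a) (Γ b) := fun a b hab =>
    (((convex_Icc a b).isPathConnected (nonempty_Icc.2 hab)).image hc).joinedIn _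
      ⟨a, ⟨le_rfl, hab⟩, rfl⟩ _ ⟨b, ⟨hab, le_rfl⟩, rfl⟩
  have pcO : ∀ a b s t : ℝ, s ∈ Ioo a b → t ∈ Ioo a b → JoinedIn (Γ '' Ioo a b) (Γ s) (Γ t) :=
    fun a b s t hs ht => (((convex_Ioo a b).isPathConnected ⟨s, hs⟩).image hc).joinedIn _
      ⟨s, hs, rfl⟩ _ ⟨t, ht, rfl⟩
  have int1 : ∀ s ∈ Icc x y, (Γ s).re = 0 → s ∈ Ioo x y := by
    intro s hs h
    refine ⟨lt_of_le_of_ne hs.1 fun e => ?_, lt_of_le_of_ne hs.2 fun e => ?_⟩
    · rw [← e, ex] at h; simp at h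
    · rw [e, ey] at h; simp at h
  have int2 : ∀ s ∈ Icc y (x + 1), (Γ s).re = 0 → s ∈ Ioo y (x + 1) := by
    intro s hs h
    refine ⟨lt_of_le_of_ne hs.1 fun e => ?_, lt_of_le_of_ne hs.2 fun e => ?_⟩
    · rw [← e, ey] at h; simp at h
    · rw [e, ex'] at h; simp at h
  have d1 : ∀ s ∈ Ioo x y, Γ s ∉ Γ '' Icc y (x + 1) := by
    rintro s hs ⟨t, ht, e⟩
    have := hi t s e (abs_lt.2 ⟨by linarith [hs.2, ht.1], by linarith [hs.1, ht.2]⟩)
    linarith [hs.2, ht.1]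
  have d2 : ∀ s ∈ Ioo y (x + 1), Γ s ∉ Γ '' Icc x y := by
    rintro s hs ⟨t, ht, e⟩
    have := hi t s e (abs_lt.2 ⟨by linarith [hs.2, ht.1], by linarith [hs.1, ht.2]⟩)
    linarith [hs.1, ht.2]
  rw [rg]
  apply maehara (isCompact_Icc.image hc) (isCompact_Icc.image hc)
  · have := pcI x y h1.le
    rwa [ex, ey] at this
  · have := (pcI y (x + 1) h2.le).symm
    rwa [ex', ey] at this
  · rw [← rg]
    rintro _ ⟨s, rfl⟩
    have b1 := pow_le_pow_left₀ (norm_nonneg _) (hd s x) 2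
    have b2 := pow_le_pow_left₀ (norm_nonneg _) (hd s y) 2
    rw [ex, Complex.sq_norm, Complex.normSq_apply] at b1
    rw [ey, Complex.sq_norm, Complex.normSq_apply] at b2
    simp only [Complex.sub_re, Complex.sub_im, Complex.neg_re, Complex.one_re, Complex.neg_im,
      Complex.one_im] at b1 b2
    refine ⟨abs_le.2 ⟨by nlinarith [sq_nonneg (Γ s).im], by nlinarith [sq_nonneg (Γ s).im]⟩,
      abs_lt.2 ⟨by nlinarith [sq_nonneg (Γ s).re], by nlinarith [sq_nonneg (Γ s).re]⟩, fun h => ?_⟩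
    rcases abs_eq (zero_le_one) |>.1 h with e | e
    · rw [e] at b1; nlinarith [sq_nonneg (Γ s).im]
    · rw [e] at b2; nlinarith [sq_nonneg (Γ s).im]
  · rintro u ⟨s, hs, e⟩
    rw [← e]
    exact d1 s (int1 s hs (by rw [e]))
  · rintro u u' ⟨s, hs, e⟩ ⟨t, ht, e'⟩
    rw [← e, ← e']
    refine (pcO x y s t (int1 s hs (by rw [e])) (int1 t ht (by rw [e']))).mono ?_
    rintro _ ⟨r, hr, rfl⟩
    exact ⟨⟨r, Ioo_subset_Icc_self hr, rfl⟩, d1 r hr⟩
  · rintro u u' ⟨s, hs, e⟩ ⟨t, ht, e'⟩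
    rw [← e, ← e']
    refine (pcO y (x + 1) s t (int2 s hs (by rw [e])) (int2 t ht (by rw [e']))).mono ?_
    rintro _ ⟨r, hr, rfl⟩
    exact ⟨⟨r, Ioo_subset_Icc_self hr, rfl⟩, d2 r hr⟩

/-- Jordan separation for a periodic parametrisation. -/
theorem jordan_per {Γ : ℝ → ℂ} (hc : Continuous Γ) (hp : Function.Periodic Γ 1)
    (hi : ∀ x y, Γ x = Γ y → |x - y| < 1 → x = y) : ¬ IsPreconnected (range Γ)ᶜ := by
  have kR : IsCompact (range Γ) := by
    rw [← hp.image_Icc one_pos 0]; exact isCompact_Icc.image hc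
  obtain ⟨⟨_, _⟩, ⟨⟨x, rfl⟩, ⟨y, rfl⟩⟩, hm⟩ := (kR.prod kR).exists_isMaxOn
    ((range_nonempty Γ).prod (range_nonempty Γ)) (f := fun z : ℂ × ℂ => ‖z.1 - z.2‖)
    (by fun_prop)
  have hm' : ∀ s t, ‖Γ s - Γ t‖ ≤ ‖Γ x - Γ y‖ := fun s t =>
    hm (show (Γ s, Γ t) ∈ range Γ ×ˢ range Γ from ⟨⟨s, rfl⟩, ⟨t, rfl⟩⟩)
  have hne : Γ y - Γ x ≠ 0 := by
    intro h
    have h1 := hm' 0 (1 / 2)
    rw [norm_sub_rev (Γ x), h, norm_zero, norm_le_zero_iff, sub_eq_zero] at h1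
    have := hi _ _ h1 (by norm_num [abs_of_pos])
    norm_num at this
  have ey : Γ (x + Int.fract (y - x)) = Γ y := by
    have := hp.sub_int_mul_eq (x := y) ⌊y - x⌋
    rw [← this, Int.fract]; congr 1; ring
  have f0 : 0 < Int.fract (y - x) := by
    apply lt_of_le_of_ne (Int.fract_nonneg _)
    intro h
    rw [← h, add_zero] at ey
    exact hne (by rw [ey, sub_self])
  let φ : ℂ → ℂ := fun z => (2 * z - (Γ x + Γ y)) / (Γ y - Γ x)
  have φi : Function.Injective φ := by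
    intro z w h
    simp only [φ] at h
    rw [div_left_inj' hne] at h
    linear_combination h / 2
  have φs : Function.Surjective φ := fun w =>
    ⟨(w * (Γ y - Γ x) + (Γ x + Γ y)) / 2, by simp only [φ]; field_simp; ring⟩
  intro hcon
  apply jordan_norm (Γ := φ ∘ Γ) ((by fun_prop : Continuous φ).comp hc) (hp.comp φ)
    (fun s t h => hi s t (φi h)) (x := x) (y := x + Int.fract (y - x)) (by linarith)
    (by linarith [Int.fract_lt_one (y - x)])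
  · simp only [Function.comp, φ]; field_simp; ring
  · simp only [Function.comp, φ, ey]; field_simp; ring
  · intro s t
    have : (φ ∘ Γ) s - (φ ∘ Γ) t = 2 * (Γ s - Γ t) / (Γ y - Γ x) := by
      simp only [Function.comp, φ]; field_simp; ring
    rw [this, norm_div, norm_mul, div_le_iff₀ (norm_pos_iff.2 hne), norm_sub_rev (Γ y)]
    have := hm' s t
    simp only [Complex.norm_ofNat]
    linarith
  · rw [range_comp, ← image_compl_eq ⟨φi, φs⟩]
    exact hcon.image φ (by fun_prop)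

lemma exists_per {p : ℂ} (γ : Path p p)
    (hs : ∀ s t, γ s = γ t → s = t ∨ (s = 0 ∧ t = 1) ∨ (s = 1 ∧ t = 0)) :
    ∃ Γ : ℝ → ℂ, Continuous Γ ∧ Function.Periodic Γ 1 ∧
      (∀ x y, Γ x = Γ y → |x - y| < 1 → x = y) ∧ range Γ = range γ := by
  refine ⟨γ.extend ∘ Int.fract, ?_, fun x => by simp, ?_, ?_⟩
  · exact γ.continuous_extend.continuousOn.comp_fract'' (by simp)
  · intro x y h hxy
    have mx : Int.fract x ∈ Icc (0:ℝ) 1 := ⟨Int.fract_nonneg _, (Int.fract_lt_one _).le⟩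
    have my : Int.fract y ∈ Icc (0:ℝ) 1 := ⟨Int.fract_nonneg _, (Int.fract_lt_one _).le⟩
    simp only [Function.comp, Path.extend_apply γ mx, Path.extend_apply γ my] at h
    have e : Int.fract x = Int.fract y := by
      rcases hs _ _ h with e | ⟨-, e⟩ | ⟨e, -⟩
      · exact congrArg Subtype.val e
      · exact absurd (congrArg Subtype.val e) (Int.fract_lt_one _).ne
      · exact absurd (congrArg Subtype.val e) (Int.fract_lt_one _).ne
    obtain ⟨k, hk⟩ := Int.fract_eq_fract.1 e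
    rw [hk] at hxy
    have : k = 0 := by
      have : |k| < 1 := by exact_mod_cast hxy
      exact Int.abs_lt_one_iff.1 this
    rw [this] at hk
    simpa [sub_eq_zero] using hk
  · apply subset_antisymm
    · rintro _ ⟨x, rfl⟩
      exact ⟨_, rfl⟩
    · rintro _ ⟨t, rfl⟩
      rcases eq_or_lt_of_le t.2.2 with e | e
      · refine ⟨0, ?_⟩
        rw [show t = 1 from Subtype.ext e]; simp
      · refine ⟨t, ?_⟩
        simp only [Function.comp]
        rw [Int.fract_eq_self.2 ⟨t.2.1, e⟩, Path.extend_extends']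

theorem jordan {p : ℂ} (γ : Path p p)
    (hs : ∀ s t, γ s = γ t → s = t ∨ (s = 0 ∧ t = 1) ∨ (s = 1 ∧ t = 0)) :
    ¬ IsPreconnected (range γ)ᶜ := by
  obtain ⟨Γ, h1, h2, h3, h4⟩ := exists_per γ hs
  rw [← h4]
  exact jordan_per h1 h2 h3

end Pool.Agent.MP_7791e4_an
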