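import Pool.Agent.MP_7791e4_an.Supp

set_option autoImplicit false

namespace Pool.Agent.MP_7791e4_an

open Set MeasureTheory Real Metric Filter Topology Pointwise unitInterval

lemma seq_A (y : ℕ → ℝ) (n : ℕ) : ∀ j ≤ n,
    |y n - y j| + |y j - y 0| ≤ ∑ k ∈ Finset.range n, |y (k + 1) - y k| := by
  induction n with
  | zero => intro j hj; obtain rfl : j = 0 := by omega
            simp
  | succ n ih =>
    intro j hj
    rw [Finset.sum_range_succ]
    rcases Nat.lt_or_ge n j with h | h
    · obtain rfl : j = n + 1 := by omega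
      have h1 := ih n le_rfl
      have h2 := abs_sub_le (y (n + 1)) (y n) (y 0)
      simp only [sub_self, abs_zero, zero_add] at h1 ⊢
      linarith
    · have h1 := ih j h
      have h2 := abs_sub_le (y (n + 1)) (y n) (y j)
      linarith

lemma seq_B (y : ℕ → ℝ) (n : ℕ) : ∀ i ≤ n, ∀ j ≤ n,
    2 * |y i - y j| ≤ ∑ k ∈ Finset.range n, |y (k + 1) - y k| + |y n - y 0| := by
  have key : ∀ n j, j ≤ n →
      2 * |y n - y j| ≤ ∑ k ∈ Finset.range n, |y (k + 1) - y k| + |y n - y 0| := by
    intro n j hj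
    have h1 := seq_A y n j hj
    have h2 := abs_sub_le (y n) (y 0) (y j)
    rw [abs_sub_comm (y 0) (y j)] at h2
    linarith
  induction n with
  | zero => intro i hi j hj
            obtain rfl : i = 0 := by omega
            obtain rfl : j = 0 := by omega
            simp
  | succ n ih =>
    intro i hi j hj
    rcases Nat.lt_or_ge n i with h | h
    · obtain rfl : i = n + 1 := by omega
      exact key _ _ hj
    rcases Nat.lt_or_ge n j with h' | h'
    · obtain rfl : j = n + 1 := by omega
      rw [abs_sub_comm]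
      exact key _ _ hi
    have h1 := ih i h j h'
    rw [Finset.sum_range_succ]
    have h2 := abs_sub_le (y n) (y (n + 1)) (y 0)
    rw [abs_sub_comm (y n) (y (n + 1))] at h2
    linarith

lemma integral_cyc (x : ℕ → ℂ) (n : ℕ) :
    ∫ θ in (0:ℝ)..2 * π, (∑ k ∈ Finset.range n, |dot (ev θ) (x (k + 1)) - dot (ev θ) (x k)|
      + |dot (ev θ) (x n) - dot (ev θ) (x 0)|)
      = 4 * (∑ k ∈ Finset.range n, ‖x (k + 1) - x k‖ + ‖x n - x 0‖) := by
  simp only [← dot_sub]
  rw [intervalIntegral.integral_add (by apply Continuous.intervalIntegrable; fun_prop)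
    (by apply Continuous.intervalIntegrable; fun_prop), intervalIntegral.integral_finsetSum
    (fun i _ => by apply Continuous.intervalIntegrable; fun_prop)]
  simp only [integral_abs_dot_ev]
  rw [mul_add, Finset.mul_sum]

lemma sum_le_var {p q : ℂ} (γ : Path p q) (hγ : eVariationOn γ univ ≠ ⊤) (u : ℕ → I)
    (hu : Monotone u) (n : ℕ) :
    ∑ k ∈ Finset.range n, ‖γ (u (k + 1)) - γ (u k)‖ ≤ (eVariationOn γ univ).toReal := by
  have h := eVariationOn.sum_le (f := γ) (n := n) (s := univ) hu (fun _ => mem_univ _)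
  have h2 := ENNReal.toReal_mono hγ h
  rw [ENNReal.toReal_sum (fun _ _ => edist_ne_top _ _)] at h2
  simpa [← dist_edist, dist_eq_norm] using h2

/-- perimeter of the hull of a curve is at most length plus chord. -/
lemma per_range_le {p q : ℂ} (γ : Path p q) (hγ : eVariationOn γ univ ≠ ⊤) :
    per (range γ) ≤ (eVariationOn γ univ).toReal + ‖p - q‖ := by
  have hK : IsCompact (range γ) := isCompact_range γ.continuous
  have hne : (range γ).Nonempty := range_nonempty _
  apply le_of_forall_pos_le_add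
  intro ε hε
  have hε' : 0 < ε / (2 * π) := by positivity
  obtain ⟨δ, hδ, hγδ⟩ := Metric.uniformContinuous_iff.1
    (CompactSpace.uniformContinuous_of_continuous γ.continuous) _ hε'
  obtain ⟨m, hm⟩ := exists_nat_one_div_lt hδ
  set n := m + 1 with hn
  have hn0 : (0:ℝ) < n := by rw [hn]; positivity
  have hm' : 1 / (n:ℝ) < δ := by rw [hn]; push_cast; exact hm
  let u : ℕ → I := fun i => ⟨min ((i:ℝ) / n) 1, le_min (by positivity) zero_le_one, min_le_right _ _⟩
  have hu : Monotone u := fun i j hij => by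
    show min ((i:ℝ) / n) 1 ≤ min ((j:ℝ) / n) 1
    exact min_le_min_right _ (div_le_div_of_nonneg_right (by exact_mod_cast hij) hn0.le)
  have hu0 : u 0 = 0 := by ext; simp [u]
  have hun : u n = 1 := by ext; simp [u, hn0.ne']
  have near : ∀ s : I, ∃ i ≤ n, ‖γ s - γ (u i)‖ ≤ ε / (2 * π) := by
    intro s
    have hs0 := s.2.1
    have hs1 := s.2.2
    have hfl : (⌊(s:ℝ) * n⌋₊ : ℝ) ≤ s * n := Nat.floor_le (by positivity)
    have hfl2 : (s:ℝ) * n < ⌊(s:ℝ) * n⌋₊ + 1 := Nat.lt_floor_add_one _
    have hle : (⌊(s:ℝ) * n⌋₊ : ℝ) ≤ n := by nlinarith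
    refine ⟨⌊(s:ℝ) * n⌋₊, by exact_mod_cast hle, ?_⟩
    rw [← dist_eq_norm]
    apply le_of_lt (hγδ _)
    have h1 : (⌊(s:ℝ) * n⌋₊ : ℝ) / n ≤ s := by rw [div_le_iff₀ hn0]; exact hfl
    have h2 : (s:ℝ) - (⌊(s:ℝ) * n⌋₊ : ℝ) / n < 1 / n := by
      rw [sub_lt_iff_lt_add, ← add_div, lt_div_iff₀ hn0]; linarith
    show dist (s:ℝ) (min _ 1) < δ
    rw [min_eq_left (h1.trans hs1), Real.dist_eq, abs_of_nonneg (by linarith)]
    linarith
  have hw : ∀ θ, hs (range γ) (ev θ) + hs (range γ) (-ev θ) ≤
      (1 / 2) * (∑ k ∈ Finset.range n,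
        |dot (ev θ) (γ (u (k + 1))) - dot (ev θ) (γ (u k))|
      + |dot (ev θ) (γ (u n)) - dot (ev θ) (γ (u 0))|) + 2 * (ε / (2 * π)) := by
    intro θ
    obtain ⟨_, ⟨s, rfl⟩, h1⟩ := exists_hs hK hne (ev θ)
    obtain ⟨_, ⟨t, rfl⟩, h2⟩ := exists_hs hK hne (-ev θ)
    obtain ⟨i, hi, hi'⟩ := near s
    obtain ⟨j, hj, hj'⟩ := near t
    have h3 := seq_B (fun k => dot (ev θ) (γ (u k))) n i hi j hj
    have h4 := abs_le.1 ((abs_dot_ev_le θ (γ s - γ (u i))).trans hi')
    have h5 := abs_le.1 ((abs_dot_ev_le θ (γ t - γ (u j))).trans hj')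
    rw [dot_sub] at h4 h5
    rw [← h1, ← h2, neg_dot]
    have h6 := le_abs_self (dot (ev θ) (γ (u i)) - dot (ev θ) (γ (u j)))
    linarith [h4.2, h5.1]
  have hc1 := continuous_hs_ev hK hne
  have hc2 : Continuous fun θ => hs (range γ) (-ev θ) :=
    (continuous_hs hK hne).comp continuous_ev.neg
  have hint := intervalIntegral.integral_mono_on two_pi_nonneg
    (μ := volume) ((hc1.add hc2).intervalIntegrable _ _)
    (by apply Continuous.intervalIntegrable; fun_prop) (fun θ _ => hw θ)
  rw [show (∫ θ in (0:ℝ)..2 * π, ((fun θ => hs (range γ) (ev θ)) + fun θ => hs (range γ) (-ev θ)) θ)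
      = 2 * per (range γ) from two_per hK hne,
    intervalIntegral.integral_add (by apply Continuous.intervalIntegrable; fun_prop)
    (by apply Continuous.intervalIntegrable; fun_prop), intervalIntegral.integral_const_mul,
    integral_cyc (fun k => γ (u k)) n] at hint
  have h7 := sum_le_var γ hγ u hu n
  simp only [hu0, hun, γ.source, γ.target, intervalIntegral.integral_const, sub_zero,
    smul_eq_mul] at hint
  have h8 : 2 * π * (2 * (ε / (2 * π))) = 2 * ε := by field_simp
  rw [h8, norm_sub_rev q p] at hint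
  linarith

lemma seq_C (y : ℕ → ℝ)
    (h1 : ∀ i j k l, i ≤ j → j ≤ k → k ≤ l → min (y j) (y l) ≤ max (y i) (y k))
    (h2 : ∀ i j k l, i ≤ j → j ≤ k → k ≤ l → min (y i) (y k) ≤ max (y j) (y l)) (n : ℕ) :
    ∃ i ≤ n, ∃ j ≤ n, (∀ k ≤ n, y j ≤ y k ∧ y k ≤ y i) ∧
      ∑ k ∈ Finset.range n, |y (k + 1) - y k| + |y n - y 0| ≤ 2 * (y i - y j) := by
  induction n with
  | zero => exact ⟨0, le_rfl, 0, le_rfl, fun k hk => by obtain rfl : k = 0 := by omega
                                                        exact ⟨le_rfl, le_rfl⟩, by simp⟩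
  | succ n ih =>
    obtain ⟨i, hi, j, hj, hb, hs⟩ := ih
    rw [Finset.sum_range_succ]
    have a1 := h1 0 i n (n + 1) (Nat.zero_le _) hi (Nat.le_succ _)
    have a2 := h2 0 j n (n + 1) (Nat.zero_le _) hj (Nat.le_succ _)
    have b0 := hb 0 (Nat.zero_le _)
    have bn := hb n le_rfl
    have ext : ∀ i' j', (∀ k ≤ n, y j' ≤ y k ∧ y k ≤ y i') →
        (y j' ≤ y (n + 1) ∧ y (n + 1) ≤ y i') → ∀ k ≤ n + 1, y j' ≤ y k ∧ y k ≤ y i' := by
      intro i' j' h h' k hk
      rcases Nat.lt_or_ge n k with h3 | h3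
      · obtain rfl : k = n + 1 := by omega
        exact h'
      · exact h k h3
    rcases le_total (y (n + 1)) (y i) with c1 | c1
    · rcases le_total (y j) (y (n + 1)) with c2 | c2
      · refine ⟨i, by omega, j, by omega, ext i j hb ⟨c2, c1⟩, ?_⟩
        rw [min_eq_right c1] at a1
        rw [max_eq_right c2] at a2
        rcases le_total (y 0) (y n) with d | d
        · rw [max_eq_right d] at a1
          rw [min_eq_left d] at a2
          rw [abs_of_nonneg (show 0 ≤ y n - y 0 by linarith)] at hs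
          rw [abs_of_nonpos (show y (n + 1) - y n ≤ 0 by linarith),
            abs_of_nonneg (show 0 ≤ y (n + 1) - y 0 by linarith)]
          linarith
        · rw [max_eq_left d] at a1
          rw [min_eq_right d] at a2
          rw [abs_of_nonpos (show y n - y 0 ≤ 0 by linarith)] at hs
          rw [abs_of_nonneg (show 0 ≤ y (n + 1) - y n by linarith),
            abs_of_nonpos (show y (n + 1) - y 0 ≤ 0 by linarith)]
          linarith
      · refine ⟨i, by omega, n + 1, le_rfl,
          ext i (n + 1) (fun k hk => ⟨c2.trans (hb k hk).1, (hb k hk).2⟩) ⟨le_rfl, c1⟩, ?_⟩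
        rw [max_eq_left c2] at a2
        rw [abs_of_nonpos (show y (n + 1) - y n ≤ 0 by linarith [bn.1]),
            abs_of_nonpos (show y (n + 1) - y 0 ≤ 0 by linarith [b0.1])]
        rcases le_total (y 0) (y n) with d | d
        · rw [min_eq_left d] at a2
          rw [abs_of_nonneg (show 0 ≤ y n - y 0 by linarith)] at hs
          linarith
        · rw [min_eq_right d] at a2
          rw [abs_of_nonpos (show y n - y 0 ≤ 0 by linarith)] at hs
          linarith
    · refine ⟨n + 1, le_rfl, j, by omega,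
        ext (n + 1) j (fun k hk => ⟨(hb k hk).1, (hb k hk).2.trans c1⟩)
          ⟨(hb i hi).1.trans c1, le_rfl⟩, ?_⟩
      rw [min_eq_left c1] at a1
      rw [abs_of_nonneg (show 0 ≤ y (n + 1) - y n by linarith [bn.2]),
          abs_of_nonneg (show 0 ≤ y (n + 1) - y 0 by linarith [b0.2])]
      rcases le_total (y 0) (y n) with d | d
      · rw [max_eq_right d] at a1
        rw [abs_of_nonneg (show 0 ≤ y n - y 0 by linarith)] at hs
        linarith
      · rw [max_eq_left d] at a1
        rw [abs_of_nonpos (show y n - y 0 ≤ 0 by linarith)] at hs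
        linarith

/-- a curve running in convex cyclic order inside `K` has length at most `per K` minus chord. -/
lemma var_le_per {p q : ℂ} (γ : Path p q) {K : Set ℂ} (hK : IsCompact K) (hγ : ∀ s, γ s ∈ K)
    (H : ∀ (u : ℂ) (s0 s1 s2 s3 : I), s0 ≤ s1 → s1 ≤ s2 → s2 ≤ s3 →
      min (dot u (γ s1)) (dot u (γ s3)) ≤ max (dot u (γ s0)) (dot u (γ s2))) :
    eVariationOn γ univ ≤ ENNReal.ofReal (per K - ‖p - q‖) := by
  have hne : K.Nonempty := ⟨_, hγ 0⟩
  have main : ∀ (v : ℕ → I), Monotone v → ∀ n,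
      ∑ k ∈ Finset.range n, ‖γ (v (k + 1)) - γ (v k)‖ + ‖γ (v n) - γ (v 0)‖ ≤ per K := by
    intro v hv n
    have hw : ∀ θ, (∑ k ∈ Finset.range n,
        |dot (ev θ) (γ (v (k + 1))) - dot (ev θ) (γ (v k))|
        + |dot (ev θ) (γ (v n)) - dot (ev θ) (γ (v 0))|)
        ≤ 2 * (hs K (ev θ) + hs K (-ev θ)) := by
      intro θ
      obtain ⟨i, -, j, -, -, h⟩ := seq_C (fun k => dot (ev θ) (γ (v k)))
        (fun i j k l h1 h2 h3 => H _ _ _ _ _ (hv h1) (hv h2) (hv h3))
        (fun i j k l h1 h2 h3 => by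
          have := H (-ev θ) _ _ _ _ (hv h1) (hv h2) (hv h3)
          simp only [neg_dot, min_neg_neg, max_neg_neg] at this
          linarith) n
      have h1 := le_hs hK (hγ (v i)) (ev θ)
      have h2 := le_hs hK (hγ (v j)) (-ev θ)
      rw [neg_dot] at h2
      linarith
    have hc1 := continuous_hs_ev hK hne
    have hc2 : Continuous fun θ => hs K (-ev θ) :=
      (continuous_hs hK hne).comp continuous_ev.neg
    have hint := intervalIntegral.integral_mono_on two_pi_nonneg
      (μ := volume) (by apply Continuous.intervalIntegrable; fun_prop)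
      (by apply Continuous.intervalIntegrable; fun_prop) (fun θ _ => hw θ)
    rw [integral_cyc (fun k => γ (v k)) n, intervalIntegral.integral_const_mul,
      two_per hK hne] at hint
    linarith
  unfold eVariationOn
  apply iSup_le
  rintro ⟨n, u, hu, -⟩
  let v : ℕ → I := fun i => if i = 0 then 0 else if i ≤ n + 1 then u (i - 1) else 1
  have hv : Monotone v := by
    intro i j hij
    simp only [v]
    split_ifs with h1 h2 h3 h4 h5 h6 h7 h8
    all_goals first
      | exact le_rfl
      | exact unitInterval.nonneg'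
      | exact unitInterval.le_one'
      | exact hu (by omega)
      | omega
  have h := main v hv (n + 2)
  rw [Finset.sum_range_succ, Finset.sum_range_succ'] at h
  have e0 : v 0 = 0 := by simp [v]
  have e1 : v (n + 2) = 1 := by simp [v]
  have e2 : ∀ k ∈ Finset.range n, ‖γ (v (k + 1 + 1)) - γ (v (k + 1))‖ = ‖γ (u (k + 1)) - γ (u k)‖ := by
    intro k hk
    have := Finset.mem_range.1 hk
    simp only [v]
    rw [if_neg (by omega), if_pos (by omega), if_neg (by omega), if_pos (by omega)]
    rfl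
  rw [Finset.sum_congr rfl e2, e0, e1, γ.source, γ.target, norm_sub_rev q p] at h
  simp only [edist_dist, dist_eq_norm]
  rw [← ENNReal.ofReal_sum_of_nonneg (fun _ _ => norm_nonneg _)]
  apply ENNReal.ofReal_le_ofReal
  have := norm_nonneg (γ (v (0 + 1)) - p)
  have := norm_nonneg (q - γ (v (n + 1)))
  linarith

end Pool.Agent.MP_7791e4_an
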