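import Pool.Agent.MP_7791e4_an.Caps
import Pool.Agent.MP_7791e4_an.Jordan

set_option autoImplicit false

namespace Pool.Agent.MP_7791e4_an

open Set MeasureTheory Real Metric Filter Topology Pointwise

variable {a b : ℝ}

lemma comp_loop (hb : 0 < b) (hab : b ≤ a) {K : Set ℂ} (hK : IsCompact K) (cK : Convex ℝ K)
    (hKE : K ⊆ ell a b) (hA : volume.real K = π * a * b / 2) {p : ℂ} (hp : B a b p p = 1)
    (hpK : p ∈ K) (hc : ∀ z ∈ K, B a b z z = 1 → z = p) :
    ∃ γ : Path p p, Admissible a b γ ∧ eVariationOn γ univ ≤ ENNReal.ofReal (per K) := by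
  have ha : 0 < a := by linarith
  have nU : (interior K).Nonempty := nonempty_of_measureReal_ne_zero (μ := volume) (by
    rw [ar_interior cK, hA]; positivity)
  have fp : p ∈ frontier K := by
    rw [hK.isClosed.frontier_eq]
    exact ⟨hpK, fun h => (mem_int.1 (interior_mono hKE h)).ne hp⟩
  obtain ⟨γ, h1, h2, h3⟩ := exists_loop hK cK nU fp
  refine ⟨γ, admissible_of hb hab hK cK hKE hA hp hpK (u := -nu a b p) (κ := -1) (fun z hz => ?_)
    (z0 := -p) (by rw [neg_B, B_neg, neg_neg, hp]) (fun h => ?_) γ h1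
    (ne_top_of_le_ne_top ENNReal.ofReal_ne_top h3) h2.le (h2 ▸ inter_subset_left), h3⟩
  · rw [neg_dot, dot_nu]
    constructor
    · intro h; rw [hc z h hz, hp]
    · intro h
      by_contra h'
      have := B_lt_one ha hb (mem_ell.2 hp.le) (mem_ell.2 hz.le) (fun e => h' (e ▸ hpK))
      linarith
  · have := congrArg (B a b p) (hc _ h (by rw [neg_B, B_neg, neg_neg, hp]))
    rw [B_neg, hp] at this
    linarith

lemma homo_props {L : Set ℂ} (hL : IsCompact L) (cL : Convex ℝ L) (hLE : L ⊆ ell a b) {p : ℂ}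
    (hpL : p ∈ L) {l : ℝ} (l0 : 0 ≤ l) (l1 : l ≤ 1) :
    ∃ K : Set ℂ, IsCompact K ∧ Convex ℝ K ∧ K ⊆ ell a b ∧ p ∈ K ∧
      volume.real K = l ^ 2 * volume.real L ∧ per K = l * per L ∧
      ∀ z ∈ K, ∃ x ∈ L, z = l • x + (1 - l) • p := by
  refine ⟨(fun z => (l : ℂ) * z + (1 - l) • p) '' L, hL.image (by fun_prop),
    convex_image_mul cL _ _, ?_, ⟨p, hpL, ?_⟩, ?_, per_homothety hL ⟨p, hpL⟩ l0 _, ?_⟩
  · rintro _ ⟨x, hx, rfl⟩
    have := convex_ell (hLE hx) (hLE hpL) l0 (sub_nonneg.2 l1) (by ring)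
    rwa [Complex.real_smul] at this
  · simp only [Complex.real_smul]; push_cast; ring
  · rw [ar_mul, Complex.norm_real, Real.norm_eq_abs, sq_abs]
  · rintro _ ⟨x, hx, rfl⟩
    exact ⟨x, hx, by rw [Complex.real_smul (x := l)]⟩

lemma scale_loop (hb : 0 < b) (hab : b ≤ a) {L : Set ℂ} (hL : IsCompact L) (cL : Convex ℝ L)
    (hLE : L ⊆ ell a b) (hA : π * a * b / 2 < volume.real L) {p : ℂ} (hp : B a b p p = 1)
    (hpL : p ∈ L) :
    ∃ γ : Path p p, Admissible a b γ ∧ (eVariationOn γ univ).toReal < per L := by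
  have ha : 0 < a := by linarith
  have A0 : 0 < π * a * b / 2 := by positivity
  have L0 : 0 < volume.real L := by linarith
  set l := √(π * a * b / 2 / volume.real L) with hl
  have l0 : 0 < l := Real.sqrt_pos.2 (by positivity)
  have l1 : l < 1 := by
    rw [hl, Real.sqrt_lt' one_pos, one_pow, div_lt_one L0]; exact hA
  obtain ⟨K, k1, k2, k3, k4, k5, k6, k7⟩ := homo_props hL cL hLE hpL l0.le l1.le
  obtain ⟨γ, g1, g2⟩ := comp_loop hb hab k1 k2 k3 (by
    rw [k5, hl, Real.sq_sqrt (by positivity)]; field_simp) hp k4 (by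
    intro z hz h
    obtain ⟨x, hx, rfl⟩ := k7 z hz
    by_cases e : x = p
    · rw [e, ← add_smul]; simp
    · exfalso
      have b1 := B_lt_one ha hb (hLE hx) (hLE hpL) e
      have b2 := mem_ell.1 (hLE hx)
      rw [B_comb, hp] at h
      have := mul_pos (mul_pos l0 (sub_pos.2 l1)) (sub_pos.2 b1)
      nlinarith [mul_le_mul_of_nonneg_left b2 (sq_nonneg l)])
  refine ⟨γ, g1, ?_⟩
  have P0 : 0 < per L := by
    have := isoper hL cL ⟨p, hpL⟩
    have h0 := per_nonneg hL ⟨p, hpL⟩
    rcases h0.eq_or_lt with e | e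
    · rw [← e] at this; simp at this; linarith
    · exact e
  have := ENNReal.toReal_le_of_le_ofReal (per_nonneg k1 ⟨p, k4⟩) g2
  rw [k6] at this
  nlinarith

lemma mix_ell (hb : 0 < b) (hab : b ≤ a) {L : Set ℂ} (hL : IsCompact L) (cL : Convex ℝ L)
    (nL : L.Nonempty) (hA : π * a * b / 2 ≤ volume.real L) {s : ℝ} (s0 : 0 < s) (s1 : s ≤ 1) :
    π * a * b / 2 < volume.real ((1 - s) • L + s • ell a b) := by
  have ha : 0 < a := by linarith
  have h := bm_comb hL cL nL (isCompact_ell hb hab) convex_ell ⟨0, zero_mem_ell⟩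
    (sub_nonneg.2 s1) s0.le
  have A0 : 0 < π * a * b / 2 := by positivity
  have h1 := Real.sqrt_le_sqrt hA
  have h2 : √(π * a * b / 2) < √(volume.real (ell a b)) := by
    rw [ar_ell ha hb]; exact Real.sqrt_lt_sqrt A0.le (by linarith)
  have h3 : √(π * a * b / 2) < √(volume.real ((1 - s) • L + s • ell a b)) := by
    nlinarith [mul_le_mul_of_nonneg_left h1 (sub_nonneg.2 s1), mul_lt_mul_of_pos_left h2 s0]
  exact (Real.sqrt_lt_sqrt_iff A0.le).1 h3

lemma comb_subset {X Y Z : Set ℂ} (cZ : Convex ℝ Z) (hX : X ⊆ Z) (hY : Y ⊆ Z) {s : ℝ} (s0 : 0 ≤ s)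
    (s1 : s ≤ 1) : (1 - s) • X + s • Y ⊆ Z := by
  rintro _ ⟨_, ⟨x, hx, rfl⟩, _, ⟨y, hy, rfl⟩, rfl⟩
  exact cZ (hX hx) (hY hy) (sub_nonneg.2 s1) s0 (by ring)

lemma mem_comb {X Y : Set ℂ} {p : ℂ} (hX : p ∈ X) (hY : p ∈ Y) (s : ℝ) :
    p ∈ (1 - s) • X + s • Y :=
  ⟨_, ⟨p, hX, rfl⟩, _, ⟨p, hY, rfl⟩, by simp only [← add_smul]; simp⟩

lemma le_of_forall_small {x y c : ℝ} (h : ∀ s : ℝ, 0 < s → s ≤ 1 → x ≤ y + s * c) : x ≤ y := by
  have lim : Tendsto (fun s : ℝ => y + s * c) (𝓝[>] 0) (𝓝 (y + 0 * c)) :=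
    ((by fun_prop : Continuous fun s : ℝ => y + s * c).tendsto 0).mono_left nhdsWithin_le_nhds
  rw [zero_mul, add_zero] at lim
  apply ge_of_tendsto lim
  filter_upwards [ev_pos, ev_lt one_pos] with s s0 s1 using h s s0 s1.le

lemma short_le {p q : ℂ} {γ γ' : Path p q} (h : Shortest a b γ) (h' : Admissible a b γ') :
    (eVariationOn γ univ).toReal ≤ (eVariationOn γ' univ).toReal :=
  ENNReal.toReal_mono h'.2.1 (h.2 γ' h')

lemma min_loop (hb : 0 < b) (hab : b ≤ a) {p : ℂ} (hp : B a b p p = 1) {γ : Path p p}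
    (h : Shortest a b γ) {L : Set ℂ} (hL : IsCompact L) (cL : Convex ℝ L)
    (hLE : L ⊆ ell a b) (hA : π * a * b / 2 ≤ volume.real L) (hpL : p ∈ L) :
    (eVariationOn γ univ).toReal ≤ per L := by
  apply le_of_forall_small (c := per (ell a b) - per L)
  intro s s0 s1
  have kE := isCompact_ell hb hab
  obtain ⟨γ', g1, g2⟩ := scale_loop hb hab ((hL.smul (1 - s)).add (kE.smul s))
    ((cL.smul _).add (convex_ell.smul _)) (comb_subset convex_ell hLE Subset.rfl s0.le s1)
    (mix_ell hb hab hL cL ⟨p, hpL⟩ hA s0 s1) hp (mem_comb hpL (hLE hpL) s)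
  rw [per_add (hL.smul _) (Set.Nonempty.smul_set ⟨p, hpL⟩) (kE.smul _)
    (Set.Nonempty.smul_set ⟨0, zero_mem_ell⟩), per_smul hL ⟨p, hpL⟩ (sub_nonneg.2 s1),
    per_smul kE ⟨0, zero_mem_ell⟩ s0.le] at g2
  have := short_le h g1
  linarith

lemma hull_loop (hb : 0 < b) (hab : b ≤ a) {p : ℂ} {γ : Path p p} (h : Admissible a b γ) :
    ∃ U V : Set ℂ, IsOpen U ∧ IsOpen V ∧ IsPreconnected V ∧ Disjoint U V ∧
      U ∪ V = interior (ell a b) \ range γ ∧ volume.real U = π * a * b / 2 ∧
      U ⊆ closedConvexHull ℝ (range γ) := by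
  have ha : 0 < a := by linarith
  obtain ⟨U, V, oU, oV, cU, cV, dj, hUV, aU, aV⟩ := adm_parts h ha hb
  have kR : IsCompact (range γ) := isCompact_range γ.continuous
  set K := closedConvexHull ℝ (range γ)
  by_cases h1 : U ⊆ K
  · exact ⟨U, V, oU, oV, cV, dj, hUV, aU, h1⟩
  by_cases h2 : V ⊆ K
  · exact ⟨V, U, oV, oU, cU, dj.symm, (union_comm _ _).trans hUV, aV, h2⟩
  exfalso
  apply jordan γ h.1
  obtain ⟨x, hx, hx'⟩ := not_subset.1 h1
  obtain ⟨y, hy, hy'⟩ := not_subset.1 h2
  have cK := compl_preconn (isCompact_cch kR) convex_closedConvexHull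
    ((range_nonempty γ).mono subset_closedConvexHull)
  have e : (range γ)ᶜ = (Kᶜ ∪ U) ∪ V := by
    apply subset_antisymm
    · intro z hz
      by_cases hE : z ∈ interior (ell a b)
      · have : z ∈ U ∪ V := hUV ▸ ⟨hE, hz⟩
        rcases this with h | h
        · exact Or.inl (Or.inr h)
        · exact Or.inr h
      · refine Or.inl (Or.inl fun hk => hz (extreme ha hb kR (range_nonempty γ) h.2.2.1 hk ?_))
        exact le_antisymm (mem_ell.1 (cch_subset h.2.2.1 hk)) (not_lt.1 fun h => hE (mem_int.2 h))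
    · rintro z ((hz | hz) | hz)
      · exact fun h => hz (subset_closedConvexHull h)
      · exact (show z ∈ interior (ell a b) \ range γ from hUV ▸ Or.inl hz).2
      · exact (show z ∈ interior (ell a b) \ range γ from hUV ▸ Or.inr hz).2
  rw [e]
  exact (cK.union x hx' hx cU).union y (Or.inl hy') hy cV

lemma per_pen {L : Set ℂ} (hL : IsCompact L) (nL : L.Nonempty) {f δ η : ℝ → ℝ} (hf : Continuous f)
    (hδ : Continuous δ) (hη : Continuous η) {t : ℝ}
    (h : ∀ θ, hs L (ev θ) ≤ f θ + t * max (η θ - δ θ / t) 0) :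
    per L ≤ (∫ θ in (0:ℝ)..2 * π, f θ) + t * ∫ θ in (0:ℝ)..2 * π, max (η θ - δ θ / t) 0 := by
  refine (per_le hL nL (f := fun θ => f θ + t * max (η θ - δ θ / t) 0) (by fun_prop) h).trans
    (le_of_eq ?_)
  rw [intervalIntegral.integral_add (hf.intervalIntegrable _ _)
    (by apply Continuous.intervalIntegrable; fun_prop), intervalIntegral.integral_const_mul]

lemma no_pert (hb : 0 < b) (hab : b ≤ a) {K : Set ℂ} (hK : IsCompact K) (cK : Convex ℝ K)
    (hKE : K ⊆ ell a b) {p : ℂ} (hpK : p ∈ K) {ρ s : ℝ} (ρ0 : 0 < ρ) (hρ : volume.real K = π * ρ ^ 2)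
    (Min : ∀ L : Set ℂ, IsCompact L → Convex ℝ L → L ⊆ ell a b → p ∈ L →
      volume.real K ≤ volume.real L → per K ≤ per L)
    (hs1 : ρ < s) (hs2 : 2 * π * s < per K) {c : ℂ}
    (h1 : ∀ k ∈ K, B a b k k = 1 → k ≠ p → dot (nu a b k) (c - p) + s * ‖nu a b k‖ ≤ 0)
    (h2 : ∀ᵐ θ : ℝ, hs K (ev θ) = dot (ev θ) p → 0 ≤ dot (ev θ) (c - p) + s) : False := by
  have ha : 0 < a := by linarith
  have s0 : 0 < s := by linarith
  have nK : K.Nonempty := ⟨p, hpK⟩
  have kD := isCompact_closedBall c s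
  have nD : (closedBall c s).Nonempty := nonempty_closedBall.2 s0.le
  have e1 := clip hb hab hK kD hKE (hKE hpK) (hKE hpK) (fun k hk hq hne _ d hd => by
    have b1 := le_hs kD hd (nu a b k)
    rw [hs_closedBall c s0.le, dot_nu] at b1
    have b2 := h1 k hk hq hne
    rw [dot_sub, dot_nu k p] at b2
    have b3 := B_lt_one ha hb (hKE hk) (hKE hpK) hne
    linarith) (ε := 2 * π * ρ * (s - ρ)) (by have := sub_pos.2 hs1; positivity)
  have cK' := continuous_hs_ev hK nK
  have e2 := pen_small (δ := fun θ => (hs K (ev θ) - dot (ev θ) p) / 2)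
    (η := fun θ => dot (ev θ) p - (dot (ev θ) c + s)) (by fun_prop) (by fun_prop)
    (fun θ => by have := le_hs hK hpK (ev θ); linarith) (by
      filter_upwards [h2] with θ hθ h
      have := hθ (by linarith)
      rw [dot_sub] at this
      linarith) (ε := (per K - 2 * π * s) / 2) (by linarith)
  obtain ⟨t, t0, t1, a1, a2⟩ := (ev_pos.and ((ev_lt one_half_pos).and (e1.and e2))).exists
  set Lt := (1 - t) • K + t • closedBall c s with hLt
  have kL : IsCompact Lt := (hK.smul _).add (kD.smul _)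
  have kX : IsCompact (Lt ∩ ell a b ∪ {p}) := (kL.inter_right isClosed_ell).union isCompact_singleton
  have nX : (Lt ∩ ell a b ∪ {p}).Nonempty := ⟨p, Or.inr rfl⟩
  have hLt' : ∀ θ, hs Lt (ev θ) = (1 - t) * hs K (ev θ) + t * (dot (ev θ) c + s) := fun θ => by
    rw [hLt, hs_add (hK.smul _) nK.smul_set (kD.smul _) nD.smul_set, hs_smul hK nK (by linarith),
      hs_smul kD nD t0.le, hs_closedBall c s0.le, norm_ev, mul_one]
  have m := Min _ (isCompact_cch kX) convex_closedConvexHull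
    (cch_subset (union_subset inter_subset_right (singleton_subset_iff.2 (hKE hpK))))
    (subset_closedConvexHull (Or.inr rfl)) (by
      have b1 := bm_comb hK cK nK kD (convex_closedBall _ _) nD (s := 1 - t) (by linarith) t0.le
      rw [hρ, ar_closedBall c s0.le, Real.sqrt_mul pi_pos.le, Real.sqrt_mul pi_pos.le,
        Real.sqrt_sq ρ0.le, Real.sqrt_sq s0.le, ← hLt] at b1
      have b2 := pow_le_pow_left₀ (by
        have : 0 ≤ 1 - t := by linarith
        positivity) b1 2
      rw [Real.sq_sqrt measureReal_nonneg] at b2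
      have b3 : ((1 - t) * (√π * ρ) + t * (√π * s)) ^ 2 = π * (ρ + t * (s - ρ)) ^ 2 := by
        conv_rhs => rw [← Real.sq_sqrt pi_pos.le]
        ring
      have b4 := measureReal_inter_add_sdiff (μ := volume) (s := Lt) isClosed_ell.measurableSet
        (t := ell a b) kL.measure_lt_top.ne
      have b5 : volume.real (Lt ∩ ell a b) ≤ volume.real (closedConvexHull ℝ (Lt ∩ ell a b ∪ {p})) :=
        measureReal_mono (subset_union_left.trans subset_closedConvexHull)
          (isCompact_cch kX).measure_lt_top.ne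
      rw [b3] at b2
      rw [hρ]
      nlinarith [mul_nonneg pi_pos.le (sq_nonneg (t * (s - ρ)))])
  rw [per_cch kX nX] at m
  have m2 := per_pen kX nX (f := fun θ => hs Lt (ev θ)) (continuous_hs_ev kL (nK.smul_set.add nD.smul_set))
    (δ := fun θ => (hs K (ev θ) - dot (ev θ) p) / 2)
    (η := fun θ => dot (ev θ) p - (dot (ev θ) c + s)) (by fun_prop) (by fun_prop) (t := t) (by
      intro θ
      apply hs_le nX
      rintro z (hz | hz)
      · have := le_hs kL hz.1 (ev θ)
        have := mul_nonneg t0.le (le_max_right (dot (ev θ) p - (dot (ev θ) c + s)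
          - (hs K (ev θ) - dot (ev θ) p) / 2 / t) 0)
        linarith
      · rw [show z = p from hz, hLt']
        have b1 := mul_le_mul_of_nonneg_left (le_max_left (dot (ev θ) p - (dot (ev θ) c + s)
          - (hs K (ev θ) - dot (ev θ) p) / 2 / t) 0) t0.le
        rw [mul_sub, mul_div_cancel₀ _ t0.ne'] at b1
        have b2 := le_hs hK hpK (ev θ)
        nlinarith)
  have m3 : per Lt = (1 - t) * per K + t * (2 * π * s) := by
    rw [hLt, per_add (hK.smul _) nK.smul_set (kD.smul _) nD.smul_set, per_smul hK nK (by linarith),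
      per_smul kD nD t0.le, per_closedBall c s0.le]
  change per _ ≤ per Lt + _ at m2
  nlinarith [mul_le_mul_of_nonneg_left a2 t0.le]

lemma bulge (hb : 0 < b) (hab : b ≤ a) {K : Set ℂ} (hK : IsCompact K) (cK : Convex ℝ K)
    (hKE : K ⊆ ell a b) {k : ℂ} (hk : B a b k k = 1) (m1 : k ∈ K) (m2 : -k ∈ K)
    (hH : ∀ z ∈ interior (ell a b), 0 ≤ cross k z → z ∈ K) {ε : ℝ} (hε : 0 < ε) :
    ∀ᶠ t : ℝ in 𝓝[>] 0, ∃ L : Set ℂ, IsCompact L ∧ Convex ℝ L ∧ L ⊆ ell a b ∧ K ⊆ L ∧
      π * a * b / 2 + ‖k‖ ^ 2 / 4 * t ≤ volume.real L ∧ per L ≤ per K + t * ε := by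
  have ha : 0 < a := by linarith
  have nK : K.Nonempty := ⟨k, m1⟩
  have k0 : k ≠ 0 := fun h => by rw [h] at hk; simp at hk
  have cK' := continuous_hs_ev hK nK
  have d0 : ∀ θ, |dot (ev θ) k| ≤ hs K (ev θ) := fun θ => by
    have b1 := le_hs hK m1 (ev θ)
    have b2 := le_hs hK m2 (ev θ)
    rw [dot_neg] at b2
    exact abs_le.2 ⟨by linarith, b1⟩
  have e2 := pen_small (δ := fun θ => hs K (ev θ)) (η := fun θ => dot (ev θ) (-(Complex.I * k)))
    cK' (by fun_prop) (fun θ => (abs_nonneg _).trans (d0 θ)) (by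
      filter_upwards [ae_dot_ne k0] with θ hθ h
      exact absurd (abs_nonpos_iff.1 (h ▸ d0 θ)) hθ) hε
  filter_upwards [ev_pos, ev_lt (div_pos hb ha), e2] with t t0 t1 a2
  set w : ℂ := t • -(Complex.I * k) with hw
  have wE : w ∈ ell a b := by
    apply mem_of_norm_le hb hab
    rw [hw, norm_smul, norm_neg, norm_mul, Complex.norm_I, one_mul, Real.norm_eq_abs,
      abs_of_pos t0]
    rw [lt_div_iff₀ ha] at t1
    nlinarith [norm_le_of_mem hb hab (hKE m1)]
  have kX : IsCompact (K ∪ {w}) := hK.union isCompact_singleton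
  have nX : (K ∪ {w}).Nonempty := ⟨w, Or.inr rfl⟩
  have sK : K ⊆ closedConvexHull ℝ (K ∪ {w}) := subset_union_left.trans subset_closedConvexHull
  refine ⟨_, isCompact_cch kX, convex_closedConvexHull,
    cch_subset (union_subset hKE (singleton_subset_iff.2 wE)), sK, ?_, ?_⟩
  · set R := (fun z : ℂ => k * z + 0) ''
      {z : ℂ | z.re ∈ Icc (-(1 / 2)) (1 / 2) ∧ z.im ∈ Icc (-(t / 2)) (-(t / 4))} with hR
    have aR : volume.real R = ‖k‖ ^ 2 / 4 * t := by
      rw [hR, ar_mul, ar_rect (by norm_num) (by linarith)]; ring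
    have kR : IsCompact R := by
      refine IsCompact.image ?_ (by fun_prop)
      exact isCompact_Icc.reProdIm isCompact_Icc
    have sR : R ⊆ closedConvexHull ℝ (K ∪ {w}) := by
      rintro _ ⟨z, ⟨⟨x1, x2⟩, y1, y2⟩, rfl⟩
      have g0 : 1 / 4 ≤ -z.im / t := by rw [le_div_iff₀ t0]; linarith
      have g1 : -z.im / t ≤ 1 / 2 := by rw [div_le_iff₀ t0]; linarith
      set g := -z.im / t with hg
      have q1 := cK m1 m2 (a := (1 - g + z.re) / (2 * (1 - g))) (b := (1 - g - z.re) / (2 * (1 - g)))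
        (div_nonneg (by linarith) (by linarith)) (div_nonneg (by linarith) (by linarith))
        (by have : 1 - g ≠ 0 := by linarith
            field_simp; ring)
      have q2 := convex_closedConvexHull (𝕜 := ℝ) (s := K ∪ {w}) (sK q1)
        (subset_closedConvexHull (Or.inr rfl)) (show 0 ≤ 1 - g by linarith) (show 0 ≤ g by linarith)
        (by ring)
      convert q2 using 1
      have e1 : (1 - (g:ℂ)) ≠ 0 := by exact_mod_cast (show 1 - g ≠ 0 by linarith)
      have e2 : z = z.re - (g * t : ℝ) * Complex.I := by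
        rw [hg, div_mul_cancel₀ _ t0.ne']
        apply Complex.ext <;> simp
      simp only [hw, Complex.real_smul]
      conv_lhs => rw [e2]
      push_cast; field_simp; ring
    set H := {z | z ∈ interior (ell a b) ∧ 0 ≤ cross k z}
    have h1 : volume.real (H ∪ R) ≤ volume.real (closedConvexHull ℝ (K ∪ {w})) :=
      measureReal_mono (union_subset (fun z hz => sK (hH z hz.1 hz.2)) sR)
        (isCompact_cch kX).measure_lt_top.ne
    rw [measureReal_union (disjoint_left.2 ?_) kR.measurableSet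
      (fin_int hb hab fun z hz => interior_subset hz.1) kR.measure_lt_top.ne, aR] at h1
    · linarith [half_le hb hab k]
    · rintro _ hz ⟨z, ⟨-, -, y2⟩, rfl⟩
      have b1 := hz.2
      have b2 : cross k (k * z + 0) = ‖k‖ ^ 2 * z.im := by rw [sq_norm']; simp [cross]; ring
      have b3 : 0 < ‖k‖ ^ 2 := by have := norm_pos_iff.2 k0; positivity
      simp only [b2] at b1
      nlinarith
  · rw [per_cch kX nX]
    have m2 := per_pen kX nX cK' cK' (η := fun θ => dot (ev θ) (-(Complex.I * k))) (by fun_prop)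
      (t := t) (by
        intro θ
        apply hs_le nX
        rintro z (hz | hz)
        · have := le_hs hK hz (ev θ)
          have := mul_nonneg t0.le (le_max_right (dot (ev θ) (-(Complex.I * k)) - hs K (ev θ) / t) 0)
          linarith
        · rw [show z = w from hz, hw, dot_smul]
          have b1 := mul_le_mul_of_nonneg_left
            (le_max_left (dot (ev θ) (-(Complex.I * k)) - hs K (ev θ) / t) 0) t0.le
          rw [mul_sub, mul_div_cancel₀ _ t0.ne'] at b1
          linarith)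
    change per _ ≤ per K + _ at m2
    nlinarith [mul_le_mul_of_nonneg_left a2 t0.le]

lemma no_anti (hb : 0 < b) (hab : b ≤ a) {K : Set ℂ} (hK : IsCompact K) (cK : Convex ℝ K)
    (hKE : K ⊆ ell a b) {p : ℂ} (hpK : p ∈ K) (hA : volume.real K = π * a * b / 2)
    (hc : IsPreconnected (interior (ell a b) \ K))
    (Min : ∀ L : Set ℂ, IsCompact L → Convex ℝ L → L ⊆ ell a b → p ∈ L →
      volume.real K ≤ volume.real L → per K ≤ per L) :
    ∀ k ∈ K, B a b k k = 1 → -k ∉ K := by
  have ha : 0 < a := by linarith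
  have main : ∀ k ∈ K, B a b k k = 1 → -k ∈ K →
      (∀ z ∈ interior (ell a b), 0 ≤ cross k z → z ∈ K) → False := by
    intro k m1 hk m2 hH
    have k0 : 0 < ‖k‖ := norm_pos_iff.2 fun h => by rw [h] at hk; simp at hk
    set A := π * a * b / 2 with hA2
    have A0 : 0 < A := by positivity
    have P0 : 0 < per K := by
      have := isoper hK cK ⟨p, hpK⟩
      rcases (per_nonneg hK ⟨p, hpK⟩).eq_or_lt with e | e
      · rw [← e] at this; simp at this; linarith
      · exact e
    set c := ‖k‖ ^ 2 / 4 with hc'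
    have c0 : 0 < c := by positivity
    obtain ⟨t, t0, t1, L, l1, l2, l3, l4, l5, l6⟩ := (ev_pos.and ((ev_lt (div_pos A0 c0)).and
      (bulge hb hab hK cK hKE hk m1 m2 hH (ε := c * per K / (8 * A)) (by positivity)))).exists
    rw [lt_div_iff₀ c0] at t1
    set σ := c * t / (4 * A) with hσ
    have σ0 : 0 < σ := by positivity
    have σ1 : σ * (4 * A) = c * t := by rw [hσ]; field_simp
    have σ2 : σ ≤ 1 / 4 := by rw [hσ, div_le_iff₀ (by positivity)]; linarith
    obtain ⟨M, k1, k2, k3, k4, k5, k6, -⟩ := homo_props l1 l2 l3 (l4 hpK) (l := 1 - σ)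
      (by linarith) (by linarith)
    have m := Min M k1 k2 k3 k4 (by
      rw [k5, hA]
      have b1 : (1 - σ) ^ 2 * (A + c * t) ≤ (1 - σ) ^ 2 * volume.real L :=
        mul_le_mul_of_nonneg_left l5 (sq_nonneg _)
      have b2 : 0 ≤ σ ^ 2 * (A + c * t) := by positivity
      nlinarith)
    rw [k6] at m
    have b3 : t * (c * per K / (8 * A)) = σ * per K / 2 := by rw [hσ]; field_simp; ring
    rw [b3] at l6
    have b4 := mul_le_mul_of_nonneg_left l6 (show 0 ≤ 1 - σ by linarith)
    nlinarith [mul_pos σ0 P0, mul_pos (mul_pos σ0 σ0) P0]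
  intro k m1 hk m2
  have hk' : B a b (-k) (-k) = 1 := by rw [neg_B, B_neg, neg_neg, hk]
  rcases caps ha hb cK hc m2 m1 hk' hk (fun h => by
    have := congrArg (B a b k) h
    rw [B_neg, hk] at this; linarith) with h | h
  · refine main (-k) m2 hk' (by simpa using m1) fun z hz h' => h z hz ?_
    simp only [cross, Complex.sub_re, Complex.sub_im, Complex.neg_re, Complex.neg_im] at h' ⊢
    linarith
  · refine main k m1 hk m2 fun z hz h' => h z hz ?_
    simp only [cross, Complex.sub_re, Complex.sub_im, Complex.neg_re, Complex.neg_im] at h' ⊢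
    linarith

end Pool.Agent.MP_7791e4_an
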