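import Pool.Agent.MP_7791e4_an.Suff

set_option autoImplicit false

namespace Pool.Agent.MP_7791e4_an

open Set MeasureTheory Real Metric Filter Topology Pointwise

variable {a b : ℝ}

lemma no_anti' (hb : 0 < b) (hab : b ≤ a) {α β : ℝ} (h1 : α < β) (h2 : β < α + π) {K : Set ℂ}
    (F : Feas a b (cap a b α β) K) (hA : volume.real K = π * a * b / 2)
    (hc : IsPreconnected (interior (ell a b) \ K))
    (Min : ∀ L, Feas a b (cap a b α β) L → volume.real K ≤ volume.real L → per K ≤ per L) :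
    ∀ k ∈ K, B a b k k = 1 → -k ∉ K := by
  have ha : 0 < a := by linarith
  have FS := feas_cap hb hab α β
  have nS : (cap a b α β).Nonempty := ⟨_, pt_mem ha hb _, left_mem_HP _ _⟩
  have nK := nS.mono F.sup
  have A0 : 0 < volume.real K := by rw [hA]; positivity
  have p0 := per_cap_lt hb hab h1 h2 F hA.ge
  have main : ∀ k ∈ K, B a b k k = 1 → -k ∈ K →
      (∀ z ∈ interior (ell a b), 0 ≤ cross k z → z ∈ K) → False := by
    intro k m1 hk m2 hH
    have k0 : 0 < ‖k‖ := norm_pos_iff.2 fun h => by rw [h] at hk; simp at hk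
    have key : ∀ η : ℝ, 0 < η → η ≤ 1 → (per K - per (cap a b α β)) * (‖k‖ ^ 2 / 4)
        ≤ 0 + η * (2 * volume.real K) := by
      intro η η0 _
      rw [zero_add]
      refine combine nS A0 Min (by positivity) (by positivity) ?_ ?_
      · filter_upwards [ev_pos, ev_lt one_pos] with ε e0 e1
        refine ⟨_, F.comb FS e0.le e1.le, ?_, ?_⟩
        · have := ar_comb F.cpt F.cvx nK FS.cpt FS.cvx nS e0.le e1.le
          nlinarith [mul_nonneg (sq_nonneg ε) A0.le]
        · rw [per_comb F.cpt nK FS.cpt nS e0.le e1.le]; linarith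
      · filter_upwards [bulge hb hab F.cpt F.cvx F.sub hk m1 m2 hH η0] with ε
          ⟨L, l1, l2, l3, l4, l5, l6⟩
        exact ⟨L, ⟨l1, l2, F.sup.trans l4, l3⟩, by linarith, l6⟩
    have := le_of_forall_small key
    have : 0 < (per K - per (cap a b α β)) * (‖k‖ ^ 2 / 4) := by
      have := sub_pos.2 p0; positivity
    linarith
  intro k m1 hk m2
  have hk' : B a b (-k) (-k) = 1 := by rw [neg_B, B_neg, neg_neg, hk]
  rcases caps ha hb F.cvx hc m2 m1 hk' hk (fun h => by
    have := congrArg (B a b k) h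
    rw [B_neg, hk] at this; linarith) with h | h
  · refine main (-k) m2 hk' (by simpa using m1) fun z hz h' => h z hz ?_
    simp only [cross, Complex.sub_re, Complex.sub_im, Complex.neg_re, Complex.neg_im] at h' ⊢
    linarith
  · refine main k m1 hk m2 fun z hz h' => h z hz ?_
    simp only [cross, Complex.sub_re, Complex.sub_im, Complex.neg_re, Complex.neg_im] at h' ⊢
    linarith

lemma arc_in (hb : 0 < b) (hab : b ≤ a) {K : Set ℂ} (hK : IsCompact K) (cK : Convex ℝ K)
    (hA : volume.real K ≤ π * a * b / 2) (hc : IsPreconnected (interior (ell a b) \ K))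
    {u1 u2 : ℝ} (h1 : u1 < u2) (h2 : u2 < u1 + π) (m1 : pt a b u1 ∈ K) (m2 : pt a b u2 ∈ K) :
    ∀ u ∈ Icc u1 u2, pt a b u ∈ K := by
  have ha : 0 < a := by linarith
  have sc := small_cap hb hab hK cK hA hc m1 m2 (B_pt_self ha hb _) (B_pt_self ha hb _) (by
    rw [cross_pt]
    have := sin_pos_of_pos_of_lt_pi (x := u2 - u1) (by linarith) (by linarith)
    positivity)
  intro u hu
  rcases hu.1.eq_or_lt with e | e
  · exact e ▸ m1
  rcases hu.2.eq_or_lt with e' | e'
  · exact e' ▸ m2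
  have n := chord_neg ha hb (by linarith [pi_pos]) e e'
  have lim : Tendsto (fun τ : ℝ => (1 - τ) • pt a b u) (𝓝[>] 0) (𝓝 ((1 - 0 : ℝ) • pt a b u)) :=
    ((by fun_prop : Continuous fun τ : ℝ => (1 - τ) • pt a b u).tendsto 0).mono_left
      nhdsWithin_le_nhds
  rw [sub_zero, one_smul] at lim
  refine hK.isClosed.mem_of_tendsto lim ?_
  filter_upwards [ev_pos, ev_lt one_pos, ev_neg (f := fun τ => cross (pt a b u2 - pt a b u1)
    ((1 - τ) • pt a b u - pt a b u1)) (by fun_prop) (by simpa using n)] with τ t0 t1 t2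
  refine sc _ (mem_int.2 ?_) t2.le
  rw [smul_B, B_smul, B_pt_self ha hb]; nlinarith

lemma contact_arc (hb : 0 < b) (hab : b ≤ a) {α β : ℝ} (h1 : α < β) (h2 : β < α + π) {K : Set ℂ}
    (F : Feas a b (cap a b α β) K) (hA : volume.real K = π * a * b / 2)
    (hc : IsPreconnected (interior (ell a b) \ K)) (anti : ∀ k ∈ K, B a b k k = 1 → -k ∉ K) :
    ∃ s t, s ≤ α ∧ β ≤ t ∧ t < s + π ∧ (∀ u ∈ Icc s t, pt a b u ∈ K) ∧
      ∀ z ∈ K, B a b z z = 1 → z ∈ HP (pt a b s) (pt a b t) := by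
  have ha : 0 < a := by linarith
  have mS : ∀ u ∈ Icc α β, pt a b u ∈ K := fun u hu =>
    F.sup (pt_mem_cap ha hb (by linarith [pi_pos]) hu)
  have cl : IsClosed (pt a b ⁻¹' K) := F.cpt.isClosed.preimage continuous_pt
  have na : ∀ u, pt a b u ∈ K → pt a b (u + π) ∉ K := fun u h => by
    rw [pt_add_pi]; exact anti _ h (B_pt_self ha hb u)
  obtain ⟨t, ⟨t1, t2⟩, t3⟩ := ((isCompact_Icc (a := α) (b := α + π)).inter_right cl).exists_isGreatest
    ⟨β, ⟨h1.le, h2.le⟩, mS β ⟨h1.le, le_rfl⟩⟩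
  obtain ⟨s, ⟨s1, s2⟩, s3⟩ := ((isCompact_Icc (a := β - π) (b := β)).inter_right cl).exists_isLeast
    ⟨β, ⟨by linarith [pi_pos], le_rfl⟩, mS β ⟨h1.le, le_rfl⟩⟩
  have t4 : β ≤ t := t3 ⟨⟨h1.le, h2.le⟩, mS β ⟨h1.le, le_rfl⟩⟩
  have s4 : s ≤ α := s3 ⟨⟨by linarith, h1.le⟩, mS α ⟨le_rfl, h1.le⟩⟩
  have t5 : t < α + π := lt_of_le_of_ne t1.2 fun e => na α (mS α ⟨le_rfl, h1.le⟩) (e ▸ t2)
  have s5 : β < s + π := lt_of_le_of_ne (by linarith [s1.1]) fun e =>
    na s s2 (e ▸ mS β ⟨h1.le, le_rfl⟩)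
  have a1 := arc_in hb hab F.cpt F.cvx hA.le hc (u1 := α) (u2 := t) (by linarith) t5
    (mS α ⟨le_rfl, h1.le⟩) t2
  have a2 := arc_in hb hab F.cpt F.cvx hA.le hc (u1 := s) (u2 := β) (by linarith) s5 s2
    (mS β ⟨h1.le, le_rfl⟩)
  have all : ∀ u ∈ Icc s t, pt a b u ∈ K := fun u hu => by
    rcases le_total u β with c | c
    · exact a2 u ⟨hu.1, c⟩
    · exact a1 u ⟨by linarith, hu.2⟩
  have ts : t < s + π := by
    by_contra h
    exact na s s2 (all _ ⟨by linarith [pi_pos], not_lt.1 h⟩)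
  refine ⟨s, t, s4, t4, ts, all, fun z hz hz' => ?_⟩
  obtain ⟨u, hu, rfl⟩ := exists_pt ha hb hz' (β - π)
  refine pt_mem_HP ha hb (by linarith [pi_pos]) ?_
  rcases le_total u β with c | c
  · exact ⟨s3 ⟨⟨hu.1, c⟩, hz⟩, by linarith⟩
  rcases le_total u (α + π) with c' | c'
  · exact ⟨by linarith, t3 ⟨⟨by linarith, c'⟩, hz⟩⟩
  · exact absurd (by simpa using hz) (na (u - π) (mS _ ⟨by linarith, by linarith [hu.2]⟩))

lemma nec (hb : 0 < b) (hab : b ≤ a) {α β : ℝ} (h1 : α < β) (h2 : β < α + π) {K : Set ℂ}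
    (F : Feas a b (cap a b α β) K) (hA : volume.real K = π * a * b / 2)
    (hc : IsPreconnected (interior (ell a b) \ K))
    (Min : ∀ L, Feas a b (cap a b α β) L → volume.real K ≤ volume.real L → per K ≤ per L) :
    ∃ s t c r x y, Cf a b s t c r x y ∧ s ≤ α ∧ β ≤ t ∧ K = KK a b s t c r x y := by
  have ha : 0 < a := by linarith
  obtain ⟨s, t, hs, ht, ts, all, con⟩ := contact_arc hb hab h1 h2 F hA hc
    (no_anti' hb hab h1 h2 F hA hc Min)
  have st : s < t := by linarith
  have ts' : t < s + 2 * π := by linarith [pi_pos]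
  have hne := pt_ne ha hb st ts'
  have F' : Feas a b (cap a b s t) K := ⟨F.cpt, F.cvx, cap_subset ha hb st ts' F.cvx all, F.sub⟩
  have e1 : K ∩ HP (pt a b s) (pt a b t) = cap a b s t := subset_antisymm
    (inter_subset_inter_left _ F.sub) (subset_inter F'.sup inter_subset_right)
  have kC := isCompact_cap hb hab s t
  set X := K ∩ HP (pt a b t) (pt a b s) with hX
  have kX : IsCompact X := F.cpt.inter_right (isClosed_HP _ _)
  have cX : Convex ℝ X := F.cvx.inter (convex_HP _ _)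
  have XE : X ⊆ ell a b := inter_subset_left.trans F.sub
  have PX : pt a b t ∈ X := ⟨all t ⟨st.le, le_rfl⟩, left_mem_HP _ _⟩
  have QX : pt a b s ∈ X := ⟨all s ⟨le_rfl, st.le⟩, right_mem_HP _ _⟩
  have p1 := split_cap hb hab st ts' F'
  have a1 := ar_union hne kC kX inter_subset_right inter_subset_right
  rw [← e1, inter_HP_union, e1] at a1
  have A0 : 0 < volume.real X := by linarith [cap_small hb hab st ts]
  have conX : ∀ k ∈ X, B a b k k = 1 → k = pt a b t ∨ k = pt a b s := by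
    intro k hk hk'
    obtain ⟨u, hu, rfl⟩ := of_mem_HP ha hb st hk' (con k hk.1 hk')
    rcases hu.1.eq_or_lt with e | e
    · exact Or.inr (e ▸ rfl)
    rcases hu.2.eq_or_lt with e' | e'
    · exact Or.inl (e' ▸ rfl)
    have n := chord_neg ha hb ts' e e'
    have : cross _ _ ≤ 0 := hk.2
    rw [cross_flip] at this
    linarith
  obtain ⟨c, r, x, y, r0, xy, yx, eP, eQ, ar⟩ := exists_seg hne.symm A0
  rw [← ar_seg c r0 xy yx] at ar
  have PG : pt a b t ∈ seg c r x y := eP ▸ circ_mem_seg c r0 yx ⟨le_rfl, xy.le⟩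
  have QG : pt a b s ∈ seg c r x y := eQ ▸ circ_mem_seg c r0 yx ⟨xy.le, le_rfl⟩
  have GH : seg c r x y ⊆ HP (pt a b t) (pt a b s) := by rw [← eP, ← eQ]; exact inter_subset_right
  have kG := isCompact_seg c r x y
  have cG := convex_seg c r x y
  have pX : per X ≤ per (seg c r x y) := by
    by_contra hlt
    push Not at hlt
    obtain ⟨η, η0, η1⟩ := (ev_pos.and (ev_neg (f := fun η => (1 + η) * per (seg c r x y) - per X)
      (by fun_prop) (by simpa using hlt))).exists
    set m := md a b s t with hm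
    let f : ℂ → ℂ := fun z => ((1 + η : ℝ) : ℂ) * z + -(η • m)
    set D := f '' seg c r x y with hD
    have kD : IsCompact D := kG.image (by fun_prop)
    have cD : Convex ℝ D := convex_image_mul cG _ _
    have mG : m ∈ seg c r x y := md_mem cG QG PG
    have sD : seg c r x y ⊆ D := fun z hz => ⟨_, cG.add_smul_sub_mem mG hz (t := 1 / (1 + η))
      ⟨by positivity, (div_le_one (by positivity)).2 (by linarith)⟩, by
        have : (1 + (η:ℂ)) ≠ 0 := by exact_mod_cast (show (1 + η) ≠ 0 by positivity)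
        simp only [f, Complex.real_smul]; push_cast; field_simp; ring⟩
    have DH : D ⊆ HP (pt a b t) (pt a b s) := by
      rintro _ ⟨z, hz, rfl⟩
      have h0 : cross _ _ ≤ 0 := GH hz
      show cross _ _ ≤ 0
      rw [cross_flip, ← cross_md, ← hm] at h0 ⊢
      rw [show f z - m = (1 + η) • (z - m) by simp only [f, Complex.real_smul]; push_cast; ring,
        cross_smul]
      nlinarith
    have aD : volume.real D = (1 + η) ^ 2 * volume.real X := by
      rw [hD, ar_mul, Complex.norm_real, Real.norm_eq_abs, sq_abs, ar]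
    have pD : per D = (1 + η) * per (seg c r x y) := per_homothety kG ⟨_, PG⟩ (by positivity) _
    obtain ⟨τ, t0, t1, t2⟩ := (ev_pos.and ((ev_lt one_pos).and (clip hb hab kX kD XE (XE PX) (XE QX)
      (fun k hk hk' n1 n2 => ((conX k hk hk').elim n1 n2).elim) (ε := η * volume.real X)
      (by positivity)))).exists
    set M := (1 - τ) • X + τ • D with hM
    have kM : IsCompact M := (kX.smul _).add (kD.smul _)
    have kY : IsCompact (M ∩ ell a b) := kM.inter_right isClosed_ell
    have PY : pt a b t ∈ M ∩ ell a b := ⟨mem_comb PX (sD PG) τ, XE PX⟩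
    have QY : pt a b s ∈ M ∩ ell a b := ⟨mem_comb QX (sD QG) τ, XE QX⟩
    have YH : M ∩ ell a b ⊆ HP (pt a b t) (pt a b s) := inter_subset_left.trans
      (comb_subset (convex_HP _ _) inter_subset_right DH t0.le t1.le)
    have b1 := bm_comb kX cX ⟨_, PX⟩ kD cD ⟨_, sD PG⟩ (s := 1 - τ) (by linarith) t0.le
    rw [aD, Real.sqrt_mul (sq_nonneg _), Real.sqrt_sq (by positivity), ← hM] at b1
    have b2 := pow_le_pow_left₀ (by have : 0 ≤ 1 - τ := by linarith
                                    positivity) b1 2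
    rw [Real.sq_sqrt measureReal_nonneg, show ((1 - τ) * √(volume.real X)
      + τ * ((1 + η) * √(volume.real X))) ^ 2 = (1 + τ * η) ^ 2 * √(volume.real X) ^ 2 by ring,
      Real.sq_sqrt measureReal_nonneg] at b2
    have b4 := measureReal_inter_add_sdiff (μ := volume) (s := M) isClosed_ell.measurableSet
      (t := ell a b) kM.measure_lt_top.ne
    have a2 := ar_union hne kC kY inter_subset_right YH
    have m1 := Min (cap a b s t ∪ M ∩ ell a b) ⟨kC.union kY, union_convex ha hb (convex_cap _ _)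
      (((cX.smul _).add (cD.smul _)).inter convex_ell) inter_subset_left inter_subset_right
      (B_pt_self ha hb _) (B_pt_self ha hb _) hne inter_subset_right YH
      ⟨pt_mem ha hb _, left_mem_HP _ _⟩ ⟨pt_mem ha hb _, right_mem_HP _ _⟩ QY PY,
      (cap_subset ha hb h1 (by linarith [pi_pos]) (convex_cap s t) fun u hu =>
        pt_mem_cap ha hb ts' ⟨by linarith [hu.1], by linarith [hu.2]⟩).trans subset_union_left,
      union_subset inter_subset_left inter_subset_right⟩ (by
        nlinarith [mul_pos (mul_pos t0 η0) A0, mul_nonneg (sq_nonneg (τ * η)) A0.le])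
    have p2 := per_union_le kC kY ⟨pt_mem ha hb _, right_mem_HP _ _⟩
      ⟨pt_mem ha hb _, left_mem_HP _ _⟩ PY QY
    have p3 := per_mono kY ⟨_, PY⟩ kM inter_subset_left
    rw [hM, per_comb kX ⟨_, PX⟩ kD ⟨_, sD PG⟩ t0.le t1.le, pD, ← hM] at p3
    nlinarith
  have e2 := dido r0 xy yx kX cX (by rw [eP, eQ]; exact inter_subset_right) (eP ▸ PX) (eQ ▸ QX)
    ar.le pX
  obtain ⟨n, hn⟩ := norm_angle ha hb st ts' r0 xy yx eP eQ
  have pn := (circ_periodic c r).int_mul n
  refine ⟨s, t, c, r, x + n * (2 * π), y + n * (2 * π), ⟨hb, hab, st, ts, r0, by linarith,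
    by linarith, by rw [pn, eP], by rw [pn, eQ], fun θ hθ => ?_, hn⟩, hs, ht, ?_⟩
  · rw [← pn.sub_eq]
    have h3 : x < θ - n * (2 * π) := by linarith [hθ.1]
    have h4 : θ - n * (2 * π) < y := by linarith [hθ.2]
    have m : circ c r (θ - n * (2 * π)) ∈ X := e2 ▸ circ_mem_seg c r0 yx ⟨h3.le, h4.le⟩
    rw [mem_int]
    refine lt_of_le_of_ne (mem_ell.1 (XE m)) fun e => ?_
    rcases conX _ m e with e' | e'
    · exact circ_ne c r0 h3 (by linarith) (eP.trans e'.symm)
    · exact circ_ne c r0 h4 (by linarith) (e'.trans eQ.symm)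
  · rw [KK, seg, pn, pn, ← seg, ← e2, ← e1, inter_HP_union]

end Pool.Agent.MP_7791e4_an
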