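import Pool.Agent.MP_7791e4_an.Loop
import Pool.Agent.MP_7791e4_an.DefsQ1

set_option autoImplicit false

namespace Pool.Agent.MP_7791e4_an

open Set MeasureTheory Real Metric Filter Topology Pointwise

variable {a b : ℝ}

@[simp] lemma pt_re (u : ℝ) : (pt a b u).re = a * cos u := rfl
@[simp] lemma pt_im (u : ℝ) : (pt a b u).im = b * sin u := rfl

lemma B_pt (ha : 0 < a) (hb : 0 < b) (u v : ℝ) : B a b (pt a b u) (pt a b v) = cos (u - v) := by
  simp only [B, pt_re, pt_im, cos_sub]; field_simp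

lemma B_pt_self (ha : 0 < a) (hb : 0 < b) (u : ℝ) : B a b (pt a b u) (pt a b u) = 1 := by
  rw [B_pt ha hb, sub_self, cos_zero]

lemma pt_mem (ha : 0 < a) (hb : 0 < b) (u : ℝ) : pt a b u ∈ ell a b :=
  mem_ell.2 (B_pt_self ha hb u).le

lemma cross_pt (u v : ℝ) : cross (pt a b u) (pt a b v) = a * b * sin (v - u) := by
  simp only [cross, pt_re, pt_im, sin_sub]; ring

lemma pt_add_pi (u : ℝ) : pt a b (u + π) = -pt a b u := by
  apply Complex.ext <;> simp

lemma pt_periodic : Function.Periodic (pt a b) (2 * π) := fun u => by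
  apply Complex.ext <;> simp

lemma pt_circ (r θ : ℝ) : pt r r θ = r • ev θ := by
  apply Complex.ext <;> simp

lemma circ_eq (c : ℂ) (r θ : ℝ) : circ c r θ = c + r • ev θ := by
  rw [← pt_circ]; rfl

lemma pt_eq (u : ℝ) : pt a b u = ((a * cos u : ℝ) : ℂ) + ((b * sin u : ℝ) : ℂ) * Complex.I := by
  apply Complex.ext <;> simp [-Complex.ofReal_cos, -Complex.ofReal_sin]

@[fun_prop] lemma continuous_pt : Continuous (pt a b) := by
  have : pt a b = fun u => ((a * cos u : ℝ) : ℂ) + ((b * sin u : ℝ) : ℂ) * Complex.I :=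
    funext pt_eq
  rw [this]; fun_prop

@[fun_prop] lemma continuous_circ (c : ℂ) (r : ℝ) : Continuous (circ c r) := by
  have : circ c r = fun θ => c + r • ev θ := funext (circ_eq c r)
  rw [this]; fun_prop

lemma tg_pt (ha : 0 < a) (hb : 0 < b) (u : ℝ) :
    tg a b (pt a b u) = ⟨-(a * sin u), b * cos u⟩ := by
  apply Complex.ext <;> simp only [tg, pt_re, pt_im] <;> field_simp

lemma nu_pt (ha : 0 < a) (hb : 0 < b) (u : ℝ) : nu a b (pt a b u) = ⟨cos u / a, sin u / b⟩ := by
  apply Complex.ext <;> simp only [nu, pt_re, pt_im] <;> field_simp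

lemma exists_pt (ha : 0 < a) (hb : 0 < b) {z : ℂ} (hz : B a b z z = 1) (x : ℝ) :
    ∃ u ∈ Ico x (x + 2 * π), pt a b u = z := by
  have h : z ∈ range (pt a b) := by
    let w : ℂ := ⟨z.re / a, z.im / b⟩
    have n : ‖w‖ = 1 := by
      have : ‖w‖ ^ 2 = 1 := by
        rw [sq_norm', ← hz]; simp only [w, B]; field_simp
      nlinarith [norm_nonneg w]
    have e := eq_smul_ev w
    rw [n, one_smul] at e
    refine ⟨Complex.arg w, Complex.ext ?_ ?_⟩
    · have := congrArg Complex.re e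
      simp only [w, ev_re] at this
      rw [pt_re, ← this]; field_simp
    · have := congrArg Complex.im e
      simp only [w, ev_im] at this
      rw [pt_im, ← this]; field_simp
  obtain ⟨u, rfl⟩ := h
  exact ⟨toIcoMod two_pi_pos x u, toIcoMod_mem_Ico _ _ _, by
    rw [toIcoMod, (pt_periodic.zsmul _).sub_eq]⟩

/-- the closed half-plane to the right of the directed line from `P` to `Q`. -/
def HP (P Q : ℂ) : Set ℂ := {z | cross (Q - P) (z - P) ≤ 0}

lemma cross_flip (P Q z : ℂ) : cross (P - Q) (z - Q) = -cross (Q - P) (z - P) := by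
  simp [cross]; ring

lemma convex_HP (P Q : ℂ) : Convex ℝ (HP P Q) := by
  intro x hx y hy s t hs ht hst
  simp only [HP, mem_ofPred_eq] at *
  have : cross (Q - P) (s • x + t • y - P)
      = s * cross (Q - P) (x - P) + t * cross (Q - P) (y - P) := by
    have e : s = 1 - t := by linarith
    subst e; simp [cross]; ring
  rw [this]; nlinarith [mul_nonneg hs (neg_nonneg.2 hx), mul_nonneg ht (neg_nonneg.2 hy)]

lemma isClosed_HP (P Q : ℂ) : IsClosed (HP P Q) := isClosed_le (by fun_prop) continuous_const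

lemma left_mem_HP (P Q : ℂ) : P ∈ HP P Q := by simp [HP, cross]

lemma right_mem_HP (P Q : ℂ) : Q ∈ HP P Q := (cross_self _).le

lemma mem_HP_or (P Q z : ℂ) : z ∈ HP P Q ∨ z ∈ HP Q P := by
  simp only [HP, mem_ofPred_eq, cross_flip P Q]
  rcases le_total (cross (Q - P) (z - P)) 0 with h | h
  · exact Or.inl h
  · right; linarith

lemma chord_pt (s t u : ℝ) : cross (pt a b t - pt a b s) (pt a b u - pt a b s)
    = -(4 * (a * b) * sin ((t - s) / 2)) * (sin ((t - u) / 2) * sin ((u - s) / 2)) := by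
  rw [cross_sub, sub_cross, sub_cross, cross_self, cross_pt, cross_pt, cross_pt]
  set x := (t - u) / 2
  set y := (u - s) / 2
  rw [show (t - s) / 2 = x + y by simp only [x, y]; ring, show u - t = -(2 * x) by simp only [x]; ring,
    show u - s = 2 * y by simp only [y]; ring, show s - t = -(2 * (x + y)) by simp only [x, y]; ring,
    sin_neg, sin_neg, sin_two_mul, sin_two_mul, sin_two_mul, sin_add, cos_add]
  linear_combination ((2 * a * b * sin x * cos x)) * sin_sq_add_cos_sq y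
    + (2 * a * b * sin y * cos y) * sin_sq_add_cos_sq x

lemma chord_neg (ha : 0 < a) (hb : 0 < b) {s t u : ℝ} (h : t < s + 2 * π) (h1 : s < u) (h2 : u < t) :
    cross (pt a b t - pt a b s) (pt a b u - pt a b s) < 0 := by
  rw [chord_pt]
  have e1 := sin_pos_of_pos_of_lt_pi (x := (t - s) / 2) (by linarith) (by linarith)
  have e2 := sin_pos_of_pos_of_lt_pi (x := (t - u) / 2) (by linarith) (by linarith)
  have e3 := sin_pos_of_pos_of_lt_pi (x := (u - s) / 2) (by linarith) (by linarith)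
  have : 0 < 4 * (a * b) * sin ((t - s) / 2) * (sin ((t - u) / 2) * sin ((u - s) / 2)) := by
    positivity
  linarith

lemma chord_pos (ha : 0 < a) (hb : 0 < b) {s t u : ℝ} (h : s < t) (h1 : t < u) (h2 : u < s + 2 * π) :
    0 < cross (pt a b t - pt a b s) (pt a b u - pt a b s) := by
  have := chord_neg ha hb (s := t) (t := s + 2 * π) (u := u) (by linarith) h1 h2
  rw [pt_periodic s, cross_flip] at this
  linarith

lemma pt_mem_HP (ha : 0 < a) (hb : 0 < b) {s t u : ℝ} (h : t < s + 2 * π) (hu : u ∈ Icc s t) :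
    pt a b u ∈ HP (pt a b s) (pt a b t) := by
  rcases hu.1.eq_or_lt with e | e
  · rw [← e]; exact left_mem_HP _ _
  rcases hu.2.eq_or_lt with e' | e'
  · rw [e']; exact right_mem_HP _ _
  exact (chord_neg ha hb h e e').le

lemma of_mem_HP (ha : 0 < a) (hb : 0 < b) {s t : ℝ} (h : s < t) {z : ℂ} (hz : B a b z z = 1)
    (h1 : z ∈ HP (pt a b s) (pt a b t)) : ∃ u ∈ Icc s t, pt a b u = z := by
  obtain ⟨u, hu, rfl⟩ := exists_pt ha hb hz s
  refine ⟨u, ⟨hu.1, ?_⟩, rfl⟩
  by_contra hc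
  exact absurd h1 (not_le.2 (chord_pos ha hb h (not_le.1 hc) hu.2))

lemma pt_ne (ha : 0 < a) (hb : 0 < b) {s t : ℝ} (h : s < t) (h' : t < s + 2 * π) :
    pt a b s ≠ pt a b t := fun e => by
  have := chord_neg ha hb h' (u := (s + t) / 2) (by linarith) (by linarith)
  rw [e, sub_self] at this
  simp [cross] at this

lemma pt_sub (ha : 0 < a) (hb : 0 < b) (s t : ℝ) : pt a b t - pt a b s
    = (2 * sin ((t - s) / 2)) • tg a b (pt a b ((s + t) / 2)) := by
  rw [tg_pt ha hb]
  apply Complex.ext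
  · simp only [Complex.sub_re, pt_re, Complex.smul_re, smul_eq_mul]
    rw [← mul_sub, cos_sub_cos, add_comm t s]; ring
  · simp only [Complex.sub_im, pt_im, Complex.smul_im, smul_eq_mul]
    rw [← mul_sub, sin_sub_sin, add_comm t s]; ring

lemma hasDerivAt_mk {f g : ℝ → ℝ} {f' g' u : ℝ} (hf : HasDerivAt f f' u) (hg : HasDerivAt g g' u) :
    HasDerivAt (fun x => (⟨f x, g x⟩ : ℂ)) ⟨f', g'⟩ u := by
  have e : (fun x => (⟨f x, g x⟩ : ℂ)) = fun x => (f x : ℂ) + (g x : ℂ) * Complex.I := by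
    funext x; apply Complex.ext <;> simp
  rw [e]
  exact (hf.ofReal_comp.add (hg.ofReal_comp.mul_const Complex.I)).congr_deriv
    (by apply Complex.ext <;> simp)

lemma nu_pt_pos (ha : 0 < a) (hb : 0 < b) (u : ℝ) : 0 < ‖nu a b (pt a b u)‖ :=
  norm_pos_iff.2 fun h => by
    have := B_pt_self ha hb u
    rw [← dot_nu, h] at this; simp [dot] at this

/-- the angle of the outer normal. -/
noncomputable def ph (a b u : ℝ) : ℝ := u + Complex.arg (nu a b (pt a b u) * ev (-u))

lemma re_N_pos (ha : 0 < a) (hb : 0 < b) (u : ℝ) : 0 < (nu a b (pt a b u) * ev (-u)).re := by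
  rw [nu_pt ha hb]
  simp only [Complex.mul_re, ev_re, ev_im, cos_neg, sin_neg]
  have h := sin_sq_add_cos_sq u
  have e : cos u / a * cos u - sin u / b * -sin u = cos u ^ 2 / a + sin u ^ 2 / b := by ring
  rw [e]
  rcases eq_or_ne (cos u) 0 with c | c
  · have : 0 < sin u ^ 2 := by rw [c] at h; nlinarith
    positivity
  · positivity

lemma nu_eq (u : ℝ) : nu a b (pt a b u) = ‖nu a b (pt a b u)‖ • ev (ph a b u) := by
  have e := eq_smul_ev (nu a b (pt a b u) * ev (-u))
  rw [norm_mul, norm_ev, mul_one] at e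
  have e0 : ev 0 = 1 := by apply Complex.ext <;> simp
  calc nu a b (pt a b u) = nu a b (pt a b u) * ev (-u) * ev u := by
        rw [mul_assoc, ev_mul, neg_add_cancel, e0, mul_one]
    _ = _ := by rw [e, smul_mul_assoc, ev_mul, ph, add_comm u]

lemma ph_add_pi (u : ℝ) : ph a b (u + π) = ph a b u + π := by
  have e : ev (-(u + π)) = -ev (-u) := by
    apply Complex.ext <;> simp only [ev_re, ev_im, cos_neg, sin_neg, cos_add_pi, sin_add_pi,
      Complex.neg_re, Complex.neg_im]
  have e2 : nu a b (-pt a b u) = -nu a b (pt a b u) := by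
    apply Complex.ext <;> simp [nu, neg_div]
  rw [ph, ph, pt_add_pi, e, e2, neg_mul_neg]; ring

lemma hasDerivAt_ph (ha : 0 < a) (hb : 0 < b) (u : ℝ) :
    HasDerivAt (ph a b) (1 / (a * b * ‖nu a b (pt a b u)‖ ^ 2)) u := by
  have e : ph a b = fun u => u + (Complex.log ((⟨cos u / a, sin u / b⟩ : ℂ) * ⟨cos u, -sin u⟩)).im := by
    funext x
    rw [ph, Complex.log_im, nu_pt ha hb]
    congr 3
    apply Complex.ext <;> simp
  have d1 := hasDerivAt_mk ((hasDerivAt_cos u).div_const a) ((hasDerivAt_sin u).div_const b)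
  have d2 := hasDerivAt_mk (hasDerivAt_cos u) (hasDerivAt_sin u).neg
  have p := re_N_pos ha hb u
  rw [nu_pt ha hb, show ev (-u) = ⟨cos u, -sin u⟩ by apply Complex.ext <;> simp] at p
  have d3 := (d1.mul d2).clog_real (Or.inl p)
  have d4 := (hasDerivAt_id u).add (Complex.imCLM.hasFDerivAt.comp_hasDerivAt u d3)
  rw [e]
  refine d4.congr_deriv (Eq.symm ?_)
  have n0 := nu_pt_pos ha hb u
  have n1 : (⟨cos u / a, sin u / b⟩ : ℂ) ≠ 0 := by rw [← nu_pt ha hb]; exact norm_pos_iff.1 n0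
  have n2 : (⟨cos u, -sin u⟩ : ℂ) ≠ 0 := fun h => by rw [h] at p; simp at p
  simp only [Pi.mul_apply, Pi.neg_apply, Complex.imCLM_apply]
  rw [add_div, mul_div_mul_right _ _ n2, mul_div_mul_left _ _ n1, Complex.add_im, nu_pt ha hb,
    Complex.sq_norm, Complex.div_im, Complex.div_im]
  have n3 : Complex.normSq (⟨cos u, -sin u⟩ : ℂ) = 1 := by
    rw [Complex.normSq_apply]; simp only; nlinarith [sin_sq_add_cos_sq u]
  have n4 : Complex.normSq (⟨cos u / a, sin u / b⟩ : ℂ) ≠ 0 := by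
    rwa [Ne, Complex.normSq_eq_zero]
  rw [n3]
  simp only
  set N := Complex.normSq (⟨cos u / a, sin u / b⟩ : ℂ)
  field_simp
  linear_combination (-1 + a * b * N) * sin_sq_add_cos_sq u

@[fun_prop] lemma continuous_ph (ha : 0 < a) (hb : 0 < b) : Continuous (ph a b) :=
  continuous_iff_continuousAt.2 fun u => (hasDerivAt_ph ha hb u).continuousAt

lemma strictMono_ph (ha : 0 < a) (hb : 0 < b) : StrictMono (ph a b) :=
  strictMono_of_hasDerivAt_pos (hasDerivAt_ph ha hb) fun u => by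
    have := nu_pt_pos ha hb u; positivity

lemma norm_nu_pt (ha : 0 < a) (hb : 0 < b) (u : ℝ) :
    a * b * ‖nu a b (pt a b u)‖ = √((a * sin u) ^ 2 + (b * cos u) ^ 2) := by
  symm
  rw [Real.sqrt_eq_iff_mul_self_eq (by positivity) (by positivity), ← sq, mul_pow (a * b), sq_norm',
    nu_pt ha hb]
  field_simp; ring

lemma nrm_eq (ha : 0 < a) (hb : 0 < b) (u : ℝ) : nrm a b u = ev (ph a b u) := by
  have n0 := nu_pt_pos ha hb u
  apply smul_right_injective ℂ n0.ne'
  simp only
  rw [← nu_eq, nrm, ← norm_nu_pt ha hb]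
  set N := ‖nu a b (pt a b u)‖
  rw [nu_pt ha hb]
  apply Complex.ext <;> simp only [Complex.smul_re, Complex.smul_im, smul_eq_mul] <;> field_simp

lemma crv_eq (ha : 0 < a) (hb : 0 < b) (u : ℝ) :
    crv a b u = (a * b) ^ 2 * ‖nu a b (pt a b u)‖ ^ 3 := by
  rw [crv, ← norm_nu_pt ha hb]; field_simp

lemma tg_eq (ha : 0 < a) (hb : 0 < b) (u : ℝ) : tg a b (pt a b u)
    = (a * b * ‖nu a b (pt a b u)‖) • ev (ph a b u + π / 2) := by
  have e := nu_eq (a := a) (b := b) u
  set N := ‖nu a b (pt a b u)‖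
  rw [nu_pt ha hb] at e
  have e1 := congrArg Complex.re e
  have e2 := congrArg Complex.im e
  simp only [Complex.smul_re, Complex.smul_im, smul_eq_mul, ev_re, ev_im] at e1 e2
  rw [tg_pt ha hb]
  field_simp at e1 e2
  apply Complex.ext <;> simp only [Complex.smul_re, Complex.smul_im, smul_eq_mul, ev_re, ev_im,
    cos_add_pi_div_two, sin_add_pi_div_two]
  · rw [e2]; ring
  · rw [e1]; ring

lemma hasDerivAt_pt (ha : 0 < a) (hb : 0 < b) (u : ℝ) :
    HasDerivAt (pt a b) (tg a b (pt a b u)) u := by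
  rw [tg_pt ha hb]
  have := hasDerivAt_mk ((hasDerivAt_cos u).const_mul a) ((hasDerivAt_sin u).const_mul b)
  rwa [mul_neg] at this

end Pool.Agent.MP_7791e4_an
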