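import Pool.Agent.MP_7791e4_an.Nec

set_option autoImplicit false

namespace Pool.Agent.MP_7791e4_an

open Set MeasureTheory Real Metric Filter Topology Pointwise

variable {a b : ℝ}

lemma var_reparam {p q : ℂ} {γ γ' : Path p q} (hi : Function.Injective γ)
    (hi' : Function.Injective γ') (h : range γ' = range γ) :
    eVariationOn γ' univ = eVariationOn γ univ := by
  have ex : ∀ t, ∃ s, γ s = γ' t := fun t => (show γ' t ∈ range γ from h ▸ ⟨t, rfl⟩)
  choose f hf using ex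
  have e : (γ' : unitInterval → ℂ) = γ ∘ f := funext fun t => (hf t).symm
  have cf : Continuous f := (γ.continuous.isClosedEmbedding hi).isInducing.continuous_iff.2
    (e ▸ γ'.continuous)
  have f0 : f 0 = 0 := hi (by rw [hf, γ.source, γ'.source])
  have m := cf.strictMono_of_inj_boundedOrder (by rw [show f ⊥ = ⊥ from f0]; exact bot_le)
    fun s t hst => hi' (by rw [← hf, ← hf, hst])
  have su : f '' univ = univ := by
    refine eq_univ_of_forall fun s => ?_
    obtain ⟨t, ht⟩ : γ s ∈ range γ' := h ▸ ⟨s, rfl⟩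
    exact ⟨t, mem_univ _, hi (by rw [hf, ht])⟩
  rw [e, eVariationOn.comp_eq_of_monotoneOn _ _ (m.monotone.monotoneOn _), su]

lemma short_reparam {p q : ℂ} (hne : p ≠ q) {γ γ' : Path p q} (h : Shortest a b γ)
    (hi' : Function.Injective γ') (e : range γ' = range γ) : Shortest a b γ' := by
  have v := var_reparam (inj_of_simple hne h.1.1) hi' e
  refine ⟨⟨fun s t h => Or.inl (hi' h), v ▸ h.1.2.1, ?_⟩, fun δ hδ => v ▸ h.2 δ hδ⟩
  rw [e]; exact h.1.2.2

lemma var_symm {p q : ℂ} (γ : Path p q) : eVariationOn γ.symm univ = eVariationOn γ univ := by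
  have : (γ.symm : unitInterval → ℂ) = γ ∘ unitInterval.symm := rfl
  rw [this, eVariationOn.comp_eq_of_antitoneOn _ _
    (unitInterval.strictAnti_symm.antitone.antitoneOn _),
    image_univ_of_surjective unitInterval.symm_bijective.surjective]

lemma adm_symm {p q : ℂ} {γ : Path p q} (h : Admissible a b γ) : Admissible a b γ.symm := by
  refine ⟨fun s t e => ?_, (var_symm γ).symm ▸ h.2.1, ?_⟩
  · rcases h.1 _ _ e with h | ⟨h1, h2⟩ | ⟨h1, h2⟩
    · exact Or.inl (unitInterval.symm_bijective.injective h)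
    · exact Or.inr (Or.inr ⟨unitInterval.symm_eq_zero.1 h1, unitInterval.symm_eq_one.1 h2⟩)
    · exact Or.inr (Or.inl ⟨unitInterval.symm_eq_one.1 h1, unitInterval.symm_eq_zero.1 h2⟩)
  · rw [Path.symm_range]; exact h.2.2

lemma short_symm {p q : ℂ} {γ : Path p q} (h : Shortest a b γ) : Shortest a b γ.symm :=
  ⟨adm_symm h.1, fun δ hδ => by
    rw [var_symm, ← var_symm δ]; exact h.2 _ (adm_symm hδ)⟩

lemma flip_desc {p q : ℂ} {Γ : Set ℂ}
    (h : ∀ γ : Path p q, Shortest a b γ ↔ Function.Injective γ ∧ range γ = Γ) (γ : Path q p) :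
    Shortest a b γ ↔ Function.Injective γ ∧ range γ = Γ := by
  have e : Shortest a b γ ↔ Shortest a b γ.symm := ⟨short_symm, fun h => by
    simpa using short_symm h⟩
  rw [e, h, Path.symm_range]
  exact and_congr_left' (Function.Injective.of_comp_iff' γ unitInterval.symm_bijective)

lemma anti_main (hb : 0 < b) (hab : b ≤ a) (α : ℝ) {p q : ℂ} (hp : p = pt a b (α + π))
    (hq : q = pt a b α) :
    (∃ γ : Path p q, Shortest a b γ) ∧
      ∀ γ : Path p q, Shortest a b γ ↔ Function.Injective γ ∧ range γ = segment ℝ p q := by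
  have ha : 0 < a := by linarith
  have h1 : α < α + π := by linarith [pi_pos]
  have h2 : α + π < α + 2 * π := by linarith [pi_pos]
  have hne : p ≠ q := by rw [hp, hq]; exact (pt_ne ha hb h1 h2).symm
  have len : eVariationOn (Path.segment p q) univ ≤ edist p q := by
    have e1 := (lipschitzWith_lineMap (𝕜 := ℝ) p q).lipschitzOnWith.comp_eVariationOn_le
      (g := (Subtype.val : unitInterval → ℝ)) (s := univ) (mapsTo_univ _ _)
    have e2 := MonotoneOn.eVariationOn_eq (f := (Subtype.val : unitInterval → ℝ)) (s := univ)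
      (a := 0) (b := 1) (fun _ _ _ _ h => h) (mem_univ _) (mem_univ _)
    rw [univ_inter, show Icc (0:unitInterval) 1 = univ from Icc_bot_top] at e2
    refine e1.trans ?_
    rw [e2, edist_nndist]; simp
  have low : ∀ (γ : Path p q) (s : unitInterval),
      edist p (γ s) + edist (γ s) q ≤ eVariationOn γ univ := by
    intro γ s
    have e := eVariationOn.Icc_add_Icc γ (s := univ) (a := 0) (b := s) (c := 1) s.2.1 s.2.2
      (mem_univ _)
    rw [show Icc (0:unitInterval) 1 = univ from Icc_bot_top, inter_univ] at e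
    rw [← e]
    have e1 := eVariationOn.edist_le γ (s := univ ∩ Icc 0 s) (x := 0) (y := s)
      ⟨mem_univ _, le_rfl, s.2.1⟩ ⟨mem_univ _, s.2.1, le_rfl⟩
    have e2 := eVariationOn.edist_le γ (s := univ ∩ Icc s 1) (x := s) (y := 1)
      ⟨mem_univ _, le_rfl, s.2.2⟩ ⟨mem_univ _, s.2.2, le_rfl⟩
    rw [γ.source] at e1
    rw [γ.target] at e2
    exact add_le_add e1 e2
  have FS := feas_cap hb hab α (α + π)
  have sh : Shortest a b (Path.segment p q) := by
    refine ⟨admissible_of hb hab FS.cpt FS.cvx FS.sub (by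
      rw [ar_cap hb hab h1 h2, add_sub_cancel_left, sin_pi]; ring) (hp ▸ B_pt_self ha hb _)
      (hp ▸ ⟨pt_mem ha hb _, right_mem_HP _ _⟩) (u := Complex.I * (p - q)) (κ := cross (p - q) q)
      (fun z hz => ?_) (z0 := pt a b (α + 3 / 2 * π)) (B_pt_self ha hb _) (fun h => ?_) _
      (fun s t h => Or.inl (Path.segment_injective_of_ne hne h))
      (ne_top_of_le_ne_top (edist_ne_top _ _) len) ?_ ?_, fun γ _ => len.trans ?_⟩
    · rw [dot_I, ← sub_nonpos, ← cross_sub, hp, hq]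
      exact ⟨fun h => h.2, fun h => ⟨mem_ell.2 hz.le, h⟩⟩
    · exact absurd h.2 (not_le.2 (chord_pos ha hb h1 (by linarith) (by linarith)))
    · rw [Path.range_segment, FS.cpt.isClosed.frontier_eq, hp, hq]
      intro z hz
      refine ⟨FS.cvx.segment_subset ⟨pt_mem ha hb _, right_mem_HP _ _⟩
        ⟨pt_mem ha hb _, left_mem_HP _ _⟩ hz, fun hi => ?_⟩
      have h0 : cross _ _ ≤ 0 := seg_HP _ _ hz
      rw [cross_flip] at h0
      set v := pt a b (α + π) - pt a b α with hv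
      have lim : Tendsto (fun τ : ℝ => z + τ • (Complex.I * v)) (𝓝[>] 0)
          (𝓝 (z + (0:ℝ) • (Complex.I * v))) :=
        ((by fun_prop : Continuous fun τ : ℝ => z + τ • (Complex.I * v)).tendsto 0).mono_left
          nhdsWithin_le_nhds
      rw [zero_smul, add_zero] at lim
      obtain ⟨τ, t0, t1⟩ := (ev_pos.and (lim.eventually (mem_interior_iff_mem_nhds.1 hi))).exists
      have h3 : cross _ _ ≤ 0 := t1.2
      rw [← hv, add_sub_right_comm, cross_add, cross_smul, cross_I] at h3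
      have : 0 < ‖v‖ := norm_pos_iff.2 (sub_ne_zero.2 (pt_ne ha hb h1 h2).symm)
      nlinarith [mul_pos t0 (pow_pos this 2)]
    · rintro z ⟨hz, hzE⟩
      rw [Path.range_segment, hp, hq, segment_symm]
      have m := FS.cpt.isClosed.frontier_subset hz
      refine on_line ha hb (B_pt_self ha hb _) (B_pt_self ha hb _) (pt_ne ha hb h1 h2) m.1 ?_
      by_contra hc
      exact hz.2 (int_cap Subset.rfl hzE (lt_of_le_of_ne m.2 hc))
    · simpa using low γ 0
  refine ⟨⟨_, sh⟩, fun γ => ⟨fun h => ?_, fun h => short_reparam hne sh h.1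
    (by rw [h.2, Path.range_segment])⟩⟩
  refine ⟨inj_of_simple hne h.1.1, (range_eq_of_conn (Path.segment_injective_of_ne hne) ?_
    (isPreconnected_range γ.continuous) γ.source_mem_range γ.target_mem_range).symm.trans
    (Path.range_segment p q)⟩
  rintro _ ⟨s, rfl⟩
  rw [Path.range_segment, mem_segment_iff_wbtw, ← dist_add_dist_eq_iff]
  refine le_antisymm ?_ (dist_triangle _ _ _)
  have := (low γ s).trans ((h.2 _ sh.1).trans len)
  rw [edist_dist, edist_dist, edist_dist, ← ENNReal.ofReal_add dist_nonneg dist_nonneg] at this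
  exact (ENNReal.ofReal_le_ofReal_iff dist_nonneg).1 this

lemma hull_area (hb : 0 < b) (hab : b ≤ a) {α β : ℝ} (h1 : α < β) (h2 : β < α + 2 * π)
    {γ : Path (pt a b β) (pt a b α)} (h : Admissible a b γ) :
    π * a * b / 2 ≤ volume.real (hull a b α β (range γ)) := by
  obtain ⟨U, V, -, -, -, -, -, aU, sU⟩ := hull_arc hb hab h1 h2 h
  rw [← aU]
  exact measureReal_mono sU (feas_hull hb hab h1 h2 h.2.2.1).cpt.measure_lt_top.ne

lemma of_short (hb : 0 < b) (hab : b ≤ a) {α β : ℝ} (h1 : α < β) (h2 : β < α + π)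
    {γ : Path (pt a b β) (pt a b α)} (h : Shortest a b γ) :
    ∃ K, Feas a b (cap a b α β) K ∧ volume.real K = π * a * b / 2 ∧
      IsPreconnected (interior (ell a b) \ K) ∧
      (∀ L, Feas a b (cap a b α β) L → volume.real K ≤ volume.real L → per K ≤ per L) ∧
      (∀ z ∈ frontier K, z ∈ interior (ell a b) → z ∈ range γ) ∧
      ∀ z ∈ K, B a b z z = 1 → z ∈ HP (pt a b β) (pt a b α) → z ∈ range γ := by
  have ha : 0 < a := by linarith
  have h2' : β < α + 2 * π := by linarith [pi_pos]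
  obtain ⟨U, V, oU, oV, cV, dj, hUV, aU, sU⟩ := hull_arc hb hab h1 h2' h.1
  have F := feas_hull hb hab h1 h2' h.1.2.2.1
  have l := per_hull hb hab h.1.2.1
  have hA : volume.real (hull a b α β (range γ)) = π * a * b / 2 := by
    refine le_antisymm ?_ (hull_area hb hab h1 h2' h.1)
    by_contra hc
    obtain ⟨γ', g1, g2⟩ := scale_arc hb hab h1 h2 F (not_le.1 hc)
    linarith [short_le h g1]
  have nU : U.Nonempty := nonempty_of_measureReal_ne_zero (μ := volume) (by rw [aU]; positivity)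
  have eV := other_comp F.cpt F.cvx oU oV dj hUV (range_sub_hull h.1.2.2.1) sU nU (by rw [hA, aU])
  refine ⟨_, F, hA, eV ▸ cV, fun L FL hL => ?_, fun z hz hE => ?_, fun z hz e hH => ?_⟩
  · linarith [min_arc hb hab h1 h2 h FL (hA ▸ hL)]
  · by_contra hc
    have : z ∈ U ∪ V := hUV ▸ ⟨hE, hc⟩
    rcases this with h' | h'
    · exact hz.2 (interior_maximal sU oU h')
    · exact (eV ▸ h').2 (F.cpt.isClosed.frontier_subset hz)
  · refine extreme ha hb (isCompact_range γ.continuous) (range_nonempty γ) h.1.2.2.1 ?_ e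
    refine hz.elim (fun h => h.1) fun c => convex_closedConvexHull.segment_subset
      (subset_closedConvexHull γ.target_mem_range) (subset_closedConvexHull γ.source_mem_range)
      (on_line ha hb (B_pt_self ha hb _) (B_pt_self ha hb _) (pt_ne ha hb h1 h2') c.1 ?_)
    have b1 : cross _ _ ≤ 0 := c.2
    have b2 : cross _ _ ≤ 0 := hH
    rw [cross_flip] at b2
    linarith

lemma solves_cf (hb : 0 < b) (hab : b ≤ a) {α β s t : ℝ} {c : ℂ} {r θ₁ θ₂ : ℝ} (h1 : α < β)
    (h : Solves a b α β s t c r θ₁ θ₂) :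
    ∃ x y, Cf a b s t c r x y ∧ (β < t → x = ph a b t) ∧ (s < α → y = ph a b s + 2 * π) ∧
      volume.real (KK a b s t c r x y) = π * a * b / 2 ∧
      circ c r '' Icc θ₁ θ₂ = circ c r '' Icc x y := by
  have ha : 0 < a := by linarith
  obtain ⟨hs, ht, r0, xy, yx, eP, eQ, ar, T1, T2, hI, -⟩ := h
  have st : s < t := by linarith
  have ts : t < s + π := by
    by_contra hc
    have e1 := sub_sin_lt (x := 0) (y := θ₂ - θ₁) (by linarith)
    have e2 : π - sin π ≤ t - s - sin (t - s) := by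
      rcases (not_lt.1 hc).eq_or_lt with e | e
      · rw [← e, add_sub_cancel_left]
      · exact (sub_sin_lt (by linarith)).le
    rw [sin_zero, sub_zero] at e1
    rw [sin_pi] at e2
    nlinarith [mul_pos (pow_pos r0 2) e1, mul_le_mul_of_nonneg_left e2 (mul_pos ha hb).le]
  obtain ⟨n, hn⟩ := norm_angle ha hb st (by linarith [pi_pos]) r0 xy yx eP eQ
  have pn := (circ_periodic c r).int_mul n
  have C : Cf a b s t c r (θ₁ + n * (2 * π)) (θ₂ + n * (2 * π)) :=
    ⟨hb, hab, st, ts, r0, by linarith, by linarith, by rw [pn, eP], by rw [pn, eQ], fun θ hθ => by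
      rw [← pn.sub_eq]; exact hI _ ⟨by linarith [hθ.1], by linarith [hθ.2]⟩, hn⟩
  refine ⟨_, _, C, fun h => ?_, fun h => ?_, ?_, ?_⟩
  · have e := C.eP
    rw [circ_eq, T1 h, nrm_eq ha hb, sub_add_eq_add_sub, sub_eq_iff_eq_add, add_right_inj] at e
    exact ev_inj (smul_right_injective ℂ r0.ne' e)
      (abs_lt.2 ⟨by linarith [C.ord1, pi_pos], by linarith [C.gap1, pi_pos]⟩)
  · have e := C.eQ
    rw [circ_eq, T2 h, nrm_eq ha hb, sub_add_eq_add_sub, sub_eq_iff_eq_add, add_right_inj,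
      ← ev_periodic (ph a b s)] at e
    exact ev_inj (smul_right_injective ℂ r0.ne' e)
      (abs_lt.2 ⟨by linarith [C.gap2, pi_pos], by linarith [C.ord2, pi_pos]⟩)
  · rw [C.area, add_sub_add_right_eq_sub, ar]
  · rw [← image_add_const_Icc, image_image]; simp only [pn _]

theorem q1_main (hb : 0 < b) (hab : b ≤ a) {α β : ℝ} (h1 : α < β) (h2 : β < α + π) :
    ((∃ γ : Path (pt a b β) (pt a b α), Shortest a b γ) ↔
      ∃ s t c r θ₁ θ₂, Solves a b α β s t c r θ₁ θ₂) ∧
    ∀ s t c r θ₁ θ₂, Solves a b α β s t c r θ₁ θ₂ → ∀ γ : Path (pt a b β) (pt a b α),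
      Shortest a b γ ↔ Function.Injective γ ∧ range γ = chain a b α β s t c r θ₁ θ₂ := by
  have ha : 0 < a := by linarith
  have h2' : β < α + 2 * π := by linarith [pi_pos]
  have hne := (pt_ne ha hb h1 h2').symm
  have ex : ∀ s t c r θ₁ θ₂, Solves a b α β s t c r θ₁ θ₂ →
      ∃ γ : Path (pt a b β) (pt a b α), Shortest a b γ := by
    intro s t c r θ₁ θ₂ h
    obtain ⟨x, y, C, T1, T2, hA, -⟩ := solves_cf hb hab h1 h
    obtain ⟨γ, g1, g2⟩ := comp_arc hb hab h1 h2 (C.feas' h.1 h1 h.2.1) hA C.st C.ts' C.contact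
    refine ⟨γ, g1, fun γ' g' => (ENNReal.toReal_le_toReal g1.2.1 g'.2.1).1 ?_⟩
    have := C.min h.1 h.2.1 T1 T2 h.2.2.2.2.2.2.2.2.2.2.2 (feas_hull hb hab h1 h2' g'.2.2.1)
      (hA ▸ hull_area hb hab h1 h2' g')
    linarith [per_hull hb hab g'.2.1]
  have desc : ∀ s t c r θ₁ θ₂, Solves a b α β s t c r θ₁ θ₂ → ∀ γ : Path (pt a b β) (pt a b α),
      Shortest a b γ → range γ = chain a b α β s t c r θ₁ θ₂ := by
    intro s t c r θ₁ θ₂ h γ hγ
    obtain ⟨x, y, C, T1, T2, hA, ei⟩ := solves_cf hb hab h1 h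
    obtain ⟨K, F, aK, -, Min, k1, k2⟩ := of_short hb hab h1 h2 hγ
    have hs := h.1
    have ht := h.2.1
    have ts := C.ts
    obtain rfl := C.uniq hs ht T1 T2 h.2.2.2.2.2.2.2.2.2.2.2 F (by rw [hA, aK])
      (Min _ (C.feas' hs h1 ht) (by rw [hA, aK]))
    have m1 : ∀ u ∈ Icc β t, pt a b u ∈ range γ := fun u hu =>
      k2 _ (C.pt_mem' ⟨by linarith [hu.1], hu.2⟩) (B_pt_self ha hb u) (by
        rw [← pt_periodic α]
        exact pt_mem_HP ha hb (by linarith) ⟨hu.1, by linarith [hu.2, pi_pos]⟩)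
    have m2 : ∀ u ∈ Icc s α, pt a b u ∈ range γ := fun u hu =>
      k2 _ (C.pt_mem' ⟨hu.1, by linarith [hu.2]⟩) (B_pt_self ha hb u) (by
        rw [← pt_periodic α, ← pt_periodic u]
        exact pt_mem_HP ha hb (by linarith) ⟨by linarith [hu.1, pi_pos], by linarith [hu.2]⟩)
    rw [chain, ei]
    refine range_eq_of_conn (inj_of_simple hne hγ.1.1) (union_subset (union_subset ?_ ?_) ?_) ?_
      (Or.inl (Or.inl ⟨β, ⟨le_rfl, ht⟩, rfl⟩)) (Or.inr ⟨α, ⟨hs, le_rfl⟩, rfl⟩)
    · rintro _ ⟨u, hu, rfl⟩; exact m1 u hu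
    · rintro _ ⟨θ, hθ, rfl⟩
      rcases hθ.1.eq_or_lt with e | e
      · rw [← e, C.eP]; exact m1 t ⟨ht, le_rfl⟩
      rcases hθ.2.eq_or_lt with e' | e'
      · rw [e', C.eQ]; exact m2 s ⟨le_rfl, hs⟩
      refine k1 _ ?_ (C.int θ ⟨e, e'⟩)
      rw [F.cpt.isClosed.frontier_eq]
      refine ⟨C.circ_mem hθ, fun hi => ?_⟩
      have lim : Tendsto (fun τ : ℝ => circ c r θ + τ • ev θ) (𝓝[>] 0)
          (𝓝 (circ c r θ + (0:ℝ) • ev θ)) :=
        ((by fun_prop : Continuous fun τ : ℝ => circ c r θ + τ • ev θ).tendsto 0).mono_left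
          nhdsWithin_le_nhds
      rw [zero_smul, add_zero] at lim
      obtain ⟨τ, t0, t1⟩ := (ev_pos.and (lim.eventually (mem_interior_iff_mem_nhds.1 hi))).exists
      have := C.supp hθ t1
      rw [dot_add, dot_circ, dot_smul, dot_ev_ev, sub_self, cos_zero] at this
      linarith
    · rintro _ ⟨u, hu, rfl⟩; exact m2 u hu
    · have c1 : IsPreconnected (pt a b '' Icc β t) := isPreconnected_Icc.image _ (by fun_prop)
      have c2 : IsPreconnected (circ c r '' Icc x y) := isPreconnected_Icc.image _ (by fun_prop)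
      have c3 : IsPreconnected (pt a b '' Icc s α) := isPreconnected_Icc.image _ (by fun_prop)
      have c4 := IsPreconnected.union (s := pt a b '' Icc β t) (t := circ c r '' Icc x y) (pt a b t)
        ⟨t, ⟨ht, le_rfl⟩, rfl⟩ ⟨x, ⟨le_rfl, C.xy.le⟩, C.eP⟩ c1 c2
      exact IsPreconnected.union (t := pt a b '' Icc s α) (pt a b s)
        (Or.inr ⟨y, ⟨C.xy.le, le_rfl⟩, C.eQ⟩) ⟨s, ⟨le_rfl, hs⟩, rfl⟩ c4 c3
  refine ⟨⟨fun ⟨γ, hγ⟩ => ?_, fun ⟨s, t, c, r, θ₁, θ₂, h⟩ => ex s t c r θ₁ θ₂ h⟩,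
    fun s t c r θ₁ θ₂ h γ => ⟨fun hγ => ⟨inj_of_simple hne hγ.1.1, desc s t c r θ₁ θ₂ h γ hγ⟩,
      fun hγ => ?_⟩⟩
  · obtain ⟨K, F, aK, cV, Min, -, -⟩ := of_short hb hab h1 h2 hγ
    obtain ⟨s, t, c, r, x, y, C, hs, ht, rfl⟩ := nec hb hab h1 h2 F aK cV Min
    have nS : (cap a b α β).Nonempty := ⟨_, pt_mem ha hb _, left_mem_HP _ _⟩
    refine ⟨s, t, c, r, x, y, hs, ht, C.r0, C.xy, C.yx, C.eP, C.eQ, C.area ▸ aK, fun h => ?_,
      fun h => ?_, C.int, ?_⟩
    · rw [← C.eP, circ_eq, nrm_eq ha hb, ← C.tang1 hs h1 h Min, add_sub_cancel_right]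
    · rw [← C.eQ, circ_eq, nrm_eq ha hb, C.tang2 h h1 ht Min, ev_periodic, add_sub_cancel_right]
    · rintro u (hu | hu)
      · refine C.curv (isCompact_cap hb hab α β) nS F.sup Min hu.1.le hu.2 (by linarith)
          fun v hv => ?_
        rw [← pt_periodic v]
        exact C.notin h1 (by linarith [hv.1, hu.1, C.ts']) (by linarith [hv.2])
      · exact C.curv (isCompact_cap hb hab α β) nS F.sup Min (by linarith [hu.1]) hu.2 le_rfl
          fun v hv => C.notin h1 (by linarith [hv.1, hu.1]) (by linarith [hv.2, C.ts'])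
  · obtain ⟨γ0, h0⟩ := ex s t c r θ₁ θ₂ h
    exact short_reparam hne h0 hγ.1 (hγ.2.trans (desc s t c r θ₁ θ₂ h γ0 h0).symm)

lemma exists_param (ha : 0 < a) (hb : 0 < b) {p q : ℂ} (hp : B a b p p = 1) (hq : B a b q q = 1)
    (hne : p ≠ q) : ∃ α β, α < β ∧ β ≤ α + π ∧ ({p, q} : Set ℂ) = {pt a b α, pt a b β} := by
  obtain ⟨u, -, rfl⟩ := exists_pt ha hb hp 0
  obtain ⟨v, hv, rfl⟩ := exists_pt ha hb hq u
  have h := lt_of_le_of_ne hv.1 fun e => hne (by rw [e])
  rcases le_total v (u + π) with c | c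
  · exact ⟨u, v, h, c, rfl⟩
  · exact ⟨v, u + 2 * π, hv.2, by linarith, by rw [pt_periodic u, pair_comm]⟩

end Pool.Agent.MP_7791e4_an
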