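import Pool.Agent.MP_7791e4_an.Param

set_option autoImplicit false

namespace Pool.Agent.MP_7791e4_an

open Set MeasureTheory Real Metric Filter Topology Pointwise

variable {a b : ℝ}

lemma parallel {y v : ℂ} (hy : y ≠ 0) (h : cross y v = 0) : v = (dot y v / ‖y‖ ^ 2) • y := by
  have n0 : 0 < ‖y‖ ^ 2 := by have := norm_pos_iff.2 hy; positivity
  rw [sq_norm'] at n0 ⊢
  simp only [cross, dot] at h ⊢
  apply Complex.ext <;> simp only [Complex.smul_re, Complex.smul_im, smul_eq_mul] <;>
    rw [div_mul_eq_mul_div, eq_div_iff n0.ne']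
  · linear_combination (-y.im) * h
  · linear_combination (y.re) * h

/-- the midpoint of a chord. -/
noncomputable def md (a b s t : ℝ) : ℂ := (1 / 2 : ℝ) • (pt a b s + pt a b t)

noncomputable def gg (s t u : ℝ) : ℝ := 1 - (cos (u - s) + cos (u - t)) / 2

@[fun_prop] lemma continuous_gg (s t : ℝ) : Continuous (gg s t) := by unfold gg; fun_prop

lemma B_md (ha : 0 < a) (hb : 0 < b) (s t u : ℝ) :
    B a b (pt a b u) (md a b s t) = 1 - gg s t u := by
  rw [md, B_smul, B_add, B_pt ha hb, B_pt ha hb, gg]; ring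

lemma md_int (ha : 0 < a) (hb : 0 < b) {s t : ℝ} (h : s < t) (h' : t < s + 2 * π) :
    B a b (md a b s t) (md a b s t) < 1 := by
  have := B_lt_one ha hb (pt_mem ha hb s) (pt_mem ha hb t) (pt_ne ha hb h h')
  rw [md, smul_add, B_comb, B_pt_self ha hb, B_pt_self ha hb]; linarith

lemma gg_pos {s t : ℝ} (h : s < t) (h' : t < s + 2 * π) (u : ℝ) : 0 < gg s t u := by
  have h1 := md_int one_pos one_pos h h'
  have := B_lt_one one_pos one_pos (pt_mem one_pos one_pos u) (mem_ell.2 h1.le) (fun e => by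
    rw [← e, B_pt_self one_pos one_pos] at h1; exact lt_irrefl _ h1)
  rw [B_md one_pos one_pos] at this
  linarith

lemma cross_md (s t : ℝ) (z : ℂ) : cross (pt a b t - pt a b s) (z - md a b s t)
    = cross (pt a b t - pt a b s) (z - pt a b s) := by
  simp [cross, md]; ring

lemma cover (ha : 0 < a) (hb : 0 < b) {s t : ℝ} (h : s < t) (h' : t < s + 2 * π) {z : ℂ}
    (hz : z ∈ HP (pt a b s) (pt a b t)) :
    ∃ u ∈ Icc s t, ∃ ρ : ℝ, 0 ≤ ρ ∧ z = md a b s t + ρ • (pt a b u - md a b s t) := by
  have w0 : pt a b t - pt a b s ≠ 0 := sub_ne_zero.2 (pt_ne ha hb h h').symm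
  have hz' : cross (pt a b t - pt a b s) (z - md a b s t) ≤ 0 := by rw [cross_md]; exact hz
  have e1 : pt a b s - md a b s t = (-1 / 2 : ℝ) • (pt a b t - pt a b s) := by
    simp only [md, Complex.real_smul]; push_cast; ring
  have e2 : pt a b t - md a b s t = (1 / 2 : ℝ) • (pt a b t - pt a b s) := by
    simp only [md, Complex.real_smul]; push_cast; ring
  rcases hz'.eq_or_lt with c | c
  · have := parallel w0 c
    set l := dot (pt a b t - pt a b s) (z - md a b s t) / ‖pt a b t - pt a b s‖ ^ 2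
    rcases le_total 0 l with l0 | l0
    · refine ⟨t, ⟨h.le, le_rfl⟩, 2 * l, by linarith, ?_⟩
      rw [e2, smul_smul, show 2 * l * (1 / 2) = l by ring, ← this]; ring
    · refine ⟨s, ⟨le_rfl, h.le⟩, -2 * l, by linarith, ?_⟩
      rw [e1, smul_smul, show -2 * l * (-1 / 2) = l by ring, ← this]; ring
  · let F : ℝ → ℝ := fun u => cross (z - md a b s t) (pt a b u - md a b s t)
    have F1 : F s < 0 := by
      simp only [F]; rw [e1, cross_smul, cross_anti]; linarith
    have F2 : 0 < F t := by
      simp only [F]; rw [e2, cross_smul, cross_anti]; linarith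
    obtain ⟨u, hu, e⟩ := intermediate_value_Ioo h.le (f := F) (by fun_prop) ⟨F1, F2⟩
    have n := chord_neg ha hb h' hu.1 hu.2
    rw [← cross_md] at n
    have y0 : pt a b u - md a b s t ≠ 0 := fun e => by rw [e] at n; simp [cross] at n
    have := parallel y0 (v := z - md a b s t) (by rw [cross_anti]; simp only [F] at e; linarith)
    set l := dot (pt a b u - md a b s t) (z - md a b s t) / ‖pt a b u - md a b s t‖ ^ 2
    refine ⟨u, Ioo_subset_Icc_self hu, l, ?_, by rw [← this]; ring⟩
    rw [this, cross_smul] at c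
    by_contra hc
    nlinarith

lemma sector_le (ha : 0 < a) (hb : 0 < b) {s t : ℝ} (h : s < t) (h' : t < s + 2 * π) (c : ℂ)
    {X : Set ℂ} {f : ℝ → ℝ} (hf : Continuous f)
    (hX : ∀ z ∈ X, ∃ u ∈ Icc s t, ∃ ρ : ℝ, 0 ≤ ρ ∧ ρ ≤ f u ∧
      z = c + md a b s t + ρ • (pt a b u - md a b s t)) :
    volume.real X ≤ ∫ u in s..t, a * b / 2 * gg s t u * f u ^ 2 := by
  set o := md a b s t with ho
  let Φ : ℝ × ℝ → ℝ × ℝ := fun w => (c.re + o.re + w.2 * (a * cos w.1 - o.re),
    c.im + o.im + w.2 * (b * sin w.1 - o.im))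
  let Φ' : ℝ × ℝ → (ℝ × ℝ →L[ℝ] ℝ × ℝ) := fun w =>
    (Matrix.toLin (.finTwoProd ℝ) (.finTwoProd ℝ)
      !![-(w.2 * (a * sin w.1)), a * cos w.1 - o.re;
        w.2 * (b * cos w.1), b * sin w.1 - o.im]).toContinuousLinearMap
  have dΦ : ∀ w, HasFDerivAt Φ (Φ' w) w := by
    intro w
    simp only [Φ']
    rw [Matrix.toLin_finTwoProd_toContinuousLinearMap]
    refine (HasFDerivAt.prodMk (𝕜 := ℝ)
      ((hasFDerivAt_snd.mul ((((hasDerivAt_cos w.1).comp_hasFDerivAt w hasFDerivAt_fst).const_mul
        a).sub_const o.re)).const_add (c.re + o.re))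
      ((hasFDerivAt_snd.mul ((((hasDerivAt_sin w.1).comp_hasFDerivAt w hasFDerivAt_fst).const_mul
        b).sub_const o.im)).const_add (c.im + o.im))).congr_fderiv ?_
    ext <;> simp
  have det : ∀ w, (Φ' w).det = -(w.2 * (a * b * gg s t w.1)) := by
    intro w
    simp only [Φ', LinearMap.det_toContinuousLinearMap, LinearMap.det_toLin, Matrix.det_fin_two_of]
    have e := B_md ha hb s t w.1
    rw [← ho] at e
    simp only [B, pt_re, pt_im] at e
    field_simp at e
    linear_combination (-(w.2 * a * b)) * sin_sq_add_cos_sq w.1 + w.2 * e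
  let Ω : Set (ℝ × ℝ) := {w | w.1 ∈ Icc s t ∧ w.2 ∈ Icc 0 (f w.1)}
  have mΩ : MeasurableSet Ω := by
    refine (measurableSet_Icc.preimage measurable_fst).inter ?_
    exact (measurableSet_le measurable_const measurable_snd).inter
      (measurableSet_le measurable_snd (hf.measurable.comp measurable_fst))
  have h1 : volume X ≤ volume (Φ '' Ω) := by
    rw [← Complex.volume_preserving_equiv_real_prod.measure_preimage_equiv]
    apply measure_mono
    intro z hz
    obtain ⟨u, hu, ρ, r0, r1, e⟩ := hX z hz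
    refine ⟨(u, ρ), ⟨hu, r0, r1⟩, ?_⟩
    rw [e]; simp [Φ]
  have h2 := addHaar_image_le_lintegral_abs_det_fderiv volume mΩ
    (fun w _ => (dΦ w).hasFDerivWithinAt)
  have g0 := gg_pos h h'
  have h3 : ∫⁻ w in Ω, ENNReal.ofReal |(Φ' w).det|
      ≤ ∫⁻ u in Ioc s t, ENNReal.ofReal (a * b / 2 * gg s t u * f u ^ 2) := by
    simp only [det]
    rw [← lintegral_indicator mΩ, Measure.volume_eq_prod, lintegral_prod _
      (Measurable.indicator (by fun_prop) mΩ).aemeasurable, ← restrict_Ioc_eq_restrict_Icc.symm,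
      ← lintegral_indicator measurableSet_Icc]
    apply lintegral_mono
    intro u
    by_cases hu : u ∈ Icc s t
    swap
    · have : ∀ y, Ω.indicator (fun w : ℝ × ℝ => ENNReal.ofReal |-(w.2 * (a * b * gg s t w.1))|)
          (u, y) = 0 := fun y => indicator_of_notMem (fun h => hu h.1) _
      simp only [this, lintegral_zero]
      exact bot_le
    have : ∀ y, Ω.indicator (fun w : ℝ × ℝ => ENNReal.ofReal |-(w.2 * (a * b * gg s t w.1))|)
        (u, y) = (Icc 0 (f u)).indicator (fun y => ENNReal.ofReal (y * (a * b * gg s t u))) y := by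
      intro y
      by_cases hy : y ∈ Icc 0 (f u)
      · rw [indicator_of_mem (show (u, y) ∈ Ω from ⟨hu, hy⟩), indicator_of_mem hy, abs_neg,
          abs_of_nonneg (mul_nonneg hy.1 (by have := g0 u; positivity))]
      · rw [indicator_of_notMem (fun h => hy h.2), indicator_of_notMem hy]
    simp only [this]
    rw [indicator_of_mem hu, lintegral_indicator measurableSet_Icc]
    rcases lt_or_ge (f u) 0 with c | c
    · rw [Icc_eq_empty (not_le.2 c)]; simp
    rw [← ofReal_integral_eq_lintegral_ofReal (by apply Continuous.integrableOn_Icc; fun_prop)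
      ((ae_restrict_iff' measurableSet_Icc).2 (Eventually.of_forall fun y hy =>
        mul_nonneg hy.1 (by have := g0 u; positivity))), integral_Icc_eq_integral_Ioc,
      ← intervalIntegral.integral_of_le c, intervalIntegral.integral_mul_const, integral_id]
    apply le_of_eq; congr 1; ring
  have n0 : ∀ u, 0 ≤ a * b / 2 * gg s t u * f u ^ 2 := fun u => by have := g0 u; positivity
  rw [← ofReal_integral_eq_lintegral_ofReal
    ((by fun_prop : Continuous fun u => a * b / 2 * gg s t u * f u ^ 2).integrableOn_Icc.mono_set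
      Ioc_subset_Icc_self) (Eventually.of_forall n0), ← intervalIntegral.integral_of_le h.le] at h3
  exact ENNReal.toReal_le_of_le_ofReal (intervalIntegral.integral_nonneg h.le fun u _ => n0 u)
    (h1.trans (h2.trans h3))

lemma integral_gg (s t : ℝ) : ∫ u in s..t, gg s t u = t - s - sin (t - s) := by
  unfold gg
  rw [intervalIntegral.integral_sub (by apply Continuous.intervalIntegrable; fun_prop)
    (by apply Continuous.intervalIntegrable; fun_prop), intervalIntegral.integral_div,
    intervalIntegral.integral_add (by apply Continuous.intervalIntegrable; fun_prop)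
    (by apply Continuous.intervalIntegrable; fun_prop),
    intervalIntegral.integral_comp_sub_right (fun x => cos x),
    intervalIntegral.integral_comp_sub_right (fun x => cos x), integral_cos, integral_cos,
    show s - t = -(t - s) by ring, sin_neg]
  simp

lemma HP_shift (c P Q z : ℂ) : z ∈ HP (c + P) (c + Q) ↔ z - c ∈ HP P Q := by
  simp only [HP, mem_ofPred_eq]
  rw [show c + Q - (c + P) = Q - P by ring, show z - (c + P) = z - c - P by ring]

lemma fv (ha : 0 < a) (hb : 0 < b) {s t : ℝ} (h : s < t) (h' : t < s + 2 * π) (c : ℂ)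
    {M : Set ℂ} {D : ℝ → ℝ} (hD : Continuous D) (ε : ℝ)
    (hM : ∀ z ∈ M, ∀ u ∈ Icc s t, B a b (pt a b u) (z - c) ≤ 1 + ε * D u) :
    volume.real (M ∩ HP (c + pt a b s) (c + pt a b t)) ≤ a * b / 2 * (t - s - sin (t - s))
      + ε * (∫ u in s..t, a * b * D u) + ε ^ 2 * ∫ u in s..t, a * b / 2 * (D u ^ 2 / gg s t u) := by
  have g0 := gg_pos h h'
  have cf : Continuous fun u => (gg s t u + ε * D u) / gg s t u :=
    Continuous.div (by fun_prop) (by fun_prop) fun u => (g0 u).ne'
  have c2 : Continuous fun u => D u ^ 2 / gg s t u :=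
    Continuous.div (by fun_prop) (by fun_prop) fun u => (g0 u).ne'
  refine (sector_le ha hb h h' c cf fun z hz => ?_).trans (le_of_eq ?_)
  · obtain ⟨u, hu, ρ, r0, e⟩ := cover ha hb h h' ((HP_shift _ _ _ _).1 hz.2)
    refine ⟨u, hu, ρ, r0, ?_, by rw [add_assoc, ← e]; ring⟩
    have := hM z hz.1 u hu
    rw [e, B_add, B_smul, B_sub, B_md ha hb, B_pt_self ha hb] at this
    rw [le_div_iff₀ (g0 u)]; linarith
  · rw [← integral_gg, ← intervalIntegral.integral_const_mul, ← intervalIntegral.integral_const_mul,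
      ← intervalIntegral.integral_const_mul, ← intervalIntegral.integral_add
      (by apply Continuous.intervalIntegrable; fun_prop)
      (by apply Continuous.intervalIntegrable; fun_prop), ← intervalIntegral.integral_add
      (by apply Continuous.intervalIntegrable; fun_prop)
      (by apply Continuous.intervalIntegrable; fun_prop)]
    congr 1
    funext u
    have := (g0 u).ne'
    field_simp; ring

/-- the cap cut off by the chord from `pt s` to `pt t`. -/
def cap (a b s t : ℝ) : Set ℂ := ell a b ∩ HP (pt a b s) (pt a b t)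

lemma cap_le (ha : 0 < a) (hb : 0 < b) {s t : ℝ} (h : s < t) (h' : t < s + 2 * π) :
    volume.real (cap a b s t) ≤ a * b / 2 * (t - s - sin (t - s)) := by
  have := fv ha hb h h' 0 (M := ell a b) (D := fun _ => 0) continuous_const 0
    fun z hz u _ => by simpa using B_le_one (pt_mem ha hb u) hz
  simpa [cap] using this

lemma ar_cap (hb : 0 < b) (hab : b ≤ a) {s t : ℝ} (h : s < t) (h' : t < s + 2 * π) :
    volume.real (cap a b s t) = a * b / 2 * (t - s - sin (t - s)) := by
  have ha : 0 < a := by linarith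
  refine le_antisymm (cap_le ha hb h h') ?_
  have h1 := cap_le ha hb (s := t) (t := s + 2 * π) h' (by linarith)
  have h2 : volume.real (ell a b) ≤ volume.real (cap a b s t ∪ cap a b t (s + 2 * π)) :=
    measureReal_mono (fun z hz => by
      rcases mem_HP_or (pt a b s) (pt a b t) z with c | c
      · exact Or.inl ⟨hz, c⟩
      · exact Or.inr ⟨hz, by rwa [pt_periodic s]⟩)
      (fin_int hb hab (union_subset inter_subset_left inter_subset_left))
  have h3 := h2.trans (measureReal_union_le _ _)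
  rw [ar_ell ha hb] at h3
  rw [show s + 2 * π - t = 2 * π - (t - s) by ring, sin_two_pi_sub] at h1
  linarith

lemma isCompact_cap (hb : 0 < b) (hab : b ≤ a) (s t : ℝ) : IsCompact (cap a b s t) :=
  (isCompact_ell hb hab).inter_right (isClosed_HP _ _)

lemma convex_cap (s t : ℝ) : Convex ℝ (cap a b s t) := convex_ell.inter (convex_HP _ _)

lemma pt_mem_cap (ha : 0 < a) (hb : 0 < b) {s t u : ℝ} (h : t < s + 2 * π) (hu : u ∈ Icc s t) :
    pt a b u ∈ cap a b s t := ⟨pt_mem ha hb u, pt_mem_HP ha hb h hu⟩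

lemma cap_subset (ha : 0 < a) (hb : 0 < b) {s t : ℝ} (h : s < t) (h' : t < s + 2 * π) {K : Set ℂ}
    (cK : Convex ℝ K) (hK : ∀ u ∈ Icc s t, pt a b u ∈ K) : cap a b s t ⊆ K := by
  intro z hz
  obtain ⟨u, hu, ρ, r0, e⟩ := cover ha hb h h' hz.2
  have h1 := B_le_one (pt_mem ha hb u) hz.1
  rw [e, B_add, B_smul, B_sub, B_md ha hb, B_pt_self ha hb] at h1
  have g0 := gg_pos h h' u
  have r1 : ρ ≤ 1 := by nlinarith
  have m : md a b s t ∈ K := by
    rw [md, smul_add]
    exact cK (hK s ⟨le_rfl, h.le⟩) (hK t ⟨h.le, le_rfl⟩) (by norm_num) (by norm_num) (by norm_num)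
  rw [e]
  exact cK.add_smul_sub_mem m (hK u hu) ⟨r0, r1⟩

lemma ell_self {r : ℝ} (hr : 0 < r) : ell r r = closedBall 0 r := by
  ext z
  rw [mem_closedBall_zero_iff]
  exact ⟨norm_le_of_mem hr le_rfl, mem_of_norm_le hr le_rfl⟩

/-- the circular segment bounded by the arc from angle `x` to angle `y`. -/
def seg (c : ℂ) (r x y : ℝ) : Set ℂ := closedBall c r ∩ HP (circ c r x) (circ c r y)

lemma seg_eq {c : ℂ} {r : ℝ} (hr : 0 < r) (x y : ℝ) :
    seg c r x y = (fun z => (1:ℂ) * z + c) '' cap r r x y := by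
  ext z
  constructor
  · intro hz
    refine ⟨z - c, ⟨?_, (HP_shift _ _ _ _).1 hz.2⟩, by ring⟩
    rw [ell_self hr, mem_closedBall_zero_iff, ← dist_eq_norm]; exact hz.1
  · rintro ⟨w, hw, rfl⟩
    refine ⟨?_, (HP_shift c (pt r r x) (pt r r y) _).2 (by simpa using hw.2)⟩
    have := hw.1
    rw [ell_self hr] at this
    simpa using this

lemma ar_seg (c : ℂ) {r x y : ℝ} (hr : 0 < r) (h : x < y) (h' : y < x + 2 * π) :
    volume.real (seg c r x y) = r ^ 2 / 2 * (y - x - sin (y - x)) := by
  rw [seg_eq hr, ar_mul, ar_cap hr le_rfl h h']; simp; left; ring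

lemma isCompact_seg (c : ℂ) (r x y : ℝ) : IsCompact (seg c r x y) :=
  (isCompact_closedBall _ _).inter_right (isClosed_HP _ _)

lemma convex_seg (c : ℂ) (r x y : ℝ) : Convex ℝ (seg c r x y) :=
  (convex_closedBall _ _).inter (convex_HP _ _)

lemma norm_circ (c : ℂ) {r : ℝ} (hr : 0 ≤ r) (θ : ℝ) : ‖circ c r θ - c‖ = r := by
  rw [circ_eq, add_sub_cancel_left, norm_smul, norm_ev, mul_one, Real.norm_of_nonneg hr]

lemma circ_mem_seg (c : ℂ) {r x y θ : ℝ} (hr : 0 < r) (h : y < x + 2 * π) (hθ : θ ∈ Icc x y) :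
    circ c r θ ∈ seg c r x y := by
  rw [seg_eq hr]
  exact ⟨_, pt_mem_cap hr hr h hθ, by simp only [circ, pt]; ring⟩

lemma seg_subset (c : ℂ) {r x y : ℝ} (hr : 0 < r) (h : x < y) (h' : y < x + 2 * π) {K : Set ℂ}
    (cK : Convex ℝ K) (hK : ∀ θ ∈ Icc x y, circ c r θ ∈ K) : seg c r x y ⊆ K := by
  rw [seg_eq hr, image_subset_iff]
  refine cap_subset hr hr h h' ?_ fun u hu => ?_
  · have := cK.translate_preimage_left c
    simpa using this
  · have := hK u hu
    simp only [mem_preimage, one_mul]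
    rwa [add_comm]

lemma circ_chord_neg (c : ℂ) {r x y θ : ℝ} (hr : 0 < r) (h : y < x + 2 * π) (h1 : x < θ)
    (h2 : θ < y) : cross (circ c r y - circ c r x) (circ c r θ - circ c r x) < 0 := by
  have := chord_neg hr hr h h1 h2
  simp only [circ]
  rwa [add_sub_add_left_eq_sub, add_sub_add_left_eq_sub]

end Pool.Agent.MP_7791e4_an
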