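import Pool.Agent.MP_7791e4_an.Cf

set_option autoImplicit false

namespace Pool.Agent.MP_7791e4_an

open Set MeasureTheory Real Metric Filter Topology Pointwise

variable {a b : ℝ}

lemma crv_pos (ha : 0 < a) (hb : 0 < b) (u : ℝ) : 0 < crv a b u := by
  rw [crv_eq ha hb]; have := nu_pt_pos ha hb u; positivity

lemma continuous_crv : Continuous (crv a b) := by unfold crv; fun_prop

lemma crv_const (ha : 0 < a) (hb : 0 < b) {u1 u2 r : ℝ} (h : u1 < u2)
    (hc : ∀ u ∈ Icc u1 u2, crv a b u = r) : b = a ∧ r = a := by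
  have key : ∀ u ∈ Icc u1 u2, (a ^ 2 - b ^ 2) * (sin (u + u1) * sin (u - u1)) = 0 := by
    intro u hu
    have e := (hc u hu).trans (hc u1 ⟨le_rfl, h.le⟩).symm
    unfold crv at e
    rw [div_left_inj' (by positivity), pow_left_inj₀ (Real.sqrt_nonneg _) (Real.sqrt_nonneg _)
      three_ne_zero, Real.sqrt_inj (by positivity) (by positivity)] at e
    rw [sin_add, sin_sub]
    linear_combination e + (-b ^ 2 - (a ^ 2 - b ^ 2) * sin u1 ^ 2) * sin_sq_add_cos_sq u
      + (b ^ 2 + (a ^ 2 - b ^ 2) * sin u ^ 2) * sin_sq_add_cos_sq u1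
  have ab : b = a := by
    by_contra hne
    have n : a ^ 2 - b ^ 2 ≠ 0 := fun e => hne ((pow_left_inj₀ hb.le ha.le two_ne_zero).1
      (by linarith))
    have m1 := min_le_left (u2 - u1) 1
    have m2 := min_le_right (u2 - u1) 1
    have m3 : 0 < min (u2 - u1) 1 := lt_min (by linarith) one_pos
    set η := min (u2 - u1) 1
    have p3 := pi_gt_three
    have z : ∀ κ, 0 < κ → κ ≤ η → sin (u1 + κ + u1) = 0 := fun κ k0 k1 => by
      have := (mul_eq_zero.1 (key (u1 + κ) ⟨by linarith, by linarith⟩)).resolve_left n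
      exact (mul_eq_zero.1 this).resolve_right
        (sin_pos_of_pos_of_lt_pi (by linarith) (by linarith)).ne'
    have := sin_sub (u1 + η + u1) (u1 + η / 2 + u1)
    rw [z η m3 le_rfl, z (η / 2) (by linarith) (by linarith)] at this
    have p := sin_pos_of_pos_of_lt_pi (x := u1 + η + u1 - (u1 + η / 2 + u1)) (by linarith)
      (by linarith)
    linarith
  refine ⟨ab, ?_⟩
  rw [← hc u1 ⟨le_rfl, h.le⟩, ab, crv, show (a * sin u1) ^ 2 + (a * cos u1) ^ 2 = a ^ 2 by
    linear_combination a ^ 2 * sin_sq_add_cos_sq u1, Real.sqrt_sq ha.le]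
  field_simp

lemma ev_ph_self (ha : 0 < a) (u : ℝ) : ev (ph a a u) = ev u := by
  rw [← nrm_eq ha ha, nrm, show (a * sin u) ^ 2 + (a * cos u) ^ 2 = a ^ 2 by
    linear_combination a ^ 2 * sin_sq_add_cos_sq u, Real.sqrt_sq ha.le]
  apply Complex.ext <;> simp only [ev_re, ev_im] <;> field_simp

namespace Cf

variable {s t : ℝ} {c : ℂ} {r x y : ℝ} (C : Cf a b s t c r x y)
include C

lemma integrand_nonneg {α β : ℝ} (R : ∀ u ∈ Ioo s α ∪ Ioo β t, r ≤ crv a b u) (hs' : s ≤ α)
    (ht : β ≤ t) {L : Set ℂ} (F : Feas a b (cap a b α β) L) :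
    ∀ u ∈ Icc s t, 0 ≤ (1 - hs L (nu a b (pt a b u))) * (a * b) * (1 / r - 1 / crv a b u) := by
  have ha := C.ha; have hb := C.hb; have r0 := C.r0
  have nL : L.Nonempty := ⟨_, F.sup ⟨pt_mem ha hb _, left_mem_HP _ _⟩⟩
  have cL : Continuous fun u => hs L (nu a b (pt a b u)) :=
    (continuous_hs F.cpt nL).comp (by fun_prop)
  have cc : Continuous fun u => 1 / crv a b u :=
    continuous_const.div continuous_crv fun u => (crv_pos ha hb u).ne'
  intro u hu
  refine closure_minimal (t := {u | 0 ≤ (1 - hs L (nu a b (pt a b u))) * (a * b)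
    * (1 / r - 1 / crv a b u)}) (fun u hu => ?_) (isClosed_le continuous_const (by fun_prop))
    (closure_Ioo C.st.ne ▸ hu)
  have h1 : hs L (nu a b (pt a b u)) ≤ 1 := hs_le nL fun z hz => by
    rw [dot_nu]; exact B_le_one (pt_mem ha hb u) (F.sub hz)
  simp only [mem_ofPred_eq]
  by_cases c : u ∈ Icc α β
  · have := le_hs F.cpt (F.sup (pt_mem_cap ha hb (by linarith [C.ts']) c)) (nu a b (pt a b u))
    rw [dot_nu, B_pt_self ha hb] at this
    rw [le_antisymm h1 this]; simp
  · have : r ≤ crv a b u := R u (by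
      rcases lt_or_ge u α with h | h
      · exact Or.inl ⟨hu.1, h⟩
      · exact Or.inr ⟨not_le.1 fun h' => c ⟨h, h'⟩, hu.2⟩)
    exact mul_nonneg (mul_nonneg (by linarith) (by positivity))
      (sub_nonneg.2 (one_div_le_one_div_of_le r0 this))

lemma min {α β : ℝ} (hs' : s ≤ α) (ht : β ≤ t) (T1 : β < t → x = ph a b t)
    (T2 : s < α → y = ph a b s + 2 * π) (R : ∀ u ∈ Ioo s α ∪ Ioo β t, r ≤ crv a b u)
    {L : Set ℂ} (F : Feas a b (cap a b α β) L)
    (hA : volume.real (KK a b s t c r x y) ≤ volume.real L) : per (KK a b s t c r x y) ≤ per L := by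
  have h1 := C.suff hs' ht T1 T2 F hA
  have h2 := intervalIntegral.integral_nonneg (μ := volume) C.st.le
    (C.integrand_nonneg R hs' ht F)
  linarith

lemma uniq {α β : ℝ} (hs' : s ≤ α) (ht : β ≤ t) (T1 : β < t → x = ph a b t)
    (T2 : s < α → y = ph a b s + 2 * π) (R : ∀ u ∈ Ioo s α ∪ Ioo β t, r ≤ crv a b u)
    {L : Set ℂ} (F : Feas a b (cap a b α β) L)
    (hA : volume.real (KK a b s t c r x y) ≤ volume.real L) (hp : per L ≤ per (KK a b s t c r x y)) :
    L = KK a b s t c r x y := by
  have ha := C.ha; have hb := C.hb; have r0 := C.r0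
  have nL : L.Nonempty := ⟨_, F.sup ⟨pt_mem ha hb _, left_mem_HP _ _⟩⟩
  have cL : Continuous fun u => hs L (nu a b (pt a b u)) :=
    (continuous_hs F.cpt nL).comp (by fun_prop)
  have cc : Continuous fun u => 1 / crv a b u :=
    continuous_const.div continuous_crv fun u => (crv_pos ha hb u).ne'
  have h1 := C.suff hs' ht T1 T2 F hA
  have nn := C.integrand_nonneg R hs' ht F
  have z0 : ∀ u ∈ Icc s t, (1 - hs L (nu a b (pt a b u))) * (a * b) * (1 / r - 1 / crv a b u)
      = 0 := by
    intro u hu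
    by_contra hc
    have := intervalIntegral.integral_lt_integral_of_continuousOn_of_le_of_exists_lt C.st
      (f := fun _ => 0) continuousOn_const (by fun_prop) (fun u hu => nn u (Ioc_subset_Icc_self hu))
      ⟨u, hu, lt_of_le_of_ne (nn u hu) (Ne.symm hc)⟩
    simp only [intervalIntegral.integral_zero] at this
    linarith
  have all : ∀ u ∈ Icc s t, pt a b u ∈ L := by
    intro u hu
    by_contra hc
    have c1 : u ∉ Icc α β := fun h => hc (F.sup (pt_mem_cap ha hb (by linarith [C.ts']) h))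
    obtain ⟨z, hz, e⟩ := exists_hs F.cpt nL (nu a b (pt a b u))
    have c2 : hs L (nu a b (pt a b u)) < 1 := by
      rw [← e, dot_nu]; exact B_lt_one ha hb (pt_mem ha hb u) (F.sub hz) fun h => hc (h ▸ hz)
    obtain ⟨ε, ε0, hε⟩ := Metric.eventually_nhds_iff.1
      (cL.continuousAt.eventually_lt continuousAt_const c2)
    obtain ⟨ab, ra⟩ := crv_const ha hb (u1 := max s (u - ε / 2)) (u2 := Min.min t (u + ε / 2))
      (r := r) (by
        simp only [max_lt_iff, lt_min_iff]
        exact ⟨⟨C.st, by linarith [hu.2]⟩, by linarith [hu.1], by linarith⟩) (by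
        intro v hv
        have v1 := max_le_iff.1 hv.1
        have v2 := le_min_iff.1 hv.2
        have := z0 v ⟨v1.1, v2.1⟩
        have c3 := hε (y := v) (by rw [Real.dist_eq, abs_lt]; constructor <;> linarith [v1.2, v2.2])
        have := (mul_eq_zero.1 this).resolve_left (mul_pos (by linarith) (by positivity)).ne'
        rw [sub_eq_zero, one_div, one_div, inv_inj] at this
        exact this.symm)
    subst ab ra
    have c0 : c = 0 := by
      rcases lt_or_ge u α with h | h
      · have := C.eQ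
        rw [T2 (by linarith [hu.1]), circ_eq, ev_periodic, ev_ph_self ha, pt_circ] at this
        simpa using this
      · have := C.eP
        rw [T1 (by linarith [hu.2, not_le.1 fun h' => c1 ⟨h, h'⟩]), circ_eq, ev_ph_self ha,
          pt_circ] at this
        simpa using this
    have := mem_int.1 (C.int ((x + y) / 2) ⟨by linarith [C.xy], by linarith [C.xy]⟩)
    rw [c0, circ_eq, zero_add, ← pt_circ, B_pt_self ha ha] at this
    exact lt_irrefl _ this
  have F' : Feas a b (cap a b s t) L := ⟨F.cpt, F.cvx, cap_subset ha hb C.st C.ts' F.cvx all, F.sub⟩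
  have e1 : L ∩ HP (pt a b s) (pt a b t) = cap a b s t := subset_antisymm
    (inter_subset_inter_left _ F.sub) (subset_inter F'.sup inter_subset_right)
  have kX := F.cpt.inter_right (isClosed_HP (pt a b t) (pt a b s))
  have p1 := split_cap hb C.hab C.st C.ts' F'
  have p2 := per_union_le (isCompact_cap hb C.hab s t) (isCompact_seg c r x y)
    ⟨pt_mem ha hb _, right_mem_HP _ _⟩ ⟨pt_mem ha hb _, left_mem_HP _ _⟩ C.P_seg C.Q_seg
  have a1 := ar_union (pt_ne ha hb C.st C.ts') (isCompact_cap hb C.hab s t) kX inter_subset_right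
    inter_subset_right
  have a2 := ar_union (pt_ne ha hb C.st C.ts') (isCompact_cap hb C.hab s t) (isCompact_seg c r x y)
    inter_subset_right C.seg_HP'
  rw [← e1, inter_HP_union, e1] at a1
  have e2 := dido C.r0 C.xy C.yx kX (F.cvx.inter (convex_HP _ _))
    (by rw [C.eP, C.eQ]; exact inter_subset_right)
    (by rw [C.eP]; exact ⟨all t ⟨C.st.le, le_rfl⟩, left_mem_HP _ _⟩)
    (by rw [C.eQ]; exact ⟨all s ⟨le_rfl, C.st.le⟩, right_mem_HP _ _⟩)
    (by unfold KK at hA; linarith) (by unfold KK at hp; linarith)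
  rw [KK, ← e1, ← e2, inter_HP_union]

lemma kkt {S : Set ℂ} (kS : IsCompact S) (nS : S.Nonempty) (sS : S ⊆ KK a b s t c r x y)
    (Min : ∀ L, Feas a b S L → volume.real (KK a b s t c r x y) ≤ volume.real L →
      per (KK a b s t c r x y) ≤ per L)
    {φ1 φ2 : ℝ} (h1 : φ1 ≤ φ2) (h2 : φ2 ≤ φ1 + 2 * π) {w : ℂ} (hw : ‖w‖ = 1) {m M : ℝ} (hm : m ≤ M)
    (hF : ∀ θ ∈ Icc φ1 φ2, ∀ z ∈ KK a b s t c r x y,
      dot (ev θ) z = hs (KK a b s t c r x y) (ev θ) → z ∉ S ∧ cross w z ∈ Icc m M) :
    r * (cross w (ev φ2) - cross w (ev φ1)) ≤ M - m := by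
  have ha := C.ha; have hb := C.hb; have r0 := C.r0
  have xy := C.xy; have yx := C.yx
  have A0 : 0 < volume.real (KK a b s t c r x y) := by
    rw [C.area]
    have e1 := sub_sin_lt (x := 0) (y := t - s) (by linarith [C.st])
    have e2 := sub_sin_lt (x := 0) (y := y - x) (by linarith)
    rw [sin_zero, sub_zero] at e1 e2
    positivity
  set δ := (y - x) / 4 with hδ
  have δ0 : 0 < δ := by linarith
  have δ1 : δ < π / 2 := by linarith
  have s0 : 0 < sin δ := sin_pos_of_pos_of_lt_pi δ0 (by linarith [pi_pos])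
  have main : ∀ η : ℝ, 0 < η → η ≤ 1 → (cross w (ev φ2) - cross w (ev φ1)) * (2 * (r * sin δ))
      ≤ 2 * sin δ * (M - m) + η * (2 * sin δ + (M - m) + 1) := by
    intro η η0 η1
    have := combine nS A0 Min (x := M - m + η) (p := cross w (ev φ2) - cross w (ev φ1))
      (y := 2 * (r * sin δ)) (p' := 2 * sin δ + η) (by linarith) (by positivity) (by
        filter_upwards [cut_move C.feas.cpt C.feas.cvx kS nS sS h1 h2 hw hm hF η0] with ε
          ⟨L, l1, l2, l3, l4, l5, l6⟩
        exact ⟨L, ⟨l1, l2, l3, l4.trans C.feas.sub⟩, l5, l6⟩) (by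
        filter_upwards [add_move hb C.hab C.feas.cpt C.feas.cvx C.feas.sub (c := c)
          (θ0 := (x + y) / 2) r0 δ0 δ1 δ0
          (fun θ hθ => C.circ_mem ⟨by linarith [hθ.1], by linarith [hθ.2]⟩)
          (fun θ hθ z hz => C.supp ⟨by linarith [hθ.1], by linarith [hθ.2]⟩ hz)
          (fun θ hθ => C.int θ ⟨by linarith [hθ.1], by linarith [hθ.2]⟩) η0] with ε
          ⟨L, l1, l2, l3, l4, l5, l6⟩
        exact ⟨L, ⟨l1, l2, sS.trans l3, l4⟩, l5, l6⟩)
    nlinarith
  have := le_of_forall_small main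
  apply le_of_mul_le_mul_left _ (show 0 < 2 * sin δ by positivity)
  linarith

lemma notin {α β : ℝ} (h : α < β) {u : ℝ} (h1 : β < u) (h2 : u < α + 2 * π) :
    pt a b u ∉ cap a b α β := fun hc => absurd hc.2 (not_le.2 (chord_pos C.ha C.hb h h1 h2))

lemma tang1 {α β : ℝ} (hs' : s ≤ α) (h : α < β) (ht : β < t)
    (Min : ∀ L, Feas a b (cap a b α β) L → volume.real (KK a b s t c r x y) ≤ volume.real L →
      per (KK a b s t c r x y) ≤ per L) : x = ph a b t := by
  have ha := C.ha; have hb := C.hb; have r0 := C.r0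
  by_contra hc
  have o := lt_of_le_of_ne C.ord1 (Ne.symm hc)
  have g := C.gap1
  have := C.kkt (isCompact_cap hb C.hab α β) ⟨_, pt_mem ha hb _, left_mem_HP _ _⟩
    (C.feas' hs' h ht.le).sup Min (φ1 := ph a b t) (φ2 := (ph a b t + x) / 2) (by linarith)
    (by linarith [pi_pos]) (norm_ev (ph a b t)) (le_refl (cross (ev (ph a b t)) (pt a b t))) (by
      intro θ hθ z hz e
      have e' : z = pt a b t := by
        by_contra hne
        have b1 := ell_supp' ha hb t (C.feas.sub hz) hne
        have b2 := C.suppP hz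
        have b3 := le_hs C.feas.cpt (C.pt_mem' ⟨C.st.le, le_rfl⟩) (ev θ)
        have b4 := congrArg (fun u => dot u (z - pt a b t)) (ev_comb (ph a b t) θ x)
        simp only [smul_dot, add_dot] at b4
        have s0 := sin_pos_of_pos_of_lt_pi (x := x - ph a b t) (by linarith) (by linarith)
        have s1 := sin_pos_of_pos_of_lt_pi (x := x - θ) (by linarith [hθ.2]) (by linarith [hθ.1])
        have s2 := sin_nonneg_of_nonneg_of_le_pi (x := θ - ph a b t) (by linarith [hθ.1])
          (by linarith [hθ.2])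
        rw [← sub_neg, ← dot_sub] at b1
        rw [← e, ← sub_nonneg, ← dot_sub] at b3
        nlinarith [mul_pos s1 (neg_pos.2 b1), mul_nonneg s2 (neg_nonneg.2 b2),
          mul_nonneg s0.le b3]
      rw [e']
      exact ⟨C.notin h ht (by linarith [C.ts']), le_rfl, le_rfl⟩)
  rw [cross_self, cross_ev_ev] at this
  have s0 := sin_pos_of_pos_of_lt_pi (x := (ph a b t + x) / 2 - ph a b t) (by linarith)
    (by linarith)
  nlinarith

lemma tang2 {α β : ℝ} (hs' : s < α) (h : α < β) (ht : β ≤ t)
    (Min : ∀ L, Feas a b (cap a b α β) L → volume.real (KK a b s t c r x y) ≤ volume.real L →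
      per (KK a b s t c r x y) ≤ per L) : y = ph a b s + 2 * π := by
  have ha := C.ha; have hb := C.hb; have r0 := C.r0
  by_contra hc
  have o := lt_of_le_of_ne C.ord2 hc
  have g := C.gap2
  have := C.kkt (isCompact_cap hb C.hab α β) ⟨_, pt_mem ha hb _, left_mem_HP _ _⟩
    (C.feas' hs'.le h ht).sup Min (φ1 := (y + (ph a b s + 2 * π)) / 2) (φ2 := ph a b s + 2 * π)
    (by linarith) (by linarith [pi_pos]) (norm_ev (ph a b s + 2 * π))
    (le_refl (cross (ev (ph a b s + 2 * π)) (pt a b s))) (by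
      intro θ hθ z hz e
      have e' : z = pt a b s := by
        by_contra hne
        have b1 := ell_supp' ha hb s (C.feas.sub hz) hne
        have b2 := C.suppQ hz
        have b3 := le_hs C.feas.cpt (C.pt_mem' ⟨le_rfl, C.st.le⟩) (ev θ)
        have b4 := congrArg (fun u => dot u (z - pt a b s)) (ev_comb y θ (ph a b s + 2 * π))
        simp only [smul_dot, add_dot] at b4
        have s0 := sin_pos_of_pos_of_lt_pi (x := ph a b s + 2 * π - y) (by linarith) (by linarith)
        have s1 := sin_nonneg_of_nonneg_of_le_pi (x := ph a b s + 2 * π - θ) (by linarith [hθ.2])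
          (by linarith [hθ.1])
        have s2 := sin_pos_of_pos_of_lt_pi (x := θ - y) (by linarith [hθ.1]) (by linarith [hθ.2])
        rw [← sub_neg, ← dot_sub, ← ev_periodic] at b1
        rw [← e, ← sub_nonneg, ← dot_sub] at b3
        nlinarith [mul_pos s2 (neg_pos.2 b1), mul_nonneg s1 (neg_nonneg.2 b2),
          mul_nonneg s0.le b3]
      rw [e', ← pt_periodic s]
      exact ⟨C.notin h (by linarith [C.ts']) (by linarith), le_rfl, le_rfl⟩)
  rw [cross_self, cross_ev_ev, ← neg_sub (ph a b s + 2 * π), sin_neg] at this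
  have s0 := sin_pos_of_pos_of_lt_pi (x := ph a b s + 2 * π - (y + (ph a b s + 2 * π)) / 2)
    (by linarith) (by linarith)
  nlinarith

lemma curv {S : Set ℂ} (kS : IsCompact S) (nS : S.Nonempty) (sS : S ⊆ KK a b s t c r x y)
    (Min : ∀ L, Feas a b S L → volume.real (KK a b s t c r x y) ≤ volume.real L →
      per (KK a b s t c r x y) ≤ per L) {u0 u1 : ℝ} (h0 : s ≤ u0) (h1 : u0 < u1) (h2 : u1 ≤ t)
    (hS : ∀ u ∈ Ico u0 u1, pt a b u ∉ S) : r ≤ crv a b u0 := by
  have ha := C.ha; have hb := C.hb; have r0 := C.r0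
  have mono := (strictMono_ph ha hb).monotone
  have n0 := nu_pt_pos ha hb
  have ct : ∀ v, cross (ev (ph a b u0)) (tg a b (pt a b v))
      = a * b * ‖nu a b (pt a b v)‖ * cos (ph a b v - ph a b u0) := fun v => by
    rw [tg_eq ha hb, cross_smul, cross_ev_ev, add_sub_right_comm, sin_add_pi_div_two]
  have ev1 : ∀ᶠ κ : ℝ in 𝓝[>] 0, 0 ≤ cross (ev (ph a b u0)) (pt a b (u0 + κ))
      - r * sin (ph a b (u0 + κ) - ph a b u0) - cross (ev (ph a b u0)) (pt a b u0) := by
    filter_upwards [ev_pos, ev_lt (sub_pos.2 h1), ev_neg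
      (f := fun κ => ph a b (u0 + κ) - ph a b u0 - π / 2)
      (((continuous_ph ha hb).comp (by fun_prop)).sub continuous_const |>.sub continuous_const)
      (by simp; positivity)] with κ k0 k1 k2
    have mon : ∀ u v, u0 ≤ u → u ≤ v → v ≤ u0 + κ →
        cross (ev (ph a b u0)) (pt a b u) ≤ cross (ev (ph a b u0)) (pt a b v) := by
      intro u v a1 a2 a3
      rw [← sub_nonneg, ← cross_sub, pt_sub ha hb, cross_smul, ct]
      have b1 := sin_nonneg_of_nonneg_of_le_pi (x := (v - u) / 2) (by linarith)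
        (by linarith [C.ts, pi_pos])
      have b2 := cos_nonneg_of_mem_Icc (x := ph a b ((u + v) / 2) - ph a b u0)
        ⟨by linarith [mono (show u0 ≤ (u + v) / 2 by linarith), pi_pos],
          by linarith [mono (show (u + v) / 2 ≤ u0 + κ by linarith)]⟩
      have := n0 ((u + v) / 2)
      positivity
    have := C.kkt kS nS sS Min (φ1 := ph a b u0) (φ2 := ph a b (u0 + κ)) (mono (by linarith))
      (by linarith [pi_pos]) (norm_ev (ph a b u0)) (mon u0 (u0 + κ) le_rfl (by linarith) le_rfl) (by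
        intro θ hθ z hz e
        obtain ⟨u, hu, rfl⟩ := intermediate_value_Icc (by linarith)
          (continuous_ph ha hb).continuousOn hθ
        have e' : z = pt a b u := by
          by_contra hne
          have b1 := ell_supp' ha hb u (C.feas.sub hz) hne
          have b3 := le_hs C.feas.cpt (C.pt_mem' (u := u) ⟨by linarith [hu.1], by linarith [hu.2]⟩)
            (ev (ph a b u))
          linarith
        rw [e']
        exact ⟨hS u ⟨hu.1, by linarith [hu.2]⟩, mon _ _ le_rfl hu.1 hu.2, mon _ _ hu.1 hu.2 le_rfl⟩)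
    rw [cross_self, cross_ev_ev] at this
    linarith
  have d1 : HasDerivAt (fun u => cross (ev (ph a b u0)) (pt a b u))
      (cross (ev (ph a b u0)) (tg a b (pt a b u0))) u0 := by
    simp only [cross, tg_pt ha hb, pt_re, pt_im]
    exact ((((hasDerivAt_sin u0).const_mul b).const_mul _).sub
      (((hasDerivAt_cos u0).const_mul a).const_mul _)).congr_deriv (by ring)
  have d2 := d1.sub ((((hasDerivAt_ph ha hb u0).sub_const (ph a b u0)).sin).const_mul r)
  have := ge_of_tendsto d2.tendsto_slope_zero_right (b := 0) (by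
    filter_upwards [ev1, ev_pos] with κ h k0
    simp only [Pi.sub_apply, sub_self, sin_zero, mul_zero, sub_zero, smul_eq_mul]
    exact mul_nonneg (inv_pos.2 k0).le h)
  rw [ct, sub_self, cos_zero, mul_one, one_mul, sub_nonneg, mul_one_div,
    div_le_iff₀ (by have := n0 u0; positivity)] at this
  rw [crv_eq ha hb]
  linarith

end Cf

end Pool.Agent.MP_7791e4_an
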