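import Mathlib

set_option autoImplicit false

namespace Pool.Agent.MP_7791e4_an

open Set MeasureTheory Real Metric Filter Topology Pointwise

def dot (u z : ℂ) : ℝ := u.re * z.re + u.im * z.im

def cross (u z : ℂ) : ℝ := u.re * z.im - u.im * z.re

noncomputable def ev (θ : ℝ) : ℂ := ⟨cos θ, sin θ⟩

noncomputable def hs (K : Set ℂ) (u : ℂ) : ℝ := sSup (dot u '' K)

noncomputable def per (K : Set ℂ) : ℝ := ∫ θ in (0:ℝ)..2 * π, hs K (ev θ)

@[simp] lemma ev_re (θ : ℝ) : (ev θ).re = cos θ := rfl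
@[simp] lemma ev_im (θ : ℝ) : (ev θ).im = sin θ := rfl

lemma sq_norm' (z : ℂ) : ‖z‖ ^ 2 = z.re ^ 2 + z.im ^ 2 := by
  rw [Complex.sq_norm, Complex.normSq_apply]; ring

lemma norm_ev (θ : ℝ) : ‖ev θ‖ = 1 := by
  have h : ‖ev θ‖ ^ 2 = 1 := by rw [sq_norm']; simp
  have := norm_nonneg (ev θ)
  nlinarith

@[fun_prop] lemma continuous_ev : Continuous ev := by
  have : ev = fun θ : ℝ => ((cos θ : ℝ) : ℂ) + ((sin θ : ℝ) : ℂ) * Complex.I := by
    funext θ; apply Complex.ext <;> simp [-Complex.ofReal_cos, -Complex.ofReal_sin]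
  rw [this]; fun_prop

@[fun_prop] lemma continuous_dot {X : Type} [TopologicalSpace X] {f g : X → ℂ}
    (hf : Continuous f) (hg : Continuous g) : Continuous fun x => dot (f x) (g x) := by
  unfold dot; fun_prop

@[fun_prop] lemma continuous_cross {X : Type} [TopologicalSpace X] {f g : X → ℂ}
    (hf : Continuous f) (hg : Continuous g) : Continuous fun x => cross (f x) (g x) := by
  unfold cross; fun_prop

lemma ev_add_pi (θ : ℝ) : ev (θ + π) = -ev θ := by
  apply Complex.ext <;> simp

lemma ev_periodic : Function.Periodic ev (2 * π) := by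
  intro θ; apply Complex.ext <;> simp

lemma eq_smul_ev (z : ℂ) : z = ‖z‖ • ev (Complex.arg z) := by
  apply Complex.ext
  · simp
  · simp

lemma dot_add (u x y : ℂ) : dot u (x + y) = dot u x + dot u y := by simp [dot]; ring
lemma dot_sub (u x y : ℂ) : dot u (x - y) = dot u x - dot u y := by simp [dot]; ring
lemma dot_smul (u x : ℂ) (t : ℝ) : dot u (t • x) = t * dot u x := by simp [dot]; ring
lemma dot_neg (u x : ℂ) : dot u (-x) = -dot u x := by simp [dot]; ring
lemma neg_dot (u x : ℂ) : dot (-u) x = -dot u x := by simp [dot]; ring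
lemma add_dot (u v x : ℂ) : dot (u + v) x = dot u x + dot v x := by simp [dot]; ring
lemma sub_dot (u v x : ℂ) : dot (u - v) x = dot u x - dot v x := by simp [dot]; ring
lemma smul_dot (u x : ℂ) (t : ℝ) : dot (t • u) x = t * dot u x := by simp [dot]; ring
lemma dot_comm (u x : ℂ) : dot u x = dot x u := by simp [dot]; ring
lemma dot_self (u : ℂ) : dot u u = ‖u‖ ^ 2 := by rw [sq_norm']; simp [dot]; ring
@[simp] lemma dot_zero (u : ℂ) : dot u 0 = 0 := by simp [dot]
lemma dot_ev_ev (θ α : ℝ) : dot (ev θ) (ev α) = cos (θ - α) := by simp [dot, cos_sub]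
lemma cross_ev_ev (θ α : ℝ) : cross (ev θ) (ev α) = sin (α - θ) := by
  simp [cross, sin_sub]; ring

lemma abs_dot_le (u z : ℂ) : |dot u z| ≤ ‖u‖ * ‖z‖ := by
  apply abs_le_of_sq_le_sq _ (by positivity)
  rw [mul_pow, sq_norm', sq_norm']
  unfold dot
  nlinarith [sq_nonneg (u.re * z.im - u.im * z.re)]

lemma abs_cross_le (u z : ℂ) : |cross u z| ≤ ‖u‖ * ‖z‖ := by
  apply abs_le_of_sq_le_sq _ (by positivity)
  rw [mul_pow, sq_norm', sq_norm']
  unfold cross
  nlinarith [sq_nonneg (u.re * z.re + u.im * z.im)]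

lemma dot_le (u z : ℂ) : dot u z ≤ ‖u‖ * ‖z‖ := (le_abs_self _).trans (abs_dot_le u z)

lemma dot_ev_le (θ : ℝ) (z : ℂ) : dot (ev θ) z ≤ ‖z‖ := by
  simpa [norm_ev] using dot_le (ev θ) z

lemma abs_dot_ev_le (θ : ℝ) (z : ℂ) : |dot (ev θ) z| ≤ ‖z‖ := by
  simpa [norm_ev] using abs_dot_le (ev θ) z

lemma dot_ev_arg (z : ℂ) : dot (ev (Complex.arg z)) z = ‖z‖ := by
  conv_lhs => rw [eq_smul_ev z]
  rw [dot_smul, ← eq_smul_ev, dot_ev_ev]; simp

lemma convex_dot_le (u : ℂ) (c : ℝ) : Convex ℝ {z | dot u z ≤ c} := by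
  intro x hx y hy s t hs ht hst
  simp only [mem_ofPred_eq, dot_add, dot_smul] at *
  have : c = s * c + t * c := by rw [← add_mul, hst, one_mul]
  nlinarith [mul_le_mul_of_nonneg_left hx hs, mul_le_mul_of_nonneg_left hy ht]

lemma isClosed_dot_le (u : ℂ) (c : ℝ) : IsClosed {z | dot u z ≤ c} :=
  isClosed_le (by fun_prop) continuous_const

section support
variable {K L : Set ℂ}

lemma le_hs (hK : IsCompact K) {z : ℂ} (hz : z ∈ K) (u : ℂ) : dot u z ≤ hs K u :=
  le_csSup (hK.image (f := dot u) (by fun_prop)).bddAbove ⟨z, hz, rfl⟩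

lemma hs_le (hne : K.Nonempty) {u : ℂ} {c : ℝ} (h : ∀ z ∈ K, dot u z ≤ c) : hs K u ≤ c :=
  csSup_le (hne.image _) (by rintro _ ⟨z, hz, rfl⟩; exact h z hz)

lemma exists_hs (hK : IsCompact K) (hne : K.Nonempty) (u : ℂ) : ∃ z ∈ K, dot u z = hs K u := by
  obtain ⟨z, hz, hm⟩ := hK.exists_isMaxOn hne (f := dot u) (by fun_prop)
  exact ⟨z, hz, le_antisymm (le_hs hK hz u) (hs_le hne fun w hw => hm hw)⟩

lemma hs_mono (hL : IsCompact L) (hne : K.Nonempty) (h : K ⊆ L) (u : ℂ) : hs K u ≤ hs L u :=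
  hs_le hne fun _ hz => le_hs hL (h hz) u

lemma hs_sub_le (hK : IsCompact K) (hne : K.Nonempty) {R : ℝ} (hR : ∀ z ∈ K, ‖z‖ ≤ R) (u v : ℂ) :
    hs K u - hs K v ≤ R * ‖u - v‖ := by
  obtain ⟨z, hz, h⟩ := exists_hs hK hne u
  have h1 := le_hs hK hz v
  have h2 := dot_le (u - v) z
  rw [sub_dot] at h2
  have h3 : ‖u - v‖ * ‖z‖ ≤ ‖u - v‖ * R := mul_le_mul_of_nonneg_left (hR z hz) (norm_nonneg _)
  linarith

lemma continuous_hs (hK : IsCompact K) (hne : K.Nonempty) : Continuous (hs K) := by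
  obtain ⟨R, hR⟩ := hK.isBounded.exists_norm_le
  have hR0 : 0 ≤ R := by obtain ⟨z, hz⟩ := hne; exact (norm_nonneg z).trans (hR z hz)
  refine (LipschitzWith.of_dist_le_mul (K := ⟨R, hR0⟩) fun u v => ?_).continuous
  rw [Real.dist_eq, dist_eq_norm, abs_le]
  have h1 := hs_sub_le hK hne hR u v
  have h2 := hs_sub_le hK hne hR v u
  rw [norm_sub_rev] at h2
  constructor
  · show -(R * _) ≤ _
    linarith
  · exact h1

lemma continuous_hs_ev (hK : IsCompact K) (hne : K.Nonempty) :
    Continuous fun θ => hs K (ev θ) := (continuous_hs hK hne).comp continuous_ev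

lemma hs_add (hK : IsCompact K) (hKn : K.Nonempty) (hL : IsCompact L) (hLn : L.Nonempty) (u : ℂ) :
    hs (K + L) u = hs K u + hs L u := by
  apply le_antisymm
  · apply hs_le (hKn.add hLn)
    rintro _ ⟨x, hx, y, hy, rfl⟩
    show dot u (x + y) ≤ _
    rw [dot_add]; exact add_le_add (le_hs hK hx u) (le_hs hL hy u)
  · obtain ⟨x, hx, h1⟩ := exists_hs hK hKn u
    obtain ⟨y, hy, h2⟩ := exists_hs hL hLn u
    rw [← h1, ← h2, ← dot_add]
    exact le_hs (hK.add hL) (Set.add_mem_add hx hy) u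

lemma hs_smul (hK : IsCompact K) (hKn : K.Nonempty) {t : ℝ} (ht : 0 ≤ t) (u : ℂ) :
    hs (t • K) u = t * hs K u := by
  apply le_antisymm
  · apply hs_le (hKn.smul_set)
    rintro _ ⟨x, hx, rfl⟩
    show dot u (t • x) ≤ _
    rw [dot_smul]; exact mul_le_mul_of_nonneg_left (le_hs hK hx u) ht
  · obtain ⟨x, hx, h1⟩ := exists_hs hK hKn u
    rw [← h1, ← dot_smul]
    exact le_hs (hK.smul t) (Set.smul_mem_smul_set hx) u

lemma hs_singleton (p u : ℂ) : hs {p} u = dot u p := by simp [hs]

lemma hs_union_le (hK : IsCompact K) (hL : IsCompact L) (hne : (K ∪ L).Nonempty) (u : ℂ) :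
    hs (K ∪ L) u ≤ max (hs K u) (hs L u) := by
  apply hs_le hne
  rintro z (hz | hz)
  · exact le_max_of_le_left (le_hs hK hz u)
  · exact le_max_of_le_right (le_hs hL hz u)

lemma isCompact_cch (hK : IsCompact K) : IsCompact (closedConvexHull ℝ K) := by
  obtain ⟨R, hR⟩ := hK.isBounded.subset_closedBall 0
  exact (isCompact_closedBall (0:ℂ) R).of_isClosed_subset isClosed_closedConvexHull
    (closedConvexHull_min hR (convex_closedBall _ _) isClosed_closedBall)

lemma hs_cch (hK : IsCompact K) (hne : K.Nonempty) (u : ℂ) :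
    hs (closedConvexHull ℝ K) u = hs K u := by
  apply le_antisymm
  · apply hs_le (hne.mono subset_closedConvexHull)
    exact fun z hz => closedConvexHull_min (t := {z | dot u z ≤ hs K u})
      (fun w hw => le_hs hK hw u) (convex_dot_le _ _) (isClosed_dot_le _ _) hz
  · exact hs_mono (isCompact_cch hK) hne subset_closedConvexHull u

lemma hs_closedBall (c : ℂ) {r : ℝ} (hr : 0 ≤ r) (u : ℂ) :
    hs (closedBall c r) u = dot u c + r * ‖u‖ := by
  apply le_antisymm
  · apply hs_le (nonempty_closedBall.2 hr)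
    intro z hz
    have h1 := dot_le u (z - c)
    rw [dot_sub] at h1
    have h2 : ‖z - c‖ ≤ r := by simpa [dist_eq_norm] using hz
    nlinarith [norm_nonneg u]
  · have hm : c + r • ev (Complex.arg u) ∈ closedBall c r := by
      simp [dist_eq_norm, norm_ev, abs_of_nonneg hr]
    have := le_hs (isCompact_closedBall c r) hm u
    rw [dot_add, dot_smul, dot_comm u (ev _), dot_ev_arg] at this
    exact this

lemma integral_dot_ev (c : ℂ) : ∫ θ in (0:ℝ)..2 * π, dot (ev θ) c = 0 := by
  simp only [dot, ev_re, ev_im]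
  rw [intervalIntegral.integral_add (by apply Continuous.intervalIntegrable; fun_prop)
    (by apply Continuous.intervalIntegrable; fun_prop)]
  simp

lemma integral_shift {f : ℝ → ℝ} (hf : Function.Periodic f (2 * π)) (α : ℝ) :
    ∫ θ in (0:ℝ)..2 * π, f (θ + α) = ∫ θ in (0:ℝ)..2 * π, f θ := by
  rw [intervalIntegral.integral_comp_add_right]
  have := hf.intervalIntegral_add_eq (0 + α) 0
  rw [zero_add (2 * π)] at this
  rw [← this]; congr 1; ring

lemma integral_abs_cos : ∫ θ in (0:ℝ)..2 * π, |cos θ| = 4 := by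
  have hper : Function.Periodic (fun θ => |cos θ|) (2 * π) := fun θ => by simp
  have h0 := hper.intervalIntegral_add_eq 0 (-(π / 2))
  rw [zero_add] at h0
  rw [h0]
  have hi : ∀ x y : ℝ, IntervalIntegrable (fun θ => |cos θ|) volume x y := fun x y => by
    apply Continuous.intervalIntegrable; fun_prop
  rw [← intervalIntegral.integral_add_adjacent_intervals (hi _ (π / 2)) (hi _ _)]
  have h1 : ∫ θ in (-(π / 2))..(π / 2), |cos θ| = ∫ θ in (-(π / 2))..(π / 2), cos θ := by
    apply intervalIntegral.integral_congr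
    intro θ hθ
    rw [uIcc_of_le (by linarith [pi_pos])] at hθ
    exact abs_of_nonneg (cos_nonneg_of_mem_Icc hθ)
  have h2 : ∫ θ in (π / 2)..(-(π / 2) + 2 * π), |cos θ|
      = ∫ θ in (π / 2)..(-(π / 2) + 2 * π), -cos θ := by
    apply intervalIntegral.integral_congr
    intro θ hθ
    rw [uIcc_of_le (by linarith [pi_pos])] at hθ
    exact abs_of_nonpos (cos_nonpos_of_pi_div_two_le_of_le hθ.1 (by linarith [hθ.2]))
  rw [h1, h2]
  simp
  norm_num

lemma integral_abs_dot_ev (v : ℂ) : ∫ θ in (0:ℝ)..2 * π, |dot (ev θ) v| = 4 * ‖v‖ := by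
  have h : ∀ θ, |dot (ev θ) v| = ‖v‖ * |cos (θ + -Complex.arg v)| := fun θ => by
    conv_lhs => rw [eq_smul_ev v]
    rw [dot_smul, dot_ev_ev, abs_mul, abs_of_nonneg (norm_nonneg _), sub_eq_add_neg]
  simp only [h]
  rw [intervalIntegral.integral_const_mul,
    integral_shift (f := fun θ => |cos θ|) (fun θ => by simp), integral_abs_cos]
  ring

lemma ii_hs (hK : IsCompact K) (hne : K.Nonempty) (x y : ℝ) :
    IntervalIntegrable (fun θ => hs K (ev θ)) volume x y :=
  (continuous_hs_ev hK hne).intervalIntegrable x y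

lemma two_pi_nonneg : (0:ℝ) ≤ 2 * π := by positivity

lemma per_le (hK : IsCompact K) (hne : K.Nonempty) {f : ℝ → ℝ} (hf : Continuous f)
    (h : ∀ θ, hs K (ev θ) ≤ f θ) : per K ≤ ∫ θ in (0:ℝ)..2 * π, f θ :=
  intervalIntegral.integral_mono_on two_pi_nonneg (ii_hs hK hne _ _) (hf.intervalIntegrable _ _)
    fun θ _ => h θ

lemma le_per (hK : IsCompact K) (hne : K.Nonempty) {f : ℝ → ℝ} (hf : Continuous f)
    (h : ∀ θ, f θ ≤ hs K (ev θ)) : ∫ θ in (0:ℝ)..2 * π, f θ ≤ per K :=
  intervalIntegral.integral_mono_on two_pi_nonneg (hf.intervalIntegrable _ _) (ii_hs hK hne _ _)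
    fun θ _ => h θ

lemma per_mono (hK : IsCompact K) (hne : K.Nonempty) (hL : IsCompact L) (h : K ⊆ L) :
    per K ≤ per L :=
  per_le hK hne (continuous_hs_ev hL (hne.mono h)) fun _ => hs_mono hL hne h _

lemma per_add (hK : IsCompact K) (hKn : K.Nonempty) (hL : IsCompact L) (hLn : L.Nonempty) :
    per (K + L) = per K + per L := by
  unfold per
  simp only [hs_add hK hKn hL hLn]
  exact intervalIntegral.integral_add (ii_hs hK hKn _ _) (ii_hs hL hLn _ _)

lemma per_smul (hK : IsCompact K) (hKn : K.Nonempty) {t : ℝ} (ht : 0 ≤ t) :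
    per (t • K) = t * per K := by
  unfold per
  simp only [hs_smul hK hKn ht]
  exact intervalIntegral.integral_const_mul _ _

lemma per_singleton (p : ℂ) : per {p} = 0 := by
  unfold per; simp only [hs_singleton]; exact integral_dot_ev p

lemma per_nonneg (hK : IsCompact K) (hne : K.Nonempty) : 0 ≤ per K := by
  obtain ⟨p, hp⟩ := hne
  rw [← per_singleton p]
  exact per_mono isCompact_singleton (singleton_nonempty p) hK (singleton_subset_iff.2 hp)

lemma per_cch (hK : IsCompact K) (hne : K.Nonempty) : per (closedConvexHull ℝ K) = per K := by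
  unfold per; simp only [hs_cch hK hne]

lemma per_closedBall (c : ℂ) {r : ℝ} (hr : 0 ≤ r) : per (closedBall c r) = 2 * π * r := by
  unfold per
  simp only [hs_closedBall c hr, norm_ev]
  rw [intervalIntegral.integral_add (by apply Continuous.intervalIntegrable; fun_prop)
    (by apply Continuous.intervalIntegrable; fun_prop), integral_dot_ev]
  simp

lemma integral_max_dot (p q : ℂ) :
    ∫ θ in (0:ℝ)..2 * π, max (dot (ev θ) p) (dot (ev θ) q) = 2 * ‖p - q‖ := by
  have h : ∀ θ, max (dot (ev θ) p) (dot (ev θ) q)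
      = (1 / 2) * dot (ev θ) (p + q) + (1 / 2) * |dot (ev θ) (p - q)| := fun θ => by
    rw [dot_add, dot_sub]
    rcases le_total (dot (ev θ) p) (dot (ev θ) q) with h | h
    · rw [max_eq_right h, abs_of_nonpos (by linarith)]; ring
    · rw [max_eq_left h, abs_of_nonneg (by linarith)]; ring
  simp only [h]
  rw [intervalIntegral.integral_add (by apply Continuous.intervalIntegrable; fun_prop)
    (by apply Continuous.intervalIntegrable; fun_prop), intervalIntegral.integral_const_mul,
    intervalIntegral.integral_const_mul, integral_dot_ev, integral_abs_dot_ev]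
  ring

/-- twice the perimeter is the integral of the width. -/
lemma two_per (hK : IsCompact K) (hne : K.Nonempty) :
    ∫ θ in (0:ℝ)..2 * π, (hs K (ev θ) + hs K (-ev θ)) = 2 * per K := by
  have hc : Continuous fun θ => hs K (-ev θ) := (continuous_hs hK hne).comp continuous_ev.neg
  rw [intervalIntegral.integral_add (ii_hs hK hne _ _) (hc.intervalIntegrable _ _)]
  have := integral_shift (f := fun θ => hs K (ev θ)) (fun θ => by simp only [ev_periodic θ]) π
  simp only [ev_add_pi] at this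
  rw [this]; unfold per; ring

/-- lattice inequality for two sets sharing two points. -/
lemma per_union_le (hK : IsCompact K) (hL : IsCompact L) {p q : ℂ} (hpK : p ∈ K) (hqK : q ∈ K)
    (hpL : p ∈ L) (hqL : q ∈ L) : per (K ∪ L) ≤ per K + per L - 2 * ‖p - q‖ := by
  have hKn : K.Nonempty := ⟨p, hpK⟩
  have hLn : L.Nonempty := ⟨p, hpL⟩
  have c1 := continuous_hs_ev hK hKn
  have c2 := continuous_hs_ev hL hLn
  refine (per_le (hK.union hL) (hKn.mono subset_union_left)
    (f := fun θ => hs K (ev θ) + hs L (ev θ) - max (dot (ev θ) p) (dot (ev θ) q))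
    (by fun_prop) fun θ => ?_).trans (le_of_eq ?_)
  · refine (hs_union_le hK hL (hKn.mono subset_union_left) _).trans ?_
    have h1 : max (dot (ev θ) p) (dot (ev θ) q) ≤ hs K (ev θ) :=
      max_le (le_hs hK hpK _) (le_hs hK hqK _)
    have h2 : max (dot (ev θ) p) (dot (ev θ) q) ≤ hs L (ev θ) :=
      max_le (le_hs hL hpL _) (le_hs hL hqL _)
    apply max_le <;> linarith
  · rw [intervalIntegral.integral_sub (by apply Continuous.intervalIntegrable; fun_prop)
      (by apply Continuous.intervalIntegrable; fun_prop),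
      intervalIntegral.integral_add (c1.intervalIntegrable _ _) (c2.intervalIntegrable _ _),
      integral_max_dot]
    rfl

end support

lemma ae_dot_ne {v : ℂ} (hv : v ≠ 0) : ∀ᵐ θ : ℝ, dot (ev θ) v ≠ 0 := by
  have hc : (range fun k : ℤ => Complex.arg v + (2 * k + 1) * π / 2).Countable := countable_range _
  have h0 := hc.measure_zero (volume : Measure ℝ)
  rw [ae_iff]
  refine measure_mono_null (fun θ hθ => ?_) h0
  simp only [ne_eq, not_not, mem_ofPred_eq] at hθ
  rw [eq_smul_ev v, dot_smul, dot_ev_ev] at hθ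
  have h1 : cos (θ - Complex.arg v) = 0 := by
    rcases mul_eq_zero.1 hθ with h | h
    · exact absurd (norm_eq_zero.1 h) hv
    · exact h
  obtain ⟨k, hk⟩ := cos_eq_zero_iff.1 h1
  exact ⟨k, by simp only; linarith⟩

/-- first-order limit of a penalised maximum. -/
lemma tendsto_integral_pen {δ η g : ℝ → ℝ} (hδ : Continuous δ) (hη : Continuous η)
    (hg : Continuous g) (hδ0 : ∀ θ, 0 ≤ δ θ) (x y : ℝ) :
    Tendsto (fun t : ℝ => ∫ θ in x..y, max (η θ - δ θ / t) (g θ)) (𝓝[>] 0)
      (𝓝 (∫ θ in x..y, if δ θ = 0 then max (η θ) (g θ) else g θ)) := by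
  apply intervalIntegral.tendsto_integral_filter_of_dominated_convergence
    (fun θ => |η θ| + |g θ|)
  · exact Eventually.of_forall fun t => by
      apply Continuous.aestronglyMeasurable; fun_prop
  · filter_upwards [self_mem_nhdsWithin] with t ht
    refine Eventually.of_forall fun θ _ => ?_
    have h1 : 0 ≤ δ θ / t := div_nonneg (hδ0 θ) (le_of_lt ht)
    rw [Real.norm_eq_abs, abs_le]
    have := le_abs_self (η θ); have := neg_abs_le (g θ); have := le_abs_self (g θ)
    have := abs_nonneg (η θ); have := abs_nonneg (g θ)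
    constructor
    · exact le_max_of_le_right (by linarith)
    · exact max_le (by linarith) (by linarith)
  · apply Continuous.intervalIntegrable; fun_prop
  · refine Eventually.of_forall fun θ _ => ?_
    split_ifs with h
    · simp [h]
    · have hpos : 0 < δ θ := lt_of_le_of_ne (hδ0 θ) (Ne.symm h)
      apply tendsto_const_nhds.congr'
      have hlt : ∀ᶠ t : ℝ in 𝓝[>] 0, t < δ θ / (|η θ - g θ| + 1) :=
        nhdsWithin_le_nhds (Iio_mem_nhds (by positivity))
      filter_upwards [self_mem_nhdsWithin, hlt] with t ht ht2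
      symm
      apply max_eq_right
      have ht0 : 0 < t := ht
      rw [lt_div_iff₀ (by positivity)] at ht2
      have h3 : |η θ - g θ| + 1 ≤ δ θ / t := by
        rw [le_div_iff₀ ht0]; linarith
      have := le_abs_self (η θ - g θ)
      linarith

lemma pen_small {δ η : ℝ → ℝ} (hδ : Continuous δ) (hη : Continuous η) (hδ0 : ∀ θ, 0 ≤ δ θ)
    (h : ∀ᵐ θ : ℝ, δ θ = 0 → η θ ≤ 0) {ε : ℝ} (hε : 0 < ε) :
    ∀ᶠ t : ℝ in 𝓝[>] 0, ∫ θ in (0:ℝ)..2 * π, max (η θ - δ θ / t) 0 ≤ ε := by
  have h1 := tendsto_integral_pen (g := fun _ => 0) hδ hη continuous_const hδ0 0 (2 * π)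
  have h2 : (∫ θ in (0:ℝ)..2 * π, if δ θ = 0 then max (η θ) 0 else 0) = 0 := by
    rw [intervalIntegral.integral_congr_ae (g := fun _ => 0)]
    · simp
    · filter_upwards [h] with θ hθ _
      split_ifs with h0
      · exact max_eq_right (hθ h0)
      · rfl
  rw [h2] at h1
  exact h1.eventually (ge_mem_nhds hε)

end Pool.Agent.MP_7791e4_an
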